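import Pool.Agent.P.MP_2989a6_lc.Defs
import Pool.Agent.Lib.helper26.PTExtra

/-! Intermediate problems. -/

namespace Pool.Agent.P.MP_2989a6_lc

open Pool.Agent.Lib.helper21

/-- Tokens with binary indices. -/
def btok (a : Fm) : List (ℕ × Bn) := a.tok.map fun t => (t.1, ⟨t.2⟩)

/-- Equations `(k, a, b, c)`: `z a * z b = z c` if `k = 0`, otherwise `z a + z b = z c`. -/
abbrev Eqs := List (ℕ × ℕ × ℕ × ℕ)

/-- The defect of an equation. -/
def defect (z : ℕ → ℝ) (e : ℕ × ℕ × ℕ × ℕ) : ℝ :=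
  (if e.1 = 0 then z e.2.1 * z e.2.2.1 else z e.2.1 + z e.2.2.1) - z e.2.2.2

def SolR (E : Eqs) : Prop := ∃ z : ℕ → ℝ, z 0 = 1 ∧ ∀ e ∈ E, defect z e = 0

def SolP (E : Eqs) : Prop := ∃ z : ℕ → ℝ, z 0 = 1 ∧ (∀ i, 0 < z i) ∧ ∀ e ∈ E, defect z e = 0

/-- The four pencil coordinates of a point of the open quadrant. -/
noncomputable def val (k : ℕ) (x y : ℝ) : ℝ :=
  if k = 0 then y else if k = 1 then x else if k = 2 then (y + 1) / x else y / (x + 1)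

/-- Comparison systems `(k, i, j)`: coordinate `k` of point `i` is less than that of point `j`. -/
def CmpSat (l : List (ℕ × ℕ × ℕ)) : Prop :=
  ∃ x y : ℕ → ℝ, (∀ i, 0 < x i ∧ 0 < y i) ∧
    ∀ c ∈ l, val c.1 (x c.2.1) (y c.2.1) < val c.1 (x c.2.2) (y c.2.2)

end Pool.Agent.P.MP_2989a6_lc
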