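import Pool.Agent.P.MP_2989a6_lc.Alg

/-! From product constraints to comparison systems. -/

namespace Pool.Agent.P.MP_2989a6_lc

open Pool.Agent.Lib.helper21

/-- Product constraints `(b, a, a', c, c')`. -/
abbrev Con := Bool × ℕ × ℕ × ℕ × ℕ

/-- The shift of a constraint. -/
def sh (b : Bool) : ℝ := bif b then 0 else 1

/-- The meaning of a product constraint. -/
def Con.Holds (X : ℕ → ℝ) (w : Con) : Prop :=
  (X w.2.1 + sh w.1) * (X w.2.2.1 + sh w.1) < (X w.2.2.2.1 + sh w.1) * (X w.2.2.2.2 + sh w.1)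

def ConSat (l : List Con) : Prop := ∃ X : ℕ → ℝ, (∀ i, 0 < X i) ∧ ∀ w ∈ l, Con.Holds X w

/-- The eight comparisons of a constraint whose new points start at `p`. -/
def gad (p : ℕ) (w : Con) : List (ℕ × ℕ × ℕ) :=
  [(1, p, w.2.2.2.1), (1, w.2.1, p + 1), (1, p + 2, w.2.2.2.2), (1, w.2.2.1, p + 3),
   (0, p + 3, p), (0, p + 1, p + 2), (bif w.1 then 2 else 3, p, p + 1),
   (bif w.1 then 2 else 3, p + 2, p + 3)]

def conBd (l : List Con) : ℕ := (l.map fun w => w.2.1 + w.2.2.1 + w.2.2.2.1 + w.2.2.2.2).sum + 1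

def toCmp (l : List Con) : List (ℕ × ℕ × ℕ) :=
  (List.range l.length).flatMap fun r => gad (conBd l + 4 * r) (l.getD r (true, 0, 0, 0, 0))

theorem PT_toCmp : PT toCmp := by
  unfold toCmp conBd gad
  fun_prop

theorem val_K (b : Bool) (x y : ℝ) : val (bif b then 2 else 3) x y = (y + (1 - sh b)) / (x + sh b) := by
  cases b <;> simp [val, sh]

theorem sh_nonneg (b : Bool) : 0 ≤ sh b := by cases b <;> simp [sh]

theorem sh_le (b : Bool) : sh b ≤ 1 := by cases b <;> simp [sh]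

theorem gad_sound (e xa xb xc xd x0 x1 x2 x3 y0 y1 y2 y3 : ℝ) (he : 0 ≤ e) (he1 : e ≤ 1)
    (ha : 0 < xa) (hb : 0 < xb) (h0 : 0 < x0) (h2 : 0 < x2) (k1 : 0 < y1) (k3 : 0 < y3)
    (c1 : x0 < xc) (c2 : xa < x1) (c3 : x2 < xd) (c4 : xb < x3) (c5 : y3 < y0) (c6 : y1 < y2)
    (c7 : (y0 + (1 - e)) / (x0 + e) < (y1 + (1 - e)) / (x1 + e))
    (c8 : (y2 + (1 - e)) / (x2 + e) < (y3 + (1 - e)) / (x3 + e)) :
    (xa + e) * (xb + e) < (xc + e) * (xd + e) := by
  rw [div_lt_div_iff₀ (by linarith) (by linarith)] at c7 c8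
  have p1 : 0 < y1 + (1 - e) := by linarith
  have p3 : 0 < y3 + (1 - e) := by linarith
  have q1 : (y3 + (1 - e)) * (x1 + e) < (y1 + (1 - e)) * (x0 + e) :=
    lt_trans (mul_lt_mul_of_pos_right (by linarith) (by linarith)) c7
  have q2 : (y1 + (1 - e)) * (x3 + e) < (y3 + (1 - e)) * (x2 + e) :=
    lt_trans (mul_lt_mul_of_pos_right (by linarith) (by linarith)) c8
  have q3 := mul_lt_mul'' q1 q2 (mul_pos p3 (by linarith)).le (mul_pos p1 (by linarith)).le
  have q4 : (x1 + e) * (x3 + e) < (x0 + e) * (x2 + e) := by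
    refine lt_of_mul_lt_mul_left (a := (y1 + (1 - e)) * (y3 + (1 - e))) ?_ (mul_pos p1 p3).le
    linarith
  have q5 : (xa + e) * (xb + e) < (x1 + e) * (x3 + e) :=
    mul_lt_mul'' (by linarith) (by linarith) (by linarith) (by linarith)
  have q6 : (x0 + e) * (x2 + e) < (xc + e) * (xd + e) :=
    mul_lt_mul'' (by linarith) (by linarith) (by linarith) (by linarith)
  linarith

theorem gad_complete (e xa xb xc xd : ℝ) (he : 0 ≤ e) (he1 : e ≤ 1)
    (ha : 0 < xa) (hb : 0 < xb) (hc : 0 < xc) (hd : 0 < xd)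
    (h : (xa + e) * (xb + e) < (xc + e) * (xd + e)) :
    ∃ x y : ℕ → ℝ, (∀ i, 0 < x i ∧ 0 < y i) ∧ x 0 < xc ∧ xa < x 1 ∧ x 2 < xd ∧ xb < x 3 ∧
      y 3 < y 0 ∧ y 1 < y 2 ∧ (y 0 + (1 - e)) / (x 0 + e) < (y 1 + (1 - e)) / (x 1 + e) ∧
      (y 2 + (1 - e)) / (x 2 + e) < (y 3 + (1 - e)) / (x 3 + e) := by
  obtain ⟨A, hA1, hA2⟩ := exists_between ((lt_div_iff₀ (by linarith)).2 h)
  rw [lt_div_iff₀ (by linarith)] at hA2
  have hA : 0 < A := by linarith
  obtain ⟨B, hB1, hB2⟩ := exists_between ((lt_div_iff₀' hA).2 hA2)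
  rw [lt_div_iff₀' hA] at hB2
  have hB : 0 < B := by linarith
  obtain ⟨C, hC1, hC2⟩ := exists_between
    (max_lt ((div_lt_iff₀ (by linarith)).2 hB2) (by linarith : e < xc + e))
  have hC3 := (div_lt_iff₀ (by linarith)).1 ((le_max_left _ _).trans_lt hC1)
  have hC4 := (le_max_right _ _).trans_lt hC1
  have hC : 0 < C := by linarith
  obtain ⟨D, hD1, hD2⟩ := exists_between
    (max_lt ((div_lt_iff₀' hC).2 hC3) (by linarith : e < xd + e))
  have hD3 := (div_lt_iff₀' hC).1 ((le_max_left _ _).trans_lt hD1)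
  have hD4 := (le_max_right _ _).trans_lt hD1
  have hD : 0 < D := by linarith
  set W := 1 + C / A + C * D / (A * B) with hW
  have w1 : 0 < C / A := by positivity
  have w2 : 0 < C * D / (A * B) := by positivity
  have hW0 : 0 < W := by linarith
  have t1 : W * (A * B) / (C * D) < W := by
    rw [div_lt_iff₀ (by positivity)]
    exact mul_lt_mul_of_pos_left hD3 hW0
  obtain ⟨v3, g1, g2⟩ := exists_between t1
  have t2 : W * A / C < v3 * D / B := by
    rw [div_lt_iff₀ (by positivity)] at g1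
    rw [div_lt_div_iff₀ hC hB]
    linarith
  obtain ⟨v2, g3, g4⟩ := exists_between t2
  obtain ⟨v1, g5, g6⟩ := exists_between g3
  have u1 : 1 < W * (A * B) / (C * D) := by
    rw [lt_div_iff₀ (by positivity)]
    have : C * D / (A * B) * (A * B) = C * D := by field_simp
    have h2 : C * D / (A * B) * (A * B) < W * (A * B) :=
      mul_lt_mul_of_pos_right (by linarith) (by positivity)
    linarith
  have u2 : 1 < W * A / C := by
    rw [lt_div_iff₀ hC]
    have : C / A * A = C := by field_simp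
    have h2 : C / A * A < W * A := mul_lt_mul_of_pos_right (by linarith) hA
    linarith
  refine ⟨fun i => if i = 0 then C - e else if i = 1 then A - e else if i = 2 then D - e else B - e,
    fun i => if i = 0 then W - (1 - e) else if i = 1 then v1 - (1 - e) else
      if i = 2 then v2 - (1 - e) else v3 - (1 - e), fun i => ⟨?_, ?_⟩, ?_⟩
  · dsimp only
    split_ifs <;> linarith
  · dsimp only
    split_ifs <;> linarith
  · norm_num
    refine ⟨by linarith, by linarith, by linarith, by linarith, g2, g6, ?_, ?_⟩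
    · rw [div_lt_iff₀ hC] at g5
      rw [div_lt_div_iff₀ hC hA]
      exact g5
    · rw [lt_div_iff₀ hB] at g4
      rw [div_lt_div_iff₀ hD hB]
      exact g4

theorem toCmp_sound (l : List Con) (h : CmpSat (toCmp l)) : ConSat l := by
  obtain ⟨x, y, hp, h⟩ := h
  refine ⟨x, fun i => (hp i).1, fun w hw => ?_⟩
  obtain ⟨r, hr, rfl⟩ := List.getElem_of_mem hw
  have hm : ∀ c ∈ gad (conBd l + 4 * r) l[r], c ∈ toCmp l := fun c hc =>
    List.mem_flatMap.2 ⟨r, List.mem_range.2 hr, by rwa [List.getD_eq_getElem _ _ hr]⟩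
  have h' : ∀ c ∈ gad (conBd l + 4 * r) l[r],
      val c.1 (x c.2.1) (y c.2.1) < val c.1 (x c.2.2) (y c.2.2) := fun c hc => h c (hm c hc)
  simp only [gad, List.forall_mem_cons, val_K] at h'
  obtain ⟨c1, c2, c3, c4, c5, c6, c7, c8, -⟩ := h'
  simp only [val, one_ne_zero, if_false, if_true] at c1 c2 c3 c4 c5 c6
  exact gad_sound _ _ _ _ _ _ _ _ _ _ _ _ _ (sh_nonneg _) (sh_le _) (hp _).1 (hp _).1 (hp _).1
    (hp _).1 (hp _).2 (hp _).2 c1 c2 c3 c4 c5 c6 c7 c8

theorem toCmp_complete (l : List Con) (h : ConSat l) : CmpSat (toCmp l) := by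
  obtain ⟨X, hX, h⟩ := h
  have key : ∀ w : Con, ∃ x y : ℕ → ℝ, (∀ i, 0 < x i ∧ 0 < y i) ∧ (Con.Holds X w →
      x 0 < X w.2.2.2.1 ∧ X w.2.1 < x 1 ∧ x 2 < X w.2.2.2.2 ∧ X w.2.2.1 < x 3 ∧
      y 3 < y 0 ∧ y 1 < y 2 ∧
      (y 0 + (1 - sh w.1)) / (x 0 + sh w.1) < (y 1 + (1 - sh w.1)) / (x 1 + sh w.1) ∧
      (y 2 + (1 - sh w.1)) / (x 2 + sh w.1) < (y 3 + (1 - sh w.1)) / (x 3 + sh w.1)) := by
    intro w
    by_cases hw : Con.Holds X w
    · obtain ⟨x, y, h1, h2⟩ := gad_complete _ _ _ _ _ (sh_nonneg w.1) (sh_le w.1) (hX _) (hX _)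
        (hX _) (hX _) hw
      exact ⟨x, y, h1, fun _ => h2⟩
    · exact ⟨fun _ => 1, fun _ => 1, fun _ => ⟨one_pos, one_pos⟩, fun h => absurd h hw⟩
  choose fx fy hpos hf using key
  set V := conBd l with hV
  let gx : ℕ → ℝ := fun n => if n < V then X n else
    fx (l.getD ((n - V) / 4) (true, 0, 0, 0, 0)) ((n - V) % 4)
  let gy : ℕ → ℝ := fun n => fy (l.getD ((n - V) / 4) (true, 0, 0, 0, 0)) ((n - V) % 4)
  refine ⟨gx, gy, fun i => ⟨?_, (hpos _ _).2⟩, fun c hc => ?_⟩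
  · simp only [gx]
    split_ifs
    · exact hX i
    · exact (hpos _ _).1
  obtain ⟨r, hr, hc⟩ := List.mem_flatMap.1 hc
  rw [List.mem_range] at hr
  set w := l.getD r (true, 0, 0, 0, 0) with hw
  have hwl : w ∈ l := by rw [hw, List.getD_eq_getElem _ _ hr]; exact List.getElem_mem hr
  have hb : w.2.1 + w.2.2.1 + w.2.2.2.1 + w.2.2.2.2 < V :=
    Nat.lt_succ_of_le (List.single_le_sum (fun _ _ => Nat.zero_le _) _
      (List.mem_map.2 ⟨w, hwl, rfl⟩))
  have ex : ∀ j < 4, gx (V + 4 * r + j) = fx w j := by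
    intro j hj
    simp only [gx]
    rw [if_neg (by omega), show (V + 4 * r + j - V) / 4 = r by omega,
      show (V + 4 * r + j - V) % 4 = j by omega]
  have ey : ∀ j < 4, gy (V + 4 * r + j) = fy w j := by
    intro j hj
    simp only [gy]
    rw [show (V + 4 * r + j - V) / 4 = r by omega, show (V + 4 * r + j - V) % 4 = j by omega]
  have e0 : ∀ n < V, gx n = X n := fun n hn => if_pos hn
  have x0 : gx (V + 4 * r) = fx w 0 := ex 0 (by omega)
  have y0 : gy (V + 4 * r) = fy w 0 := ey 0 (by omega)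
  obtain ⟨c1, c2, c3, c4, c5, c6, c7, c8⟩ := hf w (h w hwl)
  suffices H : ∀ c ∈ gad (V + 4 * r) w,
      val c.1 (gx c.2.1) (gy c.2.1) < val c.1 (gx c.2.2) (gy c.2.2) from H c hc
  simp only [gad, List.forall_mem_cons, val_K]
  simp only [val, one_ne_zero, if_false, if_true, x0, y0, ex 1 (by omega), ex 2 (by omega),
    ex 3 (by omega), ey 1 (by omega), ey 2 (by omega), ey 3 (by omega), e0 w.2.1 (by omega),
    e0 w.2.2.1 (by omega), e0 w.2.2.2.1 (by omega), e0 w.2.2.2.2 (by omega)]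
  exact ⟨c1, c2, c3, c4, c5, c6, c7, c8, by simp⟩

end Pool.Agent.P.MP_2989a6_lc
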