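import Pool.Agent.P.MP_2989a6_lc.Sep
import Pool.Agent.P.MP_2989a6_lc.CmpGad

/-! From systems of equations to comparison systems. -/

namespace Pool.Agent.P.MP_2989a6_lc

open Pool.Agent.Lib.helper21

/-- A bound for the indices of a system. -/
def eqBd (E : Eqs) : ℕ := (E.map fun e => e.2.1 + e.2.2.1 + e.2.2.2).sum + 1

/-- The two constraints of an equation; `t` is the index of the small parameter. -/
def eqCon (t : ℕ) (e : ℕ × ℕ × ℕ × ℕ) : List Con :=
  bif decide (e.1 = 0) then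
    [(true, 8 + 2 * e.2.2.2, 4, 8 + 2 * e.2.1, 8 + 2 * e.2.2.1),
     (true, 8 + 2 * e.2.1, 8 + 2 * e.2.2.1, 8 + 2 * e.2.2.2, 5)]
  else
    [(false, 8 + 2 * e.2.1, 8 + 2 * e.2.2.1, 8 + 2 * e.2.2.2, t),
     (false, 8 + 2 * e.2.2.2, 7, 8 + 2 * e.2.1, 8 + 2 * e.2.2.1)]

/-- The constraints that do not depend on the equations. -/
def baseCon (t : ℕ) : List Con :=
  [(true, 0, 0, 1, 1), (true, 2, 0, 1, 1), (false, 1, 1, 0, 3), (false, 3, 1, 2, 0),
   (true, 4, 4, 8, 8), (true, 8, 8, 5, 5), (false, 5, 7, 4, t), (true, 1, 4, 0, 6),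
   (true, 9, 6, 4, 4), (true, 6, 6, t, 0)]

def toCon (N k : ℕ) (E : Eqs) : List Con :=
  baseCon (9 + 2 * k) ++
  ((List.range k).map fun j => ((true, 9 + 2 * (j + 1), 4, 9 + 2 * j, 9 + 2 * j) : Con)) ++
  ((List.range N).map fun i => ((true, 8 + 2 * i, 8 + 2 * i, 6, 6) : Con)) ++
  E.flatMap fun e => eqCon (9 + 2 * k) e

theorem PT_toCon (c : ℕ) : PT fun E : Eqs => toCon (eqBd E) (c * (eqBd E + E.length + 1) + 2) E := by
  unfold toCon baseCon eqCon eqBd
  fun_prop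

theorem eqBd_spec (E : Eqs) : ∀ e ∈ E, e.2.1 < eqBd E ∧ e.2.2.1 < eqBd E ∧ e.2.2.2 < eqBd E := by
  intro e he
  have : e.2.1 + e.2.2.1 + e.2.2.2 < eqBd E :=
    Nat.lt_succ_of_le (List.single_le_sum (fun _ _ => Nat.zero_le _) _
      (List.mem_map.2 ⟨e, he, rfl⟩))
  omega

theorem conSat_iff (N k : ℕ) (E : Eqs) (X : ℕ → ℝ) : (∀ w ∈ toCon N k E, Con.Holds X w) ↔
    (X 0 * X 0 < X 1 * X 1 ∧ X 2 * X 0 < X 1 * X 1 ∧
      (X 1 + 1) * (X 1 + 1) < (X 0 + 1) * (X 3 + 1) ∧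
      (X 3 + 1) * (X 1 + 1) < (X 2 + 1) * (X 0 + 1) ∧ X 4 * X 4 < X 8 * X 8 ∧
      X 8 * X 8 < X 5 * X 5 ∧ (X 5 + 1) * (X 7 + 1) < (X 4 + 1) * (X (9 + 2 * k) + 1) ∧
      X 1 * X 4 < X 0 * X 6 ∧ X 9 * X 6 < X 4 * X 4 ∧ X 6 * X 6 < X (9 + 2 * k) * X 0) ∧
    (∀ j < k, X (9 + 2 * (j + 1)) * X 4 < X (9 + 2 * j) * X (9 + 2 * j)) ∧
    (∀ i < N, X (8 + 2 * i) * X (8 + 2 * i) < X 6 * X 6) ∧
    ∀ e ∈ E, (e.1 = 0 →
      X (8 + 2 * e.2.2.2) * X 4 < X (8 + 2 * e.2.1) * X (8 + 2 * e.2.2.1) ∧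
      X (8 + 2 * e.2.1) * X (8 + 2 * e.2.2.1) < X (8 + 2 * e.2.2.2) * X 5) ∧ (e.1 ≠ 0 →
      (X (8 + 2 * e.2.1) + 1) * (X (8 + 2 * e.2.2.1) + 1)
        < (X (8 + 2 * e.2.2.2) + 1) * (X (9 + 2 * k) + 1) ∧
      (X (8 + 2 * e.2.2.2) + 1) * (X 7 + 1)
        < (X (8 + 2 * e.2.1) + 1) * (X (8 + 2 * e.2.2.1) + 1)) := by
  simp only [toCon, List.forall_mem_append, List.forall_mem_map, List.mem_range,
    List.forall_mem_flatMap, and_assoc]
  have h : ∀ e : ℕ × ℕ × ℕ × ℕ, (∀ w ∈ eqCon (9 + 2 * k) e, Con.Holds X w) ↔ (e.1 = 0 →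
      X (8 + 2 * e.2.2.2) * X 4 < X (8 + 2 * e.2.1) * X (8 + 2 * e.2.2.1) ∧
      X (8 + 2 * e.2.1) * X (8 + 2 * e.2.2.1) < X (8 + 2 * e.2.2.2) * X 5) ∧ (e.1 ≠ 0 →
      (X (8 + 2 * e.2.1) + 1) * (X (8 + 2 * e.2.2.1) + 1)
        < (X (8 + 2 * e.2.2.2) + 1) * (X (9 + 2 * k) + 1) ∧
      (X (8 + 2 * e.2.2.2) + 1) * (X 7 + 1)
        < (X (8 + 2 * e.2.1) + 1) * (X (8 + 2 * e.2.2.1) + 1)) := by
    intro e
    by_cases he : e.1 = 0 <;> simp [eqCon, he, Con.Holds, sh]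
  simp only [h]
  simp [baseCon, Con.Holds, sh, and_assoc]

theorem lt_of_sq {a b : ℝ} (hb : 0 < b) (h : a * a < b * b) : a < b :=
  lt_of_mul_self_lt_mul_self₀ hb.le h

theorem cert_sound {a0 a1 a2 mu : ℝ} (h0 : 0 < a0) (h1 : 0 < a1) (hm : 0 < mu)
    (c1 : a0 * a0 < a1 * a1) (c2 : a2 * a0 < a1 * a1)
    (c3 : (a1 + 1) * (a1 + 1) < (a0 + 1) * (mu + 1)) (c4 : (mu + 1) * (a1 + 1) < (a2 + 1) * (a0 + 1)) :
    a0 < 1 ∧ 2 * a0 < a1 := by
  have h2 := lt_of_sq h1 c1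
  have e1 : (a1 + 1) * (a1 + 1) * (a1 + 1) < (a0 + 1) * ((a2 + 1) * (a0 + 1)) := by
    have u1 := mul_lt_mul_of_pos_right c3 (by linarith : 0 < a1 + 1)
    have u2 := mul_lt_mul_of_pos_left c4 (by linarith : 0 < a0 + 1)
    linarith
  have e2 : a0 * ((a1 + 1) * (a1 + 1) * (a1 + 1)) < (a0 + 1) * (a0 + 1) * (a1 * a1 + a0) := by
    have u1 := mul_lt_mul_of_pos_left e1 h0
    have u2 := mul_lt_mul_of_pos_left c2 (by positivity : 0 < (a0 + 1) * (a0 + 1))
    linarith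
  have e3 : 0 < (a1 - a0) * (a1 - 2 * a0 - a0 * a0 - a0 * a1 - a0 * a1 * a1) := by linarith
  have e4 := (mul_pos_iff_of_pos_left (by linarith : 0 < a1 - a0)).1 e3
  have p1 : 0 < a0 * a0 := by positivity
  have p2 : 0 < a0 * a1 := by positivity
  have p3 : 0 < a0 * a1 * a1 := by positivity
  refine ⟨?_, by linarith⟩
  have : a0 * a1 < 1 * a1 := by linarith
  exact lt_of_mul_lt_mul_right this h1.le

theorem toCon_sound (N k0 : ℕ) (E : Eqs) (hE : ∀ e ∈ E, e.2.1 < N ∧ e.2.2.1 < N ∧ e.2.2.2 < N)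
    (h : ConSat (toCon N (k0 + 2) E)) : ∃ R : ℝ, 2 ≤ R ∧ ∃ z : ℕ → ℝ, (∀ i < N, |z i| ≤ R) ∧
      |z 0 - 1| * R ^ 2 ^ k0 ≤ 1 ∧ ∀ e ∈ E, |defect z e| * R ^ 2 ^ k0 ≤ 1 := by
  obtain ⟨X, hX, h⟩ := h
  obtain ⟨⟨c1, c2, c3, c4, c5, c6, c7, c8, c9, c10⟩, ht, hR, hq⟩ := (conSat_iff _ _ _ _).1 h
  obtain ⟨ha0, ha1⟩ := cert_sound (hX 0) (hX 1) (hX 3) c1 c2 c3 c4
  obtain ⟨em, hem⟩ : ∃ em, em = X 4 := ⟨_, rfl⟩
  have em0 : 0 < em := hem ▸ hX 4
  let Z : ℕ → ℝ := fun n => X n / em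
  have hZ : ∀ n, 0 < Z n := fun n => div_pos (hX n) em0
  have hXZ : ∀ n, X n = em * Z n := fun n => by simp only [Z]; field_simp
  have hZ4 : X 4 = em * 1 := by rw [mul_one, hem]
  have canc : ∀ {a b c d : ℝ}, em * a * (em * b) < em * c * (em * d) → a * b < c * d := by
    intro a b c d h
    refine lt_of_mul_lt_mul_left (a := em * em) ?_ (by positivity)
    linarith
  obtain ⟨R, hRdef⟩ : ∃ R, R = Z 6 := ⟨_, rfl⟩
  obtain ⟨ε, hε⟩ : ∃ ε, ε = Z (9 + 2 * (k0 + 2)) := ⟨_, rfl⟩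
  have ε0 : 0 < ε := hε ▸ hZ _
  have hR2 : 2 < R := by
    rw [hXZ 6, hZ4, ← hRdef] at c8
    have u1 : 2 * X 0 * em < X 1 * em := mul_lt_mul_of_pos_right ha1 em0
    have u2 : X 0 * em * 2 < X 0 * em * R := by linarith
    exact lt_of_mul_lt_mul_left u2 (mul_pos (hX 0) em0).le
  have hθ : ∀ j ≤ k0 + 2, Z (9 + 2 * j) * R ^ 2 ^ j < 1 := by
    intro j
    induction j with
    | zero =>
      intro _
      rw [hXZ 9, hXZ 6, hZ4, ← hRdef] at c9
      simpa using canc c9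
    | succ j ih =>
      intro hj
      have u1 := ht j (by omega)
      rw [hXZ (9 + 2 * (j + 1)), hXZ (9 + 2 * j), hZ4] at u1
      have u2 := canc u1
      have u3 := ih (by omega)
      have u4 : 0 < R ^ 2 ^ j := by positivity
      have u5 : 0 < Z (9 + 2 * j) * R ^ 2 ^ j := mul_pos (hZ _) u4
      rw [pow_succ, pow_mul, sq]
      have u6 := mul_lt_mul_of_pos_right u2 (mul_pos u4 u4)
      have u7 := mul_lt_mul'' u3 u3 u5.le u5.le
      linarith only [u6, u7]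
  obtain ⟨Q, hQ⟩ : ∃ Q, Q = R ^ 2 ^ k0 := ⟨_, rfl⟩
  have hQR : R ≤ Q := by
    rw [hQ]
    exact le_self_pow₀ (by linarith) (by positivity)
  have hεQ : ε * Q ^ 4 < 1 := by
    have := hθ (k0 + 2) le_rfl
    rwa [← hε, pow_add, pow_mul, ← hQ] at this
  have key : ∀ d : ℝ, |d| ≤ 2 * ε * R → |d| * Q ≤ 1 := by
    intro d hd
    have u1 : |d| * Q ≤ 2 * ε * R * Q := mul_le_mul_of_nonneg_right hd (by linarith)
    have u2 : 2 * R ≤ Q * Q := mul_le_mul (by linarith) hQR (by linarith) (by linarith)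
    have Q0 : 0 < Q := by linarith
    have u3 : Q * Q * 1 ≤ Q * Q * Q := mul_le_mul_of_nonneg_left (by linarith) (by positivity)
    have u4 : ε * Q * (2 * R) ≤ ε * Q * (Q * Q * Q) :=
      mul_le_mul_of_nonneg_left (by linarith) (by positivity)
    linarith only [u1, u4, hεQ]
  have hε1 : ε < 1 := by
    have : 1 ≤ Q ^ 4 := one_le_pow₀ (by linarith)
    have := mul_le_mul_of_nonneg_left this ε0.le
    linarith only [this, hεQ]
  have hemR : em * (R * R) < ε := by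
    rw [hXZ 6, hXZ (9 + 2 * (k0 + 2)), ← hRdef, ← hε] at c10
    have u1 : em * ε * X 0 < em * ε * 1 := mul_lt_mul_of_pos_left ha0 (by positivity)
    refine lt_of_mul_lt_mul_left (a := em) ?_ em0.le
    linarith
  have hemR1 : em * R < 1 := by
    have := mul_lt_mul_of_pos_left hR2 (mul_pos em0 (by linarith : 0 < R))
    have h2 := mul_pos em0 (by linarith : 0 < R)
    linarith only [this, h2, hemR, hε1]
  have hem1 : em < 1 := by
    have := mul_lt_mul_of_pos_left hR2 em0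
    linarith only [this, hemR1, em0]
  have hzR : ∀ i < N, Z (8 + 2 * i) < R := by
    intro i hi
    have u1 := hR i hi
    rw [hXZ (8 + 2 * i), hXZ 6, ← hRdef] at u1
    exact lt_of_sq (by linarith) (canc u1)
  have hep : Z 5 < 1 + 2 * ε := by
    rw [hXZ 5, hXZ (9 + 2 * (k0 + 2)), hZ4, ← hε] at c7
    have u1 : 0 < (em * Z 5 + 1) * X 7 := mul_pos (by have := mul_pos em0 (hZ 5); linarith) (hX 7)
    have u2 : em * ε * em < em * ε * 1 := mul_lt_mul_of_pos_left hem1 (by positivity)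
    refine lt_of_mul_lt_mul_left (a := em) ?_ em0.le
    linarith
  refine ⟨R, hR2.le, fun i => Z (8 + 2 * i), fun i hi => ?_, ?_, fun e he => ?_⟩
  · rw [abs_of_pos (hZ _)]
    exact (hzR i hi).le
  · rw [← hQ]
    apply key
    rw [hXZ 8, hZ4] at c5
    rw [hXZ 8, hXZ 5] at c6
    have u1 := lt_of_sq (hZ 8) (canc c5)
    have u2 := lt_of_sq (hZ 5) (canc c6)
    show |Z 8 - 1| ≤ _
    rw [abs_of_pos (by linarith)]
    have := mul_lt_mul_of_pos_left hR2 ε0
    linarith only [this, u2, hep, ε0]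
  · rw [← hQ]
    apply key
    obtain ⟨i1, i2, i3⟩ := hE e he
    have r1 := hzR _ i1
    have r2 := hzR _ i2
    have r3 := hzR _ i3
    have z1 := hZ (8 + 2 * e.2.1)
    have z2 := hZ (8 + 2 * e.2.2.1)
    have z3 := hZ (8 + 2 * e.2.2.2)
    obtain ⟨m1, m2⟩ := hq e he
    rw [hXZ (8 + 2 * e.2.1), hXZ (8 + 2 * e.2.2.1), hXZ (8 + 2 * e.2.2.2)] at m1 m2
    simp only [defect]
    generalize Z (8 + 2 * e.2.1) = a at *
    generalize Z (8 + 2 * e.2.2.1) = b at *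
    generalize Z (8 + 2 * e.2.2.2) = c at *
    by_cases h0 : e.1 = 0
    · obtain ⟨u1, u2⟩ := m1 h0
      rw [hZ4] at u1
      rw [hXZ 5] at u2
      have u3 := canc u1
      have u4 := canc u2
      have u5 := mul_lt_mul_of_pos_left hep z3
      have u6 := mul_lt_mul_of_pos_left r3 ε0
      rw [if_pos h0, abs_of_pos (by linarith)]
      linarith
    · obtain ⟨u1, u2⟩ := m2 h0
      rw [hXZ (9 + 2 * (k0 + 2)), ← hε] at u1
      rw [if_neg h0, abs_le]
      have v1 : a * b < R * R := mul_lt_mul'' r1 r2 z1.le z2.le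
      have v2 := mul_lt_mul_of_pos_left v1 em0
      have v3 : 0 < ε * R := by positivity
      have v4 : ε * 2 < ε * R := mul_lt_mul_of_pos_left hR2 ε0
      constructor
      · have w1 : 0 < (em * c + 1) * X 7 := mul_pos (by have := mul_pos em0 z3; linarith) (hX 7)
        have w2 : c < a + b + em * (a * b) := by
          refine lt_of_mul_lt_mul_left (a := em) ?_ em0.le
          linarith
        linarith
      · have w1 : 0 < em * em * (a * b) := by positivity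
        have w2 : a + b < c + ε + em * c * ε := by
          refine lt_of_mul_lt_mul_left (a := em) ?_ em0.le
          linarith
        have w3 : em * c < 1 := lt_trans (mul_lt_mul_of_pos_left r3 em0) hemR1
        have w4 := mul_lt_mul_of_pos_right w3 ε0
        linarith

theorem toCon_complete (N k : ℕ) (E : Eqs) (hE : ∀ e ∈ E, e.2.1 < N ∧ e.2.2.1 < N ∧ e.2.2.2 < N)
    (h : SolP E) : ConSat (toCon N k E) := by
  obtain ⟨z, hz0, hz, hd⟩ := h
  obtain ⟨R, m, hR3, hm0, hRm⟩ : ∃ R m : ℝ, 3 ≤ R ∧ 0 < m ∧ ∀ i < N, m ≤ z i ∧ z i < R := by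
    clear hE
    induction N with
    | zero => exact ⟨3, 1, le_rfl, one_pos, fun i hi => absurd hi (by omega)⟩
    | succ N ih =>
      obtain ⟨R, m, h1, h2, h3⟩ := ih
      refine ⟨max R (z N + 1), min m (z N), le_max_of_le_left h1, lt_min h2 (hz N), fun i hi => ?_⟩
      rcases Nat.lt_succ_iff_lt_or_eq.1 hi with hi | rfl
      · exact ⟨(min_le_left _ _).trans (h3 i hi).1, (h3 i hi).2.trans_le (le_max_left _ _)⟩
      · exact ⟨min_le_right _ _, lt_of_lt_of_le (by linarith) (le_max_right _ _)⟩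
  have R0 : 0 < R := by linarith
  let θ : ℕ → ℝ := fun j => (1 / (8 * R)) ^ 2 ^ j
  have θ0 : ∀ j, 0 < θ j := fun j => by positivity
  have θ1 : ∀ j, θ j ≤ 1 := fun j =>
    pow_le_one₀ (by positivity) (by rw [div_le_one (by positivity)]; linarith)
  have θs : ∀ j, θ (j + 1) = θ j * θ j := fun j => by
    simp only [θ]; rw [pow_succ, pow_mul, sq]
  have θz : θ 0 * R = 1 / 8 := by simp only [θ, pow_zero, pow_one]; field_simp
  obtain ⟨T, hT⟩ : ∃ T, T = θ k := ⟨_, rfl⟩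
  have T0 : 0 < T := hT ▸ θ0 k
  have T1 : T ≤ 1 := hT ▸ θ1 k
  obtain ⟨l, hl⟩ : ∃ l, l = T / (200 * (R * R)) := ⟨_, rfl⟩
  have l0 : 0 < l := by rw [hl]; positivity
  have lR : l * (R * R) = T / 200 := by rw [hl]; field_simp
  have lR1 : l * R ≤ 1 := by
    have := mul_le_mul_of_nonneg_left hR3 (mul_pos l0 R0).le
    have h2 := mul_pos l0 R0
    linarith only [this, h2, lR, T1]
  have l1 : l ≤ 1 := by
    have := mul_le_mul_of_nonneg_left hR3 l0.le
    linarith only [this, lR1, l0]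
  obtain ⟨tp, tp0, tp1, tp2⟩ : ∃ tp : ℝ, 0 < tp ∧ tp ≤ l * T / 12 ∧ tp ≤ l * l * (m * m) / 4 :=
    ⟨min (l * T / 12) (l * l * (m * m) / 4), lt_min (by positivity) (by positivity),
      min_le_left _ _, min_le_right _ _⟩
  let X : ℕ → ℝ := fun n => if n = 0 then 1 / 100 else if n = 1 then 3 / 100 else
    if n = 2 then 17 / 200 else if n = 3 then 11 / 200 else if n = 4 then l * (1 - T / 4) else
    if n = 5 then l * (1 + T / 4) else if n = 6 then l * R else if n = 7 then tp else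
    if n % 2 = 0 then l * z ((n - 8) / 2) else l * θ ((n - 9) / 2)
  have Xz : ∀ i, X (8 + 2 * i) = l * z i := fun i => by
    simp only [X]
    rw [if_neg (by omega), if_neg (by omega), if_neg (by omega), if_neg (by omega),
      if_neg (by omega), if_neg (by omega), if_neg (by omega), if_neg (by omega),
      if_pos (by omega), show (8 + 2 * i - 8) / 2 = i by omega]
  have Xt : ∀ i, X (9 + 2 * i) = l * θ i := fun i => by
    simp only [X]
    rw [if_neg (by omega), if_neg (by omega), if_neg (by omega), if_neg (by omega),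
      if_neg (by omega), if_neg (by omega), if_neg (by omega), if_neg (by omega),
      if_neg (by omega), show (9 + 2 * i - 9) / 2 = i by omega]
  have X0 : X 0 = 1 / 100 := rfl
  have X1 : X 1 = 3 / 100 := rfl
  have X2 : X 2 = 17 / 200 := rfl
  have X3 : X 3 = 11 / 200 := rfl
  have X4 : X 4 = l * (1 - T / 4) := rfl
  have X5 : X 5 = l * (1 + T / 4) := rfl
  have X6 : X 6 = l * R := rfl
  have X7 : X 7 = tp := rfl
  have X8 : X 8 = l * 1 := by rw [← hz0]; exact Xz 0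
  have X9 : X 9 = l * θ 0 := Xt 0
  have canc : ∀ {a b c d : ℝ}, a * b < c * d → l * a * (l * b) < l * c * (l * d) := by
    intro a b c d h
    have := mul_lt_mul_of_pos_left h (mul_pos l0 l0)
    linarith
  have lT : 0 < l * T := mul_pos l0 T0
  refine ⟨X, fun n => ?_, (conSat_iff _ _ _ _).2 ⟨?_, fun j _ => ?_, fun i hi => ?_, fun e he => ?_⟩⟩
  · simp only [X]
    have := hz ((n - 8) / 2)
    have := θ0 ((n - 9) / 2)
    have : 0 < 1 - T / 4 := by linarith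
    split_ifs <;> positivity
  · rw [Xt, ← hT, X0, X1, X2, X3, X4, X5, X6, X7, X8, X9]
    have TT : 0 < T * T := mul_pos T0 T0
    have TT1 : T * T ≤ T * 1 := mul_le_mul_of_nonneg_left T1 T0.le
    refine ⟨by norm_num, by norm_num, by norm_num, by norm_num,
      canc (by linarith only [TT1, T0]), canc (by linarith only [TT, T0]), ?_, ?_,
      canc (by rw [θz]; linarith only [TT, T1]), ?_⟩
    · have u1 : l * T ≤ l * 1 := mul_le_mul_of_nonneg_left T1 l0.le
      have u2 : (l * (1 + T / 4) + 1) * tp ≤ 3 * tp :=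
        mul_le_mul_of_nonneg_right (by linarith) tp0.le
      have u3 : 0 < l * (1 - T / 4) * (l * T) := mul_pos (mul_pos l0 (by linarith)) lT
      linarith
    · have u1 : l * 3 ≤ l * R := mul_le_mul_of_nonneg_left hR3 l0.le
      linarith
    · have u1 : l * (l * (R * R)) = l * (T / 200) := by rw [lR]
      linarith
  · rw [Xt, Xt, X4, θs]
    apply canc
    have := mul_pos (mul_pos (θ0 j) (θ0 j)) T0
    linarith
  · rw [Xz, X6]
    exact canc (mul_lt_mul'' (hRm i hi).2 (hRm i hi).2 (hz i).le (hz i).le)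
  · obtain ⟨i1, i2, i3⟩ := hE e he
    have hde := hd e he
    simp only [defect] at hde
    rw [Xz, Xz, Xz, Xt, ← hT, X4, X5, X7]
    obtain ⟨a1, a2⟩ := hRm _ i1
    obtain ⟨b1, b2⟩ := hRm _ i2
    obtain ⟨c1, c2⟩ := hRm _ i3
    have c0 := hz e.2.2.2
    generalize z e.2.1 = a at *
    generalize z e.2.2.1 = b at *
    generalize z e.2.2.2 = c at *
    have cT := mul_pos c0 T0
    constructor
    · intro h0
      rw [if_pos h0] at hde
      exact ⟨canc (by linarith), canc (by linarith)⟩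
    · intro h0
      rw [if_neg h0] at hde
      obtain rfl : c = a + b := by linarith
      have v1 : a * b < R * R := mul_lt_mul'' a2 b2 (by linarith) (by linarith)
      have v2 : m * m ≤ a * b := mul_le_mul a1 b1 hm0.le (by linarith)
      have ll := mul_pos l0 l0
      constructor
      · have u1 := mul_lt_mul_of_pos_left v1 ll
        have u2 : l * (l * (R * R)) = l * (T / 200) := by rw [lR]
        have u3 := mul_pos ll cT
        linarith
      · have u1 := mul_le_mul_of_nonneg_left v2 ll.le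
        have u2 : l * (a + b) ≤ 1 := (mul_lt_mul_of_pos_left c2 l0).le.trans lR1
        have u3 : (l * (a + b) + 1) * tp ≤ 2 * tp := mul_le_mul_of_nonneg_right (by linarith) tp0.le
        have u4 : 0 < l * l * (m * m) := by positivity
        linarith

theorem eqs_to_cmp : ∃ G : Eqs → List (ℕ × ℕ × ℕ), PT G ∧ ∀ E : Eqs,
    (SolP E → CmpSat (G E)) ∧ (CmpSat (G E) → SolR E) := by
  obtain ⟨c, hc⟩ := sep
  refine ⟨fun E => toCmp (toCon (eqBd E) (c * (eqBd E + E.length + 1) + 2) E),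
    PT.comp PT_toCmp (PT_toCon c), fun E => ⟨fun h => ?_, fun h => ?_⟩⟩
  · exact toCmp_complete _ (toCon_complete _ _ E (eqBd_spec E) h)
  · obtain ⟨R, hR, z, h1, h2, h3⟩ := toCon_sound _ _ E (eqBd_spec E) (toCmp_sound _ h)
    exact hc E (eqBd E) (Nat.succ_pos _) (eqBd_spec E) R hR z h1 h2 h3

end Pool.Agent.P.MP_2989a6_lc
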