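import Mathlib

/-! The existential theory of the reals and simultaneous geometric embedding of trees. -/

namespace Pool.Agent.P.MP_2989a6_lc

/-- Terms over the signature `0, 1, +, *`. -/
inductive Tm where
  | var (i : ℕ)
  | zero
  | one
  | add (s t : Tm)
  | mul (s t : Tm)

/-- Quantifier-free formulas. -/
inductive Fm where
  | eq (s t : Tm)
  | lt (s t : Tm)
  | not (a : Fm)
  | and (a b : Fm)
  | or (a b : Fm)

def Tm.eval (x : ℕ → ℝ) : Tm → ℝ
  | .var i => x i
  | .zero => 0
  | .one => 1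
  | .add s t => s.eval x + t.eval x
  | .mul s t => s.eval x * t.eval x

def Fm.Holds (x : ℕ → ℝ) : Fm → Prop
  | .eq s t => s.eval x = t.eval x
  | .lt s t => s.eval x < t.eval x
  | .not a => ¬ a.Holds x
  | .and a b => a.Holds x ∧ b.Holds x
  | .or a b => a.Holds x ∨ b.Holds x

/-- The existential closure of the formula is true over the reals. -/
def ETR (a : Fm) : Prop := ∃ x : ℕ → ℝ, a.Holds x

/-- Reverse Polish token list: pairs (symbol, variable index). -/
def Tm.tok : Tm → List (ℕ × ℕ)
  | .var i => [(0, i)]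
  | .zero => [(1, 0)]
  | .one => [(2, 0)]
  | .add s t => s.tok ++ t.tok ++ [(3, 0)]
  | .mul s t => s.tok ++ t.tok ++ [(4, 0)]

def Fm.tok : Fm → List (ℕ × ℕ)
  | .eq s t => s.tok ++ t.tok ++ [(5, 0)]
  | .lt s t => s.tok ++ t.tok ++ [(6, 0)]
  | .not a => a.tok ++ [(7, 0)]
  | .and a b => a.tok ++ b.tok ++ [(8, 0)]
  | .or a b => a.tok ++ b.tok ++ [(9, 0)]

/-- Self-delimiting code of a pair of words. -/
def pr (x y : List Bool) : List Bool := x.flatMap (fun c => [true, c]) ++ false :: y

/-- Code of a list. -/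
def lst {α : Type} (e : α → List Bool) : List α → List Bool
  | [] => [false]
  | a :: l => true :: pr (e a) (lst e l)

/-- Unary code. -/
def un (n : ℕ) : List Bool := List.replicate n true

/-- Code of a formula; variable indices are written in binary. -/
def Fm.code (a : Fm) : List Bool := lst (fun t => pr (un t.1) t.2.bits) a.tok

/-- An instance: the number `n` of vertices and one edge list for each graph. -/
abbrev Inst := ℕ × List (List (ℕ × ℕ))

def Inst.code (I : Inst) : List Bool :=
  pr (un I.1) (lst (lst fun e => pr (un e.1) (un e.2)) I.2)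

/-- The simple graph on `Fin n` given by an edge list. -/
def graph (n : ℕ) (E : List (ℕ × ℕ)) : SimpleGraph (Fin n) :=
  SimpleGraph.fromRel fun u v => (u.1, v.1) ∈ E

/-- All graphs are trees on the common vertex set, and no edge lies in two of them. -/
def Valid (I : Inst) : Prop :=
  (∀ E ∈ I.2, (∀ e ∈ E, e.1 < I.1 ∧ e.2 < I.1 ∧ e.1 ≠ e.2) ∧ (graph I.1 E).IsTree) ∧
    I.2.Pairwise fun E F => Disjoint (graph I.1 E).edgeSet (graph I.1 F).edgeSet

/-- A simultaneous geometric embedding exists. -/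
def Yes (I : Inst) : Prop :=
  ∃ p : Fin I.1 → ℝ × ℝ, Function.Injective p ∧ ∀ E ∈ I.2, ∀ u v, (graph I.1 E).Adj u v →
    (∀ w, p w ∈ segment ℝ (p u) (p v) → w = u ∨ w = v) ∧
      ∀ u' v', (graph I.1 E).Adj u' v' → s(u, v) ≠ s(u', v') →
        ∀ z ∈ segment ℝ (p u) (p v) ∩ segment ℝ (p u') (p v'),
          ∃ w, z = p w ∧ w ∈ s(u, v) ∧ w ∈ s(u', v')

end Pool.Agent.P.MP_2989a6_lc
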