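import Pool.Agent.P.MP_2989a6_lc.Resolve
import Pool.Agent.P.MP_2989a6_lc.Defs

/-! From families of parent maps to instances. -/

namespace Pool.Agent.P.MP_2989a6_lc

open Filter Topology

def inst (N K : ℕ) (parN : ℕ → ℕ → ℕ) (rootN : ℕ → ℕ) : Inst :=
  (N, (List.range K).map fun t =>
    ((List.range N).filter fun v => !decide (v = rootN t)).map fun v => (v, parN t v))

theorem seg_common {a b c z : Pt} (h : det c a b ≠ 0) (h1 : z ∈ segment ℝ c a)
    (h2 : z ∈ segment ℝ c b) : z = c := by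
  rw [segment_eq_image] at h1 h2
  obtain ⟨s, -, rfl⟩ := h1
  obtain ⟨t, -, e⟩ := h2
  have e1 : (1 - t) * c.1 + t * b.1 = (1 - s) * c.1 + s * a.1 := congrArg Prod.fst e
  have e2 : (1 - t) * c.2 + t * b.2 = (1 - s) * c.2 + s * a.2 := congrArg Prod.snd e
  have k : s * det c a b = 0 := by
    unfold det; linear_combination (b.1 - c.1) * e2 - (b.2 - c.2) * e1
  rw [(mul_eq_zero.1 k).resolve_right h]
  simp

theorem GP.meet {V : Type} {P : V → Pt} (h : GP P) {u v u' v' : V} (h1 : u ≠ v) (h2 : u' ≠ v')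
    (h3 : s(u, v) ≠ s(u', v'))
    (h4 : u ≠ u' → u ≠ v' → v ≠ u' → v ≠ v' → Dj (P u) (P v) (P u') (P v')) {z : Pt}
    (z1 : z ∈ segment ℝ (P u) (P v)) (z2 : z ∈ segment ℝ (P u') (P v')) :
    ∃ w, z = P w ∧ w ∈ s(u, v) ∧ w ∈ s(u', v') := by
  have z1' := segment_symm ℝ (P u) (P v) ▸ z1
  have z2' := segment_symm ℝ (P u') (P v') ▸ z2
  by_cases a : u = u'
  · subst a
    exact ⟨u, seg_common (h.2 _ _ _ h1 h2 fun e => h3 (by rw [e])) z1 z2, by simp, by simp⟩
  by_cases b : u = v'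
  · subst b
    exact ⟨u, seg_common (h.2 _ _ _ h1 a fun e => h3 (by rw [e, Sym2.eq_swap])) z1 z2',
      by simp, by simp⟩
  by_cases c : v = u'
  · subst c
    exact ⟨v, seg_common (h.2 _ _ _ h1.symm h2 b) z1' z2, by simp, by simp⟩
  by_cases d : v = v'
  · subst d
    exact ⟨v, seg_common (h.2 _ _ _ h1.symm c a) z1' z2', by simp, by simp⟩
  exact (Set.disjoint_left.1 (h4 a b c d) z1 z2).elim

theorem Sys.par_ne {V T : Type} (S : Sys V T) {t : T} {v : V} (h : v ≠ S.root t) :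
    S.par t v ≠ v := fun e => by
  have := S.dep_lt t v h
  rw [e] at this
  exact lt_irrefl _ this

theorem isTree_of_par {V T : Type} (S : Sys V T) (t : T) {N : ℕ} (e : V ≃ Fin N)
    (G : SimpleGraph (Fin N)) (hG : ∀ u v, G.Adj (e u) (e v) ↔
      (u ≠ S.root t ∧ S.par t u = v) ∨ (v ≠ S.root t ∧ S.par t v = u)) : G.IsTree := by
  have hf : Finite V := Finite.of_equiv _ e.symm
  have hr : ∀ n v, S.dep t v = n → G.Reachable (e v) (e (S.root t)) := by
    intro n
    induction n using Nat.strong_induction_on with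
    | _ n ih =>
      intro v hv
      by_cases k : v = S.root t
      · rw [k]
      · exact ((hG _ _).2 (Or.inl ⟨k, rfl⟩)).reachable.trans
          (ih _ (hv ▸ S.dep_lt t v k) _ rfl)
  have hc : G.Connected := by
    have : Nonempty (Fin N) := ⟨e (S.root t)⟩
    refine ⟨fun a b => ?_⟩
    obtain ⟨a, rfl⟩ := e.surjective a
    obtain ⟨b, rfl⟩ := e.surjective b
    exact (hr _ a rfl).trans (hr _ b rfl).symm
  refine SimpleGraph.isTree_iff_connected_and_card.2
    ⟨hc, le_antisymm ?_ hc.card_vert_le_card_edgeSet_add_one⟩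
  let g : {v // v ≠ S.root t} → G.edgeSet :=
    fun v => ⟨s(e v.1, e (S.par t v.1)), (hG _ _).2 (Or.inl ⟨v.2, rfl⟩)⟩
  have hg : Function.Surjective g := by
    rintro ⟨x, hx⟩
    induction x using Sym2.ind with
    | _ a b =>
      obtain ⟨a, rfl⟩ := e.surjective a
      obtain ⟨b, rfl⟩ := e.surjective b
      rcases (hG a b).1 hx with ⟨k, rfl⟩ | ⟨k, rfl⟩
      · exact ⟨⟨a, k⟩, rfl⟩
      · exact ⟨⟨b, k⟩, Subtype.ext Sym2.eq_swap⟩
  have k1 := Nat.card_le_card_of_surjective g hg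
  have k2 : Nat.card {v // v ≠ S.root t} < Nat.card V :=
    Finite.card_subtype_lt (x := S.root t) (by simp)
  rw [← Nat.card_congr e]
  omega

theorem inst_spec {V T : Type} (S : Sys V T) (h2 : S.D2) {N K : ℕ} (e : V ≃ Fin N) (f : T ≃ Fin K)
    (parN : ℕ → ℕ → ℕ) (rootN : ℕ → ℕ) (hr : ∀ t, rootN (f t) = e (S.root t))
    (hp : ∀ t v, v ≠ S.root t → parN (f t) (e v) = e (S.par t v)) :
    Valid (inst N K parN rootN) ∧ (Yes (inst N K parN rootN) ↔
      ∃ P : V → Pt, ∀ t, Plane (S.par t) (S.root t) (fun _ => True) P) := by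
  have hV : Finite V := Finite.of_equiv _ e.symm
  have hT : Finite T := Finite.of_equiv _ f.symm
  let EL : ℕ → List (ℕ × ℕ) := fun t =>
    ((List.range N).filter fun v => !decide (v = rootN t)).map fun v => (v, parN t v)
  have hI : inst N K parN rootN = (N, (List.range K).map EL) := rfl
  have hm : ∀ t x, x ∈ EL (f t) ↔ ∃ v, v ≠ S.root t ∧ x = (↑(e v), ↑(e (S.par t v))) := by
    intro t x
    simp only [EL, List.mem_map, List.mem_filter, List.mem_range, Bool.not_eq_eq_eq_not,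
      Bool.not_true, decide_eq_false_iff_not, hr]
    constructor
    · rintro ⟨a, ⟨h1, h3⟩, rfl⟩
      obtain ⟨v, hv⟩ := e.surjective ⟨a, h1⟩
      obtain rfl : a = e v := by rw [hv]
      have k : v ≠ S.root t := fun k => h3 (by rw [k])
      exact ⟨v, k, by rw [hp t v k]⟩
    · rintro ⟨v, k, rfl⟩
      exact ⟨e v, ⟨(e v).2, fun h => k (e.injective (Fin.ext h))⟩, by rw [hp t v k]⟩
  have hm' : ∀ t u v, ((e u : ℕ), (e v : ℕ)) ∈ EL (f t) ↔ u ≠ S.root t ∧ S.par t u = v := by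
    intro t u v
    rw [hm]
    constructor
    · rintro ⟨w, k, h⟩
      obtain ⟨h1, h3⟩ := Prod.mk.inj h
      obtain rfl := e.injective (Fin.ext h1)
      exact ⟨k, (e.injective (Fin.ext h3)).symm⟩
    · rintro ⟨k, rfl⟩
      exact ⟨u, k, rfl⟩
  have hG : ∀ t u v, (graph N (EL (f t))).Adj (e u) (e v) ↔
      (u ≠ S.root t ∧ S.par t u = v) ∨ (v ≠ S.root t ∧ S.par t v = u) := by
    intro t u v
    rw [graph, SimpleGraph.fromRel_adj, hm', hm']
    refine ⟨fun h => h.2, fun h => ⟨e.injective.ne ?_, h⟩⟩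
    rcases h with ⟨k, rfl⟩ | ⟨k, rfl⟩
    exacts [(S.par_ne k).symm, S.par_ne k]
  have hE : ∀ E, E ∈ (List.range K).map EL ↔ ∃ t, E = EL (f t) := by
    intro E
    simp only [List.mem_map, List.mem_range]
    constructor
    · rintro ⟨k, hk, rfl⟩
      exact ⟨f.symm ⟨k, hk⟩, by simp⟩
    · rintro ⟨t, rfl⟩
      exact ⟨f t, (f t).2, rfl⟩
  rw [hI]
  refine ⟨⟨fun E hE' => ?_, ?_⟩, ?_, ?_⟩
  · obtain ⟨t, rfl⟩ := (hE E).1 hE'
    refine ⟨fun x hx => ?_, isTree_of_par S t e _ (hG t)⟩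
    obtain ⟨v, k, rfl⟩ := (hm t x).1 hx
    exact ⟨(e v).2, (e _).2, fun h => S.par_ne k (e.injective (Fin.ext h)).symm⟩
  · refine List.pairwise_map.2 (List.pairwise_lt_range.imp_of_mem fun {a b} ha hb hab => ?_)
    obtain ⟨t, ht⟩ := f.surjective ⟨a, List.mem_range.1 ha⟩
    obtain ⟨t', ht'⟩ := f.surjective ⟨b, List.mem_range.1 hb⟩
    obtain rfl : a = f t := by rw [ht]
    obtain rfl : b = f t' := by rw [ht']
    have hne : t ≠ t' := fun h => by rw [h] at hab; exact lt_irrefl _ hab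
    refine Set.disjoint_left.2 fun x h1 h3 => ?_
    induction x using Sym2.ind with
    | _ u v =>
      obtain ⟨u, rfl⟩ := e.surjective u
      obtain ⟨v, rfl⟩ := e.surjective v
      rcases (hG t u v).1 h1 with ⟨k, rfl⟩ | ⟨k, rfl⟩ <;>
        rcases (hG t' _ _).1 h3 with ⟨k', e'⟩ | ⟨k', e'⟩
      · exact hne (S.d1 t t' u k k' e'.symm)
      · exact h2 t t' u k k' e'
      · exact h2 t t' v k k' e'
      · exact hne (S.d1 t t' v k k' e'.symm)
  · rintro ⟨p, -, h⟩
    refine ⟨fun v => p (e v), fun t v w hv hw _ _ a b c d => Set.disjoint_left.2 fun z z1 z2 => ?_⟩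
    obtain ⟨x, -, x1, x2⟩ := (h _ ((hE _).2 ⟨t, rfl⟩) _ _ ((hG t v _).2 (Or.inl ⟨hv, rfl⟩))).2
      _ _ ((hG t w _).2 (Or.inl ⟨hw, rfl⟩)) (by simp [a, b]) z ⟨z1, z2⟩
    rcases Sym2.mem_iff.1 x1 with rfl | rfl <;> rcases Sym2.mem_iff.1 x2 with k | k
    exacts [a (e.injective k), b (e.injective k), c (e.injective k), d (e.injective k)]
  · rintro ⟨P₀, h₀⟩
    obtain ⟨P, h, hP, -⟩ := exists_GP P₀ (fun i : Empty => i.elim)
      (eventually_all.2 fun t => (h₀ t).eventually tendsto_id)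
    have h : ∀ t, Plane (S.par t) (S.root t) (fun _ => True) P := h
    refine ⟨fun i => P (e.symm i), fun i j k => ?_, fun E hE' u v huv => ?_⟩
    · by_contra k'
      exact hP.1 _ _ (e.symm.injective.ne k') (congrArg Prod.fst k)
    obtain ⟨t, rfl⟩ := (hE E).1 hE'
    obtain ⟨u, rfl⟩ := e.surjective u
    obtain ⟨v, rfl⟩ := e.surjective v
    have n1 : u ≠ v := fun k => huv.ne (by rw [k])
    refine ⟨fun w hw => ?_, fun u' v' huv' hne z hz => ?_⟩
    · obtain ⟨w, rfl⟩ := e.surjective w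
      simp only [Equiv.symm_apply_apply] at hw
      by_contra k
      rw [not_or] at k
      exact Set.disjoint_left.1 (Dj.of_point (hP.2 u v w n1 (fun x => k.1 (by rw [x]))
        fun x => k.2 (by rw [x]))) (left_mem_segment _ _ _) hw
    · obtain ⟨u', rfl⟩ := e.surjective u'
      obtain ⟨v', rfl⟩ := e.surjective v'
      simp only [Equiv.symm_apply_apply] at hz
      obtain ⟨w, k1, k2, k3⟩ := hP.meet n1 (u' := u') (v' := v') (fun k => huv'.ne (by rw [k]))
        (fun k => hne (by simpa using congrArg (Sym2.map e) k)) (fun a b c d => by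
          rcases (hG t u v).1 huv with ⟨k, rfl⟩ | ⟨k, rfl⟩ <;>
            rcases (hG t u' v').1 huv' with ⟨k', rfl⟩ | ⟨k', rfl⟩
          · exact h t _ _ k k' trivial trivial a b c d
          · exact (h t _ _ k k' trivial trivial b a d c).swap'
          · exact (h t _ _ k k' trivial trivial c d a b).swap
          · exact (h t _ _ k k' trivial trivial d c b a).swap.swap') hz.1 hz.2
      refine ⟨e w, by simpa using k1, by simpa using k2, by simpa using k3⟩

end Pool.Agent.P.MP_2989a6_lc
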