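import Pool.Agent.P.MP_2989a6_lc.GadYes
import Pool.Agent.P.MP_2989a6_lc.Emb

/-! The reduction from comparison systems, as a polynomial-time map. -/

namespace Pool.Agent.P.MP_2989a6_lc

open Pool.Agent.Lib.helper21 Pool.Agent.Lib.helper26

namespace Code

/-! ### The resolved family on numbers -/

def actN (par : ℕ → ℕ → ℕ) (hv ht rk : ℕ → ℕ) (a b : ℕ) : Bool :=
  !decide (ht a = ht b) && (decide (par (ht a) (hv b) = hv a) &&
    (decide (par (ht b) (hv a) = hv b) && decide (rk b < rk a)))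

def srch (h : ℕ) (par : ℕ → ℕ → ℕ) (hv ht rk : ℕ → ℕ) (t v : ℕ) : List ℕ :=
  (List.range (h * h)).filter fun p => actN par hv ht rk (p / h) (p % h) &&
    (decide (ht (p / h) = t) && decide (hv (p % h) = v))

def rparN (w h : ℕ) (par : ℕ → ℕ → ℕ) (hv ht rk : ℕ → ℕ) (t v : ℕ) : ℕ :=
  bif decide (v < w) then
    bif (srch h par hv ht rk t v).isEmpty then par t v
    else w + (1 + 2 * (srch h par hv ht rk t v).headD 0)
  else
    bif decide (ht ((v - w) / 2 / h) = t) then hv ((v - w) / 2 / h)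
    else bif actN par hv ht rk ((v - w) / 2 / h) ((v - w) / 2 % h) &&
        (decide (ht ((v - w) / 2 % h) = t) && decide ((v - w) % 2 = 1)) then w + 2 * ((v - w) / 2)
      else par t (hv ((v - w) / 2 / h))

section PTres

variable {α : Type} [Enc α] {par : α → ℕ → ℕ → ℕ} {root hv ht rk : α → ℕ → ℕ}

theorem PT_act (hp : PT fun p : α × ℕ × ℕ => par p.1 p.2.1 p.2.2)
    (h1 : PT fun p : α × ℕ => hv p.1 p.2) (h2 : PT fun p : α × ℕ => ht p.1 p.2)
    (h3 : PT fun p : α × ℕ => rk p.1 p.2) :
    PT fun p : α × ℕ × ℕ => actN (par p.1) (hv p.1) (ht p.1) (rk p.1) p.2.1 p.2.2 := by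
  unfold actN
  fun_prop

theorem PT_srch {h : α → ℕ} (hh : PT h) (hp : PT fun p : α × ℕ × ℕ => par p.1 p.2.1 p.2.2)
    (h1 : PT fun p : α × ℕ => hv p.1 p.2) (h2 : PT fun p : α × ℕ => ht p.1 p.2)
    (h3 : PT fun p : α × ℕ => rk p.1 p.2) :
    PT fun p : α × ℕ × ℕ => srch (h p.1) (par p.1) (hv p.1) (ht p.1) (rk p.1) p.2.1 p.2.2 := by
  have ha := PT_act hp h1 h2 h3
  unfold srch
  generalize hA : (fun a => actN (par a) (hv a) (ht a) (rk a)) = A
  have e : ∀ a, actN (par a) (hv a) (ht a) (rk a) = A a := fun a => by rw [← hA]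
  simp only [e] at ha ⊢
  fun_prop

theorem PT_rpar {w h : α → ℕ} (hw : PT w) (hh : PT h)
    (hp : PT fun p : α × ℕ × ℕ => par p.1 p.2.1 p.2.2)
    (h1 : PT fun p : α × ℕ => hv p.1 p.2) (h2 : PT fun p : α × ℕ => ht p.1 p.2)
    (h3 : PT fun p : α × ℕ => rk p.1 p.2) :
    PT fun p : α × ℕ × ℕ =>
      rparN (w p.1) (h p.1) (par p.1) (hv p.1) (ht p.1) (rk p.1) p.2.1 p.2.2 := by
  have ha := PT_act hp h1 h2 h3
  have hs := PT_srch hh hp h1 h2 h3
  unfold rparN
  generalize hA : (fun a => actN (par a) (hv a) (ht a) (rk a)) = A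
  have e : ∀ a, actN (par a) (hv a) (ht a) (rk a) = A a := fun a => by rw [← hA]
  generalize hB : (fun a => srch (h a) (par a) (hv a) (ht a) (rk a)) = B
  have e' : ∀ a, srch (h a) (par a) (hv a) (ht a) (rk a) = B a := fun a => by rw [← hB]
  simp only [e, e'] at ha hs ⊢
  fun_prop

theorem PT_inst {N K : α → ℕ} (hN : PT N) (hK : PT K)
    (hp : PT fun p : α × ℕ × ℕ => par p.1 p.2.1 p.2.2)
    (hr : PT fun p : α × ℕ => root p.1 p.2) :
    PT fun a => inst (N a) (K a) (par a) (root a) := by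
  unfold inst
  fun_prop

end PTres

section mirror

variable {W T H : Type} (S : Pre W T H) {w K h : ℕ} (e : W ≃ Fin w) (f : T ≃ Fin K) (j : H ≃ Fin h)
  (par : ℕ → ℕ → ℕ) (root hv ht rk : ℕ → ℕ)

/-- The numerical data agree with the family. -/
structure Mir : Prop where
  par : ∀ t v, par (f t) (e v) = e (S.par t v)
  root : ∀ t, root (f t) = e (S.root t)
  hv : ∀ a, hv (j a) = e (S.hv a)
  ht : ∀ a, ht (j a) = f (S.ht a)
  rk : ∀ a, rk (j a) = S.rk a

/-- numbering of pairs of hubs -/
def e2 : H × H ≃ Fin (h * h) := (j.prodCongr j).trans finProdFinEquiv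

/-- numbering of the resolved vertex set -/
def eR : W ⊕ H × H × Bool ≃ Fin (w + h * h * 2) :=
  (e.sumCongr (((Equiv.prodAssoc H H Bool).symm.trans
    ((e2 j).prodCongr finTwoEquiv.symm)).trans finProdFinEquiv)).trans finSumFinEquiv

theorem e2_val (a b : H) : (e2 j (a, b) : ℕ) = j b + h * j a := rfl

theorem e2_div (a b : H) : (e2 j (a, b) : ℕ) / h = j a := by
  have := (j b).2
  rw [e2_val, Nat.add_mul_div_left _ _ (by omega), Nat.div_eq_of_lt this, zero_add]

theorem e2_mod (a b : H) : (e2 j (a, b) : ℕ) % h = j b := by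
  rw [e2_val, Nat.add_mul_mod_self_left, Nat.mod_eq_of_lt (j b).2]

theorem eR_inl (v : W) : (eR e j (.inl v) : ℕ) = e v := rfl

theorem eR_inr (a b : H) (c : Bool) :
    (eR e j (.inr (a, b, c)) : ℕ) = w + (c.toNat + 2 * e2 j (a, b)) := by
  cases c <;> rfl

variable {S e f j par root hv ht rk}

theorem Mir.act (m : Mir S e f j par root hv ht rk) (a b : H) :
    actN par hv ht rk (j a) (j b) = true ↔ S.act a b := by
  simp only [actN, m.ht, m.hv, m.par, m.rk, Fin.val_inj, EmbeddingLike.apply_eq_iff_eq,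
    Bool.and_eq_true, Bool.not_eq_true', decide_eq_false_iff_not, decide_eq_true_eq, Pre.act]

theorem Mir.mem_srch (m : Mir S e f j par root hv ht rk) (t : T) (v : W) (p : ℕ) :
    p ∈ srch h par hv ht rk (f t) (e v) ↔
      ∃ a b, p = e2 j (a, b) ∧ S.act a b ∧ S.ht a = t ∧ S.hv b = v := by
  simp only [srch, List.mem_filter, List.mem_range, Bool.and_eq_true, decide_eq_true_eq]
  constructor
  · rintro ⟨h1, h2⟩
    obtain ⟨⟨a, b⟩, hp⟩ := (e2 j).surjective ⟨p, h1⟩
    have hp' : p = e2 j (a, b) := by rw [hp]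
    refine ⟨a, b, hp', ?_⟩
    rw [hp', e2_div, e2_mod, m.act, m.ht, m.hv, Fin.val_inj, Fin.val_inj, f.apply_eq_iff_eq,
      e.apply_eq_iff_eq] at h2
    exact h2
  · rintro ⟨a, b, rfl, h1, rfl, rfl⟩
    refine ⟨(e2 j (a, b)).2, ?_⟩
    rw [e2_div, e2_mod, m.act, m.ht, m.hv]
    exact ⟨h1, rfl, rfl⟩

theorem Mir.rpar (m : Mir S e f j par root hv ht rk) (t : T) (u : W ⊕ H × H × Bool) :
    rparN w h par hv ht rk (f t) (eR e j u) = eR e j (S.rpar t u) := by
  rcases u with v | ⟨a, b, c⟩
  · rw [eR_inl, rparN, decide_eq_true (e v).2, cond_true]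
    cases hL : srch h par hv ht rk (f t) (e v) with
    | nil =>
      have k : S.Keep t v := by
        rintro ⟨a, b, k⟩
        have := (m.mem_srch t v _).2 ⟨a, b, rfl, k⟩
        rw [hL] at this
        simp at this
      rw [S.rpar_keep k, eR_inl, List.isEmpty_nil, cond_true, m.par]
    | cons p L =>
      obtain ⟨a, b, rfl, h1, rfl, rfl⟩ := (m.mem_srch t v p).1 (by rw [hL]; simp)
      rw [S.rpar_act h1, eR_inr]
      rfl
  · have h1 : (w + (c.toNat + 2 * (e2 j (a, b) : ℕ)) - w) / 2 = e2 j (a, b) := by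
      have := c.toNat_le
      omega
    have h2 : (w + (c.toNat + 2 * (e2 j (a, b) : ℕ)) - w) % 2 = 1 ↔ c = true := by
      cases c <;> simp
    rw [eR_inr, rparN, decide_eq_false (by omega), cond_false, h1, e2_div, e2_mod]
    have h3 : ∀ a, ht (j a) = f t ↔ S.ht a = t := fun a => by
      rw [m.ht, Fin.val_inj, f.apply_eq_iff_eq]
    rw [Pre.rpar]
    by_cases k1 : S.ht a = t
    · rw [if_pos k1, decide_eq_true ((h3 a).2 k1), cond_true, m.hv, eR_inl]
    · rw [if_neg k1, decide_eq_false (mt (h3 a).1 k1), cond_false, Bool.cond_eq_ite]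
      have h4 : (actN par hv ht rk (j a) (j b) && (decide (ht (j b) = f t) &&
          decide ((w + (c.toNat + 2 * (e2 j (a, b) : ℕ)) - w) % 2 = 1))) = true ↔
            S.act a b ∧ S.ht b = t ∧ c = true := by
        rw [Bool.and_eq_true, Bool.and_eq_true, decide_eq_true_eq, decide_eq_true_eq, m.act, h3,
          h2]
      by_cases k2 : S.act a b ∧ S.ht b = t ∧ c = true
      · rw [if_pos k2, if_pos (h4.2 k2), eR_inr]
        simp
      · rw [if_neg k2, if_neg (mt h4.1 k2), m.hv, m.par, eR_inl]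

theorem Mir.spec (m : Mir S e f j par root hv ht rk) :
    Valid (inst (w + h * h * 2) K (rparN w h par hv ht rk) root) ∧
      (Yes (inst (w + h * h * 2) K (rparN w h par hv ht rk) root) ↔
        ∃ P : W ⊕ H × H × Bool → Pt, ∀ t, Plane (S.res.par t) (S.res.root t) (fun _ => True) P) :=
  inst_spec S.res S.res_d2 (eR e j) f _ _ (fun t => m.root t) fun t v _ => m.rpar t v

end mirror

/-! ### Tables -/

/-- table of a function on a finite type -/
noncomputable def tab {A β : Type} [Fintype A] (g : A → β) : List β :=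
  List.ofFn fun i => g ((Fintype.equivFin A).symm i)

theorem tab_get {A β : Type} [Fintype A] (g : A → β) (a : A) (d : β) :
    (tab g).getD (Fintype.equivFin A a) d = g a := by
  simp [tab, List.getD_eq_getElem?_getD]

theorem ofFn_get {n : ℕ} {β : Type} (g : Fin n → β) (a : Fin n) (d : β) :
    (List.ofFn g).getD a d = g a := by
  simp [List.getD_eq_getElem?_getD]

def groomN (k r : ℕ) : ℕ :=
  (bif decide (k = 0) then [2, 3, 1] else bif decide (k = 1) then [3, 2, 1] else
    bif decide (k = 2) then [1, 3, 4] else [1, 4, 2]).getD r 0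

theorem groomN_eq (k : ℕ) (r : Fin 3) : groomN k r = groom k r := by
  simp only [groomN, groom, Bool.cond_eq_ite, decide_eq_true_eq]
  split_ifs <;> fin_cases r <;> rfl

/-! ### The gadgets of a comparison system -/

abbrev Cs := List (ℕ × ℕ × ℕ)

def nP (l : Cs) : ℕ := (l.map fun c => c.2.1 + c.2.2).sum + 1

def cg (l : Cs) (g : ℕ) : ℕ × ℕ × ℕ := l.getD (g % l.length) (0, 0, 0)

theorem cg_mem (l : Cs) {U : ℕ} (g : Fin (U * l.length)) : cg l g ∈ l := by
  have : (g : ℕ) % l.length < l.length := g.modNat.2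
  rw [cg, List.getD_eq_getElem _ _ this]
  exact List.getElem_mem _

theorem lt_nP {l : Cs} {c : ℕ × ℕ × ℕ} (h : c ∈ l) : c.2.1 + c.2.2 < nP l :=
  Nat.lt_succ_of_le (List.le_sum_of_mem (List.mem_map.2 ⟨c, h, rfl⟩))

variable (F : Frame)

noncomputable def gad (l : Cs) : Gad F where
  n := nP l
  M := Fintype.card F.U * l.length
  tup g := (Fintype.equivFin F.U).symm g.divNat
  kind g := (cg l g).1
  lo g := ⟨(cg l g).2.1, by have := lt_nP (cg_mem l g); omega⟩
  hi g := ⟨(cg l g).2.2, by have := lt_nP (cg_mem l g); omega⟩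

theorem gad_cover (l : Cs) (u : F.U) (c : ℕ × ℕ × ℕ) (hc : c ∈ l) : ∃ g, (gad F l).tup g = u ∧
    c = ((gad F l).kind g, ((gad F l).lo g).1, ((gad F l).hi g).1) := by
  obtain ⟨i, rfl⟩ := List.mem_iff_get.1 hc
  have h := finProdFinEquiv.symm_apply_apply (Fintype.equivFin F.U u, i)
  rw [finProdFinEquiv_symm_apply, Prod.mk.injEq] at h
  refine ⟨finProdFinEquiv (Fintype.equivFin F.U u, i), ?_, ?_⟩
  · change (Fintype.equivFin F.U).symm _ = u
    rw [h.1, Equiv.symm_apply_apply]
  · change l.get i = cg l _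
    have h2 : ((finProdFinEquiv (Fintype.equivFin F.U u, i) : Fin _) : ℕ) % l.length = i :=
      congrArg Fin.val h.2
    rw [cg, h2, List.getD_eq_getElem _ _ i.2]
    rfl

/-- number of frame vertices -/
abbrev cV : ℕ := Fintype.card F.V
/-- number of frame trees -/
abbrev cT : ℕ := Fintype.card F.T
/-- number of frame hubs -/
abbrev cH : ℕ := Fintype.card F.H

noncomputable def nV (v : F.V) : ℕ := Fintype.equivFin F.V v

noncomputable def parP (l : Cs) (t v : ℕ) : ℕ :=
  bif decide (t < cT F) then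
    bif decide (v < cV F) then ((tab fun t => tab fun v => nV F (F.S.par t v)).getD t []).getD v 0
    else ((tab fun t => List.ofFn fun r => nV F (F.S.hv (F.att t r))).getD t []).getD
      (bif decide (v - cV F < nP l) then 0
        else groomN (cg l ((v - cV F - nP l) / 3)).1 ((v - cV F - nP l) % 3)) 0
  else
    bif decide (v = cV F + (nP l + (1 + 3 * (t - cT F)))) then cV F + (cg l (t - cT F)).2.1
    else bif decide (v = cV F + (nP l + (2 + 3 * (t - cT F)))) then cV F + (cg l (t - cT F)).2.2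
    else cV F + (nP l + 3 * (t - cT F))

noncomputable def rootP (l : Cs) (t : ℕ) : ℕ :=
  bif decide (t < cT F) then (tab fun t => nV F (F.S.root t)).getD t 0
  else cV F + (nP l + 3 * (t - cT F))

noncomputable def hvP (l : Cs) (a : ℕ) : ℕ :=
  bif decide (a < cH F) then (tab fun a => nV F (F.S.hv a)).getD a 0
  else cV F + (nP l + 3 * (a - cH F))

noncomputable def htP (a : ℕ) : ℕ :=
  bif decide (a < cH F) then (tab fun a => (Fintype.equivFin F.T (F.S.ht a) : ℕ)).getD a 0
  else cT F + (a - cH F)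

noncomputable def rkP (a : ℕ) : ℕ :=
  bif decide (a < cH F) then (tab F.S.rk).getD a 0 else Gad.big F + (a - cH F)

@[fun_prop] theorem PT_nP {α : Type} [Enc α] {l : α → Cs} (h : PT l) : PT fun a => nP (l a) := by
  unfold nP; fun_prop

@[fun_prop] theorem PT_cg {α : Type} [Enc α] {l : α → Cs} {g : α → ℕ} (h : PT l) (hg : PT g) :
    PT fun a => cg (l a) (g a) := by
  unfold cg; fun_prop

@[fun_prop] theorem PT_groomN {α : Type} [Enc α] {k r : α → ℕ} (h : PT k) (hg : PT r) :
    PT fun a => groomN (k a) (r a) := by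
  unfold groomN; fun_prop

noncomputable def red (l : Cs) : Inst :=
  inst (cV F + (nP l + Fintype.card F.U * l.length * 3) +
      (cH F + Fintype.card F.U * l.length) * (cH F + Fintype.card F.U * l.length) * 2)
    (cT F + Fintype.card F.U * l.length)
    (rparN (cV F + (nP l + Fintype.card F.U * l.length * 3)) (cH F + Fintype.card F.U * l.length)
      (parP F l) (hvP F l) (htP F) (rkP F)) (rootP F l)

theorem PT_red : PT (red F) := by
  refine PT_inst (by fun_prop) (by fun_prop) (PT_rpar (ht := fun _ => htP F)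
    (rk := fun _ => rkP F) (par := parP F) (hv := hvP F)
    (w := fun l => cV F + (nP l + Fintype.card F.U * l.length * 3))
    (h := fun l => cH F + Fintype.card F.U * l.length) (by fun_prop) (by fun_prop) ?_ ?_ ?_ ?_) ?_
  · unfold parP; fun_prop
  · unfold hvP; fun_prop
  · unfold htP; fun_prop
  · unfold rkP; fun_prop
  · unfold rootP; fun_prop

variable (l : Cs)

noncomputable def eV : F.V ⊕ (gad F l).I ≃
    Fin (cV F + (nP l + Fintype.card F.U * l.length * 3)) :=
  ((Fintype.equivFin F.V).sumCongr (((Equiv.refl _).sumCongr finProdFinEquiv).trans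
    finSumFinEquiv)).trans finSumFinEquiv

noncomputable def eT : F.T ⊕ Fin (gad F l).M ≃ Fin (cT F + Fintype.card F.U * l.length) :=
  ((Fintype.equivFin F.T).sumCongr (Equiv.refl _)).trans finSumFinEquiv

noncomputable def eH : F.H ⊕ Fin (gad F l).M ≃ Fin (cH F + Fintype.card F.U * l.length) :=
  ((Fintype.equivFin F.H).sumCongr (Equiv.refl _)).trans finSumFinEquiv

theorem eV_1 (v : F.V) : (eV F l (.inl v) : ℕ) = Fintype.equivFin F.V v := rfl
theorem eV_2 (i : Fin (gad F l).n) : (eV F l (.inr (.inl i)) : ℕ) = cV F + i := rfl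
theorem eV_3 (g : Fin (gad F l).M) (r : Fin 3) :
    (eV F l (.inr (.inr (g, r))) : ℕ) = cV F + (nP l + (r + 3 * g)) := rfl
theorem eT_1 (t : F.T) : (eT F l (.inl t) : ℕ) = Fintype.equivFin F.T t := rfl
theorem eT_2 (g : Fin (gad F l).M) : (eT F l (.inr g) : ℕ) = cT F + g := rfl
theorem eH_1 (t : F.H) : (eH F l (.inl t) : ℕ) = Fintype.equivFin F.H t := rfl
theorem eH_2 (g : Fin (gad F l).M) : (eH F l (.inr g) : ℕ) = cH F + g := rfl

theorem mir : Mir (gad F l).pre (eV F l) (eT F l) (eH F l) (parP F l) (rootP F l) (hvP F l)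
    (htP F) (rkP F) where
  par := by
    rintro (t | g) v
    · rw [eT_1, parP, decide_eq_true (Fintype.equivFin F.T t).2, cond_true, tab_get, tab_get]
      rcases v with v | i | ⟨g, r⟩
      · rw [eV_1, decide_eq_true (Fintype.equivFin F.V v).2, cond_true, tab_get]
        rfl
      · have : (i : ℕ) < nP l := i.2
        rw [eV_2, decide_eq_false (by omega), cond_false, decide_eq_true (by omega), cond_true]
        exact ofFn_get _ (0 : Fin 5) 0
      · have := r.2
        rw [eV_3, decide_eq_false (by omega), cond_false, decide_eq_false (by omega), cond_false,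
          show (cV F + (nP l + (r + 3 * g)) - cV F - nP l) / 3 = g by omega,
          show (cV F + (nP l + (r + 3 * g)) - cV F - nP l) % 3 = r by omega, groomN_eq, ofFn_get]
        rfl
    · rw [eT_2, parP, decide_eq_false (by omega), cond_false, Nat.add_sub_cancel_left]
      have h1 : (eV F l v : ℕ) = cV F + (nP l + (1 + 3 * g)) ↔ v = .inr (.inr (g, 1)) := by
        rw [← (eV F l).apply_eq_iff_eq, ← Fin.val_inj, eV_3]; rfl
      have h2 : (eV F l v : ℕ) = cV F + (nP l + (2 + 3 * g)) ↔ v = .inr (.inr (g, 2)) := by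
        rw [← (eV F l).apply_eq_iff_eq, ← Fin.val_inj, eV_3]; rfl
      change _ = (eV F l ((gad F l).gpar (.inr g) v) : ℕ)
      rw [Gad.gpar]
      by_cases k1 : v = .inr (.inr (g, 1))
      · rw [if_pos k1, decide_eq_true (h1.2 k1), cond_true]
        rfl
      · rw [if_neg k1, decide_eq_false (mt h1.1 k1), cond_false]
        by_cases k2 : v = .inr (.inr (g, 2))
        · rw [if_pos k2, decide_eq_true (h2.2 k2), cond_true]
          rfl
        · rw [if_neg k2, decide_eq_false (mt h2.1 k2), cond_false, eV_3]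
          simp
  root := by
    rintro (t | g)
    · rw [eT_1, rootP, decide_eq_true (Fintype.equivFin F.T t).2, cond_true, tab_get]
      rfl
    · rw [eT_2, rootP, decide_eq_false (by omega), cond_false, Nat.add_sub_cancel_left]
      exact Eq.trans (by simp) (eV_3 F l g 0).symm
  hv := by
    rintro (t | g)
    · rw [eH_1, hvP, decide_eq_true (Fintype.equivFin F.H t).2, cond_true, tab_get]
      rfl
    · rw [eH_2, hvP, decide_eq_false (by omega), cond_false, Nat.add_sub_cancel_left]
      exact Eq.trans (by simp) (eV_3 F l g 0).symm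
  ht := by
    rintro (t | g)
    · rw [eH_1, htP, decide_eq_true (Fintype.equivFin F.H t).2, cond_true, tab_get]
      rfl
    · rw [eH_2, htP, decide_eq_false (by omega), cond_false, Nat.add_sub_cancel_left]
      rfl
  rk := by
    rintro (t | g)
    · rw [eH_1, rkP, decide_eq_true (Fintype.equivFin F.H t).2, cond_true, tab_get]
      rfl
    · rw [eH_2, rkP, decide_eq_false (by omega), cond_false, Nat.add_sub_cancel_left]
      rfl

end Code

open Code Filter in
theorem cmp_to_sge (F : Frame) : ∃ R : List (ℕ × ℕ × ℕ) → Inst, PT R ∧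
    ∀ l, Valid (R l) ∧ (Yes (R l) ↔ CmpSat l) := by
  refine ⟨red F, PT_red F, fun l => ⟨(mir F l).spec.1, (mir F l).spec.2.trans ⟨?_, fun h => ?_⟩⟩⟩
  · rintro ⟨P, hP⟩
    have h1 := (gad F l).pre.res_no hP
    obtain ⟨Q, hQ, hG, -⟩ := exists_GP (ι := Empty) (fun v => P (.inl v)) Empty.elim
      (eventually_all.2 fun t => (h1 t).eventually tendsto_id)
    exact (gad F l).gad_no l (gad_cover F l) hG hQ
  · obtain ⟨P, hG, hP⟩ := (gad F l).gad_yes l (fun g => cg_mem l g) h
    exact (gad F l).pre.res_yes hG hP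

end Pool.Agent.P.MP_2989a6_lc
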