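import Pool.Agent.P.MP_2989a6_lc.EtrPos

/-! From formulas to systems of equations. -/

namespace Pool.Agent.P.MP_2989a6_lc

open Pool.Agent.Lib.helper21

/-- Arity of a symbol. -/
def arity (k : ℕ) : ℕ := cond (decide (k ≤ 2)) 0 (cond (decide (k = 7)) 1 2)

/-- Token at a position. -/
def tokAt (L : List (ℕ × Bn)) (j : ℕ) : ℕ × Bn := L.getD j (0, ⟨0⟩)

/-- The stack of block numbers after `n` tokens; position `p` owns block `p + 1`. -/
def stk (L : List (ℕ × Bn)) (n : ℕ) : List ℕ :=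
  (List.range n).foldl (fun s p => (p + 1) :: s.drop (arity (tokAt L p).1)) []

/-- The block of the first occurrence of a variable. -/
def loc (L : List (ℕ × Bn)) (b : Bn) : ℕ :=
  ((List.range L.length).filter fun p =>
    decide ((tokAt L p).1 = 0) && (!(tokAt L p).2.lt b && !b.lt (tokAt L p).2)).headD 0 + 1

/-- The equations of block `q` with symbol `k`, arguments in the blocks `A`, `B`. -/
def egad (k q A B v : ℕ) : Eqs :=
  ([[(0, 0, 6 * v, 6 * q)], [(1, 6 * q, 0, 0)], [(0, 0, 0, 6 * q)],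
    [(1, 6 * A, 6 * B, 6 * q)], [(0, 6 * A, 6 * B, 6 * q)],
    [(1, 6 * A, 6 * q, 6 * B), (0, 6 * q, 6 * q + 2, 6 * q + 4), (1, 6 * q + 1, 0, 6 * q + 4)],
    [(1, 6 * A, 6 * q + 3, 6 * B), (0, 6 * q + 2, 6 * q + 2, 6 * q + 5),
      (0, 6 * q + 3, 6 * q + 5, 6 * q + 4), (1, 6 * q, 0, 6 * q + 4),
      (1, 6 * q + 3, 6 * q + 5, 6 * q + 1)],
    [(0, 0, 6 * B + 1, 6 * q), (0, 0, 6 * B, 6 * q + 1)],
    [(0, 6 * A, 6 * A, 6 * q + 4), (0, 6 * B, 6 * B, 6 * q + 5), (1, 6 * q + 4, 6 * q + 5, 6 * q),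
      (0, 6 * A + 1, 6 * B + 1, 6 * q + 1)],
    [(0, 6 * A + 1, 6 * A + 1, 6 * q + 4), (0, 6 * B + 1, 6 * B + 1, 6 * q + 5),
      (1, 6 * q + 4, 6 * q + 5, 6 * q + 1), (0, 6 * A, 6 * B, 6 * q)]] : List Eqs).getD k []

/-- The equations of position `j`. -/
def gadAt (L : List (ℕ × Bn)) (j : ℕ) : Eqs :=
  egad (tokAt L j).1 (j + 1) ((stk L j).getD 1 0) ((stk L j).getD 0 0) (loc L (tokAt L j).2)

/-- The system attached to a token list. -/
def realSys (L : List (ℕ × Bn)) : Eqs :=
  (1, 6 * L.length, 0, 0) :: (List.range L.length).flatMap (gadAt L)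

@[fun_prop] theorem PT_tokAt : PT fun p : List (ℕ × Bn) × ℕ => tokAt p.1 p.2 := by
  unfold tokAt; fun_prop

@[fun_prop] theorem PT_arity : PT arity := by
  unfold arity; fun_prop

@[fun_prop] theorem PT_stk : PT fun p : List (ℕ × Bn) × ℕ => stk p.1 p.2 := by
  unfold stk
  refine PT.foldl_add (f := fun (a : List (ℕ × Bn) × ℕ) (s : List ℕ) (p : ℕ) =>
    (p + 1) :: s.drop (arity (tokAt a.1 p).1)) (by fun_prop) (by fun_prop) (by fun_prop)
    (fun q => 2 * q.2 + 4) (PT.bdNat (by fun_prop)) fun a s x => ?_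
  have := sz_drop s (arity (tokAt a.1 x).1)
  simp only [sz_cons, sz_nat]
  omega

@[fun_prop] theorem PT_loc : PT fun p : List (ℕ × Bn) × Bn => loc p.1 p.2 := by
  unfold loc; fun_prop

@[fun_prop] theorem PT_gad :
    PT fun p : ℕ × ℕ × ℕ × ℕ × ℕ => egad p.1 p.2.1 p.2.2.1 p.2.2.2.1 p.2.2.2.2 := by
  unfold egad; fun_prop

theorem PT_gadAt : PT fun p : List (ℕ × Bn) × ℕ => gadAt p.1 p.2 := by
  unfold gadAt; fun_prop

theorem PT_realSys : PT realSys := by
  have := PT_gadAt
  unfold realSys; fun_prop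

theorem stk_succ (L : List (ℕ × Bn)) (n : ℕ) :
    stk L (n + 1) = (n + 1) :: (stk L n).drop (arity (tokAt L n).1) := by
  simp [stk, List.range_succ]

theorem stk_le (L : List (ℕ × Bn)) (n : ℕ) : ∀ c ∈ stk L n, c ≤ n := by
  induction n with
  | zero => simp [stk]
  | succ n ih =>
    intro c hc
    rw [stk_succ] at hc
    rcases List.mem_cons.1 hc with rfl | hc
    · exact le_rfl
    · exact (ih c (List.mem_of_mem_drop hc)).trans (Nat.le_succ n)

theorem stk_getD_le (L : List (ℕ × Bn)) (n i : ℕ) : (stk L n).getD i 0 ≤ n := by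
  rw [List.getD_eq_getElem?_getD]
  cases h : (stk L n)[i]? with
  | none => simp
  | some c => exact stk_le L n c (List.mem_of_getElem? h)

/-- Tokens with binary indices. -/
def bt (l : List (ℕ × ℕ)) : List (ℕ × Bn) := l.map fun t => (t.1, ⟨t.2⟩)

/-- The tokens `T` occur in `L` from position `j` on. -/
def Occ (L : List (ℕ × Bn)) (j : ℕ) (T : List (ℕ × ℕ)) : Prop := ∃ B, L.drop j = bt T ++ B

theorem Occ.left {L : List (ℕ × Bn)} {j : ℕ} {S T : List (ℕ × ℕ)} (h : Occ L j (S ++ T)) :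
    Occ L j S := by
  obtain ⟨B, h⟩ := h
  exact ⟨bt T ++ B, by simpa [bt] using h⟩

theorem Occ.right {L : List (ℕ × Bn)} {j : ℕ} {S T : List (ℕ × ℕ)} (h : Occ L j (S ++ T)) :
    Occ L (j + S.length) T := by
  obtain ⟨B, h⟩ := h
  refine ⟨B, ?_⟩
  rw [← List.drop_drop, h]
  simp [bt]

theorem Occ.tok {L : List (ℕ × Bn)} {j k i : ℕ} (h : Occ L j [(k, i)]) :
    j < L.length ∧ tokAt L j = (k, ⟨i⟩) := by
  obtain ⟨B, h⟩ := h
  have h1 : L[j]? = some (k, ⟨i⟩) := by
    have : (L.drop j)[0]? = some (k, ⟨i⟩) := by rw [h]; rfl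
    simpa using this
  refine ⟨(List.getElem?_eq_some_iff.1 h1).1, ?_⟩
  simp [tokAt, List.getD_eq_getElem?_getD, h1]

/-- `y` solves the block equations and `x` reads the values of the variables. -/
structure EGood (L : List (ℕ × Bn)) (y x : ℕ → ℝ) : Prop where
  one : y 0 = 1
  sat : ∀ j < L.length, ∀ e ∈ gadAt L j, defect y e = 0
  var : ∀ j < L.length, (tokAt L j).1 = 0 → y (6 * (j + 1)) = x (tokAt L j).2.n

theorem EGood.leaf {L : List (ℕ × Bn)} {y x : ℕ → ℝ} (G : EGood L y x) {j k i : ℕ}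
    (h : Occ L j [(k, i)]) (hk : arity k = 0) :
    stk L (j + 1) = (j + 1) :: stk L j ∧
      ∃ A B v, ∀ e ∈ egad k (j + 1) A B v, defect y e = 0 := by
  obtain ⟨h1, h2⟩ := h.tok
  refine ⟨by rw [stk_succ, h2, hk]; rfl, ?_⟩
  have := G.sat j h1
  rw [gadAt, h2] at this
  exact ⟨_, _, _, this⟩

theorem EGood.un {L : List (ℕ × Bn)} {y x : ℕ → ℝ} (G : EGood L y x) {j m k i : ℕ}
    (h : Occ L m [(k, i)]) (hk : arity k = 1) (hm : stk L m = m :: stk L j) :
    stk L (m + 1) = (m + 1) :: stk L j ∧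
      ∃ A v, ∀ e ∈ egad k (m + 1) A m v, defect y e = 0 := by
  obtain ⟨h1, h2⟩ := h.tok
  refine ⟨by rw [stk_succ, h2, hk, hm]; rfl, ?_⟩
  have := G.sat m h1
  rw [gadAt, h2, hm] at this
  exact ⟨_, _, this⟩

theorem EGood.bin {L : List (ℕ × Bn)} {y x : ℕ → ℝ} (G : EGood L y x) {j m n k i : ℕ}
    (h : Occ L n [(k, i)]) (hk : arity k = 2) (hm : stk L m = m :: stk L j)
    (hn : stk L n = n :: stk L m) :
    stk L (n + 1) = (n + 1) :: stk L j ∧
      ∃ v, ∀ e ∈ egad k (n + 1) m n v, defect y e = 0 := by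
  obtain ⟨h1, h2⟩ := h.tok
  refine ⟨by rw [stk_succ, h2, hk, hn, hm]; rfl, ?_⟩
  have := G.sat n h1
  rw [gadAt, h2, hn, hm] at this
  exact ⟨_, this⟩

theorem EGood.term {L : List (ℕ × Bn)} {y x : ℕ → ℝ} (G : EGood L y x) (t : Tm) :
    ∀ j, Occ L j t.tok → stk L (j + t.tok.length) = (j + t.tok.length) :: stk L j ∧
      y (6 * (j + t.tok.length)) = t.eval x := by
  have h1 := G.one
  induction t with
  | var i =>
    intro j h
    refine ⟨(G.leaf h rfl).1, ?_⟩
    have := G.var j h.tok.1 (by rw [h.tok.2])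
    rwa [h.tok.2] at this
  | zero =>
    intro j h
    obtain ⟨hs, A, B, v, he⟩ := G.leaf h rfl
    refine ⟨hs, ?_⟩
    simp only [egad, List.getD_cons_succ, List.getD_cons_zero, List.forall_mem_cons, defect,
      one_ne_zero, if_false] at he
    show y (6 * (j + 1)) = 0
    linarith [he.1]
  | one =>
    intro j h
    obtain ⟨hs, A, B, v, he⟩ := G.leaf h rfl
    refine ⟨hs, ?_⟩
    simp only [egad, List.getD_cons_succ, List.getD_cons_zero, List.forall_mem_cons, defect,
      if_true, h1] at he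
    show y (6 * (j + 1)) = 1
    linarith [he.1]
  | add s t ihs iht =>
    intro j h
    obtain ⟨s1, s2⟩ := ihs j h.left.left
    obtain ⟨t1, t2⟩ := iht _ h.left.right
    have h3 := h.right
    rw [List.length_append, ← Nat.add_assoc] at h3
    obtain ⟨hs, v, he⟩ := G.bin h3 rfl s1 t1
    simp only [egad, List.getD_cons_succ, List.getD_cons_zero, List.forall_mem_cons, defect,
      one_ne_zero, if_false, s2, t2] at he
    simp only [Tm.tok, List.length_append, List.length_singleton, ← Nat.add_assoc, Tm.eval]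
    exact ⟨hs, by linarith [he.1]⟩
  | mul s t ihs iht =>
    intro j h
    obtain ⟨s1, s2⟩ := ihs j h.left.left
    obtain ⟨t1, t2⟩ := iht _ h.left.right
    have h3 := h.right
    rw [List.length_append, ← Nat.add_assoc] at h3
    obtain ⟨hs, v, he⟩ := G.bin h3 rfl s1 t1
    simp only [egad, List.getD_cons_succ, List.getD_cons_zero, List.forall_mem_cons, defect,
      if_true, s2, t2] at he
    simp only [Tm.tok, List.length_append, List.length_singleton, ← Nat.add_assoc, Tm.eval]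
    exact ⟨hs, by linarith [he.1]⟩

/-- The witnesses of the atomic formulas are well chosen. -/
def Can (L : List (ℕ × Bn)) (y : ℕ → ℝ) : Prop :=
  ∀ j, (tokAt L j).1 = 5 ∨ (tokAt L j).1 = 6 → y (6 * (j + 1)) = 0 ∨ y (6 * (j + 1) + 1) = 0

theorem EGood.form {L : List (ℕ × Bn)} {y x : ℕ → ℝ} (G : EGood L y x) (a : Fm) :
    ∀ j, Occ L j a.tok → stk L (j + a.tok.length) = (j + a.tok.length) :: stk L j ∧
      (y (6 * (j + a.tok.length)) = 0 → a.Holds x) ∧
      (y (6 * (j + a.tok.length) + 1) = 0 → ¬ a.Holds x) ∧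
      (Can L y → y (6 * (j + a.tok.length)) = 0 ∨ y (6 * (j + a.tok.length) + 1) = 0) := by
  have h1 := G.one
  induction a with
  | eq s t =>
    intro j h
    obtain ⟨s1, s2⟩ := G.term s j h.left.left
    obtain ⟨t1, t2⟩ := G.term t _ h.left.right
    have h3 := h.right
    rw [List.length_append, ← Nat.add_assoc] at h3
    obtain ⟨hs, v, he⟩ := G.bin h3 rfl s1 t1
    simp only [egad, List.getD_cons_succ, List.getD_cons_zero, List.forall_mem_cons, defect,
      if_true, one_ne_zero, if_false, s2, t2, h1] at he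
    obtain ⟨e1, e2, e3, -⟩ := he
    simp only [Fm.tok, List.length_append, List.length_singleton, ← Nat.add_assoc, Fm.Holds]
    refine ⟨hs, fun h0 => by linarith, fun h0 h' => ?_, fun hc => hc _ (by rw [h3.tok.2]; simp)⟩
    have : y (6 * (j + s.tok.length + t.tok.length + 1)) = 0 := by linarith
    rw [this] at e2
    linarith
  | lt s t =>
    intro j h
    obtain ⟨s1, s2⟩ := G.term s j h.left.left
    obtain ⟨t1, t2⟩ := G.term t _ h.left.right
    have h3 := h.right
    rw [List.length_append, ← Nat.add_assoc] at h3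
    obtain ⟨hs, v, he⟩ := G.bin h3 rfl s1 t1
    simp only [egad, List.getD_cons_succ, List.getD_cons_zero, List.forall_mem_cons, defect,
      if_true, one_ne_zero, if_false, s2, t2, h1] at he
    obtain ⟨e1, e2, e3, e4, e5, -⟩ := he
    simp only [Fm.tok, List.length_append, List.length_singleton, ← Nat.add_assoc, Fm.Holds]
    generalize j + s.tok.length + t.tok.length = n at *
    have hv : 0 ≤ y (6 * (n + 1) + 5) := by nlinarith [mul_self_nonneg (y (6 * (n + 1) + 2))]
    refine ⟨hs, fun h0 => ?_, fun h0 h' => by linarith, fun hc => hc _ (by rw [h3.tok.2]; simp)⟩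
    by_contra hlt
    have hd : y (6 * (n + 1) + 3) ≤ 0 := by linarith [not_lt.1 hlt]
    nlinarith [mul_nonneg hv (neg_nonneg.2 hd)]
  | not a iha =>
    intro j h
    obtain ⟨s1, s2, s3, s4⟩ := iha j h.left
    obtain ⟨hs, A, v, he⟩ := G.un h.right rfl s1
    simp only [egad, List.getD_cons_succ, List.getD_cons_zero, List.forall_mem_cons, defect,
      if_true, h1, one_mul, sub_eq_zero] at he
    obtain ⟨e1, e2, -⟩ := he
    simp only [Fm.tok, List.length_append, List.length_singleton, ← Nat.add_assoc, Fm.Holds]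
    rw [← e1, ← e2]
    exact ⟨hs, s3, fun h0 => not_not.2 (s2 h0), fun hc => (s4 hc).symm⟩
  | and a b iha ihb =>
    intro j h
    obtain ⟨s1, s2, s3, s4⟩ := iha j h.left.left
    obtain ⟨t1, t2, t3, t4⟩ := ihb _ h.left.right
    have h3 := h.right
    rw [List.length_append, ← Nat.add_assoc] at h3
    obtain ⟨hs, v, he⟩ := G.bin h3 rfl s1 t1
    simp only [egad, List.getD_cons_succ, List.getD_cons_zero, List.forall_mem_cons, defect,
      if_true, one_ne_zero, if_false, sub_eq_zero] at he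
    obtain ⟨e1, e2, e3, e4, -⟩ := he
    simp only [Fm.tok, List.length_append, List.length_singleton, ← Nat.add_assoc, Fm.Holds]
    rw [← e3, ← e4, ← e1, ← e2, mul_self_add_mul_self_eq_zero, mul_eq_zero]
    refine ⟨hs, fun h0 => ⟨s2 h0.1, t2 h0.2⟩, fun h0 h' => h0.elim (s3 · h'.1) (t3 · h'.2),
      fun hc => ?_⟩
    have := s4 hc
    have := t4 hc
    tauto
  | or a b iha ihb =>
    intro j h
    obtain ⟨s1, s2, s3, s4⟩ := iha j h.left.left
    obtain ⟨t1, t2, t3, t4⟩ := ihb _ h.left.right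
    have h3 := h.right
    rw [List.length_append, ← Nat.add_assoc] at h3
    obtain ⟨hs, v, he⟩ := G.bin h3 rfl s1 t1
    simp only [egad, List.getD_cons_succ, List.getD_cons_zero, List.forall_mem_cons, defect,
      if_true, one_ne_zero, if_false, sub_eq_zero] at he
    obtain ⟨e1, e2, e3, e4, -⟩ := he
    simp only [Fm.tok, List.length_append, List.length_singleton, ← Nat.add_assoc, Fm.Holds]
    rw [← e3, ← e4, ← e1, ← e2, mul_self_add_mul_self_eq_zero, mul_eq_zero]
    refine ⟨hs, fun h0 => h0.imp s2 t2, fun h0 h' => h'.elim (s3 h0.1) (t3 h0.2), fun hc => ?_⟩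
    have := s4 hc
    have := t4 hc
    tauto

theorem loc_spec {L : List (ℕ × Bn)} {j : ℕ} (hj : j < L.length) (h0 : (tokAt L j).1 = 0) :
    ∃ p, loc L (tokAt L j).2 = p + 1 ∧ (tokAt L p).1 = 0 ∧ (tokAt L p).2.n = (tokAt L j).2.n := by
  refine ⟨_, rfl, ?_⟩
  generalize hF : ((List.range L.length).filter fun p =>
    decide ((tokAt L p).1 = 0) && (!(tokAt L p).2.lt (tokAt L j).2 &&
      !(tokAt L j).2.lt (tokAt L p).2)) = F
  have hm : j ∈ F := by rw [← hF]; simp [hj, h0, Bn.lt]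
  cases F with
  | nil => simp at hm
  | cons p F =>
    have hp : p ∈ p :: F := List.mem_cons_self
    rw [← hF] at hp
    simp only [List.mem_filter, Bn.lt, Bool.and_eq_true, decide_eq_true_eq, Bool.not_eq_true',
      decide_eq_false_iff_not, not_lt] at hp
    exact ⟨hp.2.1, le_antisymm hp.2.2.2 hp.2.2.1⟩

theorem occ_btok (a : Fm) : Occ (btok a) 0 a.tok := ⟨[], by simp [btok, bt]⟩

theorem etr_of_realSys (a : Fm) (h : SolR (realSys (btok a))) : ETR a := by
  obtain ⟨y, h1, hy⟩ := h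
  have hs : ∀ j < (btok a).length, ∀ e ∈ gadAt (btok a) j, defect y e = 0 := fun j hj e he =>
    hy e (List.mem_cons_of_mem _ (List.mem_flatMap.2 ⟨j, List.mem_range.2 hj, he⟩))
  have G : EGood (btok a) y fun i => y (6 * loc (btok a) ⟨i⟩) := by
    refine ⟨h1, hs, fun j hj h0 => ?_⟩
    have := hs j hj (0, 0, 6 * loc (btok a) (tokAt (btok a) j).2, 6 * (j + 1)) (by
      rw [gadAt, h0]; simp [egad])
    simp only [defect, if_true, h1] at this
    linarith
  refine ⟨_, (G.form a 0 (occ_btok a)).2.1 ?_⟩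
  have := hy _ List.mem_cons_self
  simp only [defect, one_ne_zero, if_false, btok, List.length_map] at this
  rw [Nat.zero_add]
  linarith

/-- The witness for a strict inequality. -/
noncomputable def wit (d : ℝ) : ℝ := if 0 < d then (√d)⁻¹ else √(-d)

theorem wit_spec (d : ℝ) : d * (wit d * wit d) - 1 = 0 ∨ d + wit d * wit d = 0 := by
  unfold wit
  split_ifs with h
  · left
    rw [← mul_inv, Real.mul_self_sqrt h.le, mul_inv_cancel₀ h.ne', sub_self]
  · right
    rw [Real.mul_self_sqrt (by linarith [not_lt.1 h])]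
    ring

/-- The values in a block. -/
noncomputable def blockVal (k : ℕ) (u : ℝ) (a b : ℕ → ℝ) : List ℝ :=
  ([[u], [0], [1], [a 0 + b 0], [a 0 * b 0],
    [b 0 - a 0, (b 0 - a 0) * (b 0 - a 0)⁻¹ - 1, (b 0 - a 0)⁻¹, 0, (b 0 - a 0) * (b 0 - a 0)⁻¹],
    [(b 0 - a 0) * (wit (b 0 - a 0) * wit (b 0 - a 0)) - 1,
      (b 0 - a 0) + wit (b 0 - a 0) * wit (b 0 - a 0), wit (b 0 - a 0), b 0 - a 0,
      (b 0 - a 0) * (wit (b 0 - a 0) * wit (b 0 - a 0)), wit (b 0 - a 0) * wit (b 0 - a 0)],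
    [b 1, b 0],
    [a 0 * a 0 + b 0 * b 0, a 1 * b 1, 0, 0, a 0 * a 0, b 0 * b 0],
    [a 0 * b 0, a 1 * a 1 + b 1 * b 1, 0, 0, a 1 * a 1, b 1 * b 1]] : List (List ℝ)).getD k []

theorem exists_blocks (L : List (ℕ × Bn)) (x : ℕ → ℝ) : ∃ β : ℕ → ℕ → ℝ, β 0 0 = 1 ∧
    ∀ j s, β (j + 1) s = (blockVal (tokAt L j).1 (x (tokAt L j).2.n) (β ((stk L j).getD 1 0))
      (β ((stk L j).getD 0 0))).getD s 0 := by
  let F : (q : ℕ) → ((c : ℕ) → c < q → ℕ → ℝ) → ℕ → ℝ := fun q =>
    match q with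
    | 0 => fun _ _ => 1
    | j + 1 => fun g s => (blockVal (tokAt L j).1 (x (tokAt L j).2.n)
        (g _ (Nat.lt_succ_of_le (stk_getD_le L j 1)))
        (g _ (Nat.lt_succ_of_le (stk_getD_le L j 0)))).getD s 0
  refine ⟨Nat.lt_wfRel.wf.fix F, ?_, fun j s => ?_⟩
  · rw [WellFounded.fix_eq]
  · rw [WellFounded.fix_eq]

theorem realSys_of_etr (a : Fm) (h : ETR a) : SolR (realSys (btok a)) := by
  obtain ⟨x, hx⟩ := h
  generalize hL : btok a = L
  obtain ⟨β, b0, hβ⟩ := exists_blocks L x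
  let y : ℕ → ℝ := fun n => β (n / 6) (n % 6)
  have hy : ∀ q s, s < 6 → y (6 * q + s) = β q s := by
    intro q s hs
    have h1 : (6 * q + s) / 6 = q := by omega
    have h2 : (6 * q + s) % 6 = s := by omega
    simp only [y, h1, h2]
  have y0 : ∀ q, y (6 * q) = β q 0 := fun q => hy q 0 (by norm_num)
  have y1 : ∀ q, y (6 * q + 1) = β q 1 := fun q => hy q 1 (by norm_num)
  have y2 : ∀ q, y (6 * q + 2) = β q 2 := fun q => hy q 2 (by norm_num)
  have y3 : ∀ q, y (6 * q + 3) = β q 3 := fun q => hy q 3 (by norm_num)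
  have y4 : ∀ q, y (6 * q + 4) = β q 4 := fun q => hy q 4 (by norm_num)
  have y5 : ∀ q, y (6 * q + 5) = β q 5 := fun q => hy q 5 (by norm_num)
  have h1 : y 0 = 1 := b0
  have hv : ∀ j, (tokAt L j).1 = 0 → β (j + 1) 0 = x (tokAt L j).2.n := fun j h0 => by
    rw [hβ, h0]; rfl
  have G : EGood L y x := by
    refine ⟨h1, fun j hj => ?_, fun j _ h0 => by rw [y0, hv j h0]⟩
    by_cases h0 : (tokAt L j).1 = 0
    · obtain ⟨p, e1, e2, e3⟩ := loc_spec hj h0
      rw [gadAt, h0, e1]
      simp only [egad, List.getD_cons_zero, List.forall_mem_cons, defect, if_true, h1, y0,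
        hv j h0, hv p e2, e3]
      simp
    · have hb := hβ j
      rw [gadAt]
      generalize (stk L j).getD 1 0 = A at hb ⊢
      generalize (stk L j).getD 0 0 = B at hb ⊢
      generalize loc L (tokAt L j).2 = v
      generalize x (tokAt L j).2.n = u at hb
      generalize (tokAt L j).1 = k at hb h0 ⊢
      by_cases hk : k < 10
      · interval_cases k
        · exact absurd rfl h0
        all_goals
          simp only [egad, List.getD_cons_succ, List.getD_cons_zero, List.forall_mem_cons, defect,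
            if_true, one_ne_zero, if_false, h1, y0, y1, y2, y3, y4, y5, hb, blockVal]
          simp
      · have : egad k (j + 1) A B v = [] := List.getD_eq_default _ _ (by simpa using hk)
        simp [this]
  have hc : Can L y := by
    intro j hj
    rw [y0, y1, hβ, hβ]
    rcases hj with hj | hj
    · rw [hj]
      simp only [blockVal, List.getD_cons_succ, List.getD_cons_zero]
      by_cases hd : β ((stk L j).getD 0 0) 0 - β ((stk L j).getD 1 0) 0 = 0
      · exact Or.inl hd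
      · exact Or.inr (by rw [mul_inv_cancel₀ hd, sub_self])
    · rw [hj]
      simp only [blockVal, List.getD_cons_succ, List.getD_cons_zero]
      exact wit_spec _
  obtain ⟨-, -, f3, f4⟩ := G.form a 0 (hL ▸ occ_btok a)
  have hz : y (6 * L.length) = 0 := by
    have : L.length = 0 + a.tok.length := by rw [← hL]; simp [btok]
    rw [this]
    exact (f4 hc).resolve_right fun h0 => f3 h0 hx
  refine ⟨y, h1, fun e he => ?_⟩
  rcases List.mem_cons.1 he with rfl | he
  · simp only [defect, one_ne_zero, if_false, hz]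
    ring
  · obtain ⟨j, hj, he⟩ := List.mem_flatMap.1 he
    exact G.sat j (List.mem_range.1 hj) e he

theorem etr_to_eqs : ∃ F : List (ℕ × Bn) → Eqs, PT F ∧ ∀ a : Fm,
    (ETR a → SolP (F (btok a))) ∧ (SolR (F (btok a)) → ETR a) :=
  ⟨fun L => posSys (realSys L), PT_posSys.comp PT_realSys, fun a =>
    ⟨fun h => solP_posSys (realSys_of_etr a h), fun h => etr_of_realSys a (solR_of_posSys h)⟩⟩

end Pool.Agent.P.MP_2989a6_lc
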