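import Pool.Agent.P.MP_2989a6_lc.Alg

/-! From systems with real solutions to systems with positive solutions. -/

namespace Pool.Agent.P.MP_2989a6_lc

open Pool.Agent.Lib.helper21

/-- Translation of equation number `r`. -/
def posEq (r : ℕ) (e : ℕ × ℕ × ℕ × ℕ) : Eqs :=
  cond (decide (e.1 = 0))
    [(0, 10 * e.2.1 + 1, 10 * e.2.2.1 + 1, 10 * r + 3),
      (0, 10 * e.2.1 + 2, 10 * e.2.2.1 + 2, 10 * r + 4),
      (0, 10 * e.2.1 + 1, 10 * e.2.2.1 + 2, 10 * r + 7),
      (0, 10 * e.2.1 + 2, 10 * e.2.2.1 + 1, 10 * r + 8),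
      (1, 10 * r + 3, 10 * r + 4, 10 * r + 5),
      (1, 10 * r + 7, 10 * r + 8, 10 * r + 9),
      (1, 10 * r + 5, 10 * e.2.2.2 + 2, 10 * r + 6),
      (1, 10 * r + 9, 10 * e.2.2.2 + 1, 10 * r + 6)]
    [(1, 10 * e.2.1 + 1, 10 * e.2.2.1 + 1, 10 * r + 5),
      (1, 10 * e.2.1 + 2, 10 * e.2.2.1 + 2, 10 * r + 9),
      (1, 10 * r + 5, 10 * e.2.2.2 + 2, 10 * r + 6),
      (1, 10 * r + 9, 10 * e.2.2.2 + 1, 10 * r + 6)]

/-- Every real unknown becomes a difference of two positive unknowns. -/
def posSys (E : Eqs) : Eqs :=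
  (1, 2, 0, 1) :: (List.range E.length).flatMap fun r => posEq r (E.getD r (0, 0, 0, 0))

theorem PT_posSys : PT posSys := by
  unfold posSys posEq
  fun_prop

theorem solR_of_posSys {E : Eqs} (h : SolR (posSys E)) : SolR E := by
  obtain ⟨z, h0, hz⟩ := h
  refine ⟨fun i => z (10 * i + 1) - z (10 * i + 2), ?_, fun e he => ?_⟩
  · have := hz (1, 2, 0, 1) (by simp [posSys])
    simp only [defect] at this
    norm_num at this ⊢
    linarith
  · obtain ⟨r, hr, rfl⟩ := List.getElem_of_mem he
    have key : ∀ f ∈ posEq r E[r], defect z f = 0 := fun f hf => hz f (by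
      refine List.mem_cons_of_mem _ (List.mem_flatMap.2 ⟨r, List.mem_range.2 hr, ?_⟩)
      rwa [List.getD_eq_getElem _ _ hr])
    generalize E[r] = e at key
    obtain ⟨k, a, b, c⟩ := e
    by_cases hk : k = 0
    · simp only [posEq, hk, decide_true, cond_true, List.forall_mem_cons, defect, if_true,
        one_ne_zero, if_false] at key ⊢
      obtain ⟨h1, h2, h3, h4, h5, h6, h7, h8, -⟩ := key
      linear_combination h1 + h2 - h3 - h4 + h5 - h6 + h7 - h8
    · simp only [posEq, hk, decide_false, cond_false, List.forall_mem_cons, defect,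
        one_ne_zero, if_false] at key ⊢
      obtain ⟨h1, h2, h3, h4, -⟩ := key
      linear_combination h1 - h2 + h3 - h4

theorem solP_posSys {E : Eqs} (h : SolR E) : SolP (posSys E) := by
  obtain ⟨y, h0, hy⟩ := h
  let P : ℕ → ℝ := fun i => y i + |y i| + 1
  let M : ℕ → ℝ := fun i => |y i| + 1
  have hP : ∀ i, 0 < P i := fun i => by have := neg_abs_le (y i); simp only [P]; linarith
  have hM : ∀ i, 0 < M i := fun i => by have := abs_nonneg (y i); simp only [M]; linarith
  let U : ℕ × ℕ × ℕ × ℕ → ℝ := fun e =>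
    if e.1 = 0 then P e.2.1 * P e.2.2.1 + M e.2.1 * M e.2.2.1 else P e.2.1 + P e.2.2.1
  let W : ℕ × ℕ × ℕ × ℕ → ℝ := fun e =>
    if e.1 = 0 then P e.2.1 * M e.2.2.1 + M e.2.1 * P e.2.2.1 else M e.2.1 + M e.2.2.1
  have hU : ∀ e, 0 < U e := fun e => by
    have := hP e.2.1; have := hP e.2.2.1; have := hM e.2.1; have := hM e.2.2.1
    simp only [U]; split_ifs <;> positivity
  have hW : ∀ e, 0 < W e := fun e => by
    have := hP e.2.1; have := hP e.2.2.1; have := hM e.2.1; have := hM e.2.2.1
    simp only [W]; split_ifs <;> positivity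
  let V : ℕ → ℕ × ℕ × ℕ × ℕ → List ℝ := fun r e =>
    [1, P r, M r, P e.2.1 * P e.2.2.1, M e.2.1 * M e.2.2.1, U e, U e + M e.2.2.2,
      P e.2.1 * M e.2.2.1, M e.2.1 * P e.2.2.1, W e]
  let z : ℕ → ℝ := fun n => (V (n / 10) (E.getD (n / 10) (0, 0, 0, 0))).getD (n % 10) 1
  have hz : ∀ r s, s < 10 → z (10 * r + s) = (V r (E.getD r (0, 0, 0, 0))).getD s 1 := by
    intro r s hs
    have h1 : (10 * r + s) / 10 = r := by omega
    have h2 : (10 * r + s) % 10 = s := by omega
    simp only [z, h1, h2]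
  have hp : ∀ i, z (10 * i + 1) = P i := fun i => hz i 1 (by norm_num)
  have hm : ∀ i, z (10 * i + 2) = M i := fun i => hz i 2 (by norm_num)
  refine ⟨z, hz 0 0 (by norm_num), fun n => ?_, fun f hf => ?_⟩
  · simp only [z]
    generalize E.getD (n / 10) (0, 0, 0, 0) = e
    have : ∀ t ∈ V (n / 10) e, 0 < t := by
      have := hP e.2.1; have := hP e.2.2.1; have := hM e.2.1; have := hM e.2.2.1
      have := hM e.2.2.2; have := hU e; have := hW e
      have := hP (n / 10); have := hM (n / 10)
      simp only [V, List.forall_mem_cons]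
      refine ⟨?_, ?_, ?_, ?_, ?_, ?_, ?_, ?_, ?_, ?_, by simp⟩ <;> positivity
    rw [List.getD_eq_getElem?_getD]
    cases h : (V (n / 10) e)[n % 10]? with
    | none => simp
    | some t => exact this t (List.mem_of_getElem? h)
  · rcases List.mem_cons.1 hf with rfl | hf
    · have h1 : z 1 = P 0 := hp 0
      have h2 : z 2 = M 0 := hm 0
      have h3 : z 0 = 1 := hz 0 0 (by norm_num)
      simp only [defect, one_ne_zero, if_false, h1, h2, h3, P, M, h0]
      ring
    · obtain ⟨r, hr, hg⟩ := List.mem_flatMap.1 hf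
      have hr := List.mem_range.1 hr
      suffices H : ∀ g ∈ posEq r (E.getD r (0, 0, 0, 0)), defect z g = 0 from H f hg
      have hd := hy _ (List.getElem_mem hr)
      rw [← List.getD_eq_getElem _ (0, 0, 0, 0) hr] at hd
      have h3 := hz r 3 (by norm_num)
      have h4 := hz r 4 (by norm_num)
      have h5 := hz r 5 (by norm_num)
      have h6 := hz r 6 (by norm_num)
      have h7 := hz r 7 (by norm_num)
      have h8 := hz r 8 (by norm_num)
      have h9 := hz r 9 (by norm_num)
      generalize E.getD r (0, 0, 0, 0) = e at hd h3 h4 h5 h6 h7 h8 h9 ⊢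
      obtain ⟨k, a, b, c⟩ := e
      simp only [V, List.getD_cons_succ, List.getD_cons_zero] at h3 h4 h5 h6 h7 h8 h9
      by_cases hk : k = 0
      · simp only [posEq, hk, decide_true, cond_true, List.forall_mem_cons, defect, if_true,
          one_ne_zero, if_false, hp, hm, h3, h4, h5, h6, h7, h8, h9, U, W] at hd ⊢
        refine ⟨by ring, by ring, by ring, by ring, by ring, by ring, by ring, ?_, by simp⟩
        simp only [P, M]
        linear_combination -hd
      · simp only [posEq, hk, decide_false, cond_false, List.forall_mem_cons, defect,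
          one_ne_zero, if_false, hp, hm, h5, h6, h9, U, W] at hd ⊢
        refine ⟨by ring, by ring, by ring, ?_, by simp⟩
        simp only [P, M]
        linear_combination -hd

end Pool.Agent.P.MP_2989a6_lc
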