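import Mathlib

/-! Edge-disjoint transversals that hit every dense box. -/

namespace Pool.Agent.P.MP_2989a6_lc

/-- Cluster `c` consists of all indices if `big c`, otherwise of the first `s` indices. -/
def clu {m N : ℕ} (big : Fin m → Bool) (s : ℕ) (c : Fin m) : Finset (Fin N) :=
  Finset.univ.filter fun i => big c = true ∨ i.1 < s

/-- The edge between the chosen vertices of two clusters. -/
def edg {m N : ℕ} (w : Fin m → Fin N) (e : Fin m × Fin m) : Sym2 (Fin m × Fin N) :=
  s((e.1, w e.1), (e.2, w e.2))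

namespace Gr

open Finset

/-- One greedy step: an allowed element that lowers the potential by the factor `1 - 1/(4k)`. -/
theorem step {α ι : Type} [DecidableEq α] (Ω : Finset α) (R : α → α → Prop) [DecidableRel R]
    (D : ℕ) (hD : ∀ v, (Ω.filter fun w => R w v).card ≤ D) (I : Finset ι) (box : ι → Finset α)
    (hbox : ∀ i ∈ I, box i ⊆ Ω) (k : ℕ) (hk : 1 ≤ k) (hden : ∀ i ∈ I, Ω.card ≤ k * (box i).card)
    (hΩ : Ω.Nonempty) (U : Finset α) (hU : 2 * k * U.card * D ≤ Ω.card)
    (p : ι → ℝ) (hp : ∀ i, 0 ≤ p i) :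
    ∃ w, (∀ u ∈ U, ¬ R w u) ∧
      ∑ i ∈ I, (if w ∈ box i then p i / 2 else p i) ≤ (1 - 1 / (4 * (k : ℝ))) * ∑ i ∈ I, p i := by
  classical
  set F : Finset α := U.biUnion fun u => Ω.filter fun w => R w u with hF
  have hFc : F.card ≤ U.card * D := by
    refine le_trans card_biUnion_le ?_
    calc ∑ u ∈ U, (Ω.filter fun w => R w u).card ≤ ∑ _u ∈ U, D := sum_le_sum fun u _ => hD u
      _ = U.card * D := by simp
  have hF2 : 2 * k * F.card ≤ Ω.card := by
    calc 2 * k * F.card ≤ 2 * k * (U.card * D) := Nat.mul_le_mul_left _ hFc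
      _ = 2 * k * U.card * D := by ring
      _ ≤ _ := hU
  set A : Finset α := Ω \ F with hA
  have hΩp : 0 < Ω.card := hΩ.card_pos
  have hAne : A.Nonempty := by
    rw [← card_pos]
    have h1 : Ω.card ≤ A.card + F.card := by
      rw [hA]; exact card_le_card_sdiff_add_card
    nlinarith
  have hkR : (0 : ℝ) < k := by exact_mod_cast hk
  have hAΩ : (A.card : ℝ) ≤ Ω.card := by exact_mod_cast card_le_card sdiff_subset
  have hint : ∀ i ∈ I, (A.card : ℝ) / (2 * k) ≤ ((A.filter fun w => w ∈ box i).card : ℝ) := by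
    intro i hi
    have h1 : (box i).card ≤ (A.filter fun w => w ∈ box i).card + F.card := by
      refine le_trans (card_le_card ?_) (card_union_le _ _)
      intro w hw
      by_cases hwF : w ∈ F
      · exact mem_union_right _ hwF
      · exact mem_union_left _ (mem_filter.2 ⟨mem_sdiff.2 ⟨hbox i hi hw, hwF⟩, hw⟩)
    have h2 := hden i hi
    have h3 : Ω.card ≤ 2 * k * (A.filter fun w => w ∈ box i).card := by nlinarith
    have h4 : (Ω.card : ℝ) ≤ 2 * k * ((A.filter fun w => w ∈ box i).card : ℝ) := by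
      exact_mod_cast h3
    rw [div_le_iff₀ (by positivity)]
    nlinarith
  have hsum : ∑ w ∈ A, ∑ i ∈ I, (if w ∈ box i then p i / 2 else p i) ≤
      ∑ _w ∈ A, (1 - 1 / (4 * (k : ℝ))) * ∑ i ∈ I, p i := by
    rw [sum_comm, sum_const, nsmul_eq_mul, mul_sum, mul_sum]
    refine sum_le_sum fun i hi => ?_
    have e1 : ∀ w, (if w ∈ box i then p i / 2 else p i) =
        p i - (if w ∈ box i then p i / 2 else 0) := by
      intro w; split_ifs <;> ring
    simp only [e1]
    rw [sum_sub_distrib, ← sum_filter, sum_const, sum_const, nsmul_eq_mul, nsmul_eq_mul]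
    have h1 := mul_le_mul_of_nonneg_right (hint i hi) (hp i)
    have h2 : (A.card : ℝ) * ((1 - 1 / (4 * (k : ℝ))) * p i) =
        A.card * p i - (A.card : ℝ) / (2 * k) * p i / 2 := by
      field_simp; ring
    rw [h2]; linarith
  obtain ⟨w, hwA, hw⟩ := exists_le_of_sum_le hAne hsum
  refine ⟨w, fun u hu hR => ?_, hw⟩
  have := mem_sdiff.1 hwA
  exact this.2 (mem_biUnion.2 ⟨u, hu, mem_filter.2 ⟨this.1, hR⟩⟩)

/-- One group of `n` items. -/
theorem group {α ι : Type} [DecidableEq α] (Ω : Finset α) (R : α → α → Prop) [DecidableRel R]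
    (D : ℕ) (hD : ∀ v, (Ω.filter fun w => R w v).card ≤ D) (I : Finset ι) (box : ι → Finset α)
    (hbox : ∀ i ∈ I, box i ⊆ Ω) (k : ℕ) (hk : 1 ≤ k) (hden : ∀ i ∈ I, Ω.card ≤ k * (box i).card)
    (hΩ : Ω.Nonempty) (U : Finset α) (n : ℕ) (hU : 2 * k * (U.card + n) * D ≤ Ω.card) :
    ∃ f : ℕ → α, (∀ j < n, ∀ u ∈ U, ¬ R (f j) u) ∧ (∀ j < n, ∀ j' < j, ¬ R (f j) (f j')) ∧
      ∑ i ∈ I, (1 / 2 : ℝ) ^ ((range n).filter fun j => f j ∈ box i).card ≤
        (1 - 1 / (4 * (k : ℝ))) ^ n * I.card := by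
  classical
  induction n with
  | zero => exact ⟨fun _ => hΩ.choose, by simp, by simp, by simp⟩
  | succ n ih =>
    have hU' : 2 * k * (U.card + n) * D ≤ Ω.card :=
      le_trans (Nat.mul_le_mul_right _ (Nat.mul_le_mul_left _ (by omega))) hU
    obtain ⟨f, h1, h2, h3⟩ := ih hU'
    have hc : (U ∪ (range n).image f).card ≤ U.card + n := by
      refine le_trans (card_union_le _ _) (Nat.add_le_add_left ?_ _)
      exact le_trans card_image_le (by simp)
    obtain ⟨w, hw1, hw2⟩ := step Ω R D hD I box hbox k hk hden hΩ (U ∪ (range n).image f)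
      (le_trans (Nat.mul_le_mul_right _ (Nat.mul_le_mul_left _ hc)) hU')
      (fun i => (1 / 2 : ℝ) ^ ((range n).filter fun j => f j ∈ box i).card)
      (fun i => by positivity)
    have hup : ∀ j < n, Function.update f n w j = f j := fun j hj =>
      Function.update_of_ne (by omega) _ _
    refine ⟨Function.update f n w, ?_, ?_, ?_⟩
    · intro j hj u hu
      rcases Nat.lt_succ_iff_lt_or_eq.1 hj with h | h
      · rw [hup j h]; exact h1 j h u hu
      · subst h; rw [Function.update_self]; exact hw1 u (mem_union_left _ hu)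
    · intro j hj j' hj'
      rcases Nat.lt_succ_iff_lt_or_eq.1 hj with h | h
      · rw [hup j h, hup j' (by omega)]; exact h2 j h j' hj'
      · subst h
        rw [Function.update_self, hup j' hj']
        exact hw1 _ (mem_union_right _ (mem_image_of_mem _ (mem_range.2 hj')))
    · have hkR : (1 : ℝ) ≤ k := by exact_mod_cast hk
      have hq : (0 : ℝ) ≤ 1 - 1 / (4 * (k : ℝ)) := by
        have : 1 / (4 * (k : ℝ)) ≤ 1 := by
          rw [div_le_one (by positivity)]; linarith
        linarith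
      have e : ∀ i, (1 / 2 : ℝ) ^ ((range (n + 1)).filter fun j =>
          Function.update f n w j ∈ box i).card =
          if w ∈ box i then
            (1 / 2 : ℝ) ^ ((range n).filter fun j => f j ∈ box i).card / 2
          else (1 / 2 : ℝ) ^ ((range n).filter fun j => f j ∈ box i).card := by
        intro i
        have e0 : ((range n).filter fun j => Function.update f n w j ∈ box i) =
            (range n).filter fun j => f j ∈ box i :=
          filter_congr fun j hj => by rw [hup j (mem_range.1 hj)]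
        rw [range_add_one, filter_insert, Function.update_self, e0]
        split_ifs with h
        · rw [card_insert_of_notMem (by simp), pow_succ]; ring
        · rfl
      simp only [e]
      refine le_trans hw2 ?_
      rw [pow_succ, mul_comm (_ ^ n), mul_assoc]
      exact mul_le_mul_of_nonneg_left h3 hq

theorem pow_half (K : ℕ) (hK : 1 ≤ K) : (1 - 1 / (K : ℝ)) ^ K ≤ 1 / 2 := by
  have hKR : (1 : ℝ) ≤ K := by exact_mod_cast hK
  have h0 : (0 : ℝ) ≤ 1 - 1 / K := by
    have : 1 / (K : ℝ) ≤ 1 := by rw [div_le_one (by positivity)]; exact hKR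
    linarith
  have h1 : (2 : ℝ) ≤ (1 + 1 / (K : ℝ)) ^ K := by
    have := one_add_mul_le_pow (a := 1 / (K : ℝ))
      (le_trans (by norm_num) (by positivity : (0 : ℝ) ≤ 1 / (K : ℝ))) K
    have e : (K : ℝ) * (1 / K) = 1 := by field_simp
    rw [e] at this; linarith
  have h2 : (1 - 1 / (K : ℝ)) ^ K * (1 + 1 / (K : ℝ)) ^ K ≤ 1 := by
    rw [← mul_pow]
    refine pow_le_one₀ (by positivity) ?_
    nlinarith [sq_nonneg (1 / (K : ℝ))]
  have h3 : (0 : ℝ) ≤ (1 - 1 / (K : ℝ)) ^ K := pow_nonneg h0 _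
  nlinarith

/-- From the potential to the number of hits. -/
theorem hits {ι : Type} (I : Finset ι) (h : ι → ℕ) (k q L : ℕ) (hk : 1 ≤ k) (hI : I.card ≤ 2 ^ L)
    (hs : ∑ i ∈ I, (1 / 2 : ℝ) ^ h i ≤ (1 - 1 / (4 * (k : ℝ))) ^ (4 * k * q) * I.card)
    (i : ι) (hi : i ∈ I) : q ≤ h i + L := by
  have h1 : (1 / 2 : ℝ) ^ h i ≤ ∑ i ∈ I, (1 / 2 : ℝ) ^ h i :=
    single_le_sum (f := fun i => (1 / 2 : ℝ) ^ h i) (fun _ _ => by positivity) hi
  have h2 := pow_half (4 * k) (by omega)
  have hkR : (1 : ℝ) ≤ k := by exact_mod_cast hk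
  have h0 : (0 : ℝ) ≤ 1 - 1 / (4 * (k : ℝ)) := by
    have : 1 / (4 * (k : ℝ)) ≤ 1 := by rw [div_le_one (by positivity)]; linarith
    linarith
  have h3 : (1 - 1 / (4 * (k : ℝ))) ^ (4 * k * q) ≤ (1 / 2 : ℝ) ^ q := by
    rw [pow_mul]
    refine pow_le_pow_left₀ (pow_nonneg h0 _) ?_ _
    simpa using h2
  have h4 : (I.card : ℝ) ≤ 2 ^ L := by exact_mod_cast hI
  have h5 : (1 / 2 : ℝ) ^ h i ≤ (1 / 2 : ℝ) ^ q * 2 ^ L :=
    le_trans h1 (le_trans hs (mul_le_mul h3 h4 (by positivity) (by positivity)))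
  have h6 : (1 / 2 : ℝ) ^ (h i + L) ≤ (1 / 2 : ℝ) ^ q := by
    have e : (2 : ℝ) ^ L * (1 / 2) ^ L = 1 := by rw [← mul_pow]; norm_num
    calc (1 / 2 : ℝ) ^ (h i + L) = (1 / 2) ^ h i * (1 / 2) ^ L := pow_add _ _ _
      _ ≤ ((1 / 2 : ℝ) ^ q * 2 ^ L) * (1 / 2) ^ L :=
        mul_le_mul_of_nonneg_right h5 (by positivity)
      _ = (1 / 2 : ℝ) ^ q := by rw [mul_assoc, e, mul_one]
  exact (pow_le_pow_iff_right_of_lt_one₀ (by norm_num) (by norm_num)).1 h6

/-- All groups, one after another. -/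
theorem groups {α ι Γ : Type} [DecidableEq α] [Fintype Γ] (Ω : Finset α) (R : α → α → Prop)
    [DecidableRel R] (hR : ∀ a b, R a b → R b a)
    (D : ℕ) (hD : ∀ v, (Ω.filter fun w => R w v).card ≤ D) (I : Γ → Finset ι)
    (box : Γ → ι → Finset α) (hbox : ∀ g, ∀ i ∈ I g, box g i ⊆ Ω) (k q L : Γ → ℕ)
    (hk : ∀ g, 1 ≤ k g) (hden : ∀ g, ∀ i ∈ I g, Ω.card ≤ k g * (box g i).card)
    (hI : ∀ g, (I g).card ≤ 2 ^ L g) (hΩ : Ω.Nonempty)
    (hT : ∀ g, 2 * k g * (∑ g', 4 * k g' * q g') * D ≤ Ω.card) :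
    ∃ f : Γ → ℕ → α,
      (∀ g g', ∀ j < 4 * k g * q g, ∀ j' < 4 * k g' * q g', (g, j) ≠ (g', j') →
        ¬ R (f g j) (f g' j')) ∧
      ∀ g, ∀ i ∈ I g,
        q g ≤ ((range (4 * k g * q g)).filter fun j => f g j ∈ box g i).card + L g := by
  classical
  suffices H : ∀ S : Finset Γ, ∃ f : Γ → ℕ → α,
      (∀ g ∈ S, ∀ g' ∈ S, ∀ j < 4 * k g * q g, ∀ j' < 4 * k g' * q g', (g, j) ≠ (g', j') →
        ¬ R (f g j) (f g' j')) ∧
      ∀ g ∈ S, ∀ i ∈ I g,
        q g ≤ ((range (4 * k g * q g)).filter fun j => f g j ∈ box g i).card + L g by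
    obtain ⟨f, h1, h2⟩ := H univ
    exact ⟨f, fun g g' => h1 g (mem_univ _) g' (mem_univ _), fun g => h2 g (mem_univ _)⟩
  intro S
  induction S using Finset.induction_on with
  | empty => exact ⟨fun _ _ => hΩ.choose, by simp, by simp⟩
  | insert a S ha ih =>
    obtain ⟨f, h1, h2⟩ := ih
    set U : Finset α := S.biUnion fun g => (range (4 * k g * q g)).image (f g) with hUdef
    have hc : U.card + 4 * k a * q a ≤ ∑ g', 4 * k g' * q g' := by
      have c1 : U.card ≤ ∑ g ∈ S, 4 * k g * q g := by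
        refine le_trans card_biUnion_le (sum_le_sum fun g _ => ?_)
        exact le_trans card_image_le (by simp)
      have c2 : ∑ g ∈ insert a S, 4 * k g * q g ≤ ∑ g', 4 * k g' * q g' :=
        sum_le_sum_of_subset (subset_univ _)
      rw [sum_insert ha] at c2
      omega
    obtain ⟨F, hF1, hF2, hF3⟩ := group Ω R D hD (I a) (box a) (hbox a) (k a) (hk a) (hden a) hΩ U
      (4 * k a * q a) (le_trans (Nat.mul_le_mul_right _ (Nat.mul_le_mul_left _ hc)) (hT a))
    have hup : ∀ g ∈ S, Function.update f a F g = f g := fun g hg =>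
      Function.update_of_ne (by rintro rfl; exact ha hg) _ _
    have hmem : ∀ g ∈ S, ∀ j < 4 * k g * q g, f g j ∈ U := fun g hg j hj =>
      mem_biUnion.2 ⟨g, hg, mem_image_of_mem _ (mem_range.2 hj)⟩
    refine ⟨Function.update f a F, ?_, ?_⟩
    · intro g hg g' hg' j hj j' hj' hne
      rcases mem_insert.1 hg with h | h <;> rcases mem_insert.1 hg' with h' | h'
      · subst h; subst h'
        rw [Function.update_self]
        have : j ≠ j' := fun e => hne (by rw [e])
        rcases lt_or_gt_of_ne this with hl | hl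
        · exact fun hr => hF2 j' hj' j hl (hR _ _ hr)
        · exact hF2 j hj j' hl
      · subst h
        rw [Function.update_self, hup g' h']
        exact hF1 j hj _ (hmem g' h' j' hj')
      · subst h'
        rw [Function.update_self, hup g h]
        exact fun hr => hF1 j' hj' _ (hmem g h j hj) (hR _ _ hr)
      · rw [hup g h, hup g' h']
        exact h1 g h g' h' j hj j' hj' hne
    · intro g hg i hi
      rcases mem_insert.1 hg with h | h
      · subst h
        rw [Function.update_self]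
        exact hits (I g) (fun i => ((range (4 * k g * q g)).filter fun j => F j ∈ box g i).card)
          (k g) (q g) (L g) (hk g) (hI g) hF3 i hi
      · rw [hup g h]; exact h2 g h i hi

/-- Two choices agree in two different clusters. -/
def Ag {m N : ℕ} (w v : Fin m → Fin N) : Prop := ∃ c d, c ≠ d ∧ w c = v c ∧ w d = v d

theorem ag_of_edg {m N : ℕ} (w v : Fin m → Fin N) (e f : Fin m × Fin m) (he : e.1 ≠ e.2)
    (h : edg w e = edg v f) : Ag w v := by
  unfold edg at h
  rcases Sym2.eq_iff.1 h with ⟨h1, h2⟩ | ⟨h1, h2⟩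
  · obtain ⟨a1, a2⟩ := Prod.mk.inj h1
    obtain ⟨b1, b2⟩ := Prod.mk.inj h2
    exact ⟨e.1, e.2, he, by rw [a2, a1], by rw [b2, b1]⟩
  · obtain ⟨a1, a2⟩ := Prod.mk.inj h1
    obtain ⟨b1, b2⟩ := Prod.mk.inj h2
    exact ⟨e.1, e.2, he, by rw [a2, a1], by rw [b2, b1]⟩

theorem card_two {m N : ℕ} (A : Fin m → Finset (Fin N)) (s : ℕ) (hA : ∀ c, s ≤ (A c).card)
    (v : Fin m → Fin N) (c d : Fin m) (hcd : c ≠ d) :
    s ^ 2 * ((Fintype.piFinset A).filter fun w => w c = v c ∧ w d = v d).card ≤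
      (Fintype.piFinset A).card := by
  classical
  have h1 : ((Fintype.piFinset A).filter fun w => w c = v c ∧ w d = v d) ⊆
      Fintype.piFinset fun e => if e ∈ ({c, d} : Finset (Fin m)) then {v e} else A e := by
    intro w hw
    obtain ⟨hw1, hw2, hw3⟩ := mem_filter.1 hw
    rw [Fintype.mem_piFinset] at hw1 ⊢
    intro e
    split_ifs with h
    · rcases mem_insert.1 h with h | h
      · subst h; simpa using hw2
      · rw [mem_singleton] at h; subst h; simpa using hw3
    · exact hw1 e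
  have h2 : ∏ e : Fin m, (if e ∈ ({c, d} : Finset (Fin m)) then s else 1) = s ^ 2 := by
    rw [prod_ite_mem, univ_inter, prod_const, card_pair hcd]
  refine le_trans (Nat.mul_le_mul_left _ (card_le_card h1)) ?_
  rw [Fintype.card_piFinset, Fintype.card_piFinset, ← h2, ← prod_mul_distrib]
  refine prod_le_prod' fun e _ => ?_
  split_ifs with h
  · simpa using hA e
  · simp

open Classical in
theorem card_ag {m N : ℕ} (A : Fin m → Finset (Fin N)) (s : ℕ) (hA : ∀ c, s ≤ (A c).card)
    (v : Fin m → Fin N) :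
    s ^ 2 * ((Fintype.piFinset A).filter fun w => Ag w v).card ≤
      m ^ 2 * (Fintype.piFinset A).card := by
  have h1 : ((Fintype.piFinset A).filter fun w => Ag w v) ⊆
      (univ.filter fun e : Fin m × Fin m => e.1 ≠ e.2).biUnion fun e =>
        (Fintype.piFinset A).filter fun w => w e.1 = v e.1 ∧ w e.2 = v e.2 := by
    intro w hw
    obtain ⟨hw1, c, d, hcd, h⟩ := mem_filter.1 hw
    exact mem_biUnion.2 ⟨(c, d), mem_filter.2 ⟨mem_univ _, hcd⟩, mem_filter.2 ⟨hw1, h⟩⟩
  refine le_trans (Nat.mul_le_mul_left _ (le_trans (card_le_card h1) card_biUnion_le)) ?_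
  rw [mul_sum]
  calc _ ≤ ∑ _e ∈ univ.filter fun e : Fin m × Fin m => e.1 ≠ e.2, (Fintype.piFinset A).card :=
        sum_le_sum fun e he => card_two A s hA v e.1 e.2 (mem_filter.1 he).2
    _ ≤ _ := by
      rw [sum_const, smul_eq_mul]
      refine Nat.mul_le_mul_right _ (le_trans (card_filter_le _ _) ?_)
      simp [sq]

theorem card_small {N : ℕ} (s : ℕ) (h : s ≤ N) :
    (univ.filter fun i : Fin N => i.1 < s).card = s := by
  rw [Fin.card_filter_val_lt]; omega

theorem clu_small {m N : ℕ} (big : Fin m → Bool) (s : ℕ) (c : Fin m) (h : big c = false) :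
    clu (N := N) big s c = univ.filter fun i : Fin N => i.1 < s := by
  unfold clu; simp [h]

theorem le_card_clu {m N : ℕ} (big : Fin m → Bool) (s : ℕ) (h : s ≤ N) (c : Fin m) :
    s ≤ (clu (N := N) big s c).card := by
  rw [← card_small s h]
  conv_rhs => rw [card_small s h]
  refine card_le_card fun i hi => ?_
  exact mem_filter.2 ⟨mem_univ _, Or.inr (mem_filter.1 hi).2⟩

theorem card_box {m N : ℕ} (A B : Fin m → Finset (Fin N)) (k : ℕ)
    (h : ∀ c, (A c).card ≤ k * (B c).card) :
    (Fintype.piFinset A).card ≤ k ^ m * (Fintype.piFinset B).card := by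
  rw [Fintype.card_piFinset, Fintype.card_piFinset]
  calc ∏ c, (A c).card ≤ ∏ c, k * (B c).card := prod_le_prod' fun c _ => h c
    _ = _ := by rw [prod_mul_distrib]; simp

theorem card_fin_range (N : ℕ) (P : ℕ → Prop) [DecidablePred P] :
    ((range N).filter P).card = (univ.filter fun i : Fin N => P i.1).card := by
  rw [card_filter, card_filter, Finset.sum_range]

end Gr

open Finset Gr in
theorem greedy (m : ℕ) (big : Fin m → Bool) (G₁ G₂ : Type) [Fintype G₁] [Fintype G₂]
    (sh : G₁ ⊕ G₂ → List (Fin m × Fin m)) (hsh : ∀ g, ∀ e ∈ sh g, e.1 ≠ e.2)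
    (k₁ : ℕ) (h₁ : 1 ≤ k₁) : ∃ k₃ : ℕ, 1 ≤ k₃ ∧ ∀ k₂ : ℕ, 1 ≤ k₂ →
    ∃ (s N M : ℕ) (it : (G₁ × Fin N) ⊕ (G₂ × Fin M) → Fin m → Fin N), 0 < s ∧ s ≤ N ∧
      (∀ a b, a ≠ b → ∀ e ∈ sh (a.map Prod.fst Prod.fst), ∀ f ∈ sh (b.map Prod.fst Prod.fst),
        edg (it a) e ≠ edg (it b) f) ∧
      (∀ B : Fin m → Finset (Fin N),
        (∀ c, big c = false → B c ⊆ clu big s c ∧ s ≤ k₁ * (B c).card) → ∀ g,
        N ≤ k₃ * (Finset.univ.filter fun i =>
          ∀ c, big c = false → it (.inl (g, i)) c ∈ B c).card) ∧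
      (∀ B : Fin m → Finset (Fin N),
        (∀ c, B c ⊆ clu big s c ∧ (clu (N := N) big s c).card ≤ k₂ * (B c).card) → ∀ g,
        ∃ i, ∀ c, it (.inr (g, i)) c ∈ B c) := by
  classical
  have hu : 1 ≤ k₁ ^ m := Nat.one_le_pow _ _ h₁
  refine ⟨8 * k₁ ^ m, by omega, fun k₂ h₂ => ?_⟩
  have hv : 1 ≤ k₂ ^ m := Nat.one_le_pow _ _ h₂
  obtain ⟨u, hue⟩ : ∃ u, u = k₁ ^ m := ⟨_, rfl⟩
  obtain ⟨v, hve⟩ : ∃ v, v = k₂ ^ m := ⟨_, rfl⟩
  rw [← hue] at hu ⊢
  rw [← hve] at hv
  obtain ⟨a, ha⟩ : ∃ a, a = 4 * u * (2 * m + 1) := ⟨_, rfl⟩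
  obtain ⟨C, hC⟩ : ∃ C, C = Fintype.card G₁ * a + Fintype.card G₂ * (4 * v * (m * a + 1)) :=
    ⟨_, rfl⟩
  obtain ⟨s, hs⟩ : ∃ s, s = 2 * (u * v) * C * m ^ 2 + 1 := ⟨_, rfl⟩
  have hs0 : 0 < s := by omega
  obtain ⟨N, hN⟩ : ∃ N, N = 4 * u * ((2 * m + 1) * s) := ⟨_, rfl⟩
  have hNa : N = a * s := by rw [hN, ha]; ring
  have hsN : s ≤ N := by
    rw [hNa]; refine Nat.le_mul_of_pos_left _ ?_
    rw [ha]; positivity
  obtain ⟨M, hM⟩ : ∃ M, M = 4 * v * (m * N + 1) := ⟨_, rfl⟩
  set A : Fin m → Finset (Fin N) := clu big s with hA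
  have hAs : ∀ c, s ≤ (A c).card := le_card_clu big s hsN
  set Ω := Fintype.piFinset A with hΩ
  have hΩne : Ω.Nonempty := by
    rw [hΩ, Fintype.piFinset_nonempty]
    intro c
    exact card_pos.1 (lt_of_lt_of_le hs0 (hAs c))
  set I₁ : Finset (Fin m → Finset (Fin N)) :=
    (Fintype.piFinset fun _ : Fin m => (univ.filter fun i : Fin N => i.1 < s).powerset).filter
      fun B => ∀ c, big c = false → s ≤ k₁ * (B c).card with hI₁
  set I₂ : Finset (Fin m → Finset (Fin N)) :=
    (Fintype.piFinset fun c : Fin m => (A c).powerset).filter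
      fun B => ∀ c, (A c).card ≤ k₂ * (B c).card with hI₂
  have hT : ∑ g' : G₁ ⊕ G₂, 4 * Sum.elim (fun _ => u) (fun _ => v) g' *
      Sum.elim (fun _ => (2 * m + 1) * s) (fun _ => m * N + 1) g' ≤ C * s := by
    rw [Fintype.sum_sum_type]
    simp only [Sum.elim_inl, Sum.elim_inr, sum_const, card_univ, smul_eq_mul]
    rw [← hN, hC, hNa, add_mul]
    refine Nat.add_le_add (le_of_eq (by ring)) ?_
    rw [mul_assoc (Fintype.card G₂), mul_assoc (4 * v)]
    refine Nat.mul_le_mul_left _ (Nat.mul_le_mul_left _ ?_)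
    nlinarith
  obtain ⟨f, hf1, hf2⟩ := groups (Γ := G₁ ⊕ G₂) Ω Ag
    (fun a b ⟨c, d, h, h1, h2⟩ => ⟨c, d, h, h1.symm, h2.symm⟩) (m ^ 2 * Ω.card / s ^ 2)
    (fun w => by
      rw [Nat.le_div_iff_mul_le (by positivity), mul_comm]
      exact card_ag A s hAs w)
    (Sum.elim (fun _ => I₁) (fun _ => I₂))
    (Sum.elim (fun _ B => Fintype.piFinset fun c => if big c = true then A c else B c)
      (fun _ B => Fintype.piFinset B))
    (by
      rintro (g | g) B hB
      · refine Fintype.piFinset_subset _ _ fun c => ?_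
        split_ifs with h
        · exact subset_rfl
        · have := Fintype.mem_piFinset.1 (mem_filter.1 hB).1 c
          rw [hA, clu_small big s c (by simpa using h)]
          exact mem_powerset.1 this
      · exact Fintype.piFinset_subset _ _ fun c =>
          mem_powerset.1 (Fintype.mem_piFinset.1 (mem_filter.1 hB).1 c))
    (Sum.elim (fun _ => u) (fun _ => v))
    (Sum.elim (fun _ => (2 * m + 1) * s) (fun _ => m * N + 1))
    (Sum.elim (fun _ => m * s) (fun _ => m * N))
    (by rintro (g | g) <;> simpa)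
    (by
      rintro (g | g) B hB
      · simp only [Sum.elim_inl]
        rw [hue]
        refine card_box _ _ _ fun c => ?_
        split_ifs with h
        · exact Nat.le_mul_of_pos_left _ h₁
        · have h' : big c = false := by simpa using h
          rw [hA, clu_small big s c h', card_small s hsN]
          exact (mem_filter.1 hB).2 c h'
      · simp only [Sum.elim_inr]
        rw [hve]
        exact card_box _ _ _ (mem_filter.1 hB).2)
    (by
      rintro (g | g)
      · simp only [Sum.elim_inl]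
        refine le_trans (card_filter_le _ _) ?_
        rw [Fintype.card_piFinset]
        simp only [card_powerset, card_small s hsN, prod_const, card_univ, Fintype.card_fin]
        rw [← pow_mul, mul_comm]
      · simp only [Sum.elim_inr]
        refine le_trans (card_filter_le _ _) ?_
        rw [Fintype.card_piFinset]
        calc ∏ c, (A c).powerset.card ≤ ∏ _c : Fin m, 2 ^ N := by
              refine prod_le_prod' fun c _ => ?_
              rw [card_powerset]
              exact Nat.pow_le_pow_right (by norm_num) (le_trans (card_le_univ _) (by simp))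
          _ = _ := by simp only [prod_const, card_univ, Fintype.card_fin]; rw [← pow_mul, mul_comm])
    hΩne
    (by
      intro g
      have hk : Sum.elim (fun _ => u) (fun _ => v) g ≤ u * v := by
        rcases g with g | g
        · exact Nat.le_mul_of_pos_right _ hv
        · exact Nat.le_mul_of_pos_left _ hu
      have h1 : m ^ 2 * Ω.card / s ^ 2 * s ^ 2 ≤ m ^ 2 * Ω.card := Nat.div_mul_le_self _ _
      refine le_trans (Nat.mul_le_mul_right _
        (Nat.mul_le_mul (Nat.mul_le_mul_left 2 hk) hT)) ?_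
      refine Nat.le_of_mul_le_mul_right ?_ (show 0 < s ^ 2 by positivity)
      calc 2 * (u * v) * (C * s) * (m ^ 2 * Ω.card / s ^ 2) * s ^ 2
          = 2 * (u * v) * (C * s) * (m ^ 2 * Ω.card / s ^ 2 * s ^ 2) := by ring
        _ ≤ 2 * (u * v) * (C * s) * (m ^ 2 * Ω.card) := Nat.mul_le_mul_left _ h1
        _ = (2 * (u * v) * C * m ^ 2) * (s * Ω.card) := by ring
        _ ≤ s * (s * Ω.card) := Nat.mul_le_mul_right _ (by omega)
        _ = Ω.card * s ^ 2 := by ring)
  refine ⟨s, N, M, Sum.elim (fun p => f (.inl p.1) p.2) (fun p => f (.inr p.1) p.2), hs0, hsN,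
    ?_, ?_, ?_⟩
  · intro x y hxy e he e' _ hE
    have hag := ag_of_edg _ _ e e' (hsh _ e he) hE
    rcases x with ⟨g, j⟩ | ⟨g, j⟩ <;> rcases y with ⟨g', j'⟩ | ⟨g', j'⟩
    · refine hf1 (.inl g) (.inl g') j (by simpa [← hN] using j.2) j' (by simpa [← hN] using j'.2)
        (fun h => hxy ?_) hag
      obtain ⟨e1, e2⟩ := Prod.mk.inj h
      rw [Sum.inl.inj e1, Fin.ext e2]
    · exact hf1 (.inl g) (.inr g') j (by simpa [← hN] using j.2) j' (by simpa [← hM] using j'.2)
        (fun h => by simp at h) hag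
    · exact hf1 (.inr g) (.inl g') j (by simpa [← hM] using j.2) j' (by simpa [← hN] using j'.2)
        (fun h => by simp at h) hag
    · refine hf1 (.inr g) (.inr g') j (by simpa [← hM] using j.2) j' (by simpa [← hM] using j'.2)
        (fun h => hxy ?_) hag
      obtain ⟨e1, e2⟩ := Prod.mk.inj h
      rw [Sum.inr.inj e1, Fin.ext e2]
  · intro B hB g
    have hmem : (fun c => if big c = true then ∅ else B c) ∈ I₁ := by
      refine mem_filter.2 ⟨Fintype.mem_piFinset.2 fun c => ?_, fun c hc => ?_⟩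
      · split_ifs with h
        · exact empty_mem_powerset _
        · have h' : big c = false := by simpa using h
          rw [← clu_small big s c h']
          exact mem_powerset.2 (hB c h').1
      · simpa [hc] using (hB c hc).2
    have h1 := hf2 (.inl g) _ hmem
    simp only [Sum.elim_inl] at h1
    rw [← hN, card_fin_range] at h1
    have h2 : (univ.filter fun i : Fin N => f (.inl g) i ∈ Fintype.piFinset fun c =>
        if big c = true then A c else if big c = true then ∅ else B c).card ≤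
        (univ.filter fun i : Fin N => ∀ c, big c = false → f (.inl g) i c ∈ B c).card := by
      refine card_le_card fun i hi => mem_filter.2 ⟨mem_univ _, fun c hc => ?_⟩
      simpa [hc] using Fintype.mem_piFinset.1 (mem_filter.1 hi).2 c
    have h3 := le_trans h1 (Nat.add_le_add_right h2 _)
    simp only [Sum.elim_inl]
    generalize (univ.filter fun i : Fin N => ∀ c, big c = false → f (.inl g) i c ∈ B c).card = H
      at h3 ⊢
    have h4 : (2 * m + 1) * s ≤ 2 * H := by nlinarith
    calc N = 4 * u * ((2 * m + 1) * s) := hN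
      _ ≤ 4 * u * (2 * H) := Nat.mul_le_mul_left _ h4
      _ = 8 * u * H := by ring
  · intro B hB g
    have hmem : B ∈ I₂ :=
      mem_filter.2 ⟨Fintype.mem_piFinset.2 fun c => mem_powerset.2 (hB c).1, fun c => (hB c).2⟩
    have h1 := hf2 (.inr g) _ hmem
    simp only [Sum.elim_inr] at h1
    rw [← hM, card_fin_range] at h1
    obtain ⟨i, hi⟩ := card_pos.1 (show 0 < (univ.filter fun i : Fin M =>
      f (.inr g) i ∈ Fintype.piFinset B).card by omega)
    exact ⟨i, Fintype.mem_piFinset.1 (mem_filter.1 hi).2⟩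

end Pool.Agent.P.MP_2989a6_lc
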