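import Pool.Agent.P.MP_2989a6_lc.Spec
import Pool.Agent.P.MP_2989a6_lc.Force
import Pool.Agent.P.MP_2989a6_lc.Greedy

/-! The constant frame: vertices, trees and the intended positions of the clusters. -/

namespace Pool.Agent.P.MP_2989a6_lc

open Classical

/-- Trees: one for each chosen pair of edges, wedge trees, trees of the five central walls. -/
inductive FT (N M : ℕ) where
  | p (n : Fin 313) (j : Fin M)
  | w (k : Fin 3) (i : Fin N)
  | c (j : Fin M) (k : Fin 5)
  deriving Fintype

/-- Vertices: cluster vertices, outer hubs, inner hubs of pair trees and of central trees, and one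
helper for each pair tree. -/
inductive FV (N M : ℕ) where
  | cl (c : Cl) (i : Fin N)
  | gm (t : FT N M)
  | gp (n : Fin 313) (j : Fin M)
  | gc (j : Fin M) (k : Fin 5)
  | lp (n : Fin 313) (j : Fin M)
  deriving Fintype

/-- Kinds of trees. -/
abbrev Kd := Fin 313 ⊕ Fin 3 ⊕ Fin 5

def FT.kd {N M : ℕ} : FT N M → Kd
  | .p n _ => .inl n
  | .w k _ => .inr (.inl k)
  | .c _ k => .inr (.inr k)

/-- Cluster of the apex. -/
def cx : Kd → Cl
  | .inl n => (con n).1
  | .inr (.inl k) => ![0, 3, 6] k
  | .inr (.inr k) => ![9, 11, 12, 10, 10] k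

/-- Cluster of the end of the first wall. -/
def cy : Kd → Cl
  | .inl n => (con n).2.1
  | .inr (.inl k) => ![2, 5, 8] k
  | .inr (.inr k) => ![10, 9, 9, 11, 12] k

/-- Cluster of the end of the second wall (the same wall unless the tree is a wedge tree). -/
def cz : Kd → Cl
  | .inl n => (con n).2.1
  | .inr (.inl k) => ![1, 4, 7] k
  | .inr (.inr k) => ![10, 9, 9, 11, 12] k

/-- Orientation of the second wall. -/
def sg : Kd → ℤ
  | .inr (.inl _) => -1
  | _ => 1

/-- Cluster of the inner hubs of wedge trees. -/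
def oc : Fin 3 → Cl := ![18, 19, 20]

/-- Reference clusters on the two sides of the central walls. -/
def zpos : Fin 5 → Cl := ![14, 13, 13, 13, 13]
def zneg : Fin 5 → Cl := ![13, 14, 14, 17, 17]

def bigC (c : Cl) : Bool := decide (18 ≤ c.1)

/-- Cluster edges used by one transversal. -/
def shp : Fin 3 ⊕ (Fin 313 ⊕ Unit) → List (Cl × Cl)
  | .inl k => [(cx (.inr (.inl k)), cy (.inr (.inl k))), (cx (.inr (.inl k)), cz (.inr (.inl k)))]
  | .inr (.inl n) => [((con n).1, (con n).2.1), ((con n).2.2.1, (con n).2.2.2)]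
  | .inr (.inr _) => [(9, 10), (11, 9), (12, 9), (10, 11), (10, 12)]

/-! ### Intended positions `P0 c + η • D0 c` for small `η > 0` -/

def P0 : Cl → ℤ × ℤ :=
  ![(0, 0), (0, 300), (120, 0), (0, 60), (300, -240), (0, -60), (60, 0), (-240, 0), (-60, 120),
    (0, 30), (30, 0), (20, 40), (40, 20), (0, 10), (0, 50), (0, 40), (0, 35), (50, 0), (0, 33),
    (0, 37), (0, 42)]

def D0 : Cl → ℤ × ℤ :=
  ![(0, 0), (-3, 1), (1, -2), (1, 0), (3, 2), (-2, 1), (0, 1), (1, -3), (2, 1), (-5, 0), (0, -5),
    (5, 5), (6, 5), (3, 0), (3, 1), (20, 0), (9, 0), (0, 4), (10, 0), (8, 0), (10, 0)]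

def crs (u v : ℤ × ℤ) : ℤ := u.1 * v.2 - u.2 * v.1

/-- `σ` times the orientation determinant of three clusters is positive for small `η > 0`. -/
def lexp (σ : ℤ) (a b c : Cl) : Bool :=
  let c0 := σ * crs (P0 b - P0 a) (P0 c - P0 a)
  let c1 := σ * (crs (P0 b - P0 a) (D0 c - D0 a) + crs (D0 b - D0 a) (P0 c - P0 a))
  let c2 := σ * crs (D0 b - D0 a) (D0 c - D0 a)
  decide (0 < c0) || decide (c0 = 0) && (decide (0 < c1) || decide (c1 = 0) && decide (0 < c2))

def inB (k : Kd) (c : Cl) : Bool := lexp 1 (cx k) (cy k) c && lexp (sg k) (cx k) (cz k) c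

def outB (k : Kd) (c : Cl) : Bool := lexp (-1) (cx k) (cy k) c

/-- The room lies on the side `σ` of the limit line of two clusters. -/
def rside (σ : ℤ) (a b : Cl) (r : Fin 5) : Bool :=
  let f := fun m => σ * crs (P0 b - P0 a) (corner r m - P0 a)
  decide (0 ≤ f 0) && decide (0 ≤ f 1) && decide (0 ≤ f 2) && decide (0 < f 0 + f 1 + f 2)

/-- The room is attached to the inner hub. -/
def rs (k : Kd) (r : Fin 5) : Bool := rside 1 (cx k) (cy k) r

theorem tab_room : ∀ k r, if rs k r then rside (sg k) (cx k) (cz k) r = true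
    else rside (-1) (cx k) (cy k) r = true := by decide +kernel

theorem tab_rs : (∀ k r, rs (.inr (.inl k)) r = true) ∧ ∀ k r, rs (.inr (.inr k)) r = pat r k := by
  decide +kernel

theorem tab_pair : ∀ n : Fin 313, inB (.inl n) (con n).2.2.1 = true ∧
    inB (.inl n) (con n).2.2.2 = true ∧ bigC (con n).2.2.1 = false ∧
    (bigC (con n).2.2.2 = true → (con n).2.2.1 = 16) ∧
    [(con n).1, (con n).2.1, (con n).2.2.1, (con n).2.2.2].Nodup := by decide +kernel

theorem tab_wall : ∀ k, bigC (cx k) = false ∧ bigC (cy k) = false ∧ bigC (cz k) = false ∧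
    cx k ≠ cy k ∧ cx k ≠ cz k := by decide +kernel

theorem tab_wedge : ∀ k, inB (.inr (.inl k)) (oc k) = true ∧ inB (.inr (.inl k)) 13 = true ∧
    inB (.inr (.inl k)) 14 = true ∧ inB (.inr (.inl k)) 16 = true ∧
    inB (.inr (.inl k)) 17 = true ∧
    lexp 1 (cx (.inr (.inl k))) (cy (.inr (.inl k))) (cz (.inr (.inl k))) = true := by
  decide +kernel

theorem tab_ctr : ∀ k, inB (.inr (.inr k)) (zpos k) = true ∧ outB (.inr (.inr k)) (zneg k) = true := by
  decide +kernel

/-- The chosen transversals. -/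
abbrev Items (N M : ℕ) := (Fin 3 × Fin N) ⊕ ((Fin 313 ⊕ Unit) × Fin M) → Cl → Fin N

variable {N M : ℕ}

def slot : FT N M → (Fin 3 × Fin N) ⊕ ((Fin 313 ⊕ Unit) × Fin M)
  | .p n j => .inr (.inl n, j)
  | .w k i => .inl (k, i)
  | .c j _ => .inr (.inr (), j)

/-- Different transversals use different edges. -/
def Dist (it : Items N M) : Prop :=
  ∀ a b, a ≠ b → ∀ e ∈ shp (a.map Prod.fst Prod.fst), ∀ f ∈ shp (b.map Prod.fst Prod.fst),
    edg (it a) e ≠ edg (it b) f

section

variable (it : Items N M)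

def vx (t : FT N M) (c : Cl) : FV N M := .cl c (it (slot t) c)
def vX (t : FT N M) : FV N M := vx it t (cx t.kd)
def vY (t : FT N M) : FV N M := vx it t (cy t.kd)
def vZ (t : FT N M) : FV N M := vx it t (cz t.kd)
def fc (n : Fin 313) (j : Fin M) : FV N M := vx it (.p n j) (con n).2.2.1
def fd (n : Fin 313) (j : Fin M) : FV N M := vx it (.p n j) (con n).2.2.2

end

def inn : FT N M → FV N M
  | .p n j => .gp n j
  | .w k i => .cl (oc k) i
  | .c j k => .gc j k

/-- Hubs: `(t, true)` is the inner and `(t, false)` the outer hub of `t`. -/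
def fhv (h : FT N M × Bool) : FV N M := if h.2 then inn h.1 else .gm h.1

/-- The cluster next to which a vertex is placed, if any. -/
def co : FV N M → Option Cl
  | .cl c _ => some c
  | .gm (.c _ k) => some (zneg k)
  | .gm _ => none
  | .gp n _ => some (con n).2.2.1
  | .gc _ k => some (zpos k)
  | .lp n _ => some (con n).2.2.1

/-- The side pattern agrees with the intended positions of the clusters. -/
def Des (π : FT N M → FV N M → Bool) : Prop :=
  ∀ t v c, co v = some c → (inB t.kd c = true → π t v = true) ∧ (outB t.kd c = true → π t v = false)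

variable (it : Items N M) (π : FT N M → FV N M → Bool)

noncomputable def frad : FT N M → FV N M → FV N M
  | .p n j, v => if v = fd it n j then fc it n j else fhv (.p n j, π (.p n j) v)
  | .w k i, v => if h : ∃ q : Fin 313 × Fin M, fc it q.1 q.2 = v ∧ fd it q.1 q.2 = .cl (oc k) i then
      .lp h.choose.1 h.choose.2 else fhv (.w k i, π (.w k i) v)
  | .c j k, v => fhv (.c j k, π (.c j k) v)

noncomputable def fpar (t : FT N M) (v : FV N M) : FV N M :=
  if v = vY it t ∨ v = vZ it t ∨ v = inn t ∨ v = .gm t then vX it t else frad it π t v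

noncomputable def frk (h : FT N M × Bool) : ℕ :=
  (if (∃ k i, h = (.w k i, true)) then 0 else Fintype.card (FT N M × Bool)) +
    Fintype.equivFin _ h

def fatt (t : FT N M) (r : Fin 5) : FT N M × Bool := (t, rs t.kd r)

def fctr (j : Fin M) (k : Fin 4) : FV N M := vx it (.c j 0) (![9, 10, 11, 12] k)

end Pool.Agent.P.MP_2989a6_lc
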