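import Pool.Agent.P.MP_2989a6_lc.Geo2

/-! The same-type lemma in the plane. -/

namespace Pool.Agent.P.MP_2989a6_lc

open scoped Classical

namespace ST

variable {V : Type}

/-- `A'` is a part of `A` with at least the fraction `1 / k` of its elements. -/
def Fr (k : ℕ) (A' A : Finset V) : Prop := A' ⊆ A ∧ A.card ≤ k * A'.card

theorem Fr.trans {k l : ℕ} {A B C : Finset V} (h : Fr k A B) (h' : Fr l B C) : Fr (l * k) A C :=
  ⟨h.1.trans h'.1, h'.2.trans (by rw [mul_assoc]; exact Nat.mul_le_mul_left _ h.2)⟩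

theorem Fr.self {k : ℕ} (hk : 1 ≤ k) (A : Finset V) : Fr k A A :=
  ⟨subset_rfl, Nat.le_mul_of_pos_left _ hk⟩

theorem half_or (A : Finset V) (f : V → ℝ) (g : ℝ) :
    Fr 2 (A.filter (f · ≤ g)) A ∨ Fr 2 (A.filter (g ≤ f ·)) A := by
  have h1 := Finset.card_filter_add_card_filter_not (s := A) (fun a => f a ≤ g)
  have h2 : (A.filter fun a => ¬ f a ≤ g).card ≤ (A.filter (g ≤ f ·)).card :=
    Finset.card_le_card (Finset.monotone_filter_right _ fun a _ ha => (not_le.mp ha).le)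
  by_cases h : A.card ≤ 2 * (A.filter (f · ≤ g)).card
  · exact Or.inl ⟨Finset.filter_subset _ _, h⟩
  · exact Or.inr ⟨Finset.filter_subset _ _, by omega⟩

theorem median (A : Finset V) (f : V → ℝ) :
    ∃ g, Fr 2 (A.filter (f · ≤ g)) A ∧ Fr 2 (A.filter (g ≤ f ·)) A := by
  rcases A.eq_empty_or_nonempty with rfl | hA
  · exact ⟨0, ⟨by simp, by simp⟩, ⟨by simp, by simp⟩⟩
  obtain ⟨a, ha, h1⟩ := Finset.exists_max_image A f hA
  obtain ⟨b, hb, h2⟩ := Finset.exists_min_image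
    (A.filter fun a => A.card ≤ 2 * (A.filter (f · ≤ f a)).card) f
    ⟨a, Finset.mem_filter.mpr ⟨ha, by rw [Finset.filter_true_of_mem h1]; omega⟩⟩
  refine ⟨f b, ⟨Finset.filter_subset _ _, (Finset.mem_filter.mp hb).2⟩,
    Finset.filter_subset _ _, ?_⟩
  by_contra hc
  have h3 := Finset.card_filter_add_card_filter_not (s := A) (fun a => f b ≤ f a)
  obtain ⟨c, hc1, hc2⟩ := Finset.exists_max_image (A.filter fun a => ¬ f b ≤ f a) f
    (Finset.card_pos.mp (by omega))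
  have h4 : (A.filter fun a => ¬ f b ≤ f a).card ≤ (A.filter (f · ≤ f c)).card :=
    Finset.card_le_card fun x hx => Finset.mem_filter.mpr ⟨(Finset.mem_filter.mp hx).1, hc2 x hx⟩
  exact (Finset.mem_filter.mp hc1).2
    (h2 c (Finset.mem_filter.mpr ⟨(Finset.mem_filter.mp hc1).1, by omega⟩))

theorem split (A B : Finset V) (f : V → ℝ) : ∃ A' B', Fr 2 A' A ∧ Fr 2 B' B ∧
    ((∀ a ∈ A', ∀ b ∈ B', f a ≤ f b) ∨ ∀ b ∈ B', ∀ a ∈ A', f b ≤ f a) := by
  obtain ⟨g, h1, h2⟩ := median A f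
  rcases half_or B f g with h | h
  · exact ⟨_, _, h2, h, Or.inr fun b hb a ha =>
      (Finset.mem_filter.mp hb).2.trans (Finset.mem_filter.mp ha).2⟩
  · exact ⟨_, _, h1, h, Or.inl fun a ha b hb =>
      (Finset.mem_filter.mp ha).2.trans (Finset.mem_filter.mp hb).2⟩

variable {P : V → Pt}

/-- The height above the line of slope `a` through the origin. -/
def ht (P : V → Pt) (a : ℝ) (v : V) : ℝ := (P v).2 - a * (P v).1

/-- The slopes at which a half of `A` is below a half of `B`. -/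
def Sl (P : V → Pt) (A B : Finset V) : Set ℝ :=
  {a | ∃ A' B', Fr 2 A' A ∧ Fr 2 B' B ∧ ∀ x ∈ A', ∀ y ∈ B', ht P a x ≤ ht P a y}

theorem sl_closed (A B : Finset V) : IsClosed (Sl P A B) := by
  have : Sl P A B = ⋃ p ∈ {p : Finset V × Finset V | Fr 2 p.1 A ∧ Fr 2 p.2 B},
      ⋂ x ∈ p.1, ⋂ y ∈ p.2, {a | ht P a x ≤ ht P a y} := by
    ext a
    simp only [Sl, Set.mem_setOf_eq, Set.mem_iUnion, Set.mem_iInter]
    exact ⟨fun ⟨A', B', h1, h2, h3⟩ => ⟨(A', B'), ⟨h1, h2⟩, h3⟩,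
      fun ⟨p, ⟨h1, h2⟩, h3⟩ => ⟨_, _, h1, h2, h3⟩⟩
  rw [this]
  refine Set.Finite.isClosed_biUnion ((A.powerset ×ˢ B.powerset).finite_toSet.subset ?_) fun p _ =>
    isClosed_iInter fun x => isClosed_iInter fun _ => isClosed_iInter fun y =>
      isClosed_iInter fun _ => isClosed_le (by unfold ht; fun_prop) (by unfold ht; fun_prop)
  exact fun p hp => by simpa using ⟨hp.1.1, hp.2.1⟩

/-- `A` lies to the left of `B`. -/
def Lf (P : V → Pt) (A B : Finset V) : Prop := ∀ a ∈ A, ∀ b ∈ B, (P a).1 < (P b).1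

theorem exists_slope {L R : Finset V} (h : Lf P L R) : ∃ a, a ∈ Sl P L R ∧ a ∈ Sl P R L := by
  have h1 : ∀ᶠ a in Filter.atTop, ∀ y ∈ R, ∀ x ∈ L, ht P a y ≤ ht P a x := by
    simp only [Filter.eventually_all_finset]
    intro y hy x hx
    filter_upwards [Filter.eventually_ge_atTop (((P y).2 - (P x).2) / ((P y).1 - (P x).1))] with a ha
    rw [div_le_iff₀ (sub_pos.mpr (h x hx y hy))] at ha
    unfold ht; linarith
  have h2 : ∀ᶠ a in Filter.atBot, ∀ x ∈ L, ∀ y ∈ R, ht P a x ≤ ht P a y := by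
    simp only [Filter.eventually_all_finset]
    intro x hx y hy
    filter_upwards [Filter.eventually_le_atBot (((P y).2 - (P x).2) / ((P y).1 - (P x).1))] with a ha
    rw [le_div_iff₀ (sub_pos.mpr (h x hx y hy))] at ha
    unfold ht; linarith
  obtain ⟨a, ha⟩ := h1.exists
  obtain ⟨b, hb⟩ := h2.exists
  obtain ⟨c, -, hc⟩ := isPreconnected_closed_iff.mp isPreconnected_univ _ _ (sl_closed (P := P) L R)
    (sl_closed (P := P) R L) (fun a _ => by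
      obtain ⟨A', B', h1, h2, h3 | h3⟩ := split L R (ht P a)
      · exact Or.inl ⟨_, _, h1, h2, h3⟩
      · exact Or.inr ⟨_, _, h2, h1, h3⟩)
    ⟨b, trivial, L, R, Fr.self (by norm_num) _, Fr.self (by norm_num) _, hb⟩
    ⟨a, trivial, R, L, Fr.self (by norm_num) _, Fr.self (by norm_num) _, ha⟩
  exact ⟨c, hc⟩

/-- Halves of the three sets have a constant weak orientation. -/
def Res (P : V → Pt) (X Y Z : Finset V) : Prop := ∃ X' Y' Z', Fr 2 X' X ∧ Fr 2 Y' Y ∧ Fr 2 Z' Z ∧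
  ∃ σ : ℝ, (σ = 1 ∨ σ = -1) ∧ ∀ x ∈ X', ∀ y ∈ Y', ∀ z ∈ Z', 0 ≤ σ * det (P x) (P y) (P z)

theorem Res.sw₁ {X Y Z : Finset V} (h : Res P X Y Z) : Res P Y X Z := by
  obtain ⟨X', Y', Z', h1, h2, h3, σ, h4, h5⟩ := h
  refine ⟨_, _, _, h2, h1, h3, -σ, by rcases h4 with rfl | rfl <;> simp, fun y hy x hx z hz => ?_⟩
  have := h5 x hx y hy z hz
  unfold det at *; linarith

theorem Res.sw₂ {X Y Z : Finset V} (h : Res P X Y Z) : Res P X Z Y := by
  obtain ⟨X', Y', Z', h1, h2, h3, σ, h4, h5⟩ := h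
  refine ⟨_, _, _, h1, h3, h2, -σ, by rcases h4 with rfl | rfl <;> simp, fun x hx z hz y hy => ?_⟩
  have := h5 x hx y hy z hz
  unfold det at *; linarith

theorem res_sorted {L M R : Finset V} (h1 : Lf P L M) (h2 : Lf P M R) (h3 : Lf P L R) :
    Res P L M R := by
  obtain ⟨a, ⟨L₁, R₁, hL₁, hR₁, k1⟩, R₂, L₂, hR₂, hL₂, k2⟩ := exists_slope h3
  obtain ⟨g, hM₁, hM₂⟩ := median M (ht P a)
  have e : ∀ x y z, det (P x) (P y) (P z) = ((P y).1 - (P x).1) * (ht P a z - g) +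
      ((P z).1 - (P y).1) * (ht P a x - g) - ((P z).1 - (P x).1) * (ht P a y - g) :=
    fun x y z => by unfold det ht; ring
  have lo : ∀ L' R', Fr 2 L' L → Fr 2 R' R → (∀ x ∈ L', ht P a x ≤ g) → (∀ z ∈ R', ht P a z ≤ g) →
      Res P L M R := fun L' R' hL hR q1 q2 => by
    refine ⟨_, _, _, hL, hM₂, hR, -1, Or.inr rfl, fun x hx y hy z hz => ?_⟩
    have a1 := mul_nonneg (sub_pos.mpr (h1 x (hL.1 hx) y (hM₂.1 hy))).le (sub_nonneg.mpr (q2 z hz))
    have a2 := mul_nonneg (sub_pos.mpr (h2 y (hM₂.1 hy) z (hR.1 hz))).le (sub_nonneg.mpr (q1 x hx))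
    have a3 := mul_nonneg (sub_pos.mpr (h3 x (hL.1 hx) z (hR.1 hz))).le
      (sub_nonneg.mpr (Finset.mem_filter.mp hy).2)
    rw [e]; linarith
  have hi : ∀ L' R', Fr 2 L' L → Fr 2 R' R → (∀ x ∈ L', g ≤ ht P a x) → (∀ z ∈ R', g ≤ ht P a z) →
      Res P L M R := fun L' R' hL hR q1 q2 => by
    refine ⟨_, _, _, hL, hM₁, hR, 1, Or.inl rfl, fun x hx y hy z hz => ?_⟩
    have a1 := mul_nonneg (sub_pos.mpr (h1 x (hL.1 hx) y (hM₁.1 hy))).le (sub_nonneg.mpr (q2 z hz))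
    have a2 := mul_nonneg (sub_pos.mpr (h2 y (hM₁.1 hy) z (hR.1 hz))).le (sub_nonneg.mpr (q1 x hx))
    have a3 := mul_nonneg (sub_pos.mpr (h3 x (hL.1 hx) z (hR.1 hz))).le
      (sub_nonneg.mpr (Finset.mem_filter.mp hy).2)
    rw [e]; linarith
  by_cases c1 : ∀ x ∈ L₁, ht P a x ≤ g <;> by_cases c2 : ∀ x ∈ L₂, g ≤ ht P a x
  · rcases half_or R (ht P a) g with h | h
    · exact lo _ _ hL₁ h c1 fun z hz => (Finset.mem_filter.mp hz).2
    · exact hi _ _ hL₂ h c2 fun z hz => (Finset.mem_filter.mp hz).2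
  · push Not at c2
    obtain ⟨x, hx, c2⟩ := c2
    exact lo _ _ hL₁ hR₂ c1 fun z hz => (k2 z hz x hx).trans c2.le
  · push Not at c1
    obtain ⟨x, hx, c1⟩ := c1
    exact hi _ _ hL₂ hR₁ c2 fun z hz => c1.le.trans (k1 x hx z hz)
  · push Not at c1 c2
    obtain ⟨x, hx, c1⟩ := c1
    obtain ⟨x', hx', c2⟩ := c2
    rcases half_or L (ht P a) g with h | h
    · exact lo _ _ h hR₂ (fun z hz => (Finset.mem_filter.mp hz).2)
        fun z hz => (k2 z hz x' hx').trans c2.le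
    · exact hi _ _ h hR₁ (fun z hz => (Finset.mem_filter.mp hz).2)
        fun z hz => c1.le.trans (k1 x hx z hz)

theorem Lf.mono {A B A' B' : Finset V} (h : Lf P A B) (h1 : A' ⊆ A) (h2 : B' ⊆ B) : Lf P A' B' :=
  fun a ha b hb => h a (h1 ha) b (h2 hb)

theorem split_lf (hP : GP P) {A B : Finset V} (h : Disjoint A B) :
    ∃ A' B', Fr 2 A' A ∧ Fr 2 B' B ∧ (Lf P A' B' ∨ Lf P B' A') := by
  obtain ⟨A', B', h1, h2, h3⟩ := split A B fun v => (P v).1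
  have hne : ∀ a ∈ A', ∀ b ∈ B', (P a).1 ≠ (P b).1 := fun a ha b hb =>
    hP.1 a b fun e => Finset.disjoint_left.mp h (h1.1 ha) (e ▸ h2.1 hb)
  exact ⟨A', B', h1, h2, h3.imp (fun h3 a ha b hb => (h3 a ha b hb).lt_of_ne (hne a ha b hb))
    fun h3 b hb a ha => (h3 b hb a ha).lt_of_ne (hne a ha b hb).symm⟩

theorem res_cyc {X Y Z : Finset V} (h1 : Lf P X Y) (h2 : Lf P Y Z) (h3 : Lf P Z X) : Res P X Y Z :=
  ⟨X, Y, Z, Fr.self (by norm_num) _, Fr.self (by norm_num) _, Fr.self (by norm_num) _, 1,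
    Or.inl rfl, fun x hx y hy z hz =>
      absurd ((h1 x hx y hy).trans ((h2 y hy z hz).trans (h3 z hz x hx))) (lt_irrefl _)⟩

theorem triple (hP : GP P) {X Y Z : Finset V} (h1 : Disjoint X Y) (h2 : Disjoint X Z)
    (h3 : Disjoint Y Z) : ∃ X' Y' Z', Fr 8 X' X ∧ Fr 8 Y' Y ∧ Fr 8 Z' Z ∧
      ((∀ x ∈ X', ∀ y ∈ Y', ∀ z ∈ Z', 0 < det (P x) (P y) (P z)) ∨
        ∀ x ∈ X', ∀ y ∈ Y', ∀ z ∈ Z', det (P x) (P y) (P z) < 0) := by
  obtain ⟨X₁, Y₁, x1, y1, a⟩ := split_lf hP h1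
  obtain ⟨Y₂, Z₁, y2, z1, b⟩ := split_lf hP (h3.mono_left y1.1)
  obtain ⟨X₂, Z₂, x2, z2, c⟩ := split_lf hP (h2.mono x1.1 z1.1)
  have a' : Lf P X₂ Y₂ ∨ Lf P Y₂ X₂ := a.imp (·.mono x2.1 y2.1) (·.mono y2.1 x2.1)
  have b' : Lf P Y₂ Z₂ ∨ Lf P Z₂ Y₂ := b.imp (·.mono subset_rfl z2.1) (·.mono z2.1 subset_rfl)
  have : Res P X₂ Y₂ Z₂ := by
    rcases a' with a | a <;> rcases b' with b | b <;> rcases c with c | c
    · exact res_sorted a b c
    · exact res_cyc a b c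
    · exact (res_sorted c b a).sw₂
    · exact (res_sorted c a b).sw₁.sw₂
    · exact (res_sorted a c b).sw₁
    · exact (res_sorted b c a).sw₂.sw₁
    · exact (res_cyc c b a).sw₂
    · exact (res_sorted b a c).sw₁.sw₂.sw₁
  obtain ⟨X', Y', Z', x3, y3, z3, σ, hσ, h⟩ := this
  have x4 : Fr 8 X' X := (x3.trans x2).trans x1
  have y4 : Fr 8 Y' Y := (y3.trans y2).trans y1
  have z4 : Fr 8 Z' Z := (z3.trans z2).trans z1
  have hne : ∀ x ∈ X', ∀ y ∈ Y', ∀ z ∈ Z', det (P x) (P y) (P z) ≠ 0 := fun x hx y hy z hz =>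
    hP.2 x y z (fun e => Finset.disjoint_left.mp h1 (x4.1 hx) (e ▸ y4.1 hy))
      (fun e => Finset.disjoint_left.mp h2 (x4.1 hx) (e ▸ z4.1 hz))
      (fun e => Finset.disjoint_left.mp h3 (y4.1 hy) (e ▸ z4.1 hz))
  refine ⟨X', Y', Z', x4, y4, z4, ?_⟩
  rcases hσ with rfl | rfl
  · exact Or.inl fun x hx y hy z hz =>
      lt_of_le_of_ne (by simpa using h x hx y hy z hz) (hne x hx y hy z hz).symm
  · exact Or.inr fun x hx y hy z hz =>
      lt_of_le_of_ne (by simpa using h x hx y hy z hz) (hne x hx y hy z hz)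

end ST

theorem same_type : ∃ K : ℕ, 1 ≤ K ∧ ∀ {V ι : Type} (P : V → Pt), GP P →
    ∀ B : ι → Finset V, (∀ c c', c ≠ c' → Disjoint (B c) (B c')) →
    ∀ T : List (ι × ι × ι), (∀ t ∈ T, t.1 ≠ t.2.1 ∧ t.1 ≠ t.2.2 ∧ t.2.1 ≠ t.2.2) →
    ∃ B' : ι → Finset V, (∀ c, B' c ⊆ B c ∧ (B c).card ≤ K ^ T.length * (B' c).card) ∧
      (∀ c, (∀ t ∈ T, c ≠ t.1 ∧ c ≠ t.2.1 ∧ c ≠ t.2.2) → B' c = B c) ∧
      ∀ t ∈ T,
        (∀ x ∈ B' t.1, ∀ y ∈ B' t.2.1, ∀ z ∈ B' t.2.2, 0 < det (P x) (P y) (P z)) ∨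
        (∀ x ∈ B' t.1, ∀ y ∈ B' t.2.1, ∀ z ∈ B' t.2.2, det (P x) (P y) (P z) < 0) := by
  refine ⟨8, by norm_num, fun {V ι} P hP B hB T => ?_⟩
  induction T with
  | nil => exact fun _ => ⟨B, by simp, fun _ _ => rfl, by simp⟩
  | cons t T ih =>
    intro hT
    obtain ⟨C, h1, h2, h3⟩ := ih fun s hs => hT s (List.mem_cons_of_mem _ hs)
    obtain ⟨n1, n2, n3⟩ := hT t List.mem_cons_self
    obtain ⟨X, Y, Z, hX, hY, hZ, h4⟩ := ST.triple hP ((hB _ _ n1).mono (h1 _).1 (h1 _).1)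
      ((hB _ _ n2).mono (h1 _).1 (h1 _).1) ((hB _ _ n3).mono (h1 _).1 (h1 _).1)
    let D : ι → Finset V := fun c =>
      if c = t.1 then X else if c = t.2.1 then Y else if c = t.2.2 then Z else C c
    have hD : ∀ c, ST.Fr 8 (D c) (C c) := fun c => by
      simp only [D]
      split_ifs with e1 e2 e3
      · exact e1 ▸ hX
      · exact e2 ▸ hY
      · exact e3 ▸ hZ
      · exact ST.Fr.self (by norm_num) _
    refine ⟨D, fun c => ?_, fun c hc => ?_, fun s hs => ?_⟩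
    · rw [List.length_cons, pow_succ]
      exact (hD c).trans (h1 c)
    · obtain ⟨e1, e2, e3⟩ := hc t List.mem_cons_self
      simp only [D, if_neg e1, if_neg e2, if_neg e3]
      exact h2 c fun s hs => hc s (List.mem_cons_of_mem _ hs)
    · rcases List.mem_cons.mp hs with rfl | hs
      · simpa only [D, if_neg n1.symm, if_neg n2.symm, if_neg n3.symm, if_true] using h4
      · exact (h3 s hs).imp (fun h x hx y hy z hz => h x ((hD _).1 hx) y ((hD _).1 hy) z ((hD _).1 hz))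
          fun h x hx y hy z hz => h x ((hD _).1 hx) y ((hD _).1 hy) z ((hD _).1 hz)

end Pool.Agent.P.MP_2989a6_lc
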