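import Pool.Agent.P.MP_2989a6_lc.FrameNoA
import Pool.Agent.P.MP_2989a6_lc.SameType

/-! Homogeneous boxes of clusters. -/

namespace Pool.Agent.P.MP_2989a6_lc

/-- All transversal triples of three boxes have the same orientation. -/
def Hom {N : ℕ} (R : Cl → Fin N → Pt) (B : Cl → Finset (Fin N)) (a b c : Cl) : Prop :=
  (∀ x ∈ B a, ∀ y ∈ B b, ∀ z ∈ B c, 0 < det (R a x) (R b y) (R c z)) ∨
    ∀ x ∈ B a, ∀ y ∈ B b, ∀ z ∈ B c, det (R a x) (R b y) (R c z) < 0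

theorem Hom.mono {N : ℕ} {R : Cl → Fin N → Pt} {B B' : Cl → Finset (Fin N)} {a b c : Cl}
    (h : Hom R B a b c) (ha : B' a ⊆ B a) (hb : B' b ⊆ B b) (hc : B' c ⊆ B c) : Hom R B' a b c :=
  h.imp (fun h x hx y hy z hz => h x (ha hx) y (hb hy) z (hc hz))
    fun h x hx y hy z hz => h x (ha hx) y (hb hy) z (hc hz)

theorem Hom.same {N : ℕ} {R : Cl → Fin N → Pt} {B : Cl → Finset (Fin N)} {a b c : Cl}
    (h : Hom R B a b c) {v w : Cl → Fin N} (hv : ∀ c, v c ∈ B c) (hw : ∀ c, w c ∈ B c) :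
    0 < det (R a (v a)) (R b (v b)) (R c (v c)) * det (R a (w a)) (R b (w b)) (R c (w c)) := by
  rcases h with h | h
  · exact mul_pos (h _ (hv a) _ (hv b) _ (hv c)) (h _ (hw a) _ (hw b) _ (hw c))
  · exact mul_pos_of_neg_of_neg (h _ (hv a) _ (hv b) _ (hv c)) (h _ (hw a) _ (hw b) _ (hw c))

theorem neg_transfer {x y x' y' : ℝ} (h1 : 0 < x * x') (h2 : 0 < y * y') (h : x' * y' < 0) :
    x * y < 0 := by
  by_contra k
  nlinarith [mul_pos h1 h2, mul_nonneg (not_lt.1 k) (neg_nonneg.2 h.le)]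

theorem nc_transfer {N : ℕ} {R : Cl → Fin N → Pt} {B : Cl → Finset (Fin N)} {a b c d : Cl}
    (h1 : Hom R B a b c) (h2 : Hom R B a b d) (h3 : Hom R B c d a) (h4 : Hom R B c d b)
    {v w : Cl → Fin N} (hv : ∀ c, v c ∈ B c) (hw : ∀ c, w c ∈ B c)
    (h : NC (R a (v a)) (R b (v b)) (R c (v c)) (R d (v d))) :
    NC (R a (w a)) (R b (w b)) (R c (w c)) (R d (w d)) := fun k =>
  h ⟨neg_transfer (h1.same hv hw) (h2.same hv hw) k.1,
    neg_transfer (h3.same hv hw) (h4.same hv hw) k.2⟩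

theorem same_cl : ∃ K : ℕ, 1 ≤ K ∧ ∀ (N : ℕ) (R : Cl → Fin N → Pt),
    GP (fun p : Cl × Fin N => R p.1 p.2) → ∀ (B : Cl → Finset (Fin N)) (A : Cl → Prop),
    ∃ B' : Cl → Finset (Fin N), (∀ c, B' c ⊆ B c ∧ (B c).card ≤ K * (B' c).card) ∧
      (∀ c, ¬ A c → B' c = B c) ∧
      ∀ a b c, a ≠ b → a ≠ c → b ≠ c → A a → A b → A c → Hom R B' a b c := by
  classical
  obtain ⟨K, hK, h⟩ := same_type
  refine ⟨K ^ Fintype.card (Cl × Cl × Cl), Nat.one_le_pow _ _ hK, fun N R hR B A => ?_⟩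
  let T : Finset (Cl × Cl × Cl) := Finset.univ.filter fun t =>
    (t.1 ≠ t.2.1 ∧ t.1 ≠ t.2.2 ∧ t.2.1 ≠ t.2.2) ∧ A t.1 ∧ A t.2.1 ∧ A t.2.2
  have hT : ∀ t, t ∈ T.toList ↔
      (t.1 ≠ t.2.1 ∧ t.1 ≠ t.2.2 ∧ t.2.1 ≠ t.2.2) ∧ A t.1 ∧ A t.2.1 ∧ A t.2.2 := fun t => by
    simp only [T, Finset.mem_toList, Finset.mem_filter, Finset.mem_univ, true_and]
  obtain ⟨C, h1, h2, h3⟩ := h _ hR (fun c => (B c).image (Prod.mk c)) (fun c c' k => by
    refine Finset.disjoint_left.2 fun p p1 p2 => ?_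
    obtain ⟨_, -, rfl⟩ := Finset.mem_image.1 p1
    obtain ⟨_, -, e⟩ := Finset.mem_image.1 p2
    exact k (congrArg Prod.fst e).symm) T.toList fun t ht => ((hT t).1 ht).1
  have inj : ∀ c : Cl, Function.Injective (Prod.mk c : Fin N → Cl × Fin N) :=
    fun c _ _ e => congrArg Prod.snd e
  refine ⟨fun c => Finset.univ.filter fun i => (c, i) ∈ C c, fun c => ⟨fun i hi => ?_, ?_⟩,
    fun c hc => ?_, fun a b c k1 k2 k3 a1 a2 a3 => ?_⟩
  · obtain ⟨j, hj, e⟩ := Finset.mem_image.1 ((h1 c).1 (Finset.mem_filter.1 hi).2)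
    exact inj c e ▸ hj
  · have e1 := (h1 c).2
    rw [Finset.card_image_of_injective _ (inj c)] at e1
    have e2 : (C c).card ≤ (Finset.univ.filter fun i => (c, i) ∈ C c).card := by
      refine le_trans (Finset.card_le_card fun p hp => ?_) (Finset.card_image_le (f := Prod.mk c))
      obtain ⟨j, -, rfl⟩ := Finset.mem_image.1 ((h1 c).1 hp)
      exact Finset.mem_image_of_mem _ (Finset.mem_filter.2 ⟨Finset.mem_univ _, hp⟩)
    refine e1.trans (Nat.mul_le_mul (Nat.pow_le_pow_right hK ?_) e2)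
    rw [Finset.length_toList]
    exact Finset.card_le_univ _
  · ext i
    simp only [Finset.mem_filter, Finset.mem_univ, true_and]
    rw [h2 c fun t ht => ⟨fun e => hc (e ▸ ((hT t).1 ht).2.1), fun e => hc (e ▸ ((hT t).1 ht).2.2.1),
      fun e => hc (e ▸ ((hT t).1 ht).2.2.2)⟩]
    exact (inj c).mem_finset_image
  · exact (h3 (a, b, c) ((hT _).2 ⟨⟨k1, k2, k3⟩, a1, a2, a3⟩)).imp
      (fun k x hx y hy z hz => k _ (Finset.mem_filter.1 hx).2 _ (Finset.mem_filter.1 hy).2 _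
        (Finset.mem_filter.1 hz).2)
      fun k x hx y hy z hz => k _ (Finset.mem_filter.1 hx).2 _ (Finset.mem_filter.1 hy).2 _
        (Finset.mem_filter.1 hz).2

/-- The wedge tree that belongs to a big cluster. -/
def ko (c : Cl) : Fin 3 := Fin.ofNat 3 c.1

theorem ko_oc : ∀ k, ko (oc k) = k ∧ bigC (oc k) = true := by decide

/-- The two stages of refinement. -/
theorem boxes : ∃ k₁ : ℕ, 1 ≤ k₁ ∧ ∀ k₃ : ℕ, 1 ≤ k₃ → ∃ k₂ : ℕ, 1 ≤ k₂ ∧
    ∀ (s N M : ℕ) (it : Items N M), s ≤ N →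
      (∀ B : Cl → Finset (Fin N),
        (∀ c, bigC c = false → B c ⊆ clu bigC s c ∧ s ≤ k₁ * (B c).card) → ∀ g,
        N ≤ k₃ * (Finset.univ.filter fun i =>
          ∀ c, bigC c = false → it (.inl (g, i)) c ∈ B c).card) →
      ∀ R : Cl → Fin N → Pt, GP (fun p : Cl × Fin N => R p.1 p.2) →
      ∃ B : Cl → Finset (Fin N),
        (∀ c, B c ⊆ clu bigC s c ∧ (clu (N := N) bigC s c).card ≤ k₂ * (B c).card) ∧
        (∀ a b c, a ≠ b → a ≠ c → b ≠ c →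
          (a.1 < 18 ∧ b.1 < 18 ∧ c.1 < 18 ∨ 9 ≤ a.1 ∧ 9 ≤ b.1 ∧ 9 ≤ c.1) → Hom R B a b c) ∧
        ∀ k, ∀ i ∈ B (oc k), ∀ c : Cl, c.1 < 9 → it (.inl (k, i)) c ∈ B c := by
  obtain ⟨K, hK, h⟩ := same_cl
  refine ⟨K, hK, fun k₃ h₃ => ⟨K * k₃ * K, Nat.mul_pos (Nat.mul_pos hK h₃) hK,
    fun s N M it hs H R hR => ?_⟩⟩
  obtain ⟨B1, a1, -, a3⟩ := h N R hR (clu bigC s) fun c => c.1 < 18
  have H1 := H B1 fun c _ => ⟨(a1 c).1, (Gr.le_card_clu bigC s hs c).trans (a1 c).2⟩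
  let C : Cl → Finset (Fin N) := fun c => if bigC c = true then
    Finset.univ.filter fun i => ∀ c', bigC c' = false → it (.inl (ko c, i)) c' ∈ B1 c' else B1 c
  have sm : ∀ c : Cl, c.1 < 18 → bigC c = false := by decide
  have hC : ∀ c : Cl, c.1 < 18 → C c = B1 c := fun c hc => if_neg (by simp [sm c hc])
  obtain ⟨B2, b1, b2, b3⟩ := h N R hR C fun c => 9 ≤ c.1
  refine ⟨B2, fun c => ?_, fun a b c k1 k2 k3 k => ?_, fun k i hi c hc => ?_⟩
  · by_cases hc : bigC c = true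
    · refine ⟨fun i _ => Finset.mem_filter.2 ⟨Finset.mem_univ _, Or.inl hc⟩, ?_⟩
      have e1 : (clu (N := N) bigC s c).card ≤ N := by
        simpa using Finset.card_le_univ (clu (N := N) bigC s c)
      have e2 : N ≤ k₃ * (C c).card := by
        simp only [C, if_pos hc]
        exact H1 _
      calc _ ≤ k₃ * (K * (B2 c).card) := e1.trans (e2.trans (Nat.mul_le_mul_left _ (b1 c).2))
        _ = 1 * k₃ * K * (B2 c).card := by ring
        _ ≤ _ := by gcongr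
    · have e : C c = B1 c := if_neg hc
      refine ⟨(b1 c).1.trans (e ▸ (a1 c).1), ?_⟩
      calc _ ≤ K * (K * (B2 c).card) := (a1 c).2.trans (Nat.mul_le_mul_left _ (e ▸ (b1 c).2))
        _ = K * 1 * K * (B2 c).card := by ring
        _ ≤ _ := by gcongr
  · rcases k with ⟨x, y, z⟩ | ⟨x, y, z⟩
    · exact (a3 a b c k1 k2 k3 x y z).mono (hC a x ▸ (b1 a).1) (hC b y ▸ (b1 b).1)
        (hC c z ▸ (b1 c).1)
    · exact b3 a b c k1 k2 k3 x y z
  · have e := (b1 _).1 hi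
    simp only [C, if_pos (ko_oc k).2, (ko_oc k).1] at e
    rw [b2 c (by omega), hC c (by omega)]
    exact (Finset.mem_filter.1 e).2 c (sm c (by omega))

end Pool.Agent.P.MP_2989a6_lc
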