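import Pool.Agent.P.MP_2989a6_lc.FramePre
import Pool.Agent.P.MP_2989a6_lc.SameType
import Pool.Agent.P.MP_2989a6_lc.FrameNoB

/-! Every plane drawing of the frame trees contains four centres that confine all rooms. -/

namespace Pool.Agent.P.MP_2989a6_lc

namespace FS

variable {N M : ℕ} {it : Items N M} {π : FT N M → FV N M → Bool} {hd : Dist it} {hN : 0 < N}

theorem hv_big {h : FT N M × Bool} {c : Cl} {i : Fin N} (e : fhv h = .cl c i) :
    bigC c = true ∧ ∃ k, h = (.w k i, true) := by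
  obtain ⟨t, b⟩ := h
  cases b
  · simp [fhv] at e
  · rcases t with _ | ⟨k, j⟩ | _ <;> simp only [fhv, inn, if_true, reduceCtorEq] at e
    obtain ⟨rfl, rfl⟩ := FV.cl.inj e
    exact ⟨(ko_oc k).2, k, rfl⟩

theorem hv_ne (h : FT N M × Bool) (t : FT N M) {c : Cl} (hc : bigC c = false) :
    fhv h ≠ vx it t c := fun e => by
  have := (hv_big e).1
  rw [hc] at this
  exact Bool.false_ne_true this

theorem vx_ne (t : FT N M) {c c' : Cl} (h : c ≠ c') : vx it t c ≠ vx it t c' :=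
  fun e => h (FV.cl.inj e).1

theorem keep_small (t t' : FT N M) {c : Cl} (hc : bigC c = false) :
    (fpre it π hd hN).Keep t (vx it t' c) := by
  rintro ⟨a, b, -, -, e⟩
  exact hv_ne b t' hc e

theorem par_rad {t : FT N M} {v : FV N M} (h1 : v ≠ vY it t) (h2 : v ≠ vZ it t) (h3 : v ≠ inn t)
    (h4 : v ≠ .gm t) : fpar it π t v = frad it π t v :=
  if_neg (by simp [h1, h2, h3, h4])

section

variable {ι : Type} {ρ : ι → Fin 5} {P : FV N M ⊕ ι → Pt}

/-- The hypothesis that all extended trees are drawn without crossings. -/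
def Pl (it : Items N M) (π : FT N M → FV N M → Bool) (hd : Dist it) (hN : 0 < N) (ρ : ι → Fin 5)
    (P : FV N M ⊕ ι → Pt) : Prop :=
  ∀ t, Plane (epar (fpre it π hd hN) fatt ρ t) (.inl ((fpre it π hd hN).root t))
    (Sum.elim ((fpre it π hd hN).Keep t) fun _ => True) P

/-- The vertex `q` is joined to `r` by a kept edge of the tree `t`. -/
def Jn (it : Items N M) (π : FT N M → FV N M → Bool) (hd : Dist it) (hN : 0 < N) (ρ : ι → Fin 5)
    (t : FT N M) (q : FV N M ⊕ ι) (r : FV N M) : Prop :=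
  q ≠ .inl (vX it t) ∧ Sum.elim ((fpre it π hd hN).Keep t) (fun _ => True) q ∧
    epar (fpre it π hd hN) fatt ρ t q = .inl r

theorem wallDj (hP : Pl it π hd hN ρ P) {t : FT N M} {q : FV N M ⊕ ι} {r : FV N M}
    (hj : Jn it π hd hN ρ t q r) (hr : r ≠ vX it t) {c : Cl} (hc : c = cy t.kd ∨ c = cz t.kd)
    (hr' : r ≠ vx it t c) :
    Dj (P q) (P (.inl r)) (P (.inl (vx it t c))) (P (.inl (vX it t))) := by
  obtain ⟨w1, w2, w3, w4, w5⟩ := tab_wall t.kd
  have e : epar (fpre it π hd hN) fatt ρ t (.inl (vx it t c)) = .inl (vX it t) := by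
    refine congrArg Sum.inl (if_pos ?_)
    rcases hc with rfl | rfl
    · exact Or.inl rfl
    · exact Or.inr (Or.inl rfl)
  have hs : bigC c = false := by rcases hc with rfl | rfl <;> assumption
  have hx : c ≠ cx t.kd := by
    rcases hc with rfl | rfl
    · exact w4.symm
    · exact w5.symm
  have := hP t q (.inl (vx it t c)) hj.1 (fun k => vx_ne t hx (Sum.inl.inj k)) hj.2.1
    (keep_small t t hs) (fun k => hr (Sum.inl.inj (by rw [← hj.2.2, k, e]))) (e ▸ hj.1)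
    (hj.2.2 ▸ fun k => hr' (Sum.inl.inj k)) (by rw [hj.2.2, e]; exact fun k => hr (Sum.inl.inj k))
  rwa [hj.2.2, e] at this

theorem jn_new (t : FT N M) (i : ι) : Jn it π hd hN ρ t (.inr i) (fhv (t, rs t.kd (ρ i))) :=
  ⟨by simp, trivial, rfl⟩

theorem jn_pair (n : Fin 313) (j : Fin M) :
    Jn it π hd hN ρ (.p n j) (.inl (fd it n j)) (fc it n j) := by
  obtain ⟨-, -, p3, -, p5⟩ := tab_pair n
  simp only [List.nodup_cons, List.mem_cons, List.not_mem_nil, or_false, not_or] at p5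
  have e : fpar it π (.p n j) (fd it n j) = fc it n j := by
    refine (par_rad (t := .p n j) (v := fd it n j) (vx_ne _ fun k => p5.2.1.2 k.symm)
      (vx_ne _ fun k => p5.2.1.2 k.symm) (by simp [fd, vx, inn]) (by simp [fd, vx])).trans ?_
    exact if_pos rfl
  refine ⟨fun k => vx_ne _ (fun k => p5.1.2.2 k.symm) (Sum.inl.inj k), ?_, congrArg Sum.inl e⟩
  rintro ⟨a, b, h, h1, h2⟩
  have h3 := h.2.1
  rw [h1, h2] at h3
  exact hv_ne a _ p3 (h3.symm.trans e)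

theorem pair_nc (hP : Pl it π hd hN ρ P) (n : Fin 313) (j : Fin M) :
    NC (P (.inl (vx it (.p n j) (con n).1))) (P (.inl (vx it (.p n j) (con n).2.1)))
      (P (.inl (vx it (.p n j) (con n).2.2.1))) (P (.inl (vx it (.p n j) (con n).2.2.2))) := by
  obtain ⟨-, -, -, -, p5⟩ := tab_pair n
  simp only [List.nodup_cons, List.mem_cons, List.not_mem_nil, or_false, not_or] at p5
  exact (wallDj hP (jn_pair n j) (vx_ne _ fun k => p5.1.2.1 k.symm) (Or.inl rfl)
    (vx_ne _ fun k => p5.2.1.1 k.symm)).symm.swap.swap'.nc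

theorem jn_wedge (hπ : Des π) (k : Fin 3) (i : Fin N) {v : FV N M} {c : Cl} (hv : co v = some c)
    (hc : c = 13 ∨ c = 14 ∨ c = 17) : Jn it π hd hN ρ (.w k i) (.inl v) (.cl (oc k) i) := by
  have n0 : ∀ (c' : Cl) j, c' ≠ c → v ≠ .cl c' j := fun c' j h e => by
    rw [e] at hv
    exact h (Option.some.inj hv)
  have tb : ∀ k, ∀ c : Cl, c = 13 ∨ c = 14 ∨ c = 17 → cx (.inr (.inl k)) ≠ c ∧
      cy (.inr (.inl k)) ≠ c ∧ cz (.inr (.inl k)) ≠ c ∧ oc k ≠ c ∧ (16 : Cl) ≠ c := by decide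
  obtain ⟨t1, t2, t3, t4, t5⟩ := tb k c hc
  have hin : inB (FT.w k i : FT N M).kd c = true := by
    obtain ⟨-, a, b, -, d, -⟩ := tab_wedge k
    rcases hc with rfl | rfl | rfl <;> assumption
  have e : fpar it π (.w k i) v = .cl (oc k) i := by
    refine (par_rad (t := .w k i) (v := v) (n0 _ _ t2) (n0 _ _ t3) (n0 _ _ t4)
      (fun e => by rw [e] at hv; simp [co] at hv)).trans ?_
    have hne : ¬ ∃ q : Fin 313 × Fin M, fc it q.1 q.2 = v ∧ fd it q.1 q.2 = .cl (oc k) i := by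
      rintro ⟨⟨n, j⟩, e1, e2⟩
      have := (tab_pair n).2.2.2.1 (by rw [(FV.cl.inj e2).1]; exact (ko_oc k).2)
      exact n0 _ _ (this ▸ t5) e1.symm
    simp only [frad, dif_neg hne, (hπ _ v c hv).1 hin]
    rfl
  refine ⟨fun e => n0 _ _ t1 (Sum.inl.inj e), ?_, congrArg Sum.inl e⟩
  rintro ⟨a, b, h, h1, h2⟩
  have h3 := h.2.1
  rw [h1, h2] at h3
  obtain ⟨-, k', ha⟩ := hv_big (h3.symm.trans e)
  have h4 : frk b < frk a := h.2.2.2
  have hb : ¬ ∃ k i, b = (.w k i, true) := by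
    rintro ⟨k2, i2, rfl⟩
    exact n0 _ _ (tb k2 c hc).2.2.2.1 h2.symm
  have ha' : ∃ k i, a = (.w k i, true) := ⟨k', i, ha⟩
  unfold frk at h4
  rw [if_pos ha', if_neg hb] at h4
  have := (Fintype.equivFin (FT N M × Bool) a).2
  omega

theorem jn_ctr (hπ : Des π) (j : Fin M) (k : Fin 5) (σ : Bool) :
    Jn it π hd hN ρ (.c j k) (.inl (vx it (.c j k) (if σ then zpos k else zneg k)))
      (fhv (.c j k, σ)) := by
  have tb : ∀ k (σ : Bool), (if σ then zpos k else zneg k) ≠ cx (.inr (.inr k)) ∧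
      (if σ then zpos k else zneg k) ≠ cy (.inr (.inr k)) ∧
      (if σ then zpos k else zneg k) ≠ cz (.inr (.inr k)) ∧
      bigC (if σ then zpos k else zneg k) = false := by decide
  obtain ⟨t1, t2, t3, t4⟩ := tb k σ
  refine ⟨fun e => vx_ne _ t1 (Sum.inl.inj e), keep_small _ _ t4, congrArg Sum.inl ?_⟩
  show fpar it π _ _ = _
  rw [par_rad (vx_ne _ t2) (vx_ne _ t3) (by simp [vx, inn]) (by simp [vx])]
  have := hπ (.c j k) (vx it (.c j k) (if σ then zpos k else zneg k)) _ rfl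
  refine congrArg (fun b => fhv (FT.c j k, b)) ?_
  cases σ
  · exact this.2 (tab_ctr k).2
  · exact this.1 (tab_ctr k).1

theorem core (hπ : Des π) (hG : GP P) (hP : Pl it π hd hN ρ P) (u : Fin M) (w : Cl → Fin N)
    (h9 : ∀ c : Cl, 9 ≤ c.1 → w c = it (.inr (.inr (), u)) c)
    (hk : ∀ k, ∀ c ∈ [cx (.inr (.inl k)), cy (.inr (.inl k)), cz (.inr (.inl k))],
      w c = it (.inl (k, w (oc k))) c)
    (hF : Fct fun c => P (.inl (.cl c (w c)))) :
    Good ρ (P (.inl (fctr it u 0))) (P (.inl (fctr it u 1))) (P (.inl (fctr it u 2)))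
      (P (.inl (fctr it u 3))) fun i => P (.inr i) := by
  have ew : ∀ k, ∀ c ∈ [cx (.inr (.inl k)), cy (.inr (.inl k)), cz (.inr (.inl k))],
      vx it (.w k (w (oc k))) c = .cl c (w c) := fun k c hc => by rw [hk k c hc]; rfl
  have ec : ∀ k, ∀ c : Cl, 9 ≤ c.1 → vx it (.c u k) c = .cl c (w c) := fun k c hc => by
    rw [h9 c hc]; rfl
  have conf : ∀ q, (∀ k i, Jn it π hd hN ρ (.w k i) q (.cl (oc k) i)) →
      Psi (fun c => P (.inl (.cl c (w c)))) (P q) := fun q hq => hF.conf fun k => by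
    obtain ⟨w1, w2, w3, -, -⟩ := tab_wall (.inr (.inl k))
    have n1 : FV.cl (oc k) (w (oc k)) ≠ vX it (.w k (w (oc k))) :=
      hv_ne (.w k (w (oc k)), true) _ w1
    have d1 := wallDj hP (hq k _) n1 (Or.inl rfl) (hv_ne (.w k (w (oc k)), true) _ w2)
    have d2 := wallDj hP (hq k _) n1 (Or.inr rfl) (hv_ne (.w k (w (oc k)), true) _ w3)
    have d3 : det (P (.inl (.cl (oc k) (w (oc k))))) (P q) (P (.inl (vX it (.w k (w (oc k)))))) ≠ 0 := by
      refine hG.2 _ _ _ (fun e => n1 ?_) (fun e => n1 (Sum.inl.inj e)) (hq k _).1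
      have := (hq k (w (oc k))).2.2
      rw [← e] at this
      exact (Sum.inl.inj this).symm.trans (if_pos (Or.inr (Or.inr (Or.inl rfl))))
    have x : vX it (.w k (w (oc k))) = _ := ew k _ (by simp [FT.kd])
    have y : vx it (.w k (w (oc k))) (cy (FT.w k (w (oc k)) : FT N M).kd) = _ :=
      ew k _ (by simp [FT.kd])
    have z : vx it (.w k (w (oc k))) (cz (FT.w k (w (oc k)) : FT N M).kd) = _ :=
      ew k _ (by simp [FT.kd])
    rw [x] at d1 d2 d3
    rw [y] at d1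
    rw [z] at d2
    exact ⟨d1, d2, d3⟩
  have c0 : fctr it u 0 = .cl 9 (w 9) := ec 0 9 (by decide)
  have c1 : fctr it u 1 = .cl 10 (w 10) := ec 0 10 (by decide)
  have c2 : fctr it u 2 = .cl 11 (w 11) := ec 0 11 (by decide)
  have c3 : fctr it u 3 = .cl 12 (w 12) := ec 0 12 (by decide)
  rw [c0, c1, c2, c3]
  refine ⟨hF.pos 9 10 11 (by decide), hF.pos 9 10 12 (by decide), hF.pos 9 12 11 (by decide), hF.pos 10 12 11 (by decide), fun i k => ?_⟩
  have tb : ∀ k (σ : Bool), 9 ≤ (cx (.inr (.inr k))).1 ∧ 9 ≤ (cy (.inr (.inr k))).1 ∧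
      9 ≤ (if σ then zpos k else zneg k).1 ∧
      ((if σ then zpos k else zneg k) = 13 ∨ (if σ then zpos k else zneg k) = 14 ∨
        (if σ then zpos k else zneg k) = 17) ∧
      posB (cx (.inr (.inr k))) (cy (.inr (.inr k))) (zpos k) ∧
      posB (cy (.inr (.inr k))) (cx (.inr (.inr k))) (zneg k) := by decide
  obtain ⟨t1, t2, t3, t4, t5, t6⟩ := tb k (pat (ρ i) k)
  obtain ⟨w1, w2, -, -, -⟩ := tab_wall (.inr (.inr k))
  have jq := jn_new (it := it) (π := π) (hd := hd) (hN := hN) (ρ := ρ) (.c u k) i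
  rw [show rs (FT.c u k : FT N M).kd (ρ i) = pat (ρ i) k from tab_rs.2 k _] at jq
  have jz := jn_ctr (it := it) (hd := hd) (hN := hN) (ρ := ρ) hπ u k (pat (ρ i) k)
  have d1 := wallDj hP jq (hv_ne _ _ w1) (Or.inl rfl) (hv_ne _ _ w2)
  have d2 := wallDj hP jz (hv_ne _ _ w1) (Or.inl rfl) (hv_ne _ _ w2)
  have x : vX it (.c u k) = _ := ec k _ t1
  have y : vx it (.c u k) (cy (FT.c u k : FT N M).kd) = _ := ec k _ t2
  rw [x, y] at d1 d2
  have pq := conf (.inr i) fun k' j => by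
    have := jn_new (it := it) (π := π) (hd := hd) (hN := hN) (ρ := ρ) (.w k' j) i
    rwa [show rs (FT.w k' j : FT N M).kd (ρ i) = true from tab_rs.1 k' _] at this
  have pz := conf (.inl (vx it (.c u k) (if pat (ρ i) k then zpos k else zneg k)))
    fun k' j => jn_wedge hπ k' j rfl t4
  have ph := conf (.inl (fhv (.c u k, pat (ρ i) k)))
    fun k' j => jn_wedge hπ k' j (by cases pat (ρ i) k <;> rfl) t4
  have s1 := hF.side pz ph k d2
  have s2 := hF.side ph pq k d1.swap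
  rw [ec k _ t3] at s1
  have e : ∀ p, phi (P (.inl (.cl 9 (w 9)))) (P (.inl (.cl 10 (w 10)))) (P (.inl (.cl 11 (w 11))))
      (P (.inl (.cl 12 (w 12)))) p k =
      det (P (.inl (.cl (cx (.inr (.inr k))) (w (cx (.inr (.inr k)))))))
        (P (.inl (.cl (cy (.inr (.inr k))) (w (cy (.inr (.inr k))))))) p := fun p => by
    fin_cases k <;> rfl
  rw [e]
  split_ifs at s1 ⊢
  · exact s2.1 (s1.1 (hF.pos _ _ _ t5))
  · exact s2.2 (s1.2 (hF.neg _ _ _ t6))

end

/-- The wedge tree whose walls use a cluster. -/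
def kw (c : Cl) : Fin 3 := Fin.ofNat 3 (c.1 / 3)

theorem tab_cov : ∀ n : Fin 313,
    ((con n).1.1 < 18 ∧ (con n).2.1.1 < 18 ∧ (con n).2.2.1.1 < 18 ∧ (con n).2.2.2.1 < 18) ∨
      (9 ≤ (con n).1.1 ∧ 9 ≤ (con n).2.1.1 ∧ 9 ≤ (con n).2.2.1.1 ∧ 9 ≤ (con n).2.2.2.1) := by
  decide +kernel

end FS

theorem frame_sound : ∃ k₁ : ℕ, 1 ≤ k₁ ∧ ∀ k₃ : ℕ, 1 ≤ k₃ → ∃ k₂ : ℕ, 1 ≤ k₂ ∧
    ∀ (s N M : ℕ) (it : Items N M) (π : FT N M → FV N M → Bool) (hd : Dist it) (hN : 0 < N),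
      0 < s → s ≤ N →
      (∀ B : Cl → Finset (Fin N),
        (∀ c, bigC c = false → B c ⊆ clu bigC s c ∧ s ≤ k₁ * (B c).card) → ∀ g,
        N ≤ k₃ * (Finset.univ.filter fun i =>
          ∀ c, bigC c = false → it (.inl (g, i)) c ∈ B c).card) →
      (∀ B : Cl → Finset (Fin N),
        (∀ c, B c ⊆ clu bigC s c ∧ (clu (N := N) bigC s c).card ≤ k₂ * (B c).card) → ∀ g,
        ∃ i, ∀ c, it (.inr (g, i)) c ∈ B c) →
      Des π → Sound (fpre it π hd hN) fatt (fctr it) := by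
  obtain ⟨k₁, h₁, h⟩ := boxes
  refine ⟨k₁, h₁, fun k₃ h₃ => ?_⟩
  obtain ⟨k₂, h₂, h⟩ := h k₃ h₃
  refine ⟨k₂, h₂, fun s N M it π hd hN _ hs H1 H2 hπ ι ρ P hG hP => ?_⟩
  obtain ⟨B, b1, b2, b3⟩ := h s N M it hs H1 (fun c i => P (.inl (.cl c i)))
    (hG.comp (g := fun p : Cl × Fin N => .inl (.cl p.1 p.2)) fun p q e =>
      Prod.ext (FV.cl.inj (Sum.inl.inj e)).1 (FV.cl.inj (Sum.inl.inj e)).2)
  have H2 := H2 B b1
  obtain ⟨u, hu⟩ := H2 (.inr ())
  let w : Cl → Fin N := fun c => if c.1 < 9 then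
    it (.inl (FS.kw c, it (.inr (.inr (), u)) (oc (FS.kw c)))) c else it (.inr (.inr (), u)) c
  have h9 : ∀ c : Cl, 9 ≤ c.1 → w c = it (.inr (.inr (), u)) c := fun c hc => if_neg (by omega)
  have hk : ∀ k, ∀ c ∈ [cx (.inr (.inl k)), cy (.inr (.inl k)), cz (.inr (.inl k))],
      w c = it (.inl (k, w (oc k))) c := fun k c hc => by
    have tb : ∀ k, 9 ≤ (oc k).1 ∧
        ∀ c ∈ [cx (.inr (.inl k)), cy (.inr (.inl k)), cz (.inr (.inl k))],
          c.1 < 9 ∧ FS.kw c = k := by decide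
    rw [h9 _ (tb k).1]
    simp only [w, if_pos ((tb k).2 c hc).1, ((tb k).2 c hc).2]
  have hw : ∀ c, w c ∈ B c := fun c => by
    simp only [w]
    split_ifs with hc
    · exact b3 _ _ (hu _) c hc
    · exact hu c
  have hQ : GP fun c => P (.inl (.cl c (w c))) :=
    hG.comp (g := fun c => .inl (.cl c (w c))) fun _ _ e => (FV.cl.inj (Sum.inl.inj e)).1
  have hc : ∀ n < 313, NC (P (.inl (.cl (con n).1 (w (con n).1))))
      (P (.inl (.cl (con n).2.1 (w (con n).2.1)))) (P (.inl (.cl (con n).2.2.1 (w (con n).2.2.1))))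
      (P (.inl (.cl (con n).2.2.2 (w (con n).2.2.2)))) := fun n hn => by
    obtain ⟨j, hj⟩ := H2 (.inl ⟨n, hn⟩)
    obtain ⟨-, -, -, -, p5⟩ := tab_pair ⟨n, hn⟩
    simp only [List.nodup_cons, List.mem_cons, List.not_mem_nil, or_false, not_or] at p5
    obtain ⟨⟨n1, n2, n3⟩, ⟨n4, n5⟩, n6, -⟩ := p5
    have t := FS.tab_cov ⟨n, hn⟩
    exact nc_transfer (R := fun c i => P (.inl (.cl c i))) (b2 _ _ _ n1 n2 n4 (by tauto))
      (b2 _ _ _ n1 n3 n5 (by tauto)) (b2 _ _ _ n6 (Ne.symm n2) (Ne.symm n3) (by tauto))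
      (b2 _ _ _ n6 (Ne.symm n4) (Ne.symm n5) (by tauto)) hj hw (FS.pair_nc hP ⟨n, hn⟩ j)
  rcases (hQ.2 1 7 4 (by decide) (by decide) (by decide)).lt_or_gt with h0 | h0
  · refine ⟨u, refl, Or.inr rfl, FS.core (P := fun v => refl (P v)) hπ hG.refl
      (fun t a b k1 k2 k3 k4 k5 k6 k7 k8 => (hP t a b k1 k2 k3 k4 k5 k6 k7 k8).refl) u w h9 hk
      (force hQ.refl (fun n hn => (hc n hn).refl) ?_)⟩
    rw [det_refl]
    exact neg_pos.2 h0
  · exact ⟨u, id, Or.inl rfl, FS.core hπ hG hP u w h9 hk (force hQ hc h0)⟩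

end Pool.Agent.P.MP_2989a6_lc
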