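import Pool.Agent.P.MP_2989a6_lc.FrameDef

/-! Plane geometry for the soundness of the frame: wedges, walls and the confinement of points. -/

namespace Pool.Agent.P.MP_2989a6_lc

theorem det_cyc (p q r : Pt) : det q r p = det p q r := by unfold det; ring

/-- An affine function that is positive at the corners of a triangle is positive inside. -/
theorem conv_pos {a b c r s t : Pt} (h1 : 0 < det a b r) (h2 : 0 < det b c r) (h3 : 0 < det c a r)
    (ka : 0 < det s t a) (kb : 0 < det s t b) (kc : 0 < det s t c) : 0 < det s t r := by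
  have e : (det a b r + det b c r + det c a r) * det s t r =
      det b c r * det s t a + det c a r * det s t b + det a b r * det s t c := by
    unfold det; ring
  have k : 0 < (det a b r + det b c r + det c a r) * det s t r := by
    rw [e]; positivity
  exact (mul_pos_iff_of_pos_left (by positivity)).1 k

theorem wedge_aux {ao bo co aq bq cq X Y Z : ℝ} (h1 : 0 < ao) (h2 : 0 < bo) (h3 : 0 < co)
    (h4 : 0 < aq) (e1 : ao * X + bo * Y + co * Z = 0) (e2 : aq * X + bq * Y + cq * Z = 0)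
    (hX : X ≠ 0) (k1 : cq ≤ 0 → 0 ≤ X * Y) (k2 : bq ≤ 0 → 0 ≤ X * Z) : 0 < cq := by
  by_contra hc
  have hc : cq ≤ 0 := not_lt.1 hc
  have k1 := k1 hc
  rcases hX.lt_or_gt with hX | hX
  · have hY : Y ≤ 0 := by
      by_contra hY
      nlinarith [mul_pos (neg_pos.2 hX) (not_le.1 hY)]
    have hZ : 0 < Z := by
      by_contra hZ
      nlinarith [mul_pos h1 (neg_pos.2 hX), mul_nonneg h2.le (neg_nonneg.2 hY),
        mul_nonneg h3.le (neg_nonneg.2 (not_lt.1 hZ))]
    have hb : 0 < bq := by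
      by_contra hb
      nlinarith [k2 (not_lt.1 hb), mul_pos (neg_pos.2 hX) hZ]
    nlinarith [mul_pos h4 (neg_pos.2 hX), mul_nonneg hb.le (neg_nonneg.2 hY),
      mul_nonneg (neg_nonneg.2 hc) hZ.le]
  · have hY : 0 ≤ Y := by
      by_contra hY
      nlinarith [mul_pos hX (neg_pos.2 (not_le.1 hY))]
    have hZ : Z < 0 := by
      by_contra hZ
      nlinarith [mul_pos h1 hX, mul_nonneg h2.le hY, mul_nonneg h3.le (not_lt.1 hZ)]
    have hb : 0 < bq := by
      by_contra hb
      nlinarith [k2 (not_lt.1 hb), mul_pos hX (neg_pos.2 hZ)]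
    nlinarith [mul_pos h4 hX, mul_nonneg hb.le hY, mul_nonneg (neg_nonneg.2 hc) (neg_nonneg.2 hZ.le)]

/-- A point joined to an inner point of a triangle without meeting two sides lies in the triangle
as soon as it is on the inner side of the third one. -/
theorem wedge {x y z o q : Pt} (h1 : 0 < det x y o) (h2 : 0 < det y z o) (h3 : 0 < det z x o)
    (d1 : Dj q o y x) (d2 : Dj q o z x) (hx : det o q x ≠ 0) (hq : 0 < det y z q) :
    0 < det x y q ∧ 0 < det z x q := by
  have e1 : det y z o * det o q x + det z x o * det o q y + det x y o * det o q z = 0 := by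
    unfold det; ring
  have e2 : det y z q * det o q x + det z x q * det o q y + det x y q * det o q z = 0 := by
    unfold det; ring
  have k1 : det x y q ≤ 0 → 0 ≤ det o q x * det o q y := fun h => by
    by_contra k
    exact not_dj (a := x) (b := y) (c := o) (d := q) (mul_nonpos_of_nonneg_of_nonpos h1.le h)
      (not_le.1 k) d1.swap.swap'.symm
  have k2 : det z x q ≤ 0 → 0 ≤ det o q x * det o q z := fun h => by
    by_contra k
    exact not_dj (a := z) (b := x) (c := o) (d := q) (mul_nonpos_of_nonneg_of_nonpos h3.le h)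
      (by rw [mul_comm]; exact not_le.1 k) d2.swap.symm
  exact ⟨wedge_aux h2 h3 h1 hq e1 e2 hx k1 k2,
    wedge_aux h2 h1 h3 hq (by linarith) (by linarith) hx k2 k1⟩

/-- Two points between the ends of a wall whose segment misses the wall are on the same side. -/
theorem wall {a b p q s t s' t' : Pt} (h : Dj p q b a) (h1 : det s t a < 0) (h2 : 0 < det s t b)
    (h3 : 0 < det s t p) (h4 : 0 < det s t q) (k1 : 0 < det s' t' a) (k2 : det s' t' b < 0)
    (k3 : 0 < det s' t' p) (k4 : 0 < det s' t' q) (hp : 0 < det a b p) : 0 < det a b q := by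
  by_contra hq
  have hq : det a b q ≤ 0 := not_lt.1 hq
  have e : ∀ s t : Pt, det p q b * det s t a - det p q a * det s t b + det a b q * det s t p -
      det a b p * det s t q = 0 := fun s t => by unfold det; ring
  have e0 : det p q b - det p q a + det a b q - det a b p = 0 := by unfold det; ring
  have e1 := e s t
  have e2 := e s' t'
  have a1 := mul_nonneg (neg_nonneg.2 hq) h3.le
  have a2 := mul_pos hp h4
  have a3 := mul_nonneg (neg_nonneg.2 hq) k3.le
  have a4 := mul_pos hp k4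
  have hu : det p q a < 0 := by
    by_contra hu
    have hu := not_lt.1 hu
    have hv : 0 < det p q b := by linarith
    nlinarith [mul_pos hv (neg_pos.2 h1), mul_nonneg hu h2.le]
  have hv : 0 < det p q b := by
    by_contra hv
    have hv := not_lt.1 hv
    nlinarith [mul_nonneg (neg_nonneg.2 hv) k1.le, mul_pos (neg_pos.2 hu) (neg_pos.2 k2)]
  exact not_dj (a := a) (b := b) (c := p) (d := q) (mul_nonpos_of_nonneg_of_nonpos hp.le hq)
    (mul_neg_of_neg_of_pos hu hv) h.swap'.symm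

/-- No point is beyond three lines that enclose a region like the sides of a triangle. -/
theorem three {a b c d e f u q : Pt} (h1 : 0 < det a b c) (h2 : det a b d < 0)
    (h3 : 0 < det c d e) (h4 : det c d f < 0) (h5 : 0 < det e f a) (h6 : det e f b < 0)
    (u1 : 0 < det a b u) (u2 : 0 < det c d u) (u3 : 0 < det e f u) :
    0 < det a b q ∨ 0 < det c d q ∨ 0 < det e f q := by
  by_contra h
  push Not at h
  have k : (det c d e - det c d f) * det a b q + (det e f a - det e f b) * det c d q +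
      (det a b c - det a b d) * det e f q = (det c d e - det c d f) * det a b u +
      (det e f a - det e f b) * det c d u + (det a b c - det a b d) * det e f u := by
    unfold det; ring
  have p1 : 0 < det c d e - det c d f := by linarith
  have p2 : 0 < det e f a - det e f b := by linarith
  have p3 : 0 < det a b c - det a b d := by linarith
  linarith [mul_pos p1 u1, mul_pos p2 u2, mul_pos p3 u3, mul_nonneg p1.le (neg_nonneg.2 h.1),
    mul_nonneg p2.le (neg_nonneg.2 h.2.1), mul_nonneg p3.le (neg_nonneg.2 h.2.2)]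

/-- The triple is one of the forced positive triples, up to rotation. -/
def posB (a b c : Cl) : Prop := (a, b, c) ∈ facts ∨ (b, c, a) ∈ facts ∨ (c, a, b) ∈ facts

instance (a b c : Cl) : Decidable (posB a b c) := by unfold posB; infer_instance

/-- All forced triples are positively oriented. -/
def Fct (Q : Cl → Pt) : Prop := ∀ f ∈ facts, 0 < det (Q f.1) (Q f.2.1) (Q f.2.2)

variable {Q : Cl → Pt}

theorem Fct.pos (hF : Fct Q) (a b c : Cl) (h : posB a b c) :
    0 < det (Q a) (Q b) (Q c) := by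
  rcases h with h | h | h
  · exact hF _ h
  · rw [← det_cyc]; exact hF _ h
  · rw [det_cyc (Q c)]; exact hF _ h

theorem Fct.neg (hF : Fct Q) (a b c : Cl) (h : posB b a c) :
    det (Q a) (Q b) (Q c) < 0 := by
  have := hF.pos b a c h
  rw [det_swap] at this
  linarith

/-- The point lies inside the big triangle. -/
def Psi (Q : Cl → Pt) (q : Pt) : Prop :=
  0 < det (Q 1) (Q 0) q ∧ 0 < det (Q 7) (Q 6) q ∧ 0 < det (Q 4) (Q 3) q

theorem Fct.wedge (hF : Fct Q) {q : Pt} (x y z o : Cl) (d1 : Dj q (Q o) (Q y) (Q x))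
    (d2 : Dj q (Q o) (Q z) (Q x)) (hx : det (Q o) q (Q x) ≠ 0) (s t : Cl)
    (h : (posB 13 15 o ∧ posB 15 14 o ∧ posB 14 13 o) ∧
      (∀ c ∈ [13, 15, 14], posB x y c ∧ posB y z c ∧ posB z x c) ∧
      posB s t x ∧ posB s t y ∧ posB s t z) (hq : 0 < det (Q y) (Q z) q) :
    0 < det (Q z) (Q x) q ∧ 0 < det (Q s) (Q t) q := by
  obtain ⟨⟨o1, o2, o3⟩, h, s1, s2, s3⟩ := h
  have i : ∀ a b : Cl, posB a b 13 → posB a b 15 → posB a b 14 → 0 < det (Q a) (Q b) (Q o) :=
    fun a b h1 h2 h3 => conv_pos (hF.pos _ _ _ o1) (hF.pos _ _ _ o2) (hF.pos _ _ _ o3)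
      (hF.pos _ _ _ h1) (hF.pos _ _ _ h2) (hF.pos _ _ _ h3)
  have a1 := h 13 (by simp)
  have a2 := h 15 (by simp)
  have a3 := h 14 (by simp)
  obtain ⟨k1, k2⟩ := Pool.Agent.P.MP_2989a6_lc.wedge (i _ _ a1.1 a2.1 a3.1)
    (i _ _ a1.2.1 a2.2.1 a3.2.1) (i _ _ a1.2.2 a2.2.2 a3.2.2) d1 d2 hx hq
  exact ⟨k2, conv_pos k1 hq k2 (hF.pos _ _ _ s1) (hF.pos _ _ _ s2) (hF.pos _ _ _ s3)⟩

/-- A point joined to the three inner points without meeting the wedges is confined. -/
theorem Fct.conf (hF : Fct Q) {q : Pt} (h : ∀ k : Fin 3,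
    Dj q (Q (oc k)) (Q (cy (.inr (.inl k)))) (Q (cx (.inr (.inl k)))) ∧
    Dj q (Q (oc k)) (Q (cz (.inr (.inl k)))) (Q (cx (.inr (.inl k)))) ∧
    det (Q (oc k)) q (Q (cx (.inr (.inl k)))) ≠ 0) : Psi Q q := by
  have w0 := hF.wedge 0 2 1 18 (h 0).1 (h 0).2.1 (h 0).2.2 5 4 (by decide)
  have w1 := hF.wedge 3 5 4 19 (h 1).1 (h 1).2.1 (h 1).2.2 8 7 (by decide)
  have w2 := hF.wedge 6 8 7 20 (h 2).1 (h 2).2.1 (h 2).2.2 2 1 (by decide)
  have k : 0 < det (Q 2) (Q 1) q := by
    rcases three (q := q) (hF.pos 2 1 5 (by decide)) (hF.neg 2 1 4 (by decide)) (hF.pos 5 4 8 (by decide)) (hF.neg 5 4 7 (by decide))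
      (hF.pos 8 7 2 (by decide)) (hF.neg 8 7 1 (by decide)) (hF.pos 2 1 13 (by decide)) (hF.pos 5 4 13 (by decide)) (hF.pos 8 7 13 (by decide)) with k | k | k
    · exact k
    · exact (w2 (w1 k).2).2
    · exact (w2 k).2
  exact ⟨(w0 k).1, (w2 (w1 (w0 k).2).2).1, (w1 (w0 k).2).1⟩

theorem Fct.wall (hF : Fct Q) {p q : Pt} (a b s t s' t' : Cl) (h : Dj p q (Q b) (Q a))
    (h3 : 0 < det (Q s) (Q t) p) (h4 : 0 < det (Q s) (Q t) q) (k3 : 0 < det (Q s') (Q t') p)
    (k4 : 0 < det (Q s') (Q t') q)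
    (hb : posB t s a ∧ posB s t b ∧ posB s' t' a ∧ posB t' s' b) :
    (0 < det (Q a) (Q b) p → 0 < det (Q a) (Q b) q) ∧
      (det (Q a) (Q b) p < 0 → det (Q a) (Q b) q < 0) := by
  obtain ⟨b1, b2, b3, b4⟩ := hb
  refine ⟨Pool.Agent.P.MP_2989a6_lc.wall h (hF.neg _ _ _ b1) (hF.pos _ _ _ b2) h3 h4
    (hF.pos _ _ _ b3) (hF.neg _ _ _ b4) k3 k4, fun hp => ?_⟩
  have := Pool.Agent.P.MP_2989a6_lc.wall h.swap' (hF.neg _ _ _ b4) (hF.pos _ _ _ b3) k3 k4
    (hF.pos _ _ _ b2) (hF.neg _ _ _ b1) h3 h4 (by rw [det_swap]; linarith)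
  rw [det_swap] at this
  linarith

/-- Confined points whose segment misses a central wall are on the same side of it. -/
theorem Fct.side (hF : Fct Q) {p q : Pt} (hp : Psi Q p) (hq : Psi Q q) (k : Fin 5)
    (h : Dj p q (Q (cy (.inr (.inr k)))) (Q (cx (.inr (.inr k))))) :
    (0 < det (Q (cx (.inr (.inr k)))) (Q (cy (.inr (.inr k)))) p →
      0 < det (Q (cx (.inr (.inr k)))) (Q (cy (.inr (.inr k)))) q) ∧
    (det (Q (cx (.inr (.inr k)))) (Q (cy (.inr (.inr k)))) p < 0 →
      det (Q (cx (.inr (.inr k)))) (Q (cy (.inr (.inr k)))) q < 0) := by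
  fin_cases k
  · exact hF.wall 9 10 1 0 7 6 h hp.1 hq.1 hp.2.1 hq.2.1 (by decide)
  · exact hF.wall 11 9 4 3 1 0 h hp.2.2 hq.2.2 hp.1 hq.1 (by decide)
  · exact hF.wall 12 9 4 3 1 0 h hp.2.2 hq.2.2 hp.1 hq.1 (by decide)
  · exact hF.wall 10 11 7 6 4 3 h hp.2.1 hq.2.1 hp.2.2 hq.2.2 (by decide)
  · exact hF.wall 10 12 7 6 4 3 h hp.2.1 hq.2.1 hp.2.2 hq.2.2 (by decide)

theorem det_refl (a b c : Pt) : det (refl a) (refl b) (refl c) = -det a b c := by
  unfold det refl; ring

theorem Dj.refl {a b c d : Pt} (h : Dj a b c d) : Dj (refl a) (refl b) (refl c) (refl d) :=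
  dj_iff.2 fun s t h1 h2 h3 h4 e1 e2 => dj_iff.1 h s t h1 h2 h3 h4 e1 (by
    simp only [Pool.Agent.P.MP_2989a6_lc.refl] at e2; linarith)

theorem GP.refl {V : Type} {P : V → Pt} (h : GP P) : GP fun v => refl (P v) :=
  ⟨h.1, fun a b c h1 h2 h3 => by rw [det_refl]; exact neg_ne_zero.2 (h.2 a b c h1 h2 h3)⟩

theorem GP.comp {V W : Type} {P : V → Pt} (h : GP P) {g : W → V} (hg : Function.Injective g) :
    GP fun w => P (g w) :=
  ⟨fun _ _ k => h.1 _ _ (hg.ne k), fun _ _ _ h1 h2 h3 => h.2 _ _ _ (hg.ne h1) (hg.ne h2) (hg.ne h3)⟩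

theorem NC.refl {a b c d : Pt} (h : NC a b c d) : NC (refl a) (refl b) (refl c) (refl d) := by
  unfold NC at *
  simpa only [det_refl, neg_mul_neg] using h

theorem Dj.nc {a b c d : Pt} (h : Dj a b c d) : NC a b c d := fun k => not_dj k.1.le k.2 h

end Pool.Agent.P.MP_2989a6_lc
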