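import Pool.Agent.P.MP_2989a6_lc.FrameDef

/-! The frame trees form a family in which only edges between hubs are used twice. -/

namespace Pool.Agent.P.MP_2989a6_lc

open Classical

attribute [local irreducible] con

variable {N M : ℕ} (it : Items N M) (π : FT N M → FV N M → Bool)

noncomputable def fdep (t : FT N M) (v : FV N M) : ℕ :=
  if v = vX it t then 0 else if v = vY it t ∨ v = vZ it t ∨ v = inn t ∨ v = .gm t then 1
  else if ∃ b, frad it π t v = fhv (t, b) then 2 else 3

/-- Cluster edges of a tree of a given kind. -/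
def ce : Kd → List (Cl × Cl)
  | .inl n => [((con n).1, (con n).2.1), ((con n).2.2.1, (con n).2.2.2)]
  | k => [(cx k, cy k), (cx k, cz k)]

theorem ce_shp (t : FT N M) : ∀ e ∈ ce t.kd, e ∈ shp ((slot t).map Prod.fst Prod.fst) := by
  rcases t with ⟨n, j⟩ | ⟨k, i⟩ | ⟨j, k⟩
  · exact fun e h => h
  · exact fun e h => h
  · exact (by decide +kernel : ∀ k : Fin 5, ∀ e ∈ ce (.inr (.inr k)), e ∈ shp (.inr (.inr ()))) k

variable {it} in
theorem edg_ne (hd : Dist it) {t t' : FT N M} (h : t ≠ t') {e f : Cl × Cl} (he : e ∈ ce t.kd)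
    (hf : f ∈ ce t'.kd) : s(vx it t e.1, vx it t e.2) ≠ s(vx it t' f.1, vx it t' f.2) := by
  intro k
  by_cases hs : slot t = slot t'
  · rcases t with ⟨n, j⟩ | ⟨l, i⟩ | ⟨j, l⟩ <;> rcases t' with ⟨n', j'⟩ | ⟨l', i'⟩ | ⟨j', l'⟩ <;>
      simp only [slot, Sum.inr.injEq, Sum.inl.injEq, Prod.mk.injEq, reduceCtorEq, false_and,
        true_and] at hs
    · exact h (by rw [hs.1, hs.2])
    · exact h (by rw [hs.1, hs.2])
    · subst hs
      have k2 : s(e.1, e.2) = s(f.1, f.2) := by
        simp only [vx, Sym2.eq_iff, FV.cl.injEq] at k ⊢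
        tauto
      exact (by decide +kernel : ∀ l l' : Fin 5, l ≠ l' → ∀ e ∈ ce (.inr (.inr l)),
        ∀ f ∈ ce (.inr (.inr l')), s(e.1, e.2) ≠ s(f.1, f.2)) l l' (fun a => h (by rw [a])) e he f
          hf k2
  · refine hd _ _ hs e (ce_shp t e he) f (ce_shp t' f hf) ?_
    simp only [vx, edg, Sym2.eq_iff, FV.cl.injEq, Prod.mk.injEq] at k ⊢
    exact k

theorem xy_mem (k : Kd) : (cx k, cy k) ∈ ce k := by
  rcases k with n | k | k <;> simp [ce, cx, cy]

theorem xz_mem (k : Kd) : (cx k, cz k) ∈ ce k := by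
  rcases k with n | k | k <;> simp [ce, cx, cz]

theorem cd_mem (n : Fin 313) : ((con n).2.2.1, (con n).2.2.2) ∈ ce (.inl n) := by simp [ce]

theorem oc_big (k : Fin 3) : bigC (oc k) = true := by revert k; decide

theorem oc_inj : Function.Injective oc := by decide

theorem fhv_inj : Function.Injective (fhv : FT N M × Bool → FV N M) := by
  rintro ⟨t, b⟩ ⟨t', b'⟩ h
  cases b <;> cases b' <;> rcases t with _ | _ | _ <;> rcases t' with _ | _ | _ <;>
    simp_all [fhv, inn, oc_inj.eq_iff]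

theorem fhv_small {c : Cl} (hc : bigC c = false) (i : Fin N) (h : FT N M × Bool) :
    fhv h ≠ .cl c i := by
  rcases h with ⟨t, b⟩
  cases b
  · simp [fhv]
  · rcases t with _ | ⟨k, _⟩ | _ <;> simp only [fhv, inn, if_true, ne_eq, reduceCtorEq,
      not_false_eq_true, FV.cl.injEq, not_and]
    rintro rfl
    simp [oc_big] at hc

theorem fhv_lp (n : Fin 313) (j : Fin M) (h : FT N M × Bool) : fhv h ≠ .lp n j := by
  rcases h with ⟨t, b⟩
  cases b <;> rcases t with _ | _ | _ <;> simp [fhv, inn]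

theorem fhv_X (h : FT N M × Bool) (t : FT N M) : fhv h ≠ vX it t :=
  fhv_small (tab_wall _).1 _ _

theorem fhv_Y (h : FT N M × Bool) (t : FT N M) : fhv h ≠ vY it t :=
  fhv_small (tab_wall _).2.1 _ _

theorem fhv_Z (h : FT N M × Bool) (t : FT N M) : fhv h ≠ vZ it t :=
  fhv_small (tab_wall _).2.2.1 _ _

theorem fhv_c (h : FT N M × Bool) (n : Fin 313) (j : Fin M) : fhv h ≠ fc it n j :=
  fhv_small (tab_pair n).2.2.1 _ _

/-- The kinds of edges `v - u` of a frame tree, `u` the parent of `v`. -/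
inductive FE (t : FT N M) (v u : FV N M) : Prop
  | wall (e : Cl × Cl) : e ∈ ce t.kd → u = vx it t e.1 → v = vx it t e.2 → bigC e.1 = false →
      FE t v u
  | own (b : Bool) : v = fhv (t, b) → u = vX it t → FE t v u
  | help (n : Fin 313) (j : Fin M) : v = fc it n j → fd it n j = fhv (t, true) → u = .lp n j →
      FE t v u
  | star (b : Bool) : u = fhv (t, b) →
      (∀ n j, v = fc it n j → fd it n j ≠ u) → FE t v u

theorem fe (t : FT N M) (v : FV N M) : FE it t v (fpar it π t v) := by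
  unfold fpar
  split_ifs with h
  · rcases h with h | h | h | h
    · exact .wall _ (xy_mem _) rfl h (tab_wall _).1
    · exact .wall _ (xz_mem _) rfl h (tab_wall _).1
    · exact .own true h rfl
    · exact .own false h rfl
  · rcases t with ⟨n, j⟩ | ⟨k, i⟩ | ⟨j, k⟩ <;> simp only [frad]
    · split_ifs with h1
      · exact .wall _ (cd_mem n) rfl h1 (tab_pair n).2.2.1
      · refine .star _ rfl fun n' j' _ => ?_
        cases π (.p n j) v <;> simp [fhv, inn, fd, vx]
    · split_ifs with h1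
      · exact .help _ _ h1.choose_spec.1.symm h1.choose_spec.2 rfl
      · refine .star _ rfl fun n' j' e e' => h1 ⟨(n', j'), e.symm, ?_⟩
        revert e'
        cases π (.w k i) v <;> simp [fhv, inn, fd, vx]
    · refine .star _ rfl fun n' j' _ => ?_
      cases π (.c j k) v <;> simp [fhv, inn, fd, vx]

/-- A cluster edge that ends in a hub is the second edge of a pair tree. -/
theorem wall_hub {t : FT N M} {e : Cl × Cl} (he : e ∈ ce t.kd) {h : FT N M × Bool}
    (k : fhv h = vx it t e.2) : ∃ n j, vx it t e.1 = fc it n j ∧ vx it t e.2 = fd it n j ∧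
      e.1 = 16 := by
  have hb : bigC e.2 = true := by
    by_contra hb
    exact fhv_small (by simpa using hb) _ _ k
  rcases t with ⟨n, j⟩ | ⟨l, i⟩ | ⟨j, l⟩
  · simp only [FT.kd, ce, List.mem_cons, List.not_mem_nil, or_false] at he
    rcases he with rfl | rfl
    · have := (tab_wall (.inl n)).2.1
      simp only [cy] at this
      simp [this] at hb
    · exact ⟨n, j, rfl, rfl, (tab_pair n).2.2.2.1 hb⟩
  all_goals
    simp only [FT.kd, ce, List.mem_cons, List.not_mem_nil, or_false] at he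
    rcases he with rfl | rfl
    · simp [(tab_wall _).2.1] at hb
    · simp [(tab_wall _).2.2.1] at hb

theorem inn_cl {t : FT N M} {b : Bool} {c : Cl} {i : Fin N} (h : fhv (t, b) = .cl c i) :
    cx t.kd ≠ 16 := by
  cases b
  · simp [fhv] at h
  · rcases t with _ | ⟨k, _⟩ | _
    · simp [fhv, inn] at h
    · exact (by decide +kernel : ∀ k : Fin 3, cx (.inr (.inl k)) ≠ 16) k
    · simp [fhv, inn] at h

theorem cx_inj_w {t t' : FT N M} {b b' : Bool} (h : fhv (t, b) = fhv (t', b')) : t = t' :=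
  (Prod.mk.inj (fhv_inj h)).1

theorem f_d1 (hd : Dist it) (t t' : FT N M) (v : FV N M) (h : fpar it π t v = fpar it π t' v) :
    t = t' := by
  by_contra hne
  have a := fe it π t v
  have b := fe it π t' v
  rw [← h] at b
  generalize fpar it π t v = u at a b
  have key : ∀ {t t' : FT N M} {e : Cl × Cl} {c : Bool}, e ∈ ce t.kd → u = vx it t e.1 →
      v = vx it t e.2 → v = fhv (t', c) → u = vX it t' → False := by
    intro t t' e c he h1 h2 h3 h4
    obtain ⟨n, j, -, -, k⟩ := wall_hub it he (h3.symm.trans h2)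
    exact inn_cl (h3.symm.trans h2) ((FV.cl.inj (h4.symm.trans h1)).1.trans k)
  rcases a with ⟨e, he, a1, a2, a3⟩ | ⟨c, a1, a2⟩ | ⟨n, j, a1, a2, a3⟩ | ⟨c, a1, a2⟩ <;>
    rcases b with ⟨f, hf, b1, b2, b3⟩ | ⟨c', b1, b2⟩ | ⟨n', j', b1, b2, b3⟩ | ⟨c', b1, b2⟩
  · exact edg_ne hd hne he hf (by rw [← a1, ← a2, ← b1, ← b2])
  · exact key he a1 a2 b1 b2
  · simp [a1, vx] at b3
  · exact fhv_small a3 _ _ (b1.symm.trans a1)
  · exact key hf b1 b2 a1 a2
  · exact hne (cx_inj_w (a1.symm.trans b1))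
  · simp [a2, vX, vx] at b3
  · exact fhv_X it _ _ (b1.symm.trans a2)
  · simp [b1, vx] at a3
  · simp [b2, vX, vx] at a3
  · obtain ⟨rfl, rfl⟩ := FV.lp.inj (a3.symm.trans b3)
    exact hne (cx_inj_w (a2.symm.trans b2))
  · exact fhv_lp _ _ _ (b1.symm.trans a3)
  · exact fhv_small b3 _ _ (a1.symm.trans b1)
  · exact fhv_X it _ _ (a1.symm.trans b2)
  · exact fhv_lp _ _ _ (a1.symm.trans b3)
  · exact hne (cx_inj_w (a1.symm.trans b1))

theorem ce_ne (k : Kd) : ∀ e ∈ ce k, ∀ f ∈ ce k, e.1 = f.2 → e.2 ≠ f.1 := by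
  intro e he f hf h1 h2
  obtain ⟨-, -, -, a, b⟩ := tab_wall k
  rcases k with n | k | k <;>
    simp only [ce, List.mem_cons, List.not_mem_nil, or_false] at he hf
  · have := (tab_pair n).2.2.2.2
    simp only [List.nodup_cons, List.mem_cons, List.not_mem_nil, or_false, not_or] at this
    rcases he with rfl | rfl <;> rcases hf with rfl | rfl
    · exact this.1.1 h1
    · exact this.1.2.2 h1
    · exact this.2.1.1 h1.symm
    · exact this.2.2.1 h1
  all_goals
    rcases he with rfl | rfl <;> rcases hf with rfl | rfl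
    exacts [a h1, b h1, a h1, b h1]

theorem f_d2 (hd : Dist it) (t t' : FT N M) (v : FV N M) (h1 : v ≠ vX it t)
    (h2 : fpar it π t v ≠ vX it t') (h : fpar it π t' (fpar it π t v) = v) :
    (∃ h, fhv h = v) ∧ ∃ h, fhv h = fpar it π t v := by
  have a := fe it π t v
  have b := fe it π t' (fpar it π t v)
  rw [h] at b
  generalize fpar it π t v = u at a b h2
  have key : ∀ {t t' : FT N M} {e : Cl × Cl} {c : Bool} {u v : FV N M}, e ∈ ce t.kd →
      u = vx it t e.1 → v = vx it t e.2 → v = fhv (t', c) →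
      (∀ n j, u = fc it n j → fd it n j ≠ v) → False := by
    intro t t' e c u v he h1 h2 h3 h4
    obtain ⟨n, j, k1, k2, -⟩ := wall_hub it he (h3.symm.trans h2)
    exact h4 n j (h1.trans k1) (k2.symm.trans h2.symm)
  rcases a with ⟨e, he, a1, a2, a3⟩ | ⟨c, a1, a2⟩ | ⟨n, j, a1, a2, a3⟩ | ⟨c, a1, a2⟩ <;>
    rcases b with ⟨f, hf, b1, b2, b3⟩ | ⟨c', b1, b2⟩ | ⟨n', j', b1, b2, b3⟩ | ⟨c', b1, b2⟩
  · exfalso
    by_cases hne : t = t'
    · subst hne
      exact ce_ne _ e he f hf (FV.cl.inj (a1.symm.trans b2)).1 (FV.cl.inj (a2.symm.trans b1)).1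
    · exact edg_ne hd hne he hf (by rw [← a1, ← a2, ← b1, ← b2, Sym2.eq_swap])
  · exact (fhv_small a3 _ _ (b1.symm.trans a1)).elim
  · simp [a2, vx] at b3
  · exact (key he a1 a2 b1 b2).elim
  · exact (fhv_small b3 _ _ (a1.symm.trans b1)).elim
  · exact (fhv_X it _ _ (a1.symm.trans b2)).elim
  · exact (fhv_lp _ _ _ (a1.symm.trans b3)).elim
  · obtain rfl := cx_inj_w (a1.symm.trans b1)
    exact (h2 a2).elim
  · simp [a3, vx] at b2
  · exact (fhv_lp _ _ _ (b1.symm.trans a3)).elim
  · simp [a3, fc, vx] at b1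
  · exact (fhv_c it _ _ _ (b1.symm.trans a1)).elim
  · exact (key hf b1 b2 a1 a2).elim
  · obtain rfl := cx_inj_w (a1.symm.trans b1)
    exact (h1 b2).elim
  · exact (fhv_c it _ _ _ (a1.symm.trans b1)).elim
  · exact ⟨⟨_, b1.symm⟩, _, a1.symm⟩

theorem fdep_hub (t : FT N M) (b : Bool) : fdep it π t (fhv (t, b)) = 1 := by
  unfold fdep
  rw [if_neg (fhv_X it _ _), if_pos]
  cases b <;> simp [fhv]

theorem fdep_le (t : FT N M) (v : FV N M) (h : ∃ b, frad it π t v = fhv (t, b)) :
    fdep it π t v ≤ 2 := by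
  unfold fdep
  split_ifs <;> omega

theorem f_dep (t : FT N M) (v : FV N M) (h : v ≠ vX it t) :
    fdep it π t (fpar it π t v) < fdep it π t v := by
  unfold fpar
  split_ifs with h1
  · rw [fdep, fdep, if_pos rfl, if_neg h, if_pos h1]; omega
  · rw [show fdep it π t v = if ∃ b, frad it π t v = fhv (t, b) then 2 else 3 by
      rw [fdep, if_neg h, if_neg h1]]
    split_ifs with h2
    · obtain ⟨b, e⟩ := h2
      rw [e, fdep_hub]; omega
    · refine Nat.lt_succ_of_le (fdep_le it π t _ ?_)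
      rcases t with ⟨n, j⟩ | ⟨k, i⟩ | ⟨j, k⟩
      · by_cases h3 : v = fd it n j
        · have h4 : fc it n j ≠ fd it n j := fun e => by
            have := (tab_pair n).2.2.2.2
            simp only [List.nodup_cons, List.mem_cons, List.not_mem_nil, or_false] at this
            exact this.2.2.1 (FV.cl.inj e).1
          simp only [frad, if_pos h3, if_neg h4]
          exact ⟨_, rfl⟩
        · exact (h2 ⟨_, by simp only [frad, if_neg h3]; rfl⟩).elim
      · by_cases h3 : ∃ q : Fin 313 × Fin M, fc it q.1 q.2 = v ∧ fd it q.1 q.2 = .cl (oc k) i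
        · simp only [frad, dif_pos h3]
          rw [dif_neg (by simp [fc, vx])]
          exact ⟨_, rfl⟩
        · exact (h2 ⟨_, by simp only [frad, dif_neg h3]; rfl⟩).elim
      · exact (h2 ⟨_, rfl⟩).elim

noncomputable def fpre (hd : Dist it) (hN : 0 < N) : Pre (FV N M) (FT N M) (FT N M × Bool) where
  par := fpar it π
  root := vX it
  dep := fdep it π
  dep_lt := f_dep it π
  d1 t t' v _ _ h := f_d1 it π hd t t' v h
  hv := fhv
  ht := Prod.fst
  rk := frk
  w0 := .cl 0 ⟨0, hN⟩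
  hv_inj := fhv_inj
  rk_inj := by
    intro a b h
    have h1 := (Fintype.equivFin (FT N M × Bool) a).2
    have h2 := (Fintype.equivFin (FT N M × Bool) b).2
    refine (Fintype.equivFin (FT N M × Bool)).injective (Fin.ext ?_)
    unfold frk at h
    split_ifs at h <;> omega
  w0_ne h := fhv_small (by decide) _ h
  leaf := by
    rintro t ⟨t', b⟩ hne
    refine ⟨fhv_X it _ _, fun v _ e => ?_⟩
    have a := fe it π t v
    rw [e] at a
    rcases a with ⟨e, -, a1, -, a3⟩ | ⟨c, -, a2⟩ | ⟨n, j, -, -, a3⟩ | ⟨c, a1, -⟩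
    · exact fhv_small a3 _ _ a1
    · exact fhv_X it _ _ a2
    · exact fhv_lp _ _ _ a3
    · exact hne (cx_inj_w a1)
  d2 := f_d2 it π hd

end Pool.Agent.P.MP_2989a6_lc
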