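import Pool.Agent.P.MP_2989a6_lc.FrameDef

/-! A drawing of the frame vertices that satisfies all side conditions of the walls. -/

namespace Pool.Agent.P.MP_2989a6_lc

namespace FY

open Filter Topology Classical

/-- Intended position of a cluster. -/
def pos (η : ℝ) (c : Cl) : Pt := ((P0 c).1 + η * (D0 c).1, (P0 c).2 + η * (D0 c).2)

theorem ev_lex {c0 c1 c2 : ℝ} (h : 0 < c0 ∨ c0 = 0 ∧ (0 < c1 ∨ c1 = 0 ∧ 0 < c2)) :
    ∀ᶠ η in 𝓝[>] (0 : ℝ), 0 < c0 + c1 * η + c2 * η ^ 2 := by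
  have key : ∀ a b c : ℝ, 0 < a → ∀ᶠ η in 𝓝[>] (0 : ℝ), 0 < a + b * η + c * η ^ 2 := by
    intro a b c ha
    have hc : Continuous fun η : ℝ => a + b * η + c * η ^ 2 := by fun_prop
    have := (hc.tendsto 0).eventually (lt_mem_nhds (a := 0) (by simpa using ha))
    exact this.filter_mono nhdsWithin_le_nhds
  rcases h with h | ⟨rfl, h | ⟨rfl, h⟩⟩
  · exact key _ _ _ h
  · filter_upwards [key c1 c2 0 h, self_mem_nhdsWithin] with η k hη
    have hη : 0 < η := hη
    nlinarith [mul_pos hη k]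
  · filter_upwards [self_mem_nhdsWithin] with η hη
    have hη : 0 < η := hη
    have := mul_pos h (pow_pos hη 2)
    linarith

theorem ev_lexp {σ : ℤ} {a b c : Cl} (h : lexp σ a b c = true) :
    ∀ᶠ η in 𝓝[>] (0 : ℝ), 0 < (σ : ℝ) * det (pos η a) (pos η b) (pos η c) := by
  simp only [lexp, Bool.or_eq_true, Bool.and_eq_true, decide_eq_true_eq] at h
  have h' : (0 : ℝ) < (σ * crs (P0 b - P0 a) (P0 c - P0 a) : ℤ) ∨
      ((σ * crs (P0 b - P0 a) (P0 c - P0 a) : ℤ) : ℝ) = 0 ∧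
      ((0 : ℝ) < (σ * (crs (P0 b - P0 a) (D0 c - D0 a) + crs (D0 b - D0 a) (P0 c - P0 a)) : ℤ) ∨
        ((σ * (crs (P0 b - P0 a) (D0 c - D0 a) + crs (D0 b - D0 a) (P0 c - P0 a)) : ℤ) : ℝ) = 0 ∧
        (0 : ℝ) < (σ * crs (D0 b - D0 a) (D0 c - D0 a) : ℤ)) := by exact_mod_cast h
  refine (ev_lex h').mono fun η k => ?_
  convert k using 1
  simp only [det, pos, crs, Prod.fst_sub, Prod.snd_sub]
  push_cast
  ring

theorem room_pos {σ : ℤ} {a b : Cl} {r : Fin 5} (h : rside σ a b r = true) {q : Pt}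
    (hq : InRoom r q) : 0 < (σ : ℝ) * det (pos 0 a) (pos 0 b) q := by
  simp only [rside, Bool.and_eq_true, decide_eq_true_eq] at h
  obtain ⟨⟨⟨h0, h1⟩, h2⟩, h3⟩ := h
  obtain ⟨q1, q2, q3⟩ := hq
  have e : ∀ m, ((σ * crs (P0 b - P0 a) (corner r m - P0 a) : ℤ) : ℝ) =
      (σ : ℝ) * det (pos 0 a) (pos 0 b) (zp (corner r m)) := by
    intro m
    simp only [det, pos, crs, zp, Prod.fst_sub, Prod.snd_sub]
    push_cast
    ring
  have g0 : (0 : ℝ) ≤ (σ : ℝ) * det (pos 0 a) (pos 0 b) (zp (corner r 0)) := by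
    rw [← e]; exact_mod_cast h0
  have g1 : (0 : ℝ) ≤ (σ : ℝ) * det (pos 0 a) (pos 0 b) (zp (corner r 1)) := by
    rw [← e]; exact_mod_cast h1
  have g2 : (0 : ℝ) ≤ (σ : ℝ) * det (pos 0 a) (pos 0 b) (zp (corner r 2)) := by
    rw [← e]; exact_mod_cast h2
  have g3 : (0 : ℝ) < (σ : ℝ) * det (pos 0 a) (pos 0 b) (zp (corner r 0)) +
      (σ : ℝ) * det (pos 0 a) (pos 0 b) (zp (corner r 1)) +
      (σ : ℝ) * det (pos 0 a) (pos 0 b) (zp (corner r 2)) := by
    rw [← e, ← e, ← e]; exact_mod_cast h3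
  generalize zp (corner r 0) = A at *
  generalize zp (corner r 1) = B at *
  generalize zp (corner r 2) = C at *
  generalize pos 0 a = x at *
  generalize pos 0 b = y at *
  have id : (det A B q + det B C q + det C A q) * ((σ : ℝ) * det x y q) =
      det B C q * ((σ : ℝ) * det x y A) + det C A q * ((σ : ℝ) * det x y B) +
        det A B q * ((σ : ℝ) * det x y C) := by unfold det; ring
  have hpos : 0 < det B C q * ((σ : ℝ) * det x y A) + det C A q * ((σ : ℝ) * det x y B) +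
        det A B q * ((σ : ℝ) * det x y C) := by
    have a0 := mul_nonneg q2.le g0
    have a1 := mul_nonneg q3.le g1
    have a2 := mul_nonneg q1.le g2
    rcases g0.eq_or_lt with b0 | b0
    · rcases g1.eq_or_lt with b1 | b1
      · have := mul_pos q1 (show 0 < (σ : ℝ) * det x y C by linarith)
        linarith
      · have := mul_pos q3 b1
        linarith
    · have := mul_pos q2 b0
      linarith
  rw [← id] at hpos
  exact (pos_iff_pos_of_mul_pos hpos).1 (by linarith)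

theorem det_tendsto {α : Type} {l : Filter α} {a b c : α → Pt} {a0 b0 c0 : Pt}
    (ha : Tendsto a l (𝓝 a0)) (hb : Tendsto b l (𝓝 b0)) (hc : Tendsto c l (𝓝 c0)) :
    Tendsto (fun x => det (a x) (b x) (c x)) l (𝓝 (det a0 b0 c0)) := by
  have : Continuous fun z : Pt × Pt × Pt => det z.1 z.2.1 z.2.2 := by unfold det; fun_prop
  exact (this.tendsto (a0, b0, c0)).comp (ha.prodMk_nhds (hb.prodMk_nhds hc))

theorem ev_rside {σ : ℤ} {a b : Cl} {r : Fin 5} (h : rside σ a b r = true) {q : Pt}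
    (hq : InRoom r q) : ∀ᶠ η in 𝓝[>] (0 : ℝ), 0 < (σ : ℝ) * det (pos η a) (pos η b) q := by
  have hc : ∀ c, Tendsto (fun η => pos η c) (𝓝[>] (0 : ℝ)) (𝓝 (pos 0 c)) := fun c => by
    have : Continuous fun η => pos η c := by unfold pos; fun_prop
    exact (this.tendsto 0).mono_left nhdsWithin_le_nhds
  exact ((det_tendsto (hc a) (hc b) tendsto_const_nhds).const_mul _).eventually
    (lt_mem_nhds (room_pos h hq))

variable {N M : ℕ} (it : Items N M)

/-- Side of the first wall. -/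
def F1 (P : FV N M → Pt) (t : FT N M) (p : Pt) : ℝ := det (P (vX it t)) (P (vY it t)) p

/-- Side of the second wall. -/
def F2 (P : FV N M → Pt) (t : FT N M) (p : Pt) : ℝ :=
  (sg t.kd : ℝ) * det (P (vX it t)) (P (vZ it t)) p

/-- The strict side conditions. -/
structure OK {ι : Type} (ρ : ι → Fin 5) (Q : ι → Pt) (P : FV N M → Pt) : Prop where
  i1 : ∀ t v c, co v = some c → inB t.kd c = true → 0 < F1 it P t (P v) ∧ 0 < F2 it P t (P v)
  o1 : ∀ t v c, co v = some c → outB t.kd c = true → F1 it P t (P v) < 0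
  gm : ∀ t, F1 it P t (P (.gm t)) < 0 ∧ F2 it P t (P (.gm t)) < 0
  wd : ∀ k i, 0 < F1 it P (.w k i) (P (vZ it (.w k i)))
  i2 : ∀ t i, rs t.kd (ρ i) = true → 0 < F1 it P t (Q i) ∧ 0 < F2 it P t (Q i)
  o2 : ∀ t i, rs t.kd (ρ i) = false → F1 it P t (Q i) < 0

variable {it}

theorem OK.eventually {ι α : Type} [Finite ι] {ρ : ι → Fin 5} {Q : ι → Pt} {P : FV N M → Pt}
    (h : OK it ρ Q P) {l : Filter α} {F : α → FV N M → Pt} (hF : Tendsto F l (𝓝 P)) :
    ∀ᶠ x in l, OK it ρ Q (F x) := by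
  have tv : ∀ v, Tendsto (fun x => F x v) l (𝓝 (P v)) := tendsto_pi_nhds.1 hF
  have t1 : ∀ t {p : α → Pt} {p0 : Pt}, Tendsto p l (𝓝 p0) →
      Tendsto (fun x => F1 it (F x) t (p x)) l (𝓝 (F1 it P t p0)) :=
    fun t _ _ hp => det_tendsto (tv _) (tv _) hp
  have t2 : ∀ t {p : α → Pt} {p0 : Pt}, Tendsto p l (𝓝 p0) →
      Tendsto (fun x => F2 it (F x) t (p x)) l (𝓝 (F2 it P t p0)) :=
    fun t _ _ hp => (det_tendsto (tv _) (tv _) hp).const_mul _
  have a1 : ∀ᶠ x in l, ∀ t v c, co v = some c → inB t.kd c = true →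
      0 < F1 it (F x) t (F x v) ∧ 0 < F2 it (F x) t (F x v) := by
    simp only [eventually_all]
    intro t v c k1 k2
    exact ((t1 t (tv v)).eventually (lt_mem_nhds (h.i1 t v c k1 k2).1)).and
      ((t2 t (tv v)).eventually (lt_mem_nhds (h.i1 t v c k1 k2).2))
  have a2 : ∀ᶠ x in l, ∀ t v c, co v = some c → outB t.kd c = true →
      F1 it (F x) t (F x v) < 0 := by
    simp only [eventually_all]
    intro t v c k1 k2
    exact (t1 t (tv v)).eventually (gt_mem_nhds (h.o1 t v c k1 k2))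
  have a3 : ∀ᶠ x in l, ∀ t, F1 it (F x) t (F x (.gm t)) < 0 ∧ F2 it (F x) t (F x (.gm t)) < 0 := by
    simp only [eventually_all]
    intro t
    exact ((t1 t (tv _)).eventually (gt_mem_nhds (h.gm t).1)).and
      ((t2 t (tv _)).eventually (gt_mem_nhds (h.gm t).2))
  have a4 : ∀ᶠ x in l, ∀ k i, 0 < F1 it (F x) (.w k i) (F x (vZ it (.w k i))) := by
    simp only [eventually_all]
    intro k i
    exact (t1 _ (tv _)).eventually (lt_mem_nhds (h.wd k i))
  have a5 : ∀ᶠ x in l, ∀ t i, rs t.kd (ρ i) = true →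
      0 < F1 it (F x) t (Q i) ∧ 0 < F2 it (F x) t (Q i) := by
    simp only [eventually_all]
    intro t i k1
    exact ((t1 t tendsto_const_nhds).eventually (lt_mem_nhds (h.i2 t i k1).1)).and
      ((t2 t tendsto_const_nhds).eventually (lt_mem_nhds (h.i2 t i k1).2))
  have a6 : ∀ᶠ x in l, ∀ t i, rs t.kd (ρ i) = false → F1 it (F x) t (Q i) < 0 := by
    simp only [eventually_all]
    intro t i k1
    exact (t1 t tendsto_const_nhds).eventually (gt_mem_nhds (h.o2 t i k1))
  filter_upwards [a1, a2, a3, a4, a5, a6] with x b1 b2 b3 b4 b5 b6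
  exact ⟨b1, b2, b3, b4, b5, b6⟩

/-- Cluster of the inner hub. -/
def ci : Kd → Cl
  | .inl n => (con n).2.2.1
  | .inr (.inl k) => oc k
  | .inr (.inr k) => zpos k

theorem co_inn (t : FT N M) : co (inn t) = some (ci t.kd) := by cases t <;> rfl

theorem inB_ci (k : Kd) : inB k (ci k) = true := by
  rcases k with n | k | k
  · exact (tab_pair n).1
  · exact (tab_wedge k).1
  · exact (tab_ctr k).1

/-- The degenerate starting drawing. -/
def base (η : ℝ) (v : FV N M) : Pt :=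
  match co v, v with
  | some c, _ => pos η c
  | none, .gm t => pos η (cx t.kd) + pos η (cx t.kd) - pos η (ci t.kd)
  | none, _ => 0

theorem base_some {η : ℝ} {v : FV N M} {c : Cl} (h : co v = some c) : base η v = pos η c := by
  unfold base; rw [h]

theorem base_ok {ι : Type} [Finite ι] {ρ : ι → Fin 5} {Q : ι → Pt} (hQ : ∀ i, InRoom (ρ i) (Q i)) :
    ∃ η, OK it ρ Q (base η) := by
  have e1 : ∀ η t p, F1 it (base η) t p = det (pos η (cx t.kd)) (pos η (cy t.kd)) p :=
    fun η t p => rfl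
  have e2 : ∀ η t p, F2 it (base η) t p =
      (sg t.kd : ℝ) * det (pos η (cx t.kd)) (pos η (cz t.kd)) p := fun η t p => rfl
  have a1 : ∀ᶠ η in 𝓝[>] (0 : ℝ), ∀ k c, inB k c = true →
      0 < det (pos η (cx k)) (pos η (cy k)) (pos η c) ∧
        0 < (sg k : ℝ) * det (pos η (cx k)) (pos η (cz k)) (pos η c) := by
    simp only [eventually_all]
    intro k c h
    simp only [inB, Bool.and_eq_true] at h
    exact ((ev_lexp h.1).mono fun η k => by simpa using k).and (ev_lexp h.2)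
  have a2 : ∀ᶠ η in 𝓝[>] (0 : ℝ), ∀ k c, outB k c = true →
      det (pos η (cx k)) (pos η (cy k)) (pos η c) < 0 := by
    simp only [eventually_all]
    intro k c h
    exact (ev_lexp h).mono fun η k => by simpa using k
  have a4 : ∀ᶠ η in 𝓝[>] (0 : ℝ), ∀ k, 0 < det (pos η (cx (.inr (.inl k))))
      (pos η (cy (.inr (.inl k)))) (pos η (cz (.inr (.inl k)))) := by
    simp only [eventually_all]
    intro k
    exact (ev_lexp (tab_wedge k).2.2.2.2.2).mono fun η k => by simpa using k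
  have a5 : ∀ᶠ η in 𝓝[>] (0 : ℝ), ∀ k i, rs k (ρ i) = true →
      0 < det (pos η (cx k)) (pos η (cy k)) (Q i) ∧
        0 < (sg k : ℝ) * det (pos η (cx k)) (pos η (cz k)) (Q i) := by
    simp only [eventually_all]
    intro k i h
    have h2 := tab_room k (ρ i)
    rw [if_pos h] at h2
    exact ((ev_rside h (hQ i)).mono fun η k => by simpa using k).and (ev_rside h2 (hQ i))
  have a6 : ∀ᶠ η in 𝓝[>] (0 : ℝ), ∀ k i, rs k (ρ i) = false →
      det (pos η (cx k)) (pos η (cy k)) (Q i) < 0 := by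
    simp only [eventually_all]
    intro k i h
    have h2 := tab_room k (ρ i)
    rw [if_neg (by simp [h])] at h2
    exact (ev_rside h2 (hQ i)).mono fun η k => by simpa using k
  obtain ⟨η, b1, b2, b4, b5, b6⟩ := (a1.and (a2.and (a4.and (a5.and a6)))).exists
  have refl : ∀ x y p : Pt, det x y (x + x - p) = -det x y p := fun x y p => by
    simp only [det, Prod.fst_add, Prod.snd_add, Prod.fst_sub, Prod.snd_sub]; ring
  refine ⟨η, ?_, ?_, ?_, fun k i => b4 k, fun t i h => b5 _ i h, fun t i h => b6 _ i h⟩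
  · intro t v c k1 k2
    rw [e1, e2, base_some k1]
    exact b1 _ c k2
  · intro t v c k1 k2
    rw [e1, base_some k1]
    exact b2 _ c k2
  · intro t
    rw [e1, e2]
    have g : base η (.gm t) = pos η (cx t.kd) + pos η (cx t.kd) - pos η (ci t.kd) →
        det (pos η (cx t.kd)) (pos η (cy t.kd)) (base η (.gm t)) < 0 ∧
        (sg t.kd : ℝ) * det (pos η (cx t.kd)) (pos η (cz t.kd)) (base η (.gm t)) < 0 := by
      intro e
      have := b1 _ _ (inB_ci t.kd)
      rw [e, refl, refl]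
      constructor <;> linarith [this.1, this.2]
    rcases t with ⟨n, j⟩ | ⟨k, i⟩ | ⟨j, k⟩
    · exact g rfl
    · exact g rfl
    · have := b2 _ _ (tab_ctr k).2
      refine ⟨this, ?_⟩
      have e : (sg (FT.c j k : FT N M).kd : ℝ) = 1 := by simp [FT.kd, sg]
      rw [e, one_mul]
      exact this

/-! ### Walls and radial edges are different edges -/

/-- The vertices `u`, `u'` are the ends of the second edge of the pair tree `(n, j)`. -/
def SE (it : Items N M) (u u' : FV N M) (n : Fin 313) (j : Fin M) : Prop :=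
  u = fc it n j ∧ u' = fd it n j ∨ u = fd it n j ∧ u' = fc it n j

theorem SE.slot_eq (hd : Dist it) {t : FT N M} {a b : Cl} {n : Fin 313} {j : Fin M}
    (hab : (a, b) ∈ shp ((slot t).map Prod.fst Prod.fst))
    (h : SE it (vx it t a) (vx it t b) n j) : slot t = slot (.p n j : FT N M) := by
  by_contra hne
  refine hd _ _ hne _ hab ((con n).2.2.1, (con n).2.2.2) (by simp [slot, shp]) ?_
  simp only [SE, vx, fc, fd, FV.cl.injEq] at h
  simp only [edg, Sym2.eq_iff, Prod.mk.injEq]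
  tauto

theorem slot_p {t : FT N M} {n : Fin 313} {j : Fin M} (h : slot t = slot (.p n j : FT N M)) :
    t = .p n j := by
  rcases t with ⟨n', j'⟩ | ⟨k, i⟩ | ⟨j', k⟩ <;> simp_all [slot]

theorem nodup (n : Fin 313) : (con n).1 ≠ (con n).2.2.1 ∧ (con n).1 ≠ (con n).2.2.2 ∧
    (con n).2.2.1 ≠ (con n).2.2.2 := by
  have := (tab_pair n).2.2.2.2
  simp only [List.nodup_cons, List.mem_cons, not_or] at this
  tauto

theorem fc_ne_fd (n : Fin 313) (j : Fin M) : fc it n j ≠ fd it n j := by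
  simp only [fc, fd, vx, ne_eq, FV.cl.injEq, not_and]
  exact fun e => ((nodup n).2.2 e).elim

theorem SE.uniq (hd : Dist it) {n n' : Fin 313} {j j' : Fin M}
    (h : SE it (fd it n j) (fc it n j) n' j') : n = n' ∧ j = j' := by
  have h' : SE it (fc it n j) (fd it n j) n' j' := by unfold SE at *; tauto
  have := slot_p (SE.slot_eq hd (t := .p n j) (by simp [slot, shp]) h')
  simpa using this

theorem not_SE_X {t : FT N M} {n : Fin 313} {j : Fin M} {u : FV N M}
    (h : SE it (vX it t) u n j) : slot t ≠ slot (.p n j : FT N M) := by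
  intro e
  obtain rfl := slot_p e
  simp only [SE, vX, vx, fc, fd, FV.cl.injEq, FT.kd, cx] at h
  rcases h with ⟨⟨h, -⟩, -⟩ | ⟨⟨h, -⟩, -⟩
  · exact (nodup n).1 h
  · exact (nodup n).2.1 h

theorem not_SE_Y (hd : Dist it) (t : FT N M) (n : Fin 313) (j : Fin M) :
    ¬ SE it (vX it t) (vY it t) n j := fun h => by
  refine not_SE_X h (SE.slot_eq hd ?_ h)
  rcases t with ⟨n', j'⟩ | ⟨k, i⟩ | ⟨j', k⟩
  · simp [slot, shp, FT.kd, cx, cy]
  · simp [slot, shp, FT.kd]
  · simp only [slot, shp, FT.kd, Sum.map_inr]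
    clear h; revert k; decide

theorem not_SE_Z (hd : Dist it) (t : FT N M) (n : Fin 313) (j : Fin M) :
    ¬ SE it (vX it t) (vZ it t) n j := fun h => by
  refine not_SE_X h (SE.slot_eq hd ?_ h)
  rcases t with ⟨n', j'⟩ | ⟨k, i⟩ | ⟨j', k⟩
  · simp [slot, shp, FT.kd, cx, cz]
  · simp [slot, shp, FT.kd]
  · simp only [slot, shp, FT.kd, Sum.map_inr]
    clear h; revert k; decide

/-! ### Putting inner hubs and helpers of pair trees on the radial lines -/

/-- A cluster vertex. -/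
def IsCl (v : FV N M) : Prop := ∃ c i, v = .cl c i

def pr (it : Items N M) : FV N M → FV N M
  | .gp n j => fc it n j
  | .lp n j => fc it n j
  | v => v

def mk (it : Items N M) (P : FV N M → Pt) (θ : ℝ) : FV N M → Pt
  | .gp n j => P (fd it n j) + (1 + 2 * θ) • (P (fc it n j) - P (fd it n j))
  | .lp n j => P (fd it n j) + (1 + θ) • (P (fc it n j) - P (fd it n j))
  | v => P v

theorem co_pr (v : FV N M) : co (pr it v) = co v := by cases v <;> rfl

theorem OK.pr {ι : Type} {ρ : ι → Fin 5} {Q : ι → Pt} {P : FV N M → Pt} (h : OK it ρ Q P) :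
    OK it ρ Q (fun v => P (pr it v)) :=
  ⟨fun t v c k1 k2 => h.i1 t (FY.pr it v) c ((co_pr v).trans k1) k2,
    fun t v c k1 k2 => h.o1 t (FY.pr it v) c ((co_pr v).trans k1) k2, h.gm, h.wd, h.i2, h.o2⟩

theorem mk_tendsto (P : FV N M → Pt) (v : FV N M) :
    Tendsto (fun θ => mk it P θ v) (𝓝[>] 0) (𝓝 (P (pr it v))) := by
  have hc : Continuous fun θ => mk it P θ v := by
    cases v <;> simp only [mk] <;> fun_prop
  have e : mk it P 0 v = P (pr it v) := by cases v <;> simp [mk, pr]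
  exact (e ▸ hc.tendsto 0).mono_left nhdsWithin_le_nhds

theorem mk_off {P : FV N M → Pt} (hP : GP P) {u u' v : FV N M} (h : u ≠ u') (h1 : v ≠ u)
    (h2 : v ≠ u') (h3 : ∀ n j, v = .gp n j ∨ v = .lp n j → ¬ SE it u u' n j) :
    ∀ᶠ θ in 𝓝[>] (0 : ℝ), det (P u) (P u') (mk it P θ v) ≠ 0 := by
  by_cases k : pr it v ≠ u ∧ pr it v ≠ u'
  · exact (det_tendsto tendsto_const_nhds tendsto_const_nhds (mk_tendsto P v)).eventually_ne
      (hP.2 _ _ _ h k.1.symm k.2.symm)
  have key : ∀ n j, fc it n j = u ∨ fc it n j = u' → ¬ SE it u u' n j → ∀ a : ℝ, a ≠ 1 →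
      det (P u) (P u') (P (fd it n j) + a • (P (fc it n j) - P (fd it n j))) ≠ 0 := by
    intro n j k1 k2 a ha
    have e : det (P u) (P u') (P (fd it n j) + a • (P (fc it n j) - P (fd it n j))) =
        (1 - a) * det (P u) (P u') (P (fd it n j)) := by
      rcases k1 with rfl | rfl <;> simp [det] <;> ring
    rw [e]
    refine mul_ne_zero (sub_ne_zero.2 ha.symm) (hP.2 _ _ _ h ?_ ?_)
    · rintro rfl
      rcases k1 with k1 | rfl
      · exact fc_ne_fd n j k1
      · exact k2 (Or.inr ⟨rfl, rfl⟩)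
    · rintro rfl
      rcases k1 with rfl | k1
      · exact k2 (Or.inl ⟨rfl, rfl⟩)
      · exact fc_ne_fd n j k1
  have k' : pr it v = u ∨ pr it v = u' := by tauto
  filter_upwards [self_mem_nhdsWithin] with θ hθ
  have hθ : 0 < θ := hθ
  cases v with
  | gp n j => exact key n j k' (h3 n j (Or.inl rfl)) _ (by linarith)
  | lp n j => exact key n j k' (h3 n j (Or.inr rfl)) _ (by linarith)
  | _ => exact (k ⟨h1, h2⟩).elim

/-- The drawing before the last displacement. -/
structure Gen (it : Items N M) {ι : Type} (ρ : ι → Fin 5) (Q : ι → Pt) (R : FV N M → Pt)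
    (a b : ℝ) : Prop where
  ok : OK it ρ Q R
  off : ∀ u u' v, IsCl u → IsCl u' → u ≠ u' → v ≠ u → v ≠ u' →
    (∀ n j, v = .gp n j ∨ v = .lp n j → ¬ SE it u u' n j) → det (R u) (R u') (R v) ≠ 0
  offQ : ∀ u u' i, IsCl u → IsCl u' → u ≠ u' → det (R u) (R u') (Q i) ≠ 0
  ne : ∀ n j, (R (fd it n j)).1 ≠ (R (fc it n j)).1
  gp : ∀ n j, R (.gp n j) = R (fd it n j) + a • (R (fc it n j) - R (fd it n j))
  lp : ∀ n j, R (.lp n j) = R (fd it n j) + b • (R (fc it n j) - R (fd it n j))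
  ha : 1 < a
  hb : 1 < b

theorem exists_gen {ι : Type} [Finite ι] {ρ : ι → Fin 5} {Q : ι → Pt}
    (hQ : ∀ i, InRoom (ρ i) (Q i)) : ∃ R a b, Gen it ρ Q R a b := by
  obtain ⟨η, h0⟩ := base_ok (it := it) hQ
  obtain ⟨P, h1, hP, hPQ⟩ := exists_GP (base η) Q (h0.eventually tendsto_id)
  have h1 : OK it ρ Q P := h1
  have a1 := h1.pr.eventually (tendsto_pi_nhds.2 (mk_tendsto (it := it) P))
  have a2 : ∀ᶠ θ in 𝓝[>] (0 : ℝ), ∀ u u' v, u ≠ u' → v ≠ u → v ≠ u' →
      (∀ n j, v = .gp n j ∨ v = .lp n j → ¬ SE it u u' n j) →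
      det (P u) (P u') (mk it P θ v) ≠ 0 := by
    simp only [eventually_all]
    exact fun u u' v => mk_off hP
  obtain ⟨θ, b1, b2, b3⟩ := (a1.and (a2.and self_mem_nhdsWithin)).exists
  have b3 : 0 < θ := b3
  refine ⟨mk it P θ, 1 + 2 * θ, 1 + θ, b1, ?_, ?_, fun n j => hP.1 _ _ (fc_ne_fd n j).symm,
    fun n j => rfl, fun n j => rfl, by linarith, by linarith⟩
  · rintro _ _ v ⟨c, i, rfl⟩ ⟨c', i', rfl⟩
    exact b2 _ _ v
  · rintro _ _ x ⟨c, i, rfl⟩ ⟨c', i', rfl⟩
    exact hPQ _ _ x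

end FY

end Pool.Agent.P.MP_2989a6_lc
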