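import Pool.Agent.P.MP_2989a6_lc.FramePre
import Pool.Agent.P.MP_2989a6_lc.FrameYesA

/-! The frame trees can be drawn around any finite set of points in the rooms. -/

namespace Pool.Agent.P.MP_2989a6_lc

namespace FY

open Filter Topology Classical

variable {N M : ℕ} {it : Items N M} {ι : Type} {ρ : ι → Fin 5} {Q : ι → Pt} {R : FV N M → Pt}
  {a b : ℝ}

/-- The side pattern read off from a drawing. -/
noncomputable def side (it : Items N M) (R : FV N M → Pt) (t : FT N M) (v : FV N M) : Bool :=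
  decide (0 < F1 it R t (R v) ∧ 0 < F2 it R t (R v))

theorem OK.des (h : OK it ρ Q R) : Des (side it R) := fun t v c k =>
  ⟨fun k2 => decide_eq_true (h.i1 t v c k k2),
    fun k2 => decide_eq_false fun e => (h.o1 t v c k k2).not_gt e.1⟩

/-- The parent map of an extended tree. -/
noncomputable def xpar (it : Items N M) (π : FT N M → FV N M → Bool) (ρ : ι → Fin 5)
    (t : FT N M) : FV N M ⊕ ι → FV N M ⊕ ι :=
  Sum.elim (fun v => .inl (fpar it π t v)) fun i => .inl (fhv (fatt t (ρ i)))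

/-- The kinds of edges of an extended tree. -/
inductive Ed (it : Items N M) (Q : ι → Pt) (R : FV N M → Pt) :
    FT N M → FV N M ⊕ ι → FV N M ⊕ ι → Prop
  | wy (t) : Ed it Q R t (.inl (vY it t)) (.inl (vX it t))
  | wz (t) : Ed it Q R t (.inl (vZ it t)) (.inl (vX it t))
  | hi (t) : Ed it Q R t (.inl (inn t)) (.inl (vX it t))
  | ho (t) : Ed it Q R t (.inl (.gm t)) (.inl (vX it t))
  | si (t z) : z ≠ .inl (inn t) → 0 < F1 it R t (Sum.elim R Q z) →
      0 < F2 it R t (Sum.elim R Q z) → Ed it Q R t z (.inl (inn t))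
  | so (t z) : F1 it R t (Sum.elim R Q z) < 0 ∨ F2 it R t (Sum.elim R Q z) < 0 →
      Ed it Q R t z (.inl (.gm t))
  | rp (n j) : Ed it Q R (.p n j) (.inl (fd it n j)) (.inl (fc it n j))
  | rw (k i n j) : fd it n j = .cl (oc k) i →
      Ed it Q R (.w k i) (.inl (fc it n j)) (.inl (.lp n j))

theorem sg_ne (k : Kd) : (sg k : ℝ) ≠ 0 := by
  rcases k with n | k | k <;> simp [sg]

theorem X_ne_Y (t : FT N M) : vX it t ≠ vY it t := by
  simp only [vX, vY, vx, ne_eq, FV.cl.injEq, not_and]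
  exact fun e => ((tab_wall t.kd).2.2.2.1 e).elim

theorem X_ne_Z (t : FT N M) : vX it t ≠ vZ it t := by
  simp only [vX, vZ, vx, ne_eq, FV.cl.injEq, not_and]
  exact fun e => ((tab_wall t.kd).2.2.2.2 e).elim

theorem Gen.hub (h : Gen it ρ Q R a b) (hd : Dist it) {t : FT N M} {v : FV N M}
    (h0 : v ≠ vX it t) (h1 : v ≠ vY it t) (h2 : v ≠ vZ it t) (h3 : v ≠ inn t) :
    Ed it Q R t (.inl v) (.inl (fhv (t, side it R t v))) := by
  cases e : side it R t v
  · have k := of_decide_eq_false e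
    have k1 : F1 it R t (R v) ≠ 0 :=
      h.off _ _ v ⟨_, _, rfl⟩ ⟨_, _, rfl⟩ (X_ne_Y t) h0 h1 fun n j _ => not_SE_Y hd t n j
    have k2 : F2 it R t (R v) ≠ 0 := mul_ne_zero (sg_ne _)
      (h.off _ _ v ⟨_, _, rfl⟩ ⟨_, _, rfl⟩ (X_ne_Z t) h0 h2 fun n j _ => not_SE_Z hd t n j)
    refine Ed.so t _ ?_
    rcases not_and_or.1 k with k | k
    · exact Or.inl (lt_of_le_of_ne (not_lt.1 k) k1)
    · exact Or.inr (lt_of_le_of_ne (not_lt.1 k) k2)
  · have k := of_decide_eq_true e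
    exact Ed.si t _ (fun e => h3 (Sum.inl.inj e)) k.1 k.2

theorem Gen.ed (h : Gen it ρ Q R a b) (hd : Dist it) (t : FT N M) {u : FV N M ⊕ ι}
    (hu : u ≠ .inl (vX it t)) : Ed it Q R t u (xpar it (side it R) ρ t u) := by
  rcases u with v | i
  · have h0 : v ≠ vX it t := fun e => hu (congrArg _ e)
    simp only [xpar, Sum.elim_inl, fpar]
    split_ifs with k
    · rcases k with rfl | rfl | rfl | rfl
      · exact Ed.wy t
      · exact Ed.wz t
      · exact Ed.hi t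
      · exact Ed.ho t
    · simp only [not_or] at k
      have hb := h.hub hd h0 k.1 k.2.1 k.2.2.1
      rcases t with ⟨n, j⟩ | ⟨k', i⟩ | ⟨j, k'⟩
      · simp only [frad]
        split_ifs with e
        · subst e; exact Ed.rp n j
        · exact hb
      · simp only [frad]
        split_ifs with e
        · obtain ⟨e1, e2⟩ := e.choose_spec
          generalize e.choose = q at e1 e2
          subst e1
          exact Ed.rw k' i _ _ e2
        · exact hb
      · exact hb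
  · simp only [xpar, Sum.elim_inr, fatt]
    cases e : rs t.kd (ρ i)
    · exact Ed.so t _ (Or.inl (h.ok.o2 t i e))
    · exact Ed.si t _ (by simp) (h.ok.i2 t i e).1 (h.ok.i2 t i e).2

/-! ### Separation by the walls -/

theorem F1_X (t : FT N M) : F1 it R t (R (vX it t)) = 0 := by simp [F1, det]
theorem F1_Y (t : FT N M) : F1 it R t (R (vY it t)) = 0 := by simp [F1, det, mul_comm]
theorem F2_X (t : FT N M) : F2 it R t (R (vX it t)) = 0 := by simp [F2, det]
theorem F2_Z (t : FT N M) : F2 it R t (R (vZ it t)) = 0 := by simp [F2, det, mul_comm]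

theorem OK.F1_Z (h : OK it ρ Q R) (t : FT N M) : 0 ≤ F1 it R t (R (vZ it t)) := by
  rcases t with ⟨n, j⟩ | ⟨k, i⟩ | ⟨j, k⟩
  · exact (F1_Y _).ge
  · exact (h.wd k i).le
  · exact (F1_Y _).ge

theorem OK.F2_Y (h : OK it ρ Q R) (t : FT N M) : 0 ≤ F2 it R t (R (vY it t)) := by
  rcases t with ⟨n, j⟩ | ⟨k, i⟩ | ⟨j, k⟩
  · exact (F2_Z _).ge
  · have := h.wd k i
    simp only [F1, F2, FT.kd, sg, det] at this ⊢
    push_cast
    linarith
  · exact (F2_Z _).ge

theorem OK.inn (h : OK it ρ Q R) (t : FT N M) :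
    0 < F1 it R t (R (inn t)) ∧ 0 < F2 it R t (R (inn t)) :=
  h.i1 t _ _ (co_inn t) (inB_ci _)

theorem OK.rw_in (h : OK it ρ Q R) {k : Fin 3} {i : Fin N} {n : Fin 313} {j : Fin M}
    (e : fd it n j = .cl (oc k) i) {v : FV N M} (hv : co v = some (con n).2.2.1) :
    0 < F1 it R (.w k i) (R v) ∧ 0 < F2 it R (.w k i) (R v) := by
  refine h.i1 _ v _ hv ?_
  have e1 : (con n).2.2.2 = oc k := (FV.cl.inj e).1
  have e2 : ∀ k, bigC (oc k) = true := by decide
  rw [(tab_pair n).2.2.2.1 (e1 ▸ e2 k)]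
  exact (tab_wedge k).2.2.2.1

/-- Both points are in the closed inner region. -/
def CI (it : Items N M) (R : FV N M → Pt) (t : FT N M) (p q : Pt) : Prop :=
  0 ≤ F1 it R t p ∧ 0 ≤ F2 it R t p ∧ 0 ≤ F1 it R t q ∧ 0 ≤ F2 it R t q

/-- Both points are in the open inner region. -/
def OI (it : Items N M) (R : FV N M → Pt) (t : FT N M) (p q : Pt) : Prop :=
  0 < F1 it R t p ∧ 0 < F2 it R t p ∧ 0 < F1 it R t q ∧ 0 < F2 it R t q

/-- Both points are strictly behind one wall. -/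
def OO (it : Items N M) (R : FV N M → Pt) (t : FT N M) (p q : Pt) : Prop :=
  F1 it R t p < 0 ∧ F1 it R t q < 0 ∨ F2 it R t p < 0 ∧ F2 it R t q < 0

/-- Both points are weakly behind one wall. -/
def CO (it : Items N M) (R : FV N M → Pt) (t : FT N M) (p q : Pt) : Prop :=
  F1 it R t p ≤ 0 ∧ F1 it R t q ≤ 0 ∨ F2 it R t p ≤ 0 ∧ F2 it R t q ≤ 0

theorem OI.ci {t : FT N M} {p q : Pt} (h : OI it R t p q) : CI it R t p q :=
  ⟨h.1.le, h.2.1.le, h.2.2.1.le, h.2.2.2.le⟩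

theorem OI.dj {t : FT N M} {p q r s : Pt} (h : OI it R t p q) (k : CO it R t r s) :
    Dj p q r s := by
  rcases k with ⟨k1, k2⟩ | ⟨k1, k2⟩
  · exact Dj.of_sep (R (vX it t)) (R (vY it t)) 1 (by simpa [F1] using h.1)
      (by simpa [F1] using h.2.2.1) (by simpa [F1] using k1) (by simpa [F1] using k2)
  · exact Dj.of_sep (R (vX it t)) (R (vZ it t)) (sg t.kd) h.2.1 h.2.2.2 k1 k2

theorem OO.dj {t : FT N M} {p q r s : Pt} (h : OO it R t p q) (k : CI it R t r s) :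
    Dj p q r s := by
  rcases h with ⟨h1, h2⟩ | ⟨h1, h2⟩
  · exact Dj.of_sep (R (vX it t)) (R (vY it t)) (-1) (by simpa [F1] using h1)
      (by simpa [F1] using h2) (by simpa [F1] using k.1) (by simpa [F1] using k.2.2.1)
  · exact Dj.of_sep (R (vX it t)) (R (vZ it t)) (-sg t.kd) (by simpa [F2] using h1)
      (by simpa [F2] using h2) (by simpa [F2] using k.2.1) (by simpa [F2] using k.2.2.2)

/-! ### The last displacement -/

def dis (it : Items N M) (R : FV N M → Pt) (δ : ℝ) : FV N M → Pt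
  | .gp n j => R (.gp n j) + δ • (-((R (fc it n j)).2 - (R (fd it n j)).2),
      (R (fc it n j)).1 - (R (fd it n j)).1)
  | v => R v

/-- The two edges are disjoint after the displacement. -/
def CC (it : Items N M) (Q : ι → Pt) (R : FV N M → Pt) (u u' w w' : FV N M ⊕ ι) : Prop :=
  ∀ᶠ δ in 𝓝[≠] (0 : ℝ), Dj (Sum.elim (dis it R δ) Q u) (Sum.elim (dis it R δ) Q u')
    (Sum.elim (dis it R δ) Q w) (Sum.elim (dis it R δ) Q w')

theorem CC.symm {u u' w w' : FV N M ⊕ ι} (h : CC it Q R u u' w w') : CC it Q R w w' u u' :=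
  h.mono fun _ k => k.symm

theorem CC.swap {u u' w w' : FV N M ⊕ ι} (h : CC it Q R u u' w w') : CC it Q R u' u w w' :=
  h.mono fun _ k => k.swap

theorem CC.of_zero {u u' w w' : FV N M ⊕ ι}
    (h : Dj (Sum.elim R Q u) (Sum.elim R Q u') (Sum.elim R Q w) (Sum.elim R Q w')) :
    CC it Q R u u' w w' := by
  have t : ∀ z, Tendsto (fun δ => Sum.elim (dis it R δ) Q z) (𝓝[≠] 0) (𝓝 (Sum.elim R Q z)) := by
    rintro (v | i)
    · have hc : Continuous fun δ => dis it R δ v := by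
        cases v <;> simp only [dis] <;> fun_prop
      have e : dis it R 0 v = R v := by cases v <;> simp [dis]
      exact (e ▸ hc.tendsto 0).mono_left nhdsWithin_le_nhds
    · exact tendsto_const_nhds
  exact h.eventually (t _) (t _) (t _) (t _)

theorem Gen.off' (h : Gen it ρ Q R a b) (hd : Dist it) {n : Fin 313} {j : Fin M}
    {z : FV N M ⊕ ι} (h1 : z ≠ .inl (fd it n j)) (h2 : z ≠ .inl (fc it n j))
    (h3 : z ≠ .inl (.gp n j)) (h4 : z ≠ .inl (.lp n j)) :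
    det (R (fd it n j)) (R (fc it n j)) (Sum.elim R Q z) ≠ 0 := by
  rcases z with v | i
  · refine h.off _ _ v ⟨_, _, rfl⟩ ⟨_, _, rfl⟩ (fc_ne_fd n j).symm (fun e => h1 (congrArg _ e))
      (fun e => h2 (congrArg _ e)) fun n' j' k1 k2 => ?_
    obtain ⟨rfl, rfl⟩ := k2.uniq hd
    rcases k1 with rfl | rfl
    · exact h3 rfl
    · exact h4 rfl
  · exact h.offQ _ _ i ⟨_, _, rfl⟩ ⟨_, _, rfl⟩ (fc_ne_fd n j).symm

theorem Gen.spoke_p (h : Gen it ρ Q R a b) (hd : Dist it) {n : Fin 313} {j : Fin M}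
    {z : FV N M ⊕ ι} (h1 : z ≠ .inl (fd it n j)) (h2 : z ≠ .inl (fc it n j))
    (h3 : z ≠ .inl (.gp n j)) :
    CC it Q R (.inl (fd it n j)) (.inl (fc it n j)) (.inl (.gp n j)) z := by
  refine CC.of_zero ?_
  by_cases h4 : z = .inl (.lp n j)
  · subst h4
    have hne : R (fd it n j) ≠ R (fc it n j) := fun e => h.ne n j (congrArg Prod.fst e)
    have := Dj.of_coll (s := 0) (t := 1) (r := a) (u := b) hne (by linarith [h.ha])
      (by linarith [h.hb]) h.ha h.hb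
    simpa [h.gp, h.lp] using this
  · have := Dj.of_line (s := 0) (t := 1) (r := a) (h.off' hd h1 h2 h3 h4)
      (Or.inr ⟨by linarith [h.ha], h.ha⟩)
    simpa [h.gp] using this

theorem Gen.spoke_w (h : Gen it ρ Q R a b) (hd : Dist it) {n : Fin 313} {j : Fin M}
    {z : FV N M ⊕ ι} (h1 : z ≠ .inl (fd it n j)) (h2 : z ≠ .inl (fc it n j))
    (h4 : z ≠ .inl (.lp n j)) :
    CC it Q R (.inl (fc it n j)) (.inl (.lp n j)) (.inl (fd it n j)) z := by
  by_cases h3 : z = .inl (.gp n j)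
  · subst h3
    filter_upwards [self_mem_nhdsWithin] with δ hδ
    have hδ : δ ≠ 0 := hδ
    have hx : (R (fc it n j)).1 - (R (fd it n j)).1 ≠ 0 := sub_ne_zero.2 (h.ne n j).symm
    have k : det (R (fd it n j)) (R (fc it n j)) (dis it R δ (.gp n j)) ≠ 0 := by
      have : det (R (fd it n j)) (R (fc it n j)) (dis it R δ (.gp n j)) =
          δ * (((R (fc it n j)).1 - (R (fd it n j)).1) ^ 2 +
            ((R (fc it n j)).2 - (R (fd it n j)).2) ^ 2) := by
        simp [dis, det, h.gp]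
        ring
      rw [this]
      positivity
    have := Dj.of_line (s := 1) (t := b) (r := 0) k (Or.inl ⟨one_pos, by linarith [h.hb]⟩)
    have e1 : dis it R δ (fc it n j) = R (fc it n j) := rfl
    have e2 : dis it R δ (fd it n j) = R (fd it n j) := rfl
    have e3 : dis it R δ (.lp n j) = R (.lp n j) := rfl
    simpa [e1, e2, e3, h.lp] using this
  · refine CC.of_zero ?_
    have := Dj.of_line (s := 1) (t := b) (r := 0) (h.off' hd h1 h2 h3 h4)
      (Or.inl ⟨one_pos, by linarith [h.hb]⟩)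
    simpa [h.lp] using this

theorem Gen.rad_w (h : Gen it ρ Q R a b) (hd : Dist it) {n n' : Fin 313} {j j' : Fin M}
    (e : fd it n' j' = fd it n j) (h2 : fc it n' j' ≠ fc it n j) :
    CC it Q R (.inl (fc it n' j')) (.inl (.lp n' j')) (.inl (fc it n j)) (.inl (.lp n j)) := by
  refine CC.of_zero ?_
  have k := mul_self_pos.2 (h.off' hd (z := .inl (fc it n' j'))
    (fun k => fc_ne_fd n' j' ((Sum.inl.inj k).trans e.symm)) (fun k => h2 (Sum.inl.inj k))
    (by simp [fc, vx]) (by simp [fc, vx]))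
  simp only [Sum.elim_inl] at k ⊢
  refine Dj.of_sep (R (fd it n j)) (R (fc it n j))
    (det (R (fd it n j)) (R (fc it n j)) (R (fc it n' j'))) k ?_ ?_ ?_
  · have : det (R (fd it n j)) (R (fc it n j)) (R (.lp n' j')) =
        b * det (R (fd it n j)) (R (fc it n j)) (R (fc it n' j')) := by
      simp [det, h.lp, e]
      ring
    rw [this, mul_left_comm]
    exact mul_pos (by linarith [h.hb]) k
  · have : det (R (fd it n j)) (R (fc it n j)) (R (fc it n j)) = 0 := by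
      simp [det]
      ring
    rw [this, mul_zero]
  · have : det (R (fd it n j)) (R (fc it n j)) (R (.lp n j)) = 0 := by
      simp [det, h.lp]
      ring
    rw [this, mul_zero]

theorem X_ne_inn (t : FT N M) : vX it t ≠ inn t := by
  rcases t with ⟨n, j⟩ | ⟨k, i⟩ | ⟨j, k⟩
  · simp [vX, vx, inn]
  · simp only [vX, vx, inn, ne_eq, FV.cl.injEq, not_and, FT.kd]
    intro e
    exact absurd e (by revert k; decide)
  · simp [vX, vx, inn]

/-- A radial edge. -/
inductive Rad (it : Items N M) {ι : Type} : FT N M → FV N M ⊕ ι → FV N M ⊕ ι → Prop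
  | rp (n j) : Rad it (.p n j) (.inl (fd it n j)) (.inl (fc it n j))
  | rw (k i n j) : fd it n j = .cl (oc k) i → Rad it (.w k i) (.inl (fc it n j)) (.inl (.lp n j))

theorem Gen.spoke (h : Gen it ρ Q R a b) (hd : Dist it) {t : FT N M} {u u' z : FV N M ⊕ ι}
    (hu : Rad it t u u') (h1 : z ≠ u) (h2 : z ≠ u') (h3 : z ≠ .inl (inn t)) :
    CC it Q R u u' (.inl (inn t)) z := by
  rcases hu with ⟨n, j⟩ | ⟨k, i, n, j, e⟩
  · exact h.spoke_p hd h1 h2 h3
  · simp only [inn] at h3 ⊢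
    rw [← e] at h3 ⊢
    exact h.spoke_w hd h3 h1 h2

theorem Gen.rad (h : Gen it ρ Q R a b) (hd : Dist it) {t : FT N M} {u u' w w' : FV N M ⊕ ι}
    (hu : Rad it t u u') (hw : Rad it t w w') (h1 : u ≠ w) : CC it Q R u u' w w' := by
  rcases hu with ⟨n, j⟩ | ⟨k, i, n, j, e⟩
  · rcases hw with ⟨n', j'⟩ | ⟨k', i', n', j', e'⟩
    exact (h1 rfl).elim
  · rcases hw with ⟨n', j'⟩ | ⟨k', i', n', j', e'⟩
    exact h.rad_w hd (e.trans e'.symm) fun k => h1 (congrArg _ k)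

/-- What is needed about an edge. -/
theorem Gen.kinds (h : Gen it ρ Q R a b) {t : FT N M} {u u' : FV N M ⊕ ι}
    (hu : Ed it Q R t u u') :
    (u' = .inl (vX it t) ∧ CI it R t (Sum.elim R Q u) (Sum.elim R Q u') ∧
      CO it R t (Sum.elim R Q u) (Sum.elim R Q u')) ∨
    (u = .inl (inn t) ∧ u' = .inl (vX it t) ∧ CI it R t (Sum.elim R Q u) (Sum.elim R Q u')) ∨
    (u = .inl (.gm t) ∧ u' = .inl (vX it t) ∧ CO it R t (Sum.elim R Q u) (Sum.elim R Q u')) ∨
    (u ≠ .inl (inn t) ∧ u' = .inl (inn t) ∧ OI it R t (Sum.elim R Q u) (Sum.elim R Q u')) ∨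
    (u' = .inl (.gm t) ∧ OO it R t (Sum.elim R Q u) (Sum.elim R Q u')) ∨
    (Rad it t u u' ∧ OI it R t (Sum.elim R Q u) (Sum.elim R Q u')) := by
  have o := h.ok
  cases hu with
  | wy => exact Or.inl ⟨rfl, ⟨(F1_Y t).ge, o.F2_Y t, (F1_X t).ge, (F2_X t).ge⟩,
      Or.inl ⟨(F1_Y t).le, (F1_X t).le⟩⟩
  | wz => exact Or.inl ⟨rfl, ⟨o.F1_Z t, (F2_Z t).ge, (F1_X t).ge, (F2_X t).ge⟩,
      Or.inr ⟨(F2_Z t).le, (F2_X t).le⟩⟩
  | hi => exact Or.inr (Or.inl ⟨rfl, rfl, (o.inn t).1.le, (o.inn t).2.le, (F1_X t).ge, (F2_X t).ge⟩)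
  | ho => exact Or.inr (Or.inr (Or.inl ⟨rfl, rfl, Or.inl ⟨(o.gm t).1.le, (F1_X t).le⟩⟩))
  | si _ _ k1 k2 k3 =>
    exact Or.inr (Or.inr (Or.inr (Or.inl ⟨k1, rfl, k2, k3, (o.inn t).1, (o.inn t).2⟩)))
  | so _ _ k =>
    exact Or.inr (Or.inr (Or.inr (Or.inr (Or.inl
      ⟨rfl, k.imp (fun k => ⟨k, (o.gm t).1⟩) fun k => ⟨k, (o.gm t).2⟩⟩))))
  | rp n j =>
    have k1 := o.i1 (.p n j) (fd it n j) _ rfl (tab_pair n).2.1
    have k2 := o.i1 (.p n j) (fc it n j) _ rfl (tab_pair n).1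
    exact Or.inr (Or.inr (Or.inr (Or.inr (Or.inr ⟨Rad.rp n j, k1.1, k1.2, k2.1, k2.2⟩))))
  | rw k i n j e =>
    have k1 := o.rw_in e (v := fc it n j) rfl
    have k2 := o.rw_in e (v := .lp n j) rfl
    exact Or.inr (Or.inr (Or.inr (Or.inr (Or.inr ⟨Rad.rw k i n j e, k1.1, k1.2, k2.1, k2.2⟩))))

theorem Gen.cc (h : Gen it ρ Q R a b) (hd : Dist it) {t : FT N M} {u u' w w' : FV N M ⊕ ι}
    (hu : Ed it Q R t u u') (hw : Ed it Q R t w w') (h1 : u ≠ w) (h2 : u ≠ w') (h3 : u' ≠ w)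
    (h4 : u' ≠ w') : CC it Q R u u' w w' := by
  have hX : (.inl (vX it t) : FV N M ⊕ ι) ≠ .inl (inn t) := fun e => X_ne_inn t (Sum.inl.inj e)
  rcases h.kinds hu with ⟨a1, a2, a3⟩ | ⟨a0, a1, a2⟩ | ⟨a0, a1, a3⟩ | ⟨a0, a1, a4⟩ | ⟨a1, a5⟩ |
      ⟨a1, a4⟩ <;>
    rcases h.kinds hw with ⟨b1, b2, b3⟩ | ⟨b0, b1, b2⟩ | ⟨b0, b1, b3⟩ | ⟨b0, b1, b4⟩ | ⟨b1, b5⟩ |
      ⟨b1, b4⟩ <;>
    first
    | exact (h4 (a1.trans b1.symm)).elim
    | exact (h2 (a0.trans b1.symm)).elim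
    | exact (h3 (a1.trans b0.symm)).elim
    | exact CC.of_zero (a4.dj b3)
    | exact CC.of_zero (b4.dj a3).symm
    | exact CC.of_zero (a5.dj b2)
    | exact CC.of_zero (b5.dj a2).symm
    | exact CC.of_zero (a5.dj b4.ci)
    | exact CC.of_zero (b5.dj a4.ci).symm
    | exact h.rad hd a1 b1 h1
    | (subst a0 a1; exact (h.spoke hd b1 h3 h4 hX).symm)
    | (subst b0 b1; exact h.spoke hd a1 h2.symm h4.symm hX)
    | (subst a1; exact (h.spoke hd b1 h1 h2 a0).symm.swap)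
    | (subst b1; exact (h.spoke hd a1 h1.symm h3.symm b0).symm.swap.symm)

theorem exists_plane [Finite ι] (hd : Dist it) (hQ : ∀ i, InRoom (ρ i) (Q i)) :
    ∃ π, Des π ∧ ∃ P : FV N M → Pt,
      ∀ t, Plane (xpar it π ρ t) (.inl (vX it t)) (fun _ => True) (Sum.elim P Q) := by
  obtain ⟨R, a, b, h⟩ := exists_gen (it := it) hQ
  have key : ∀ᶠ δ in 𝓝[≠] (0 : ℝ), ∀ t, Plane (xpar it (side it R) ρ t) (.inl (vX it t))
      (fun _ => True) (Sum.elim (dis it R δ) Q) := by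
    unfold Plane
    simp only [eventually_all]
    intro t u w hu hw _ _ h1 h2 h3 h4
    exact h.cc hd (h.ed hd t hu) (h.ed hd t hw) h1 h2 h3 h4
  obtain ⟨δ, k⟩ := key.exists
  exact ⟨_, h.ok.des, _, k⟩

theorem plane_restrict {κ : Type} {f : κ → ι} (hf : Function.Injective f) (σ : κ → Fin 5)
    (S : κ → Pt) (hσ : ∀ i, σ i = ρ (f i)) (hS : ∀ i, S i = Q (f i))
    {π : FT N M → FV N M → Bool} {t : FT N M} {P : FV N M → Pt}
    (h : Plane (xpar it π ρ t) (.inl (vX it t)) (fun _ => True) (Sum.elim P Q)) :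
    Plane (xpar it π σ t) (.inl (vX it t)) (fun _ => True) (Sum.elim P S) := by
  have hg : Function.Injective (Sum.map id f : FV N M ⊕ κ → FV N M ⊕ ι) :=
    Function.injective_id.sumMap hf
  have e1 : ∀ u, xpar it π ρ t (Sum.map id f u) = Sum.map id f (xpar it π σ t u) := by
    rintro (v | i)
    · rfl
    · simp [xpar, hσ]
  have e2 : ∀ u, Sum.elim P S u = Sum.elim P Q (Sum.map id f u) := by
    rintro (v | i)
    · rfl
    · exact hS i
  intro u w hu hw _ _ h1 h2 h3 h4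
  have := h (Sum.map id f u) (Sum.map id f w) (hg.ne hu) (hg.ne hw) trivial trivial (hg.ne h1)
    (e1 w ▸ hg.ne h2) (e1 u ▸ hg.ne h3) (e1 u ▸ e1 w ▸ hg.ne h4)
  simpa only [e1, e2] using this

theorem exists_side (hd : Dist it) : ∃ π, Des π ∧ ∀ (κ : Type) [Finite κ] (σ : κ → Fin 5)
    (S : κ → Pt), (∀ i, InRoom (σ i) (S i)) → ∃ P : FV N M → Pt,
      ∀ t, Plane (xpar it π σ t) (.inl (vX it t)) (fun _ => True) (Sum.elim P S) := by
  by_contra hc
  have h1 : ∀ π : {π : FT N M → FV N M → Bool // Des π}, ∃ (κ : Type) (_ : Finite κ)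
      (σ : κ → Fin 5) (S : κ → Pt), (∀ i, InRoom (σ i) (S i)) ∧ ¬ ∃ P : FV N M → Pt,
        ∀ t, Plane (xpar it π.1 σ t) (.inl (vX it t)) (fun _ => True) (Sum.elim P S) := by
    intro π
    by_contra k
    refine hc ⟨π.1, π.2, fun κ _ σ S hS => ?_⟩
    by_contra k2
    exact k ⟨κ, ‹_›, σ, S, hS, k2⟩
  choose κ fin σ S hS hno using h1
  have := exists_plane (it := it) (ι := Σ π, κ π) (ρ := fun x => σ x.1 x.2)
    (Q := fun x => S x.1 x.2) hd fun x => hS x.1 x.2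
  obtain ⟨π, hπ, P, hP⟩ := this
  have hf : Function.Injective (@Sigma.mk _ κ ⟨π, hπ⟩) := sigma_mk_injective
  refine hno ⟨π, hπ⟩ ⟨P, fun t => ?_⟩
  have := plane_restrict hf (σ ⟨π, hπ⟩) (S ⟨π, hπ⟩) (fun _ => rfl) (fun _ => rfl) (hP t)
  exact this

end FY

theorem frame_complete {N M : ℕ} (it : Items N M) (hd : Dist it) (hN : 0 < N) :
    ∃ π : FT N M → FV N M → Bool, Des π ∧ Complete (fpre it π hd hN) fatt := by
  obtain ⟨π, h1, h2⟩ := FY.exists_side hd
  exact ⟨π, h1, h2⟩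

end Pool.Agent.P.MP_2989a6_lc
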