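import Pool.Agent.P.MP_2989a6_lc.Gadget

/-! Drawing the gadgets when the comparison system is satisfiable. -/

namespace Pool.Agent.P.MP_2989a6_lc

open Classical Filter Topology

namespace GY

/-- The point with homogeneous coordinates `(a, b, c)`. -/
noncomputable def pt (a b c : ℝ) : Pt :=
  (60 * (b + c) / (2 * a + 2 * b + 3 * c), 60 * (a + 2 * c) / (2 * a + 2 * b + 3 * c))

/-- The rooms in homogeneous coordinates. -/
def Rm (r : Fin 5) (a b c : ℝ) : Prop :=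
  ![0 < c ∧ 0 < a ∧ c < b, 0 < a + 2 * c ∧ c < 0 ∧ 0 < b + c,
    0 < a + 2 * c ∧ 0 < a + b ∧ a + c < 0, b < 0 ∧ 0 < a + b ∧ 0 < b + c,
    b < c ∧ 0 < a + b ∧ a < 0] r

theorem Rm.pos {r : Fin 5} {a b c : ℝ} (h : Rm r a b c) : 0 < 2 * a + 2 * b + 3 * c := by
  fin_cases r <;> simp only [Rm] at h <;> obtain ⟨h1, h2, h3⟩ := h <;> linarith

theorem det_pt (p q : Pt) (a b c u : ℝ) (h : 0 < 2 * a + 2 * b + 3 * c) (hu : 0 < u)
    (e : (q.1 - p.1) * (60 * (a + 2 * c) - p.2 * (2 * a + 2 * b + 3 * c)) -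
      (q.2 - p.2) * (60 * (b + c) - p.1 * (2 * a + 2 * b + 3 * c)) = u) :
    0 < det p q (pt a b c) := by
  have : det p q (pt a b c) = u / (2 * a + 2 * b + 3 * c) := by
    rw [← e]; unfold det pt
    generalize 2 * a + 2 * b + 3 * c = σ at h
    field_simp
  rw [this]; positivity

theorem Rm.inRoom {r : Fin 5} {a b c : ℝ} (h : Rm r a b c) : InRoom r (pt a b c) := by
  have hp := h.pos
  fin_cases r <;> simp only [Rm] at h <;> obtain ⟨h1, h2, h3⟩ := h <;>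
    refine ⟨det_pt _ _ a b c _ hp ?_ rfl, det_pt _ _ a b c _ hp ?_ rfl,
      det_pt _ _ a b c _ hp ?_ rfl⟩ <;> simp [corner, zp] <;> linarith

theorem frac {u v σ τ s : ℝ} (h1 : 0 < σ) (h2 : 0 < τ - s * σ) (h3 : 0 < τ) :
    u / σ + τ / (τ - s * σ) * (v / τ - u / σ) = (v - s * u) / (τ - s * σ) := by
  obtain ⟨ρ, hρ⟩ : ∃ ρ, ρ = τ - s * σ := ⟨_, rfl⟩
  rw [← hρ] at h2 ⊢
  field_simp
  rw [hρ]
  ring

theorem step {r₀ r : Fin 5} {a b c x y s : ℝ} (h : Rm r₀ a b c) (hx : 0 < x) (hy : 0 < y)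
    (hs : 0 < s) (h' : Rm r (x - s * a) (y + 1 - s * b) (1 - s * c)) :
    ∃ t : ℝ, 1 < t ∧ InRoom r (pt a b c + t • (pt x (y + 1) 1 - pt a b c)) := by
  have h1 := h.pos
  have h2 := h'.pos
  have h3 : 0 < 2 * x + 2 * (y + 1) + 3 * 1 := by positivity
  have e : 2 * (x - s * a) + 2 * (y + 1 - s * b) + 3 * (1 - s * c) =
      (2 * x + 2 * (y + 1) + 3 * 1) - s * (2 * a + 2 * b + 3 * c) := by ring
  rw [e] at h2
  refine ⟨(2 * x + 2 * (y + 1) + 3 * 1) /
    ((2 * x + 2 * (y + 1) + 3 * 1) - s * (2 * a + 2 * b + 3 * c)), ?_, ?_⟩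
  · rw [one_lt_div h2]; nlinarith [mul_pos hs h1]
  · convert h'.inRoom using 1
    ext
    · simp only [pt, Prod.fst_add, Prod.smul_fst, Prod.fst_sub, smul_eq_mul]
      rw [frac h1 h2 h3, e]
      congr 1
      ring
    · simp only [pt, Prod.snd_add, Prod.smul_snd, Prod.snd_sub, smul_eq_mul]
      rw [frac h1 h2 h3, e]
      congr 1
      ring

theorem beyond (s₀ a₂ b₂ a₃ b₃ : ℝ) (h2 : 0 < a₂ - s₀ * b₂) (h3 : 0 < a₃ - s₀ * b₃) :
    ∃ s, s₀ < s ∧ 0 < a₂ - s * b₂ ∧ 0 < a₃ - s * b₃ := by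
  have k : ∀ a b : ℝ, 0 < a - s₀ * b → ∀ᶠ s in 𝓝[>] s₀, 0 < a - s * b := fun a b h => by
    have hc : Continuous fun s : ℝ => a - s * b := by fun_prop
    exact ((hc.tendsto s₀).eventually (lt_mem_nhds h)).filter_mono nhdsWithin_le_nhds
  obtain ⟨s, k1, k2, k3⟩ :=
    ((eventually_mem_nhdsWithin (a := s₀) (s := Set.Ioi s₀)).and
      ((k _ _ h2).and (k _ _ h3))).exists
  exact ⟨s, k1, k2, k3⟩

theorem small {u v : ℝ} (hu : 0 < u) (hv : 0 < v) : ∃ e, 0 < e ∧ e < u ∧ e < v :=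
  ⟨min u v / 2, by positivity, by linarith [min_le_left u v, lt_min hu hv],
    by linarith [min_le_right u v, lt_min hu hv]⟩

/-- The conclusion needed for one gadget. -/
def OK (R : Fin 3 → Fin 5) (x y x' y' : ℝ) : Prop :=
  ∃ (h : Pt) (t t' : ℝ), InRoom (R 0) h ∧ 1 < t ∧ 1 < t' ∧
    InRoom (R 1) (h + t • (pt x (y + 1) 1 - h)) ∧ InRoom (R 2) (h + t' • (pt x' (y' + 1) 1 - h))

theorem OK.mk' {R : Fin 3 → Fin 5} {x y x' y' : ℝ} (hx : 0 < x) (hy : 0 < y) (hx' : 0 < x')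
    (hy' : 0 < y') (a b c s s' : ℝ) (h : Rm (R 0) a b c) (hs : 0 < s) (hs' : 0 < s')
    (h1 : Rm (R 1) (x - s * a) (y + 1 - s * b) (1 - s * c))
    (h2 : Rm (R 2) (x' - s' * a) (y' + 1 - s' * b) (1 - s' * c)) : OK R x y x' y' := by
  obtain ⟨t, k1, k2⟩ := step h hx hy hs h1
  obtain ⟨t', k3, k4⟩ := step h hx' hy' hs' h2
  exact ⟨_, t, t', h.inRoom, k1, k3, k2, k4⟩

variable {x y x' y' : ℝ} (hx : 0 < x) (hy : 0 < y) (hx' : 0 < x') (hy' : 0 < y')
include hx hy hx' hy'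

theorem ok0 (h : y < y') : OK ![2, 3, 1] x y x' y' := by
  obtain ⟨m, m1, m2⟩ := exists_between (show y + 1 < y' + 1 by linarith)
  have hm : 0 < m := by linarith
  obtain ⟨e, e0, e1, e2⟩ := small one_pos (show 0 < m - 1 by linarith)
  obtain ⟨s₀, hs₀⟩ : ∃ s₀, s₀ * m = y + 1 := ⟨(y + 1) / m, by field_simp⟩
  have p0 : 0 < s₀ := by by_contra k; nlinarith
  have p1 : s₀ < 1 := by by_contra k; nlinarith
  obtain ⟨s, k1, k2, k3⟩ := beyond s₀ (x + y + 1) (m - 1 - e) (y + 2) (m + 1)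
    (by nlinarith) (by nlinarith)
  obtain ⟨s', k4, k5, k6⟩ := beyond 1 (x' + 2) (1 - e) (y' + 2) (m + 1)
    (by linarith) (by linarith)
  refine OK.mk' hx hy hx' hy' (-1 - e) m 1 s s' ⟨?_, ?_, ?_⟩ (by linarith) (by linarith)
    ⟨?_, ?_, ?_⟩ ⟨?_, ?_, ?_⟩ <;> nlinarith

theorem ok1 (h : x < x') : OK ![3, 2, 1] x y x' y' := by
  obtain ⟨m, m1, m2⟩ := exists_between h
  have hm : 0 < m := by linarith
  obtain ⟨e, e0, e1, e2⟩ := small one_pos hm
  obtain ⟨s₀, hs₀⟩ : ∃ s₀, s₀ * (m + 1) = x + 1 := ⟨(x + 1) / (m + 1), by field_simp⟩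
  have p0 : 0 < s₀ := by by_contra k; nlinarith
  have p1 : s₀ < 1 := by by_contra k; nlinarith
  obtain ⟨s, k1, k2, k3⟩ := beyond s₀ (x + 2) (m + 2) (x + y + 1) (m - e)
    (by nlinarith) (by nlinarith)
  obtain ⟨s', k4, k5, k6⟩ := beyond 1 (x' + 2) (m + 2) (y' + 2) (1 - e)
    (by linarith) (by linarith)
  refine OK.mk' hx hy hx' hy' m (-e) 1 s s' ⟨?_, ?_, ?_⟩ (by linarith) (by linarith)
    ⟨?_, ?_, ?_⟩ ⟨?_, ?_, ?_⟩ <;> nlinarith

theorem ok2 (h : (y + 1) / x < (y' + 1) / x') : OK ![1, 3, 4] x y x' y' := by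
  have h' : y' / x' < (y' + 1) / x' := by gcongr; linarith
  obtain ⟨m, m1, m2⟩ := exists_between (max_lt h h')
  have m3 := (le_max_left _ _).trans_lt m1
  have m4 := (le_max_right _ _).trans_lt m1
  have hm : 0 < m := lt_trans (by positivity) m3
  rw [div_lt_iff₀ hx] at m3
  rw [div_lt_iff₀ hx'] at m4
  rw [lt_div_iff₀ hx'] at m2
  obtain ⟨e, e0, e1, e2⟩ := small one_half_pos hm
  obtain ⟨s₀, hs₀⟩ : ∃ s₀, s₀ * m = y + 1 := ⟨(y + 1) / m, by field_simp⟩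
  have p0 : 0 < s₀ := by by_contra k; nlinarith
  have p1 : s₀ < x := by by_contra k; nlinarith
  obtain ⟨s, k1, k2, k3⟩ := beyond s₀ (x + y + 1) (1 + m) (y + 2) (m - e)
    (by nlinarith) (by nlinarith)
  obtain ⟨s', k4, k5, k6⟩ := beyond x' (-y') (-(m + e)) (x' + y' + 1) (1 + m)
    (by nlinarith) (by nlinarith)
  refine OK.mk' hx hy hx' hy' 1 m (-e) s s' ⟨?_, ?_, ?_⟩ (by linarith) (by linarith)
    ⟨?_, ?_, ?_⟩ ⟨?_, ?_, ?_⟩ <;> nlinarith

theorem ok3 (h : y / (x + 1) < y' / (x' + 1)) : OK ![1, 4, 2] x y x' y' := by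
  have h' : y / (x + 1) < y / x := by gcongr; linarith
  obtain ⟨m, m1, m2⟩ := exists_between (lt_min h h')
  have m3 := m2.trans_le (min_le_left _ _)
  have m4 := m2.trans_le (min_le_right _ _)
  have hm : 0 < m := lt_trans (by positivity) m1
  rw [div_lt_iff₀ (by positivity)] at m1
  rw [lt_div_iff₀ (by positivity)] at m3
  rw [lt_div_iff₀ hx] at m4
  obtain ⟨e, e0, e1, e2⟩ := small one_pos (half_pos hm)
  obtain ⟨s₀, hs₀⟩ : ∃ s₀, s₀ * m = y := ⟨y / m, by field_simp⟩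
  have p0 : x < s₀ := by by_contra k; nlinarith
  have p1 : s₀ < x + 1 := by by_contra k; nlinarith
  obtain ⟨s, k1, k2, k3⟩ := beyond s₀ (x + y + 1) (1 + m) (-x) (-(1 + e))
    (by nlinarith) (by nlinarith)
  obtain ⟨s', k4, k5, k6⟩ := beyond (x' + 1) (x' + 2) (1 - e) (x' + y' + 1) (1 + m)
    (by nlinarith) (by nlinarith)
  refine OK.mk' hx hy hx' hy' (1 + e) (m - e) (-e) s s' ⟨?_, ?_, ?_⟩ (by linarith) (by linarith)
    ⟨?_, ?_, ?_⟩ ⟨?_, ?_, ?_⟩ <;> nlinarith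

theorem ok (k : ℕ) (h : val k x y < val k x' y') : OK (groom k) x y x' y' := by
  unfold val at h
  unfold groom
  split_ifs at h ⊢
  · exact ok0 hx hy hx' hy' h
  · exact ok1 hx hy hx' hy' h
  · exact ok2 hx hy hx' hy' h
  · exact ok3 hx hy hx' hy' h

end GY

namespace Gad

variable {F : Frame} (G : Gad F)

/-- The vertex `(g, j)`. -/
abbrev gv (g : Fin G.M) (j : Fin 3) : F.V ⊕ G.I := .inr (.inr (g, j))

/-- The point to which the pendant vertex `(g, j)` is attached. -/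
def bs (g : Fin G.M) (j : Fin 3) : F.V ⊕ G.I := .inr (.inl (if j = 1 then G.lo g else G.hi g))

/-- Pendant vertices are put on the rays from the hubs. -/
noncomputable def ray (τ : Fin G.M → Fin 3 → ℝ) (P : F.V ⊕ G.I → Pt) (s : ℝ) : F.V ⊕ G.I → Pt
  | .inr (.inr (g, j)) => if j = 0 then P (G.gv g 0) else
      P (G.gv g 0) + (τ g j + s) • (P (G.bs g j) - P (G.gv g 0))
  | .inr (.inl i) => P (.inr (.inl i))
  | .inl v => P (.inl v)

theorem ray_cont (τ : Fin G.M → Fin 3 → ℝ) :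
    Continuous fun p : (F.V ⊕ G.I → Pt) × ℝ => G.ray τ p.1 p.2 := by
  refine continuous_pi fun v => ?_
  rcases v with v | i | ⟨g, j⟩
  · simp only [ray]; fun_prop
  · simp only [ray]; fun_prop
  · simp only [ray]
    split_ifs <;> fun_prop

theorem ray_hub (τ : Fin G.M → Fin 3 → ℝ) (P : F.V ⊕ G.I → Pt) (s : ℝ) (g : Fin G.M) :
    G.ray τ P s (G.gv g 0) = P (G.gv g 0) := by simp [ray]

theorem ray_bs (τ : Fin G.M → Fin 3 → ℝ) (P : F.V ⊕ G.I → Pt) (s : ℝ) (g : Fin G.M) (j : Fin 3) :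
    G.ray τ P s (G.bs g j) = P (G.bs g j) := rfl

theorem ray_pend (τ : Fin G.M → Fin 3 → ℝ) (P : F.V ⊕ G.I → Pt) (s : ℝ) (g : Fin G.M) {j : Fin 3}
    (hj : j ≠ 0) : G.ray τ P s (G.gv g j) =
      P (G.gv g 0) + (τ g j + s) • (P (G.bs g j) - P (G.gv g 0)) := by simp [ray, hj]

theorem gpar_cases2 (g : Fin G.M) (v : F.V ⊕ G.I) :
    (∃ j, j ≠ 0 ∧ v = G.gv g j ∧ G.gpar (.inr g) v = G.bs g j) ∨
      (v ≠ G.gv g 1 ∧ v ≠ G.gv g 2 ∧ G.gpar (.inr g) v = G.gv g 0) := by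
  by_cases h1 : v = G.gv g 1
  · exact .inl ⟨1, by decide, h1, by simp [gpar, h1, bs]⟩
  · by_cases h2 : v = G.gv g 2
    · exact .inl ⟨2, by decide, h2, by simp [gpar, h2, bs]⟩
    · exact .inr ⟨h1, h2, by simp only [gpar, if_neg h1, if_neg h2]⟩

theorem det_ray (p q a b : Pt) (t : ℝ) :
    det p q (a + t • (b - a)) = det p q a + t * (det p q b - det p q a) := by
  simp only [det, Prod.fst_add, Prod.snd_add, Prod.smul_fst, Prod.smul_snd, Prod.fst_sub,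
    Prod.snd_sub, smul_eq_mul]
  ring

theorem ev_ne {A B : ℝ} (t : ℝ) (h : A ≠ 0 ∨ B ≠ 0) :
    ∀ᶠ s in 𝓝[≠] (0 : ℝ), A + (t + s) * (B - A) ≠ 0 := by
  by_cases e : B - A = 0
  · have : A ≠ 0 := by
      rcases h with h | h
      · exact h
      · rwa [← sub_eq_zero.1 e]
    simp [e, this]
  · filter_upwards [eventually_ne_quad (a := 0) (b := A + t * (B - A)) e] with s k1 k2
    exact k1 (by linear_combination s * k2)

/-- A gadget tree is plane when its pendant vertices are on the rays and nothing else is. -/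
theorem plane_gad (g : Fin G.M) (P : F.V ⊕ G.I → Pt) (τ : Fin 3 → ℝ) (hτ : ∀ j, 1 < τ j)
    (hP : ∀ j, j ≠ 0 → P (G.gv g j) = P (G.gv g 0) + τ j • (P (G.bs g j) - P (G.gv g 0)))
    (hd : ∀ j, j ≠ 0 → ∀ w, w ≠ G.gv g 0 → w ≠ G.bs g j → w ≠ G.gv g j →
      det (P (G.gv g 0)) (P (G.bs g j)) (P w) ≠ 0) :
    Plane (G.gpar (.inr g)) (G.gv g 0) (fun _ => True) P := by
  have key : ∀ j, j ≠ 0 → ∀ w, w ≠ G.gv g 0 → w ≠ G.bs g j → w ≠ G.gv g j →
      Dj (P (G.gv g j)) (P (G.bs g j)) (P w) (P (G.gv g 0)) := by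
    intro j hj w h0 h1 h2
    have := Dj.of_line (s := τ j) (t := 1) (r := 0) (hd j hj w h0 h1 h2)
      (.inl ⟨by linarith [hτ j], one_pos⟩)
    rw [← hP j hj, one_smul, zero_smul, add_zero, add_sub_cancel] at this
    exact this.swap'
  intro v w hv hw _ _ h1 h2 h3 h4
  rcases G.gpar_cases2 g v with ⟨j, hj, rfl, e⟩ | ⟨a1, a2, e⟩ <;>
    rcases G.gpar_cases2 g w with ⟨j', hj', rfl, e'⟩ | ⟨b1, b2, e'⟩ <;> rw [e] at h3 h4 ⊢ <;>
    rw [e'] at h2 h4 ⊢
  · have hD := hd j hj (G.bs g j') (by simp [bs]) h4.symm (by simp [bs])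
    refine (Dj.of_sep (P (G.gv g 0)) (P (G.bs g j))
      (det (P (G.gv g 0)) (P (G.bs g j)) (P (G.bs g j'))) ?_ (mul_self_pos.2 hD) ?_ ?_).symm
    · rw [hP j' hj', det_ray]
      have : det (P (G.gv g 0)) (P (G.bs g j)) (P (G.gv g 0)) = 0 := by simp [det]
      rw [this]
      nlinarith [mul_self_pos.2 hD, hτ j']
    · rw [hP j hj, det_ray]
      simp [det, mul_comm]
    · simp [det, mul_comm]
  · exact key j hj w hw h3.symm h1.symm
  · exact (key j' hj' v hv h2 h1).symm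
  · exact absurd rfl h4

theorem gad_yes' (l : List (ℕ × ℕ × ℕ)) (hl : ∀ g, (G.kind g, (G.lo g).1, (G.hi g).1) ∈ l)
    (h : CmpSat l) : ∃ P : F.V ⊕ G.I → Pt, GP P ∧
      (∀ t, Plane (G.gpar (.inl t)) (.inl (F.S.root t)) (fun _ => True) P) ∧
      ∀ g, Plane (G.gpar (.inr g)) (G.gv g 0) (fun _ => True) P := by
  obtain ⟨x, y, hxy, hv⟩ := h
  have hlt := fun g => hv _ (hl g)
  have hne : ∀ g, G.lo g ≠ G.hi g := fun g e => by
    have := hlt g
    simp only [e] at this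
    exact lt_irrefl _ this
  choose hb t t' r0 ht ht' r1 r2 using fun g =>
    GY.ok (hxy (G.lo g)).1 (hxy (G.lo g)).2 (hxy (G.hi g)).1 (hxy (G.hi g)).2 _ (hlt g)
  let τ : Fin G.M → Fin 3 → ℝ := fun g j => if j = 1 then t g else t' g
  have hτ : ∀ g j, 1 < τ g j := fun g j => by
    simp only [τ]; split_ifs; exacts [ht g, ht' g]
  let q : Fin G.n → Pt := fun i => GY.pt (x i) (y i + 1) 1
  let Q : G.I → Pt := Sum.elim q fun p => if p.2 = 0 then hb p.1 else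
    hb p.1 + τ p.1 p.2 • (q (if p.2 = 1 then G.lo p.1 else G.hi p.1) - hb p.1)
  have hQ : ∀ i, InRoom (G.room i) (Q i) := by
    rintro (i | ⟨g, j⟩)
    · exact GY.Rm.inRoom (r := 0) ⟨one_pos, (hxy i).1, by linarith [(hxy i).2]⟩
    · fin_cases j
      · exact r0 g
      · exact r1 g
      · exact r2 g
  obtain ⟨P, hP⟩ := F.complete G.I G.room Q hQ
  have e0 : G.ray τ (Sum.elim P Q) 0 = Sum.elim P Q := by
    funext v
    rcases v with v | i | ⟨g, j⟩
    · rfl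
    · rfl
    · by_cases hj : j = 0
      · subst hj; exact G.ray_hub ..
      · rw [G.ray_pend _ _ _ _ hj]
        simp [Q, hj, bs]
  -- first perturbation
  have c1 : Tendsto (fun P' => G.ray τ P' 0) (𝓝 (Sum.elim P Q)) (𝓝 (Sum.elim P Q)) := by
    have := ((G.ray_cont τ).comp (continuous_id.prodMk (continuous_const (y := (0 : ℝ))))).tendsto
      (Sum.elim P Q)
    simpa [Function.comp_def, e0] using this
  obtain ⟨P₁, k1, g1, -⟩ := exists_GP (ι := Empty) (Sum.elim P Q) Empty.elim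
    (eventually_all.2 fun t => (hP t).eventually c1)
  -- second perturbation
  have c2 : Tendsto (fun s => G.ray τ P₁ s) (𝓝[≠] 0) (𝓝 (G.ray τ P₁ 0)) :=
    (((G.ray_cont τ).comp (continuous_const.prodMk continuous_id)).tendsto 0).mono_left
      nhdsWithin_le_nhds
  have ev1 := eventually_all.2 fun t => Plane.eventually (k1 t) c2
  have ev2 : ∀ᶠ s in 𝓝[≠] (0 : ℝ), ∀ g j, 1 < τ g j + s := by
    refine eventually_all.2 fun g => eventually_all.2 fun j => ?_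
    have hc : Continuous fun s : ℝ => τ g j + s := by fun_prop
    exact ((hc.tendsto 0).eventually (lt_mem_nhds (by simpa using hτ g j))).filter_mono
      nhdsWithin_le_nhds
  have ev3 : ∀ᶠ s in 𝓝[≠] (0 : ℝ), ∀ g j, j ≠ 0 → ∀ w, w ≠ G.gv g 0 → w ≠ G.bs g j →
      w ≠ G.gv g j → det (P₁ (G.gv g 0)) (P₁ (G.bs g j)) (G.ray τ P₁ s w) ≠ 0 := by
    refine eventually_all.2 fun g => eventually_all.2 fun j => eventually_all.2 fun hj =>
      eventually_all.2 fun w => eventually_all.2 fun h0 => eventually_all.2 fun h1 =>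
      eventually_all.2 fun h2 => ?_
    have hgen := g1.2 (G.gv g 0) (G.bs g j) w (by simp [bs]) h0.symm h1.symm
    rcases w with v | i | ⟨g', j'⟩
    · exact .of_forall fun s => hgen
    · exact .of_forall fun s => hgen
    · by_cases hj' : j' = 0
      · subst hj'
        exact .of_forall fun s => by rw [G.ray_hub]; exact hgen
      · simp only [G.ray_pend _ _ _ _ hj', det_ray]
        refine ev_ne _ ?_
        by_cases hg : g' = g
        · subst hg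
          refine .inr (g1.2 _ _ _ (by simp [bs]) (by simp [bs]) ?_)
          have hjj : j' ≠ j := fun e => h2 (by rw [e])
          have h3 : ∀ a : Fin 3, a ≠ 0 → a = 1 ∨ a = 2 := by decide
          rcases h3 j hj with rfl | rfl <;> rcases h3 j' hj' with rfl | rfl
          · exact absurd rfl hjj
          · simpa [bs] using hne g'
          · simpa [bs] using (hne g').symm
          · exact absurd rfl hjj
        · exact .inl (g1.2 _ _ _ (by simp [bs]) (by simp [Ne.symm hg]) (by simp [bs]))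
  obtain ⟨s, s1, s2, s3⟩ := (ev1.and (ev2.and ev3)).exists
  have hg : ∀ g, Plane (G.gpar (.inr g)) (G.gv g 0) (fun _ => True) (G.ray τ P₁ s) := fun g =>
    G.plane_gad g _ (fun j => τ g j + s) (s2 g)
      (fun j hj => by rw [G.ray_pend _ _ _ _ hj, G.ray_hub, G.ray_bs])
      (fun j hj w h0 h1 h2 => by rw [G.ray_hub, G.ray_bs]; exact s3 g j hj w h0 h1 h2)
  -- third perturbation
  obtain ⟨P₂, k2, g2, -⟩ := exists_GP (ι := Empty) (G.ray τ P₁ s) Empty.elim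
    ((eventually_all.2 fun t => (s1 t).eventually tendsto_id).and
      (eventually_all.2 fun g => (hg g).eventually tendsto_id))
  exact ⟨P₂, g2, k2.1, k2.2⟩

theorem gad_yes (l : List (ℕ × ℕ × ℕ)) (hl : ∀ g, (G.kind g, (G.lo g).1, (G.hi g).1) ∈ l)
    (h : CmpSat l) : ∃ P : F.V ⊕ G.I → Pt, GP P ∧
      ∀ t, Plane (G.pre.par t) (G.pre.root t) (fun _ => True) P := by
  obtain ⟨P, h1, h2, h3⟩ := G.gad_yes' l hl h
  refine ⟨P, h1, ?_⟩
  rintro (t | g)
  · exact h2 t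
  · exact h3 g

end Gad

end Pool.Agent.P.MP_2989a6_lc
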