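import Pool.Agent.P.MP_2989a6_lc.Spec
import Pool.Agent.P.MP_2989a6_lc.Alg

/-! Comparison gadgets on top of a frame. -/

namespace Pool.Agent.P.MP_2989a6_lc

open Classical

/-- Rooms of the hub (`0`) and of the two pendant vertices (`1`, `2`) of a gadget of kind `k`. -/
def groom (k : ℕ) : Fin 3 → Fin 5 :=
  if k = 0 then ![2, 3, 1] else if k = 1 then ![3, 2, 1] else if k = 2 then ![1, 3, 4]
  else ![1, 4, 2]

/-- Gadget data: `M` gadgets on `n` points. -/
structure Gad (F : Frame) where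
  n : ℕ
  M : ℕ
  tup : Fin M → F.U
  kind : Fin M → ℕ
  lo : Fin M → Fin n
  hi : Fin M → Fin n

namespace Gad

variable {F : Frame} (G : Gad F)

abbrev I := Fin G.n ⊕ Fin G.M × Fin 3

def room : G.I → Fin 5 := Sum.elim (fun _ => 0) fun p => groom (G.kind p.1) p.2

noncomputable def gpar : F.T ⊕ Fin G.M → F.V ⊕ G.I → F.V ⊕ G.I
  | .inl t, v => epar F.S F.att G.room t v
  | .inr g, v => if v = .inr (.inr (g, 1)) then .inr (.inl (G.lo g))
      else if v = .inr (.inr (g, 2)) then .inr (.inl (G.hi g)) else .inr (.inr (g, 0))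

noncomputable def gdep : F.T ⊕ Fin G.M → F.V ⊕ G.I → ℕ
  | .inl t, .inl v => F.S.dep t v
  | .inl t, .inr i => F.S.dep t (F.S.hv (F.att t (G.room i))) + 1
  | .inr g, v => if v = .inr (.inr (g, 0)) then 0
      else if v = .inr (.inr (g, 1)) ∨ v = .inr (.inr (g, 2)) then 2 else 1

/-- A bound on the ranks of the frame hubs. -/
noncomputable def big (F : Frame) : ℕ := Finset.univ.sup F.S.rk + 1

theorem rk_lt_big (h : F.H) : F.S.rk h < big F :=
  Nat.lt_succ_of_le (Finset.le_sup (f := F.S.rk) (Finset.mem_univ h))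

theorem gpar_cases (g : Fin G.M) (v : F.V ⊕ G.I) :
    (v = .inr (.inr (g, 1)) ∧ G.gpar (.inr g) v = .inr (.inl (G.lo g))) ∨
    (v = .inr (.inr (g, 2)) ∧ G.gpar (.inr g) v = .inr (.inl (G.hi g))) ∨
    (v ≠ .inr (.inr (g, 1)) ∧ v ≠ .inr (.inr (g, 2)) ∧
      G.gpar (.inr g) v = .inr (.inr (g, 0))) := by
  by_cases h1 : v = .inr (.inr (g, 1))
  · exact Or.inl ⟨h1, by simp only [gpar, if_pos h1]⟩
  by_cases h2 : v = .inr (.inr (g, 2))
  · exact Or.inr (Or.inl ⟨h2, by simp only [gpar, if_neg h1, if_pos h2]⟩)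
  · exact Or.inr (Or.inr ⟨h1, h2, by simp only [gpar, if_neg h1, if_neg h2]⟩)

theorem gpar_inl (t : F.T) (v : F.V) : G.gpar (.inl t) (.inl v) = .inl (F.S.par t v) := rfl

theorem gpar_inr (t : F.T) (i : G.I) :
    G.gpar (.inl t) (.inr i) = .inl (F.S.hv (F.att t (G.room i))) := rfl

noncomputable def pre : Pre (F.V ⊕ G.I) (F.T ⊕ Fin G.M) (F.H ⊕ Fin G.M) where
  par := G.gpar
  root := Sum.elim (fun t => .inl (F.S.root t)) fun g => .inr (.inr (g, 0))
  dep := G.gdep
  dep_lt := by
    rintro (t | g) v hv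
    · rcases v with v | i
      · exact F.S.dep_lt t v fun e => hv (by simp [e])
      · exact Nat.lt_succ_self _
    · have h0 : v ≠ .inr (.inr (g, 0)) := hv
      rcases G.gpar_cases g v with ⟨e, h⟩ | ⟨e, h⟩ | ⟨e, e', h⟩
      · rw [h, e]; simp [gdep]
      · rw [h, e]; simp [gdep]
      · rw [h]; simp [gdep, h0, e, e']
  d1 := by
    rintro (t | g) (t' | g') v hv hv' e
    · rcases v with v | i
      · rw [F.S.d1 t t' v (fun e => hv (by simp [e])) (fun e => hv' (by simp [e]))
          (Sum.inl.inj e)]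
      · have := congrArg F.S.ht (F.S.hv_inj (Sum.inl.inj e))
        rw [F.att_ht, F.att_ht] at this
        rw [this]
    · exfalso
      rcases G.gpar_cases g' v with ⟨-, h⟩ | ⟨-, h⟩ | ⟨-, -, h⟩ <;> rw [h] at e <;>
        rcases v with v | i <;> cases e
    · exfalso
      rcases G.gpar_cases g v with ⟨-, h⟩ | ⟨-, h⟩ | ⟨-, -, h⟩ <;> rw [h] at e <;>
        rcases v with v | i <;> cases e
    · rcases G.gpar_cases g v with ⟨a, h⟩ | ⟨a, h⟩ | ⟨-, -, h⟩ <;>
        rcases G.gpar_cases g' v with ⟨a', h'⟩ | ⟨a', h'⟩ | ⟨-, -, h'⟩ <;>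
        rw [h, h'] at e <;> simp_all
  hv := Sum.elim (fun h => .inl (F.S.hv h)) fun g => .inr (.inr (g, 0))
  ht := Sum.map F.S.ht id
  rk := Sum.elim F.S.rk fun g => big F + g
  w0 := .inl F.S.w0
  hv_inj := by
    rintro (a | a) (b | b) e
    · rw [F.S.hv_inj (Sum.inl.inj e)]
    · cases e
    · cases e
    · simpa using e
  rk_inj := by
    rintro (a | a) (b | b) e
    · rw [F.S.rk_inj e]
    · have := rk_lt_big a
      simp only [Sum.elim_inl, Sum.elim_inr] at e
      omega
    · have := rk_lt_big b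
      simp only [Sum.elim_inl, Sum.elim_inr] at e
      omega
    · simp only [Sum.elim_inr, add_right_inj] at e
      rw [Fin.ext e]
  w0_ne := by
    rintro (a | a) e
    · exact F.S.w0_ne a (Sum.inl.inj e)
    · cases e
  leaf := by
    rintro (t | g) (a | a) h
    · have h' : F.S.ht a ≠ t := fun e => h (by simp [e])
      refine ⟨fun e => (F.S.leaf t a h').1 (Sum.inl.inj e), ?_⟩
      rintro (v | i) hv e
      · exact (F.S.leaf t a h').2 v (fun e => hv (by simp [e])) (Sum.inl.inj e)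
      · exact h' (by rw [← F.S.hv_inj (Sum.inl.inj e), F.att_ht])
    · refine ⟨fun e => (by cases e), ?_⟩
      rintro (v | i) _ e <;> cases e
    · refine ⟨fun e => (by cases e), fun v _ e => ?_⟩
      rcases G.gpar_cases g v with ⟨-, h⟩ | ⟨-, h⟩ | ⟨-, -, h⟩ <;> rw [h] at e <;> cases e
    · have h' : a ≠ g := fun e => h (by simp [e])
      refine ⟨by simpa using h', fun v _ e => ?_⟩
      rcases G.gpar_cases g v with ⟨-, h⟩ | ⟨-, h⟩ | ⟨-, -, h⟩ <;> rw [h] at e <;> cases e
      exact h' rfl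
  d2 := by
    rintro (t | g) (t' | g') v hv hv' e
    · rcases v with v | i
      · obtain ⟨⟨a, ha⟩, b, hb⟩ := F.S.d2 t t' v (fun e => hv (by simp [e]))
          (fun e => hv' (by simp [gpar_inl, e])) (Sum.inl.inj e)
        exact ⟨⟨.inl a, by simp [ha]⟩, .inl b, by simp [gpar_inl, hb]⟩
      · cases e
    · rcases v with v | i
      · rw [gpar_inl] at e
        rcases G.gpar_cases g' (.inl (F.S.par t v)) with ⟨-, h⟩ | ⟨-, h⟩ | ⟨-, -, h⟩ <;>
          rw [h] at e <;> cases e
      · rw [gpar_inr] at e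
        rcases G.gpar_cases g' (.inl (F.S.hv (F.att t (G.room i)))) with
          ⟨a, -⟩ | ⟨a, -⟩ | ⟨-, -, h⟩
        · cases a
        · cases a
        · rw [h] at e
          exact ⟨⟨.inr g', e⟩, .inl _, rfl⟩
    · rcases G.gpar_cases g v with ⟨a, h⟩ | ⟨a, h⟩ | ⟨-, -, h⟩
      · rw [h, a] at e; cases e
      · rw [h, a] at e; cases e
      · rw [h] at e ⊢
        exact ⟨⟨.inl _, e⟩, .inr g, rfl⟩
    · rcases G.gpar_cases g v with ⟨a, h⟩ | ⟨a, h⟩ | ⟨-, -, h⟩
      · rw [h, a] at e; simp [gpar] at e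
      · rw [h, a] at e; simp [gpar] at e
      · rw [h] at e ⊢
        refine ⟨⟨.inr g', ?_⟩, .inr g, rfl⟩
        rw [← e]
        simp [gpar]

theorem keep_frame (t : F.T) (v : F.V ⊕ G.I)
    (h : Sum.elim (F.S.Keep t) (fun _ => True) v) : G.pre.Keep (.inl t) v := by
  rintro ⟨a | a, b | b, hab, ha, hb⟩
  · have ha' : F.S.ht a = t := Sum.inl.inj ha
    subst hb
    exact h ⟨a, b, ⟨fun e => hab.1 (congrArg Sum.inl e), Sum.inl.inj hab.2.1,
      Sum.inl.inj hab.2.2.1, hab.2.2.2⟩, ha', rfl⟩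
  · have h1 : big F + b < F.S.rk a := hab.2.2.2
    have := rk_lt_big a
    omega
  · cases ha
  · cases ha

end Gad

theorem Dj.refl2 {a b c d : Pt} (h : Dj a b c d) : Dj (refl a) (refl b) (refl c) (refl d) := by
  refine dj_iff.2 fun s t h1 h2 h3 h4 e1 e2 => dj_iff.1 h s t h1 h2 h3 h4 e1 ?_
  simp only [MP_2989a6_lc.refl] at e2
  linarith

/-- The star edge from a corner to a hub beyond the opposite side separates. -/
theorem tri_side {P Q R h q L : Pt} (s : ℝ) (hD : 0 < s * det P Q R)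
    (h1 : s * det Q R h < 0) (h2 : 0 < s * det R P h) (h3 : 0 < s * det P Q h)
    (q1 : 0 < s * det Q R q) (q2 : 0 < s * det R P q) (q3 : 0 < s * det P Q q)
    (l1 : 0 < s * det Q R L) (l2 : s * det R P L < 0) (l3 : 0 < s * det P Q L)
    (hd : Dj P h q L) : 0 < s * det P h q := by
  by_contra hc
  have hc : s * det P h q ≤ 0 := not_lt.1 hc
  have cr : ∀ u v : Pt, (s * det P Q R) * (s * det P u v) =
      (s * det R P u) * (s * det P Q v) - (s * det P Q u) * (s * det R P v) := by
    intro u v; simp only [det]; ring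
  have a1 : 0 < s * det P h L := by
    have := cr h L
    refine pos_of_mul_pos_left (b := s * det P Q R) ?_ hD.le
    rw [mul_comm, this]
    nlinarith [mul_pos h2 l3, mul_pos_of_neg_of_neg (neg_neg_of_pos h3) l2]
  have a2 : 0 < s * det P q L := by
    have := cr q L
    refine pos_of_mul_pos_left (b := s * det P Q R) ?_ hD.le
    rw [mul_comm, this]
    nlinarith [mul_pos q2 l3, mul_pos_of_neg_of_neg (neg_neg_of_pos q3) l2]
  have a3 : s * det q L h < 0 := by
    have e : (s * det q L h) * (s * det P Q R) = (s * det P q L) * (s * det Q R h) +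
        (s * det P h q) * (s * det Q R L) - (s * det P h L) * (s * det Q R q) := by
      simp only [det]; ring
    refine neg_of_mul_neg_left (b := s * det P Q R) ?_ hD.le
    rw [e]
    nlinarith [mul_neg_of_pos_of_neg a2 h1, mul_nonpos_of_nonpos_of_nonneg hc l1.le,
      mul_pos a1 q1]
  have hs : 0 < s * s := mul_self_pos.2 fun e => by simp [e] at hD
  refine not_dj ?_ ?_ hd
  · refine nonpos_of_mul_nonpos_right (a := s * s) ?_ hs
    nlinarith [mul_nonpos_of_nonpos_of_nonneg hc a1.le]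
  · have e : det q L P = det P q L := by simp only [det]; ring
    refine neg_of_mul_neg_right (a := s * s) ?_ hs.le
    rw [e]
    nlinarith [mul_neg_of_pos_of_neg a2 a3]

theorem tri_cmp {P Q R h u v L L' : Pt} (hD : 0 < det P Q R)
    (h1 : det Q R h < 0) (h2 : 0 < det R P h) (h3 : 0 < det P Q h)
    (u1 : 0 < det Q R u) (u2 : 0 < det R P u) (u3 : 0 < det P Q u)
    (v1 : 0 < det Q R v) (v2 : 0 < det R P v) (v3 : 0 < det P Q v)
    (l1 : 0 < det Q R L) (l2 : det R P L < 0) (l3 : 0 < det P Q L)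
    (m1 : 0 < det Q R L') (m2 : 0 < det R P L') (m3 : det P Q L' < 0)
    (hv : Dj P h v L) (hu : Dj P h u L') : det P Q u * det R P v < det P Q v * det R P u := by
  have sw : ∀ x y z : Pt, -1 * det x y z = det y x z := by
    intro x y z; simp only [det]; ring
  have a1 := tri_side (P := P) (Q := Q) (R := R) 1 (by simpa) (by simpa) (by simpa) (by simpa)
    (by simpa) (by simpa) (by simpa) (by simpa) (by simpa) (by simpa) hv
  have a2 := tri_side (P := P) (Q := R) (R := Q) (-1)
    (by have : -1 * det P R Q = det P Q R := by simp only [det]; ring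
        rwa [this]) (by rwa [sw]) (by rwa [sw]) (by rwa [sw]) (by rwa [sw]) (by rwa [sw])
    (by rwa [sw]) (by rwa [sw]) (by rwa [sw]) (by rwa [sw]) hu
  have cr : ∀ x : Pt, det P Q R * det P h x = det R P h * det P Q x - det P Q h * det R P x := by
    intro x; simp only [det]; ring
  have b1 : det P Q h * det R P v < det R P h * det P Q v := by
    have := mul_pos hD a1
    rw [one_mul, cr] at this
    linarith
  have b2 : det R P h * det P Q u < det P Q h * det R P u := by
    have := mul_pos hD a2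
    rw [mul_left_comm, cr] at this
    linarith
  refine lt_of_mul_lt_mul_left (a := det R P h) ?_ h2.le
  nlinarith [mul_lt_mul_of_pos_right b2 v2, mul_lt_mul_of_pos_right b1 u2]

theorem ratio_lt {p q p' q' k k' : ℝ} (hq : 0 < q) (hq' : 0 < q') (hk : 0 < k) (hk' : 0 < k')
    (h : p * q' < p' * q) : p * k / (q * k') < p' * k / (q' * k') := by
  rw [div_lt_div_iff₀ (by positivity) (by positivity)]
  nlinarith [mul_lt_mul_of_pos_right h (mul_pos hk hk')]

/-- The first coordinate attached to four centres. -/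
noncomputable def chx (a b c d p : Pt) : ℝ := det b c p * det a b d / (det a b p * det b d c)

/-- The second coordinate attached to four centres. -/
noncomputable def chy (a b c d p : Pt) : ℝ := det d a p * det a b c / (det a b p * det a d c)

theorem cx_add {a b c d p : Pt} (h1 : 0 < det a b p) (h2 : 0 < det b d c) :
    chx a b c d p + 1 = det b d p * det a b c / (det a b p * det b d c) := by
  rw [chx, div_add_one (by positivity)]
  congr 1
  simp only [det]; ring

theorem cy_add {a b c d p : Pt} (h1 : 0 < det a b p) (h2 : 0 < det a d c) :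
    chy a b c d p + 1 = det c a p * det a b d / (det a b p * det a d c) := by
  rw [chy, div_add_one (by positivity)]
  congr 1
  simp only [det]; ring

theorem gad_val {a b c d : Pt} {k : ℕ} {h L L' u v : Pt} (e1 : 0 < det a b c) (e2 : 0 < det a b d)
    (e3 : 0 < det a d c) (e4 : 0 < det b d c)
    (hu : ∀ j, if pat 0 j then 0 < phi a b c d u j else phi a b c d u j < 0)
    (hv : ∀ j, if pat 0 j then 0 < phi a b c d v j else phi a b c d v j < 0)
    (hh : ∀ j, if pat (groom k 0) j then 0 < phi a b c d h j else phi a b c d h j < 0)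
    (hL : ∀ j, if pat (groom k 1) j then 0 < phi a b c d L j else phi a b c d L j < 0)
    (hL' : ∀ j, if pat (groom k 2) j then 0 < phi a b c d L' j else phi a b c d L' j < 0)
    (d1 : Dj (![a, b, c, d] ⟨min k 3, by omega⟩) h u L)
    (d2 : Dj (![a, b, c, d] ⟨min k 3, by omega⟩) h v L') :
    val k (chx a b c d u) (chy a b c d u) < val k (chx a b c d v) (chy a b c d v) := by
  have cyc : ∀ x y z : Pt, det x y z = det y z x := by
    intro x y z; simp only [det]; ring
  simp only [Fin.forall_fin_succ, pat, phi] at hu hv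
  simp at hu hv
  obtain ⟨u0, u1, u2, u3, u4⟩ := hu
  obtain ⟨v0, v1, v2, v3, v4⟩ := hv
  by_cases k0 : k = 0
  · subst k0
    simp only [Fin.forall_fin_succ, pat, phi, groom] at hh hL hL'
    simp at hh hL hL' d1 d2
    simp only [val, if_true, chy]
    refine ratio_lt u0 v0 e1 e3 ?_
    have := tri_cmp e2 hh.2.2.2.2 hh.2.2.1 hh.1 v4 v2 v0 u4 u2 u0 hL.2.2.2.2 hL.2.2.1 hL.1
      hL'.2.2.2.2 hL'.2.2.1 hL'.1 d1 d2
    linarith
  by_cases k1 : k = 1
  · subst k1
    simp only [Fin.forall_fin_succ, pat, phi, groom] at hh hL hL'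
    simp at hh hL hL' d1 d2
    simp only [val, one_ne_zero, if_false, if_true]
    refine lt_of_add_lt_add_right (a := 1) ?_
    rw [cx_add u0 e4, cx_add v0 e4]
    refine ratio_lt u0 v0 e1 e4 ?_
    exact tri_cmp (by rwa [← cyc]) hh.2.2.1 hh.1 hh.2.2.2.2 u2 u0 u4 v2 v0 v4 hL'.2.2.1 hL'.1
      hL'.2.2.2.2 hL.2.2.1 hL.1 hL.2.2.2.2 d2 d1
  by_cases k2 : k = 2
  · subst k2
    simp only [Fin.forall_fin_succ, pat, phi, groom] at hh hL hL'
    simp at hh hL hL' d1 d2
    have e : ∀ p : Pt, 0 < det a b p → 0 < det b c p → val 2 (chx a b c d p) (chy a b c d p) =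
        det c a p * det b d c / (det b c p * det a d c) := by
      intro p p0 p3
      simp only [val, OfNat.ofNat_ne_zero, OfNat.ofNat_ne_one, if_false, if_true]
      rw [cy_add p0 e3, chx]
      field_simp
    rw [e u u0 u3, e v v0 v3]
    refine ratio_lt u3 v3 e4 e3 ?_
    exact tri_cmp (by rwa [cyc]) hh.1 hh.2.2.2.1 hh.2.1 u0 u3 u1 v0 v3 v1 hL'.1 hL'.2.2.2.1
      hL'.2.1 hL.1 hL.2.2.2.1 hL.2.1 d2 d1
  · have hm : min k 3 = 3 := by omega
    simp only [Fin.forall_fin_succ, pat, phi, groom, if_neg k0, if_neg k1, if_neg k2]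
      at hh hL hL'
    simp only [hm] at d1 d2
    simp at hh hL hL' d1 d2
    have e : ∀ p : Pt, 0 < det a b p → 0 < det b d p → val k (chx a b c d p) (chy a b c d p) =
        det d a p * det b d c / (det b d p * det a d c) := by
      intro p p0 p4
      simp only [val, if_neg k0, if_neg k1, if_neg k2]
      rw [cx_add p0 e4, chy]
      field_simp
    rw [e u u0 u4, e v v0 v4]
    refine ratio_lt u4 v4 e4 e3 ?_
    exact tri_cmp (by rwa [cyc]) hh.1 hh.2.2.2.2 hh.2.2.1 u0 u4 u2 v0 v4 v2 hL'.1 hL'.2.2.2.2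
      hL'.2.2.1 hL.1 hL.2.2.2.2 hL.2.2.1 d2 d1

namespace Gad

variable {F : Frame} (G : Gad F)

theorem gad_no (l : List (ℕ × ℕ × ℕ))
    (hl : ∀ u, ∀ c ∈ l, ∃ g, G.tup g = u ∧ c = (G.kind g, (G.lo g).1, (G.hi g).1))
    {P : F.V ⊕ G.I → Pt} (hP : GP P)
    (h : ∀ t, Plane (G.pre.par t) (G.pre.root t) (G.pre.Keep t) P) : CmpSat l := by
  obtain ⟨u, f, hf, e1, e2, e3, e4, hQ⟩ := F.sound G.I G.room P hP fun t v w a1 a2 k1 k2 =>
    h (.inl t) v w a1 a2 (G.keep_frame t v k1) (G.keep_frame t w k2)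
  have hfd : ∀ a b c d : Pt, Dj a b c d → Dj (f a) (f b) (f c) (f d) := by
    rcases hf with rfl | rfl
    · exact fun _ _ _ _ h => h
    · exact fun _ _ _ _ h => h.refl2
  set a := f (P (.inl (F.ctr u 0))) with ha
  set b := f (P (.inl (F.ctr u 1))) with hb
  set c := f (P (.inl (F.ctr u 2))) with hc
  set d := f (P (.inl (F.ctr u 3))) with hd
  have hctr : ∀ k : Fin 4, ![a, b, c, d] k = f (P (.inl (F.ctr u k))) := by
    intro k; fin_cases k <;> rfl
  refine ⟨fun i => if hi : i < G.n then chx a b c d (f (P (.inr (.inl ⟨i, hi⟩)))) else 1,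
    fun i => if hi : i < G.n then chy a b c d (f (P (.inr (.inl ⟨i, hi⟩)))) else 1,
    fun i => ?_, fun z hz => ?_⟩
  · by_cases hi : i < G.n
    · simp only [dif_pos hi, chx, chy]
      have h0 : 0 < det a b _ := hQ (.inl ⟨i, hi⟩) 0
      have h2 : 0 < det d a _ := hQ (.inl ⟨i, hi⟩) 2
      have h3 : 0 < det b c _ := hQ (.inl ⟨i, hi⟩) 3
      exact ⟨by positivity, by positivity⟩
    · simp [dif_neg hi]
  · obtain ⟨g, -, rfl⟩ := hl u z hz
    simp only [dif_pos (G.lo g).2, dif_pos (G.hi g).2, Fin.eta]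
    have key : ∀ (k : Fin 4) (j : Fin 3) (i : Fin G.n), j ≠ 0 →
        G.gpar (.inr g) (.inr (.inr (g, j))) = .inr (.inl i) →
        Dj (![a, b, c, d] k) (f (P (.inr (.inr (g, 0))))) (f (P (.inr (.inl i))))
          (f (P (.inr (.inr (g, j))))) := by
      intro k j i hj e
      have e0 : G.gpar (.inr g) (.inl (F.ctr u k)) = .inr (.inr (g, 0)) := by simp [gpar]
      have := h (.inr g) (.inl (F.ctr u k)) (.inr (.inr (g, j))) (fun e => by cases e)
        (fun e => hj (by simpa [pre] using e))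
        (by
          rintro ⟨_, b' | b', -, -, hb'⟩
          · exact F.ctr_nh u k b' (Sum.inl.inj hb')
          · cases hb')
        (by
          rintro ⟨_, b' | b', -, -, hb'⟩
          · cases hb'
          · cases hb'
            exact hj rfl)
        (fun e => by cases e) (by simp [pre, e]) (by simpa [pre, e0] using hj.symm)
        (by simp [pre, e, e0])
      simp only [pre, e, e0] at this
      rw [hctr]
      exact (hfd _ _ _ _ this).swap'
    exact gad_val e1 e2 e3 e4 (hQ (.inl (G.lo g))) (hQ (.inl (G.hi g))) (hQ (.inr (g, 0)))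
      (hQ (.inr (g, 1))) (hQ (.inr (g, 2))) (key _ 1 _ (by decide) (by simp [gpar]))
      (key _ 2 _ (by decide) (by simp [gpar]))

end Gad

end Pool.Agent.P.MP_2989a6_lc
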