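import Mathlib

/-! Plane geometry: orientation determinants, disjoint segments, general position. -/

namespace Pool.Agent.P.MP_2989a6_lc

abbrev Pt := ℝ × ℝ

def det (p q r : Pt) : ℝ := (q.1 - p.1) * (r.2 - p.2) - (q.2 - p.2) * (r.1 - p.1)

def Dj (a b c d : Pt) : Prop := Disjoint (segment ℝ a b) (segment ℝ c d)

/-- General position: distinct abscissae, no three points on a line. -/
def GP {V : Type} (P : V → Pt) : Prop :=
  (∀ a b, a ≠ b → (P a).1 ≠ (P b).1) ∧
    ∀ a b c, a ≠ b → a ≠ c → b ≠ c → det (P a) (P b) (P c) ≠ 0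

/-- Vertex-disjoint edges `v - par v` with `K v` are drawn as disjoint segments. -/
def Plane {V : Type} (par : V → V) (root : V) (K : V → Prop) (P : V → Pt) : Prop :=
  ∀ v w, v ≠ root → w ≠ root → K v → K w → v ≠ w → v ≠ par w → par v ≠ w → par v ≠ par w →
    Dj (P v) (P (par v)) (P w) (P (par w))

end Pool.Agent.P.MP_2989a6_lc
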