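import Pool.Agent.P.MP_2989a6_lc.Geo

/-! Basic lemmas on disjoint segments and general position. -/

namespace Pool.Agent.P.MP_2989a6_lc

open Filter Topology

theorem Dj.symm {a b c d : Pt} (h : Dj a b c d) : Dj c d a b := Disjoint.symm h

theorem Dj.swap {a b c d : Pt} (h : Dj a b c d) : Dj b a c d := by
  unfold Dj at *; rwa [segment_symm]

theorem Dj.swap' {a b c d : Pt} (h : Dj a b c d) : Dj a b d c := h.symm.swap.symm

theorem dj_iff {a b c d : Pt} : Dj a b c d ↔ ∀ s t : ℝ, 0 ≤ s → s ≤ 1 → 0 ≤ t → t ≤ 1 →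
    (1 - s) * a.1 + s * b.1 = (1 - t) * c.1 + t * d.1 →
    (1 - s) * a.2 + s * b.2 = (1 - t) * c.2 + t * d.2 → False := by
  unfold Dj
  rw [Set.disjoint_left, segment_eq_image, segment_eq_image]
  constructor
  · intro h s t h1 h2 h3 h4 e1 e2
    exact h ⟨s, ⟨h1, h2⟩, rfl⟩ ⟨t, ⟨h3, h4⟩, Prod.ext e1.symm e2.symm⟩
  · rintro h _ ⟨s, ⟨h1, h2⟩, rfl⟩ ⟨t, ⟨h3, h4⟩, e⟩
    exact h s t h1 h2 h3 h4 (congrArg Prod.fst e).symm (congrArg Prod.snd e).symm

/-- Separation by an affine function. -/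
theorem Dj.of_aff {a b c d : Pt} (u v w : ℝ) (ha : 0 < u * a.1 + v * a.2 + w)
    (hb : 0 < u * b.1 + v * b.2 + w) (hc : u * c.1 + v * c.2 + w ≤ 0)
    (hd : u * d.1 + v * d.2 + w ≤ 0) : Dj a b c d := by
  refine dj_iff.2 fun s t h1 h2 h3 h4 e1 e2 => ?_
  have k : (1 - s) * (u * a.1 + v * a.2 + w) + s * (u * b.1 + v * b.2 + w) =
      (1 - t) * (u * c.1 + v * c.2 + w) + t * (u * d.1 + v * d.2 + w) := by
    linear_combination u * e1 + v * e2
  have k1 := mul_nonpos_of_nonneg_of_nonpos (sub_nonneg.2 h4) hc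
  have k2 := mul_nonpos_of_nonneg_of_nonpos h3 hd
  rcases h1.eq_or_lt with rfl | h1
  · nlinarith
  · nlinarith [mul_pos h1 hb, mul_nonneg (sub_nonneg.2 h2) ha.le]

/-- Separation by a line. -/
theorem Dj.of_sep {a b c d : Pt} (p q : Pt) (σ : ℝ) (ha : 0 < σ * det p q a)
    (hb : 0 < σ * det p q b) (hc : σ * det p q c ≤ 0) (hd : σ * det p q d ≤ 0) : Dj a b c d :=
  Dj.of_aff (-σ * (q.2 - p.2)) (σ * (q.1 - p.1)) (σ * ((q.2 - p.2) * p.1 - (q.1 - p.1) * p.2))
    (by unfold det at ha; linarith) (by unfold det at hb; linarith)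
    (by unfold det at hc; linarith) (by unfold det at hd; linarith)

theorem Dj.exists_aff {a b c d : Pt} (h : Dj a b c d) : ∃ u v w : ℝ,
    0 < u * a.1 + v * a.2 + w ∧ 0 < u * b.1 + v * b.2 + w ∧ u * c.1 + v * c.2 + w < 0 ∧
      u * d.1 + v * d.2 + w < 0 := by
  have hc : ∀ x y : Pt, IsCompact (segment ℝ x y) := fun x y => by
    rw [segment_eq_image]
    exact isCompact_Icc.image (by fun_prop)
  obtain ⟨f, u, v, h1, h2, h3⟩ := geometric_hahn_banach_compact_closed (convex_segment c d) (hc c d)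
    (convex_segment a b) (hc a b).isClosed h.symm
  have e : ∀ p : Pt, f p = f (1, 0) * p.1 + f (0, 1) * p.2 := fun p => by
    have : p = p.1 • ((1, 0) : Pt) + p.2 • ((0, 1) : Pt) := by ext <;> simp
    conv_lhs => rw [this, map_add, map_smul, map_smul]
    simp [mul_comm]
  refine ⟨f (1, 0), f (0, 1), -u, ?_, ?_, ?_, ?_⟩
  · have := h3 a (left_mem_segment _ _ _); rw [e] at this; linarith
  · have := h3 b (right_mem_segment _ _ _); rw [e] at this; linarith
  · have := h1 c (left_mem_segment _ _ _); rw [e] at this; linarith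
  · have := h1 d (right_mem_segment _ _ _); rw [e] at this; linarith

/-- Disjointness of two segments is an open condition. -/
theorem Dj.eventually {ι : Type} {l : Filter ι} {a b c d : ι → Pt} {a₀ b₀ c₀ d₀ : Pt}
    (h : Dj a₀ b₀ c₀ d₀) (ha : Tendsto a l (𝓝 a₀)) (hb : Tendsto b l (𝓝 b₀))
    (hc : Tendsto c l (𝓝 c₀)) (hd : Tendsto d l (𝓝 d₀)) :
    ∀ᶠ i in l, Dj (a i) (b i) (c i) (d i) := by
  obtain ⟨u, v, w, h1, h2, h3, h4⟩ := h.exists_aff
  have hf : Continuous fun p : Pt => u * p.1 + v * p.2 + w := by fun_prop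
  filter_upwards [((hf.tendsto _).comp ha).eventually (lt_mem_nhds h1),
    ((hf.tendsto _).comp hb).eventually (lt_mem_nhds h2),
    ((hf.tendsto _).comp hc).eventually (gt_mem_nhds h3),
    ((hf.tendsto _).comp hd).eventually (gt_mem_nhds h4)] with i k1 k2 k3 k4
  exact Dj.of_aff u v w k1 k2 (le_of_lt k3) (le_of_lt k4)

/-- One segment lies on the line through `p` and `q` (parameters `s`, `t`), the other one leaves
this line at the parameter `r`, which is smaller than `s` and `t` or larger than both. -/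
theorem Dj.of_line {p q d : Pt} {s t r : ℝ} (hd : det p q d ≠ 0)
    (h : r < s ∧ r < t ∨ s < r ∧ t < r) :
    Dj (p + s • (q - p)) (p + t • (q - p)) (p + r • (q - p)) d := by
  refine dj_iff.2 fun x y h1 h2 h3 h4 e1 e2 => ?_
  simp only [Prod.fst_add, Prod.snd_add, Prod.smul_fst, Prod.smul_snd, Prod.fst_sub, Prod.snd_sub,
    smul_eq_mul] at e1 e2
  have k : y * det p q d = 0 := by
    unfold det; linear_combination (q.2 - p.2) * e1 - (q.1 - p.1) * e2
  have hy : y = 0 := (mul_eq_zero.1 k).resolve_right hd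
  subst hy
  have k2 : ((1 - x) * s + x * t - r) * det p q d = 0 := by
    unfold det; linear_combination (d.2 - p.2) * e1 - (d.1 - p.1) * e2
  have k3 := (mul_eq_zero.1 k2).resolve_right hd
  rcases h1.eq_or_lt with rfl | h1
  · rcases h with ⟨a, b⟩ | ⟨a, b⟩ <;> linarith
  · rcases h with ⟨a, b⟩ | ⟨a, b⟩
    · nlinarith [mul_pos h1 (sub_pos.2 b), mul_nonneg (sub_nonneg.2 h2) (sub_pos.2 a).le]
    · nlinarith [mul_pos h1 (sub_pos.2 b), mul_nonneg (sub_nonneg.2 h2) (sub_pos.2 a).le]

/-- Four points on a line through two different points. -/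
theorem Dj.of_coll {p q : Pt} {s t r u : ℝ} (hpq : p ≠ q) (h1 : s < r) (h2 : s < u) (h3 : t < r)
    (h4 : t < u) :
    Dj (p + s • (q - p)) (p + t • (q - p)) (p + r • (q - p)) (p + u • (q - p)) := by
  refine dj_iff.2 fun x y k1 k2 k3 k4 e1 e2 => ?_
  simp only [Prod.fst_add, Prod.snd_add, Prod.smul_fst, Prod.smul_snd, Prod.fst_sub, Prod.snd_sub,
    smul_eq_mul] at e1 e2
  have k : (1 - x) * s + x * t - ((1 - y) * r + y * u) ≠ 0 := by
    have a1 : (1 - x) * s + x * t ≤ max s t := by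
      nlinarith [le_max_left s t, le_max_right s t]
    have a2 : min r u ≤ (1 - y) * r + y * u := by
      nlinarith [min_le_left r u, min_le_right r u]
    have a3 : max s t < min r u := max_lt (lt_min h1 h2) (lt_min h3 h4)
    linarith
  refine hpq (Prod.ext ?_ ?_)
  · have : ((1 - x) * s + x * t - ((1 - y) * r + y * u)) * (q.1 - p.1) = 0 := by
      linear_combination e1
    linarith [(mul_eq_zero.1 this).resolve_left k]
  · have : ((1 - x) * s + x * t - ((1 - y) * r + y * u)) * (q.2 - p.2) = 0 := by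
      linear_combination e2
    linarith [(mul_eq_zero.1 this).resolve_left k]

/-- A point off a line is disjoint from every segment on the line. -/
theorem Dj.of_point {a b c : Pt} (h : det a b c ≠ 0) : Dj c c a b :=
  Dj.of_sep a b (det a b c) (mul_self_pos.2 h) (mul_self_pos.2 h)
    (by simp [det]) (by simp [det, mul_comm])

/-- Segments whose endpoints are separated by each other's lines meet. -/
theorem not_dj {a b c d : Pt} (h1 : det a b c * det a b d ≤ 0) (h2 : det c d a * det c d b < 0) :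
    ¬ Dj a b c d := by
  intro h
  have hD : det c d a - det c d b ≠ 0 := fun e => by
    rw [sub_eq_zero.1 e] at h2; nlinarith [mul_self_nonneg (det c d b)]
  have e : det a b d - det a b c = det c d a - det c d b := by unfold det; ring
  have i1 : ∀ x y : ℝ, x * y ≤ 0 → x - y ≠ 0 → 0 ≤ x / (x - y) ∧ x / (x - y) ≤ 1 := by
    intro x y k1 k2
    have k3 : 0 < (x - y) ^ 2 := by positivity
    have k4 : x / (x - y) = x * (x - y) / (x - y) ^ 2 := by field_simp
    rw [k4]
    exact ⟨div_nonneg (by nlinarith [mul_self_nonneg x]) k3.le,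
      (div_le_one k3).2 (by nlinarith [mul_self_nonneg y])⟩
  have hD' : det a b c - det a b d ≠ 0 := fun k => hD (by linarith)
  obtain ⟨s1, s2⟩ := i1 _ _ h2.le hD
  obtain ⟨t1, t2⟩ := i1 _ _ h1 hD'
  have e' : det a b c - det a b d = -(det c d a - det c d b) := by linarith
  refine dj_iff.1 h _ _ s1 s2 t1 t2 ?_ ?_
  · rw [e']; field_simp; unfold det; ring
  · rw [e']; field_simp; unfold det; ring

theorem eventually_ne_quad {a b c : ℝ} (h : c ≠ 0) :
    ∀ᶠ s in 𝓝[≠] (0 : ℝ), a + b * s + c * s ^ 2 ≠ 0 := by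
  have hp : (Polynomial.C a + Polynomial.C b * Polynomial.X + Polynomial.C c * Polynomial.X ^ 2 :
      Polynomial ℝ) ≠ 0 := fun e => h (by simpa using congrArg (Polynomial.coeff · 2) e)
  have hf := (Polynomial.finite_setOfPred_isRoot hp).subset (Set.sdiff_subset (t := {0}))
  filter_upwards [mem_nhdsWithin_of_mem_nhds (hf.isClosed.isOpen_compl.mem_nhds (x := 0) (by simp)),
    self_mem_nhdsWithin] with s h1 h2 e
  exact h1 ⟨by simpa using e, h2⟩

/-- Every configuration has configurations in general position nearby, and finitely many fixed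
points can be kept off all lines. -/
theorem exists_GP {V ι : Type} [Finite V] [Finite ι] (P : V → Pt) (Q : ι → Pt) {U : Set (V → Pt)}
    (hU : U ∈ 𝓝 P) : ∃ P' ∈ U, GP P' ∧ ∀ a b i, a ≠ b → det (P' a) (P' b) (Q i) ≠ 0 := by
  obtain ⟨k, hk⟩ := exists_injective_nat V
  let m : V → ℝ := fun v => k v + 1
  have hm : ∀ a b, a ≠ b → m b - m a ≠ 0 := fun a b h e =>
    h (hk (by have : (k a : ℝ) = k b := by simp only [m] at e; linarith
              exact_mod_cast this))
  have hm0 : ∀ a, m a ≠ 0 := fun a => by positivity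
  let F : ℝ → V → Pt := fun s v => ((P v).1 + s * m v, (P v).2 + s * m v ^ 2)
  have h0 : Tendsto F (𝓝[≠] 0) (𝓝 P) := by
    have : Continuous F := by fun_prop
    have e : F 0 = P := by funext v; simp [F]
    exact (e ▸ this.tendsto 0).mono_left nhdsWithin_le_nhds
  have h1 : ∀ᶠ s in 𝓝[≠] (0 : ℝ), ∀ a b, a ≠ b → (F s a).1 ≠ (F s b).1 := by
    refine eventually_all.2 fun a => eventually_all.2 fun b => eventually_all.2 fun h => ?_
    filter_upwards [eventually_ne_quad (a := 0) (b := (P b).1 - (P a).1) (hm a b h)] with s k e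
    exact k (by simp only [F] at e; linear_combination -s * e)
  have h2 : ∀ᶠ s in 𝓝[≠] (0 : ℝ), ∀ a b c, a ≠ b → a ≠ c → b ≠ c →
      det (F s a) (F s b) (F s c) ≠ 0 := by
    refine eventually_all.2 fun a => eventually_all.2 fun b => eventually_all.2 fun c =>
      eventually_all.2 fun k1 => eventually_all.2 fun k2 => eventually_all.2 fun k3 => ?_
    filter_upwards [eventually_ne_quad (a := det (P a) (P b) (P c))
      (b := ((P b).1 - (P a).1) * (m c ^ 2 - m a ^ 2) + (m b - m a) * ((P c).2 - (P a).2) -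
        ((P b).2 - (P a).2) * (m c - m a) - (m b ^ 2 - m a ^ 2) * ((P c).1 - (P a).1))
      (mul_ne_zero (mul_ne_zero (hm a b k1) (hm a c k2)) (hm b c k3))] with s k e
    exact k (by simp only [F, det] at e ⊢; linear_combination e)
  have h3 : ∀ᶠ s in 𝓝[≠] (0 : ℝ), ∀ a b i, a ≠ b → det (F s a) (F s b) (Q i) ≠ 0 := by
    refine eventually_all.2 fun a => eventually_all.2 fun b => eventually_all.2 fun i =>
      eventually_all.2 fun k1 => ?_
    filter_upwards [eventually_ne_quad (a := det (P a) (P b) (Q i))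
      (b := ((P b).1 - (P a).1) * (- m a ^ 2) + (m b - m a) * ((Q i).2 - (P a).2) -
        ((P b).2 - (P a).2) * (- m a) - (m b ^ 2 - m a ^ 2) * ((Q i).1 - (P a).1))
      (mul_ne_zero (mul_ne_zero (hm a b k1) (hm0 a)) (hm0 b))] with s k e
    exact k (by simp only [F, det] at e ⊢; linear_combination e)
  obtain ⟨s, k0, k1, k2, k3⟩ := ((h0.eventually hU).and (h1.and (h2.and h3))).exists
  exact ⟨F s, k0, ⟨k1, k2⟩, k3⟩

/-- Planarity is an open condition. -/
theorem Plane.eventually {V ι : Type} [Finite V] {par : V → V} {root : V} {K : V → Prop}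
    {P : V → Pt} (h : Plane par root K P) {l : Filter ι} {F : ι → V → Pt}
    (hF : Tendsto F l (𝓝 P)) : ∀ᶠ i in l, Plane par root K (F i) := by
  have t : ∀ v, Tendsto (fun i => F i v) l (𝓝 (P v)) := tendsto_pi_nhds.1 hF
  refine eventually_all.2 fun v => eventually_all.2 fun w => ?_
  iterate 8 refine eventually_all.2 fun _ => ?_
  exact (h v w ‹_› ‹_› ‹_› ‹_› ‹_› ‹_› ‹_› ‹_›).eventually (t _) (t _) (t _) (t _)

end Pool.Agent.P.MP_2989a6_lc
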