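import Pool.Agent.Lib.helper21.PTInt
import Pool.Agent.Lib.helper26.PTExtra
import Pool.Agent.Lib.helper77.Micro

/-! Polynomial-time machines are realised in the register model. -/

namespace Pool.Agent.P.MP_2989a6_lc

open Pool.Agent.Lib.helper21 Pool.Agent.Lib.helper26 Pool.Agent.Lib.helper77
open Turing Turing.TM2 Function

theorem tm_eqConst (y : List ℕ) : PT fun x : List ℕ => decide (x = y) := by
  induction y with
  | nil =>
    exact PT.of_eq (f := fun x : List ℕ => x.isEmpty) (by fun_prop) fun x => by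
      cases x <;> simp
  | cons a y ih =>
    have h : PT fun x : List ℕ => decide (x.tail = y) := ih.comp (g := fun x : List ℕ => x.tail)
      (by fun_prop)
    exact PT.of_eq
      (f := fun x : List ℕ => (!x.isEmpty && decide (x.headD 0 = a)) && decide (x.tail = y))
      (by fun_prop) fun x => by rw [Bool.eq_iff_iff]; cases x <;> simp

/-- Finite tables. -/
theorem tm_table {δ β : Type} [Enc β] (b : β) (key : δ → List ℕ) (out : δ → β) (s : Set δ)
    (hs : s.Finite) : Set.InjOn key s →
      ∃ t : List ℕ → β, PT t ∧ ∀ d ∈ s, t (key d) = out d := by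
  induction s, hs using Set.Finite.induction_on with
  | empty => exact fun _ => ⟨fun _ => b, PT.const b, by simp⟩
  | @insert a s ha _ ih =>
    intro hinj
    obtain ⟨t, ht, e⟩ := ih (hinj.mono (Set.subset_insert _ _))
    refine ⟨fun x => cond (decide (x = key a)) (out a) (t x),
      (tm_eqConst _).cond (PT.const _) ht, fun d hd => ?_⟩
    rcases hd with rfl | hd
    · simp
    · have : key d ≠ key a := fun h =>
        ha (hinj (Set.mem_insert_of_mem _ hd) (Set.mem_insert _ _) h ▸ hd)
      simp [this, e d hd]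

theorem tm_mapConst {α β ι : Type} [Enc α] [Enc β] (l : List ι) {F : ι → α → β}
    (h : ∀ i, PT (F i)) : PT fun a => l.map fun i => F i a := by
  induction l with
  | nil => exact PT.const []
  | cons i l ih => exact (h i).cons ih

/-- Coded action on a coded stack. -/
def appN (a : ℕ) (l : List ℕ) : List ℕ :=
  cond (decide (a = 0)) l (cond (decide (a = 1)) l.tail ((a - 1) :: l))

/-- One step on coded configurations. -/
def stepN (n : ℕ) (t : List ℕ → ℕ × List ℕ) (s : ℕ × List (List ℕ)) : ℕ × List (List ℕ) :=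
  ((t (s.1 :: s.2.map fun l => l.headD 0)).1,
    (List.range n).map fun i =>
      appN ((t (s.1 :: s.2.map fun l => l.headD 0)).2.getD i 0) (s.2.getD i []))

theorem PT_stepN (n : ℕ) {t : List ℕ → ℕ × List ℕ} (ht : PT t) : PT (stepN n t) := by
  have h : PT fun s : ℕ × List (List ℕ) => t (s.1 :: s.2.map fun l => l.headD 0) :=
    ht.comp (by fun_prop)
  refine h.fst.pair (tm_mapConst _ fun i => ?_)
  have h1 : PT fun s : ℕ × List (List ℕ) =>
      (t (s.1 :: s.2.map fun l => l.headD 0)).2.getD i 0 :=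
    h.snd.getD (PT.const i) (PT.const 0)
  have h2 : PT fun s : ℕ × List (List ℕ) => s.2.getD i [] := by fun_prop
  exact (h1.decEq (PT.const 0)).cond h2
    ((h1.decEq (PT.const 1)).cond h2.tail ((h1.sub (PT.const 1)).cons h2))

section Code

variable {K : Type} [DecidableEq K] {Γ : K → Type} {Λ σ : Type} (n : ℕ) (κ : ℕ → K)
  (cc : Ctl Γ Λ σ → ℕ) (cs : (Σ k, Γ k) → ℕ)

/-- Code of a configuration. -/
def codeC (c : MC Γ Λ σ) : ℕ × List (List ℕ) :=
  (cc c.1, (List.range n).map fun i => (c.2 (κ i)).map fun x => cs ⟨κ i, x⟩ + 1)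

/-- Code of the data read in one step. -/
def keyC (d : Ctl Γ Λ σ × Col Γ) : List ℕ :=
  cc d.1 :: (List.range n).map fun i => (d.2 (κ i)).elim 0 fun x => cs ⟨κ i, x⟩ + 1

/-- Code of an action. -/
def actN (k : K) : Option (Option (Γ k)) → ℕ
  | none => 0
  | some none => 1
  | some (some x) => cs ⟨k, x⟩ + 2

/-- Code of the decision taken in one step. -/
def outC (M : Λ → Stmt Γ Λ σ) (d : Ctl Γ Λ σ × Col Γ) : ℕ × List ℕ :=
  (cc (nxt M d.1 d.2), (List.range n).map fun i => actN cs (κ i) (act d.1 (κ i)))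

omit [DecidableEq K] in
theorem appN_actN (k : K) (a : Option (Option (Γ k))) (l : List (Γ k)) :
    appN (actN cs k a) (l.map fun x => cs ⟨k, x⟩ + 1) =
      (app a l).map fun x => cs ⟨k, x⟩ + 1 := by
  rcases a with _ | _ | x <;> simp [appN, actN, app]

theorem getD_map_range {β : Type} (g : ℕ → β) {i : ℕ} (hi : i < n) (b : β) :
    ((List.range n).map g).getD i b = g i := by
  simp [List.getD_eq_getElem?_getD, hi]

theorem stepN_code (M : Λ → Stmt Γ Λ σ) (t : List ℕ → ℕ × List ℕ) (c : MC Γ Λ σ)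
    (ht : t (keyC n κ cc cs (c.1, fun k => (c.2 k).head?)) =
      outC n κ cc cs M (c.1, fun k => (c.2 k).head?)) :
    stepN n t (codeC n κ cc cs c) = codeC n κ cc cs (mstep M c) := by
  have e : ((codeC n κ cc cs c).1 :: (codeC n κ cc cs c).2.map fun l => l.headD 0) =
      keyC n κ cc cs (c.1, fun k => (c.2 k).head?) := by
    simp only [codeC, keyC, List.map_map]
    congr 1
    refine List.map_congr_left fun i _ => ?_
    simp only [comp_apply]
    cases c.2 (κ i) <;> rfl
  rw [stepN, e, ht]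
  refine Prod.ext rfl (List.map_congr_left fun i hi => ?_)
  have hi' := List.mem_range.1 hi
  simp only [outC, codeC, getD_map_range n _ hi', appN_actN]
  rfl

omit [DecidableEq K] in
theorem keyC_inj (hκ : ∀ k, ∃ i < n, κ i = k) (M : Λ → Stmt Γ Λ σ) (G : Set (Σ k, Γ k))
    (hcc : Set.InjOn cc {q | GoodS M G q.1}) (hcs : Set.InjOn cs G) :
    Set.InjOn (keyC n κ cc cs) {d | GoodS M G d.1.1 ∧ GoodC G d.2} := by
  rintro ⟨q, T⟩ ⟨h1, h2⟩ ⟨q', T'⟩ ⟨h1', h2'⟩ h
  simp only [keyC, List.cons.injEq, List.map_inj_left, List.mem_range] at h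
  refine Prod.ext (hcc h1 h1' h.1) (funext fun k => ?_)
  obtain ⟨i, hi, rfl⟩ := hκ k
  have e := h.2 i hi
  have g1 := h2 (κ i)
  have g2 := h2' (κ i)
  dsimp only at g1 g2 ⊢
  revert e g1 g2
  rcases T (κ i) with _ | x <;> rcases T' (κ i) with _ | x' <;> intro e g1 g2
  · rfl
  · simp at e
  · simp at e
  · have := hcs (g1 x rfl) (g2 x' rfl) (by simpa using e)
    simpa using this

end Code

theorem rl_of_tm2 {α β : Type} {ea : α → List Bool} {eb : β → List Bool} {f : α → β}
    (h : Nonempty (Turing.TM2ComputableInPolyTime ea eb f)) : Rl ea fun a => eb (f a) := by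
  classical
  obtain ⟨⟨⟨tm, ein, eout⟩, time, hT⟩⟩ := h
  have := tm.kFin
  have := tm.ΛFin
  have := tm.σFin
  have := tm.Γk₀Fin
  have : Finite (tm.Γ tm.k₁) := Finite.of_equiv _ eout.symm
  let G : Set (Σ k, tm.Γ k) := (⋃ l, pushes (tm.m l)) ∪
    (Set.range (Sigma.mk tm.k₀) ∪ Set.range (Sigma.mk tm.k₁))
  have hG : G.Finite := (Set.finite_iUnion fun l => pushes_finite _).union
    ((Set.finite_range _).union (Set.finite_range _))
  have hfin := good_finite tm.m hG
  have hfin1 : {q : Ctl tm.Γ tm.Λ tm.σ | GoodS tm.m G q.1}.Finite :=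
    (hfin.image Prod.fst).subset fun q hq =>
      ⟨(q, fun _ => none, fun _ => none), ⟨hq, fun _ _ h => by simp at h,
        fun _ _ h => by simp at h⟩, rfl⟩
  have hfin2 : {d : Ctl tm.Γ tm.Λ tm.σ × Col tm.Γ | GoodS tm.m G d.1.1 ∧ GoodC G d.2}.Finite :=
    (hfin.image fun d => (d.1, d.2.1)).subset fun d hd =>
      ⟨(d.1, d.2, d.2), ⟨hd.1, hd.2, hd.2⟩, rfl⟩
  obtain ⟨cc, hcc⟩ := Set.countable_iff_exists_injOn.1 hfin1.countable
  obtain ⟨cs, hcs⟩ := Set.countable_iff_exists_injOn.1 hG.countable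
  obtain ⟨C₁, hC₁⟩ := (hfin1.image cc).bddAbove
  obtain ⟨C₂, hC₂⟩ := (hG.image cs).bddAbove
  let ks : List tm.K := Finset.univ.toList
  let n := ks.length
  let κ : ℕ → tm.K := fun i => ks.getD i tm.k₀
  have hκ : ∀ k, ∃ i < n, κ i = k := by
    intro k
    obtain ⟨i, hi, e⟩ := List.getElem_of_mem (show k ∈ ks by simp [ks])
    exact ⟨i, hi, by simp only [κ, List.getD_eq_getElem _ _ hi, e]⟩
  obtain ⟨t, ht, hte⟩ := tm_table (0, []) (keyC n κ cc cs) (outC n κ cc cs tm.m) _ hfin2
    (keyC_inj n κ cc cs hκ tm.m G hcc hcs)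
  let c : List Bool → MC tm.Γ tm.Λ tm.σ := fun w => conv tm.m (initList tm (w.map ein.symm))
  have hc2 : ∀ w k, k ≠ tm.k₀ → (c w).2 k = [] := fun w k hk => dif_neg hk
  have hc3 : ∀ w, (c w).2 tm.k₀ = w.map ein.symm := fun w => dif_pos rfl
  have hgood := fun w => good_run tm.m G
    (fun l => (Set.subset_iUnion (fun l => pushes (tm.m l)) l).trans Set.subset_union_left)
    (c w) (by
      rintro _ ⟨⟩
      exact ⟨⟨_, stmts₁_self⟩,
        (Set.subset_iUnion (fun l => pushes (tm.m l)) _).trans Set.subset_union_left⟩)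
    (fun k z hz => by
      by_cases hk : k = tm.k₀
      · subst hk; exact Or.inr (Or.inl ⟨z, rfl⟩)
      · rw [hc2 w k hk] at hz; simp at hz)
  have hrun : ∀ w j, (stepN n t)^[j] (codeC n κ cc cs (c w)) =
      codeC n κ cc cs ((mstep tm.m)^[j] (c w)) := by
    intro w j
    induction j with
    | zero => rfl
    | succ j ih =>
      rw [iterate_succ_apply', iterate_succ_apply', ih]
      exact stepN_code n κ cc cs tm.m t _ (hte _ ⟨(hgood w j).1,
        fun k z hz => (hgood w j).2 k z (List.mem_of_mem_head? hz)⟩)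
  let D := Finset.univ.sup fun l => depth (tm.m l)
  let N : List Bool → ℕ := fun w => D * time.eval w.length
  have hN : PT N := (PT.const D).mul (PT_eval (by fun_prop) time)
  have hinit : PT fun w => codeC n κ cc cs (c w) := by
    refine (PT.const (cc (some (tm.m tm.main), tm.initialState))).pair (tm_mapConst _ fun i => ?_)
    by_cases hk : κ i = tm.k₀
    · have key : ∀ k, k = tm.k₀ → PT fun w => ((c w).2 k).map fun x => cs ⟨k, x⟩ + 1 := by
        rintro k rfl
        refine PT.of_eq (f := fun w : List Bool => w.map fun b =>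
          cond b (cs ⟨_, ein.symm true⟩ + 1) (cs ⟨_, ein.symm false⟩ + 1)) (by fun_prop)
          fun w => ?_
        rw [hc3, List.map_map]
        exact List.map_congr_left fun b _ => by cases b <;> rfl
      exact key _ hk
    · exact (PT.const []).of_eq fun w => by rw [hc2 w _ hk]; rfl
  have hlen : ∀ w k, ((c w).2 k).length ≤ w.length := by
    intro w k
    by_cases hk : k = tm.k₀
    · subst hk; rw [hc3, List.length_map]
    · rw [hc2 w k hk]; exact Nat.zero_le _
  have hiter : PT fun w => (stepN n t)^[N w] (codeC n κ cc cs (c w)) := by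
    refine PT.iterate (f := fun _ => stepN n t) ((PT_stepN n ht).comp (by fun_prop)) hN hinit
      (fun w => 2 * C₁ + (n * (2 * ((w.length + N w) * (2 * (C₂ + 1) + 2) + 1) + 2) + 1) + 1)
      (PT.bdNat (by fun_prop)) fun w j hj => ?_
    rw [hrun, codeC, sz_pair, sz_nat]
    have h1 : cc ((mstep tm.m)^[j] (c w)).1 ≤ C₁ := hC₁ ⟨_, (hgood w j).1, rfl⟩
    have h2 := sz_list_le ((List.range n).map fun i =>
      (((mstep tm.m)^[j] (c w)).2 (κ i)).map fun x => cs ⟨κ i, x⟩ + 1)
      ((w.length + N w) * (2 * (C₂ + 1) + 2) + 1) (fun l hl => by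
        obtain ⟨i, -, rfl⟩ := List.mem_map.1 hl
        refine (sz_list_le _ (C₂ + 1) fun a ha => ?_).trans ?_
        · obtain ⟨x, hx, rfl⟩ := List.mem_map.1 ha
          rw [sz_nat]
          exact Nat.succ_le_succ (hC₂ ⟨_, (hgood w j).2 _ x hx, rfl⟩)
        · rw [List.length_map]
          have := length_run tm.m (c w) j (κ i)
          have := hlen w (κ i)
          exact Nat.succ_le_succ (Nat.mul_le_mul_right _ (by omega)))
    rw [List.length_map, List.length_range] at h2
    omega
  obtain ⟨i₁, hi₁, hk₁⟩ := hκ tm.k₁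
  let F : List Bool → List Bool := fun w =>
    (((stepN n t)^[N w] (codeC n κ cc cs (c w))).2.getD i₁ []).map fun x =>
      decide (x = cs ⟨_, eout.symm true⟩ + 1)
  have hF : PT F :=
    (hiter.snd.getD (PT.const i₁) (PT.const [])).map
      (g := fun _ x => decide (x = cs ⟨_, eout.symm true⟩ + 1)) (by fun_prop)
  have hFe : ∀ a, F (ea a) = eb (f a) := by
    intro a
    obtain ⟨⟨m, hm⟩, hm'⟩ := hT a
    dsimp only at hm'
    obtain ⟨d, hd, e1⟩ := sim_run tm.m D (fun l => Finset.le_sup (f := fun l => depth (tm.m l))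
      (Finset.mem_univ l)) m _ _ hm
    have e2 := run_halt tm.m e1 rfl (N := N (ea a)) (hd.trans (Nat.mul_le_mul_left _ hm'))
    have e3 : (mstep tm.m)^[N (ea a)] (c (ea a)) = _ := e2
    have e4 : ((mstep tm.m)^[N (ea a)] (c (ea a))).2 tm.k₁ = (eb (f a)).map eout.symm := by
      rw [e3]
      exact (dif_pos rfl : (haltList tm _).stk tm.k₁ = _)
    have key : ∀ k, k = tm.k₁ → ((((mstep tm.m)^[N (ea a)] (c (ea a))).2 k).map
        fun x => cs ⟨k, x⟩ + 1) = (eb (f a)).map fun b => cs ⟨_, eout.symm b⟩ + 1 := by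
      rintro k rfl
      rw [e4, List.map_map]; rfl
    simp only [F]
    rw [hrun, codeC, getD_map_range n _ hi₁, key _ hk₁, List.map_map]
    conv_rhs => rw [← List.map_id (eb (f a))]
    refine List.map_congr_left fun b _ => ?_
    cases b
    · have : cs ⟨_, eout.symm false⟩ ≠ cs ⟨_, eout.symm true⟩ := fun h => by
        have := hcs (Or.inr (Or.inr ⟨_, rfl⟩)) (Or.inr (Or.inr ⟨_, rfl⟩)) h
        simp at this
      simp [this]
    · simp
  exact (Rl.reindex (PT_toRaw.comp (hF.comp PT_ofRaw)) fun a => Raw.mk (ea a)).congr hFe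

end Pool.Agent.P.MP_2989a6_lc
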