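import Pool.Agent.P.MP_2989a6_lc.FrameNo
import Pool.Agent.P.MP_2989a6_lc.FrameYes
import Pool.Agent.P.MP_2989a6_lc.Code
import Pool.Agent.P.MP_2989a6_lc.Cmp
import Pool.Agent.P.MP_2989a6_lc.Etr
import Pool.Agent.P.MP_2989a6_lc.TM

/-! Assembly of the reduction. -/

namespace Pool.Agent.P.MP_2989a6_lc

open Pool.Agent.Lib.helper21 Enc

theorem shp_ne (g : Fin 3 ⊕ (Fin 313 ⊕ Unit)) : ∀ e ∈ shp g, e.1 ≠ e.2 := by
  rcases g with k | n | u
  · exact fun e h k' => ce_ne (.inr (.inl k)) e h e h k' k'.symm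
  · exact fun e h k' => ce_ne (.inl n) e h e h k' k'.symm
  · intro e h
    simp only [shp, List.mem_cons, List.not_mem_nil, or_false] at h
    rcases h with rfl | rfl | rfl | rfl | rfl <;> simp

theorem exists_frame : Nonempty Frame := by
  obtain ⟨k₁, h₁, h⟩ := frame_sound
  obtain ⟨k₃, h₃, g⟩ := greedy 21 bigC (Fin 3) (Fin 313 ⊕ Unit) shp shp_ne k₁ h₁
  obtain ⟨k₂, h₂, h⟩ := h k₃ h₃
  obtain ⟨s, N, M, it, hs, hsN, hd, a, b⟩ := g k₂ h₂
  have hN : 0 < N := hs.trans_le hsN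
  obtain ⟨π, hπ, hc⟩ := frame_complete it hd hN
  refine ⟨⟨FV N M, FT N M, FT N M × Bool, Fin M, fpre it π hd hN, fatt, fun _ _ => rfl, fctr it,
    ?_, h s N M it π hd hN hs hsN a b hπ, hc⟩⟩
  rintro u k ⟨t, c⟩ e
  have e : fhv (t, c) = fctr it u k := e
  cases c
  · simp [fhv, fctr, vx] at e
  · rcases t with _ | ⟨l, i⟩ | _ <;> simp only [fhv, fctr, vx, inn, if_true, reduceCtorEq] at e
    exact (by decide : ∀ (k : Fin 4) (l : Fin 3), oc l ≠ ![9, 10, 11, 12] k) k l (FV.cl.inj e).1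

theorem lst_eq {α : Type} (e : α → List Bool) (l : List α) : lst e l = listW e l := by
  induction l with
  | nil => rfl
  | cons a l ih => rw [lst, listW, ih]; rfl

theorem code_eq (a : Fm) : a.code = enc (btok a) := by
  rw [Fm.code, btok, lst_eq]
  show _ = listW enc _
  induction a.tok with
  | nil => rfl
  | cons t l ih => rw [List.map_cons, listW, listW, ih]; rfl

theorem inst_code_eq (I : Inst) : I.code = enc I := by
  rw [Inst.code, lst_eq, show (lst fun e : ℕ × ℕ => pr (un e.1) (un e.2)) = listW enc from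
    funext fun l => lst_eq _ l]
  rfl

theorem hard (L : List Bool → Prop) (f : List Bool → Fm)
    (hf : Nonempty (Turing.TM2ComputableInPolyTime id Fm.code f)) (hL : ∀ x, L x ↔ ETR (f x)) :
    ∃ g : List Bool → Inst, Nonempty (Turing.TM2ComputableInPolyTime id Inst.code g) ∧
      ∀ x, Valid (g x) ∧ (L x ↔ Yes (g x)) := by
  obtain ⟨F⟩ := exists_frame
  obtain ⟨A, hA, a⟩ := etr_to_eqs
  obtain ⟨B, hB, b⟩ := eqs_to_cmp
  obtain ⟨C, hC, c⟩ := cmp_to_sge F
  refine ⟨fun x => C (B (A (btok (f x)))), Rl.toTM2 ?_, fun x => ⟨(c _).1, ?_⟩⟩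
  · exact (((rl_of_tm2 hf).congr fun x => code_eq (f x)).comp
      (Rl.reindex (hC.comp (hB.comp hA)) fun x => btok (f x))).congr fun x =>
        (inst_code_eq _).symm
  · rw [hL, (c _).2]
    exact ⟨fun h => (b _).1 ((a _).1 h), fun h => (a _).2 ((b _).2 h)⟩

end Pool.Agent.P.MP_2989a6_lc
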