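import Pool.Agent.P.MP_2989a6_lc.Geo2

/-! Resolving edges between two hubs that two trees want to use. -/

namespace Pool.Agent.P.MP_2989a6_lc

open Classical

/-- A family of spanning trees given by parent maps. -/
structure Sys (V T : Type) where
  par : T → V → V
  root : T → V
  dep : T → V → ℕ
  dep_lt : ∀ t v, v ≠ root t → dep t (par t v) < dep t v
  d1 : ∀ t t' v, v ≠ root t → v ≠ root t' → par t v = par t' v → t = t'

/-- No edge is used by two trees in opposite directions. -/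
def Sys.D2 {V T : Type} (S : Sys V T) : Prop :=
  ∀ t t' v, v ≠ S.root t → S.par t v ≠ S.root t' → S.par t' (S.par t v) ≠ v

/-- A family in which only edges between two hubs are used twice. -/
structure Pre (W T H : Type) extends Sys W T where
  hv : H → W
  ht : H → T
  rk : H → ℕ
  w0 : W
  hv_inj : Function.Injective hv
  rk_inj : Function.Injective rk
  w0_ne : ∀ h, hv h ≠ w0
  leaf : ∀ t h, ht h ≠ t → hv h ≠ root t ∧ ∀ v, v ≠ root t → par t v ≠ hv h
  d2 : ∀ t t' v, v ≠ root t → par t v ≠ root t' → par t' (par t v) = v →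
    (∃ h, hv h = v) ∧ ∃ h, hv h = par t v

namespace Pre

variable {W T H : Type} (S : Pre W T H)

/-- The trees of `a` and `b` both use the edge between these hubs, and `b` keeps it. -/
def act (a b : H) : Prop :=
  S.ht a ≠ S.ht b ∧ S.par (S.ht a) (S.hv b) = S.hv a ∧ S.par (S.ht b) (S.hv a) = S.hv b ∧
    S.rk b < S.rk a

/-- The edge from `v` to its parent survives in tree `t`. -/
def Keep (t : T) (v : W) : Prop := ¬ ∃ a b, S.act a b ∧ S.ht a = t ∧ S.hv b = v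

noncomputable def rpar (t : T) : W ⊕ H × H × Bool → W ⊕ H × H × Bool
  | .inl v => if h : ∃ p : H × H, S.act p.1 p.2 ∧ S.ht p.1 = t ∧ S.hv p.2 = v then
      .inr (h.choose.1, h.choose.2, true) else .inl (S.par t v)
  | .inr (a, b, c) => if S.ht a = t then .inl (S.hv a) else
      if S.act a b ∧ S.ht b = t ∧ c = true then .inr (a, b, false) else .inl (S.par t (S.hv a))

theorem rpar_act {a b : H} (h : S.act a b) :
    S.rpar (S.ht a) (.inl (S.hv b)) = .inr (a, b, true) := by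
  have hex : ∃ p : H × H, S.act p.1 p.2 ∧ S.ht p.1 = S.ht a ∧ S.hv p.2 = S.hv b :=
    ⟨(a, b), h, rfl, rfl⟩
  simp only [rpar, dif_pos hex]
  obtain ⟨h1, h2, h3⟩ := hex.choose_spec
  have e2 : hex.choose.2 = b := S.hv_inj h3
  have e1 : hex.choose.1 = a := by
    apply S.hv_inj
    rw [← h1.2.1, h2, h3, h.2.1]
  rw [e1, e2]

theorem rpar_keep {t : T} {v : W} (h : S.Keep t v) : S.rpar t (.inl v) = .inl (S.par t v) := by
  have hex : ¬ ∃ p : H × H, S.act p.1 p.2 ∧ S.ht p.1 = t ∧ S.hv p.2 = v :=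
    fun ⟨p, hp⟩ => h ⟨p.1, p.2, hp⟩
  simp only [rpar, dif_neg hex]

/-- The five kinds of edges of a resolved tree. -/
inductive Ed (t : T) : W ⊕ H × H × Bool → W ⊕ H × H × Bool → Prop
  | e1 (v : W) : v ≠ S.root t → S.Keep t v → Ed t (.inl v) (.inl (S.par t v))
  | e2 (a b : H) : S.act a b → S.ht a = t → Ed t (.inl (S.hv b)) (.inr (a, b, true))
  | e3 (a b : H) (c : Bool) : S.ht a = t → Ed t (.inr (a, b, c)) (.inl (S.hv a))
  | e4 (a b : H) : S.act a b → S.ht b = t → Ed t (.inr (a, b, true)) (.inr (a, b, false))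
  | e5 (a b : H) (c : Bool) : S.ht a ≠ t → ¬ (S.act a b ∧ S.ht b = t ∧ c = true) →
      Ed t (.inr (a, b, c)) (.inl (S.par t (S.hv a)))

theorem ed (t : T) (u : W ⊕ H × H × Bool) (hu : u ≠ .inl (S.root t)) :
    S.Ed t u (S.rpar t u) := by
  rcases u with v | ⟨a, b, c⟩
  · by_cases k : S.Keep t v
    · rw [S.rpar_keep k]
      exact Ed.e1 v (fun e => hu (by rw [e])) k
    · obtain ⟨a, b, h, rfl, rfl⟩ := not_not.1 k
      rw [S.rpar_act h]
      exact Ed.e2 a b h rfl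
  · by_cases k : S.ht a = t
    · simp only [rpar, if_pos k]
      exact Ed.e3 a b c k
    · by_cases k2 : S.act a b ∧ S.ht b = t ∧ c = true
      · simp only [rpar, if_neg k, if_pos k2]
        obtain ⟨h1, h2, rfl⟩ := k2
        exact Ed.e4 a b h1 h2
      · simp only [rpar, if_neg k, if_neg k2]
        exact Ed.e5 a b c k k2

theorem par_ne {t : T} {v : W} (h : v ≠ S.root t) : S.par t v ≠ v := fun e => by
  have := S.dep_lt t v h
  rw [e] at this
  exact lt_irrefl _ this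

theorem ht_of_par {t : T} {v : W} {a : H} (h : v ≠ S.root t) (e : S.par t v = S.hv a) :
    S.ht a = t := by
  by_contra k
  exact (S.leaf t a k).2 v h e

theorem act.ne {S : Pre W T H} {a b : H} (h : S.act a b) : S.hv a ≠ S.hv b := fun e =>
  h.1 (by rw [S.hv_inj e])

theorem act.asymm {S : Pre W T H} {a b : H} (h : S.act a b) : ¬ S.act b a := fun k =>
  lt_asymm h.2.2.2 k.2.2.2

theorem Ed.dep_lt {S : Pre W T H} {t : T} {u u' : W ⊕ H × H × Bool} (h : S.Ed t u u') :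
    (Sum.elim (fun v => 3 * S.dep t v) (fun p => 3 * S.dep t (S.hv p.1) + 1 + p.2.2.toNat) u' : ℕ) <
      Sum.elim (fun v => 3 * S.dep t v) (fun p => 3 * S.dep t (S.hv p.1) + 1 + p.2.2.toNat) u := by
  rcases h with ⟨v, h1, -⟩ | ⟨a, b, h1, rfl⟩ | ⟨a, b, c, -⟩ | ⟨a, b, -, -⟩ | ⟨a, b, c, h1, -⟩
  · have := S.dep_lt t v h1
    simp only [Sum.elim_inl]
    omega
  · have := S.dep_lt _ _ (S.leaf _ b h1.1.symm).1
    rw [h1.2.1] at this
    simp only [Sum.elim_inl, Sum.elim_inr, Bool.toNat_true]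
    omega
  · simp only [Sum.elim_inl, Sum.elim_inr]
    omega
  · simp
  · have := S.dep_lt _ _ (S.leaf _ a h1).1
    simp only [Sum.elim_inl, Sum.elim_inr]
    omega

theorem Ed.d1 {S : Pre W T H} {t t' : T} {u u' w w' : W ⊕ H × H × Bool} (h : S.Ed t u u')
    (h' : S.Ed t' w w') (e : u = w) (e' : u' = w') : t = t' := by
  rcases h with ⟨v, h1, h2⟩ | ⟨a, b, h1, h2⟩ | ⟨a, b, c, h1⟩ | ⟨a, b, h1, h2⟩ | ⟨a, b, c, h1, h2⟩ <;>
  rcases h' with ⟨v', k1, k2⟩ | ⟨a', b', k1, k2⟩ | ⟨a', b', c', k1⟩ | ⟨a', b', k1, k2⟩ |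
    ⟨a', b', c', k1, k2⟩ <;>
  simp only [Sum.inl.injEq, Sum.inr.injEq, Prod.mk.injEq, reduceCtorEq] at e e'
  · subst e
    exact S.d1 t t' v h1 k1 e'
  · rw [← h2, ← k2, e'.1]
  · rw [← h1, ← k1, e.1]
  · obtain ⟨rfl, -⟩ := e
    exact (S.par_ne (S.leaf _ _ k1).1 e'.symm).elim
  · rw [← h2, ← k2, e.2.1]
  · obtain ⟨rfl, -⟩ := e
    exact (S.par_ne (S.leaf _ _ h1).1 e').elim
  · obtain ⟨rfl, -⟩ := e
    exact S.d1 t t' _ (S.leaf _ _ h1).1 (S.leaf _ _ k1).1 e'

theorem Ed.d2 {S : Pre W T H} {t t' : T} {u u' w w' : W ⊕ H × H × Bool} (h : S.Ed t u u')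
    (h' : S.Ed t' w w') (e : u' = w) (e' : w' = u) : False := by
  rcases h with ⟨v, h1, h2⟩ | ⟨a, b, h1, h2⟩ | ⟨a, b, c, h1⟩ | ⟨a, b, h1, h2⟩ | ⟨a, b, c, h1, h2⟩ <;>
  rcases h' with ⟨v', k1, k2⟩ | ⟨a', b', k1, k2⟩ | ⟨a', b', c', k1⟩ | ⟨a', b', k1, k2⟩ |
    ⟨a', b', c', k1, k2⟩ <;>
  simp only [Sum.inl.injEq, Sum.inr.injEq, Prod.mk.injEq, reduceCtorEq, and_false] at e e'
  · subst e
    obtain ⟨⟨b, hb⟩, a, ha⟩ := S.d2 t t' v h1 k1 e'
    have ta : S.ht a = t := S.ht_of_par h1 ha.symm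
    have tb : S.ht b = t' := S.ht_of_par k1 (e'.trans hb.symm)
    have hne : S.ht a ≠ S.ht b := by
      intro k
      have q1 := S.dep_lt t v h1
      have q2 := S.dep_lt t' _ k1
      rw [e', ← tb, ← k, ta] at q2
      exact lt_asymm q1 q2
    have p1 : S.par (S.ht a) (S.hv b) = S.hv a := by rw [ta, hb, ha]
    have p2 : S.par (S.ht b) (S.hv a) = S.hv b := by rw [tb, hb, ha, e']
    rcases lt_trichotomy (S.rk a) (S.rk b) with q | q | q
    · exact k2 ⟨b, a, ⟨hne.symm, p2, p1, q⟩, tb, ha⟩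
    · exact hne (by rw [S.rk_inj q])
    · exact h2 ⟨a, b, ⟨hne, p1, p2, q⟩, ta, hb⟩
  · obtain ⟨rfl, -⟩ := e
    exact h1.ne e'
  · obtain ⟨rfl, rfl, rfl⟩ := e
    exact k2 ⟨h1, S.ht_of_par (S.leaf _ _ k1).1 e', rfl⟩
  · obtain ⟨rfl, rfl, -⟩ := e'
    exact k1.ne e
  · obtain ⟨rfl, rfl, rfl⟩ := e'
    exact h2 ⟨k1, S.ht_of_par (S.leaf _ _ h1).1 e, rfl⟩

/-- The resolved family. -/
noncomputable def res : Sys (W ⊕ H × H × Bool) T where
  par := S.rpar
  root t := .inl (S.root t)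
  dep t := Sum.elim (fun v => 3 * S.dep t v) fun p => 3 * S.dep t (S.hv p.1) + 1 + p.2.2.toNat
  dep_lt t u hu := (S.ed t u hu).dep_lt
  d1 t t' u hu hu' e := (S.ed t u hu).d1 (S.ed t' u hu') rfl e

theorem res_d2 : S.res.D2 := fun t t' u hu hu' e =>
  (S.ed t u hu).d2 (S.ed t' _ hu') rfl e

theorem res_no {P : W ⊕ H × H × Bool → Pt}
    (h : ∀ t, Plane (S.res.par t) (S.res.root t) (fun _ => True) P) (t : T) :
    Plane (S.par t) (S.root t) (S.Keep t) fun v => P (.inl v) := by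
  intro v w hv hw kv kw h1 h2 h3 h4
  have e1 : S.res.par t (.inl v) = .inl (S.par t v) := S.rpar_keep kv
  have e2 : S.res.par t (.inl w) = .inl (S.par t w) := S.rpar_keep kw
  have := h t (.inl v) (.inl w) (fun e => hv (Sum.inl.inj e)) (fun e => hw (Sum.inl.inj e))
    trivial trivial (fun e => h1 (Sum.inl.inj e)) (by rw [e2]; exact fun e => h2 (Sum.inl.inj e))
    (by rw [e1]; exact fun e => h3 (Sum.inl.inj e))
    (by rw [e1, e2]; exact fun e => h4 (Sum.inl.inj e))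
  rwa [e1, e2] at this

section geo

open Filter Topology

/-- The direction in which a clone is moved. -/
noncomputable def tg (a b : H) : W := if S.act a b then S.hv b else S.w0

/-- The old vertex near a new one. -/
def pr : W ⊕ H × H × Bool → W
  | .inl v => v
  | .inr p => S.hv p.1

noncomputable def ka (c : Bool) : ℝ := if c then 1 else 1 / 2

theorem ka_pos (c : Bool) : 0 < ka c := by cases c <;> norm_num [ka]

/-- The perturbed drawing. -/
noncomputable def QQ (P : W → Pt) (ε δ : ℝ) : W ⊕ H × H × Bool → Pt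
  | .inl v => P v
  | .inr p => P (S.hv p.1) + (ε * ka p.2.2) • (P (S.tg p.1 p.2.1) - P (S.hv p.1)) +
      δ • (-(P (S.tg p.1 p.2.1) - P (S.hv p.1)).2, (P (S.tg p.1 p.2.1) - P (S.hv p.1)).1)

theorem tg_act {a b : H} (h : S.act a b) : S.tg a b = S.hv b := if_pos h

theorem tg_ne {a b b' : H} (h : S.act a b' → b' ≠ b) : S.tg a b' ≠ S.hv b := by
  unfold tg
  split_ifs with k
  · exact fun e => h k (S.hv_inj e)
  · exact (S.w0_ne b).symm

theorem tg_ne_self (a b : H) : S.tg a b ≠ S.hv a :=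
  S.tg_ne fun k e => k.1 (by rw [e])

variable {P : W → Pt}

theorem QQ_inl (ε δ : ℝ) (v : W) : S.QQ P ε δ (.inl v) = P v := rfl

theorem QQ_zero (ε : ℝ) (a b : H) (c : Bool) : S.QQ P ε 0 (.inr (a, b, c)) =
    P (S.hv a) + (ε * ka c) • (P (S.tg a b) - P (S.hv a)) := by
  simp [QQ]

theorem QQ_tendsto (u : W ⊕ H × H × Bool) :
    Tendsto (fun ε => S.QQ P ε 0 u) (𝓝[>] 0) (𝓝 (P (S.pr u))) := by
  rcases u with v | ⟨a, b, c⟩
  · exact tendsto_const_nhds
  · simp only [QQ_zero]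
    have : Continuous fun ε : ℝ =>
        P (S.hv a) + (ε * ka c) • (P (S.tg a b) - P (S.hv a)) := by fun_prop
    have h := (this.tendsto 0).mono_left (nhdsWithin_le_nhds (s := Set.Ioi 0))
    simpa [pr] using h

theorem QQ_tendsto' (ε : ℝ) (u : W ⊕ H × H × Bool) :
    Tendsto (fun δ => S.QQ P ε δ u) (𝓝[≠] 0) (𝓝 (S.QQ P ε 0 u)) := by
  have : Continuous fun δ : ℝ => S.QQ P ε δ u := by
    rcases u with v | ⟨a, b, c⟩
    · exact continuous_const
    · simp only [QQ]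
      fun_prop
  exact (this.tendsto 0).mono_left nhdsWithin_le_nhds

/-- The two segments are disjoint after a small perturbation. -/
def CC (P : W → Pt) (u u' w w' : W ⊕ H × H × Bool) : Prop :=
  ∀ᶠ ε in 𝓝[>] (0 : ℝ), ∀ᶠ δ in 𝓝[≠] (0 : ℝ),
    Dj (S.QQ P ε δ u) (S.QQ P ε δ u') (S.QQ P ε δ w) (S.QQ P ε δ w')

variable {S}

theorem CC.symm {u u' w w' : W ⊕ H × H × Bool} (h : S.CC P u u' w w') : S.CC P w w' u u' :=
  h.mono fun _ k => k.mono fun _ k => k.symm

theorem CC.swap' {u u' w w' : W ⊕ H × H × Bool} (h : S.CC P u u' w w') : S.CC P u u' w' w :=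
  h.mono fun _ k => k.mono fun _ k => k.swap'

theorem CC.of_zero {u u' w w' : W ⊕ H × H × Bool}
    (h : ∀ᶠ ε in 𝓝[>] (0 : ℝ),
      Dj (S.QQ P ε 0 u) (S.QQ P ε 0 u') (S.QQ P ε 0 w) (S.QQ P ε 0 w')) : S.CC P u u' w w' :=
  h.mono fun ε k => k.eventually (S.QQ_tendsto' ε u) (S.QQ_tendsto' ε u') (S.QQ_tendsto' ε w)
    (S.QQ_tendsto' ε w')

theorem Ed.pr_cases {t : T} {u u' : W ⊕ H × H × Bool} (h : S.Ed t u u') :
    S.pr u' = S.pr u ∨ S.pr u ≠ S.root t ∧ S.pr u' = S.par t (S.pr u) := by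
  rcases h with ⟨v, h1, -⟩ | ⟨a, b, h1, rfl⟩ | ⟨a, b, c, -⟩ | ⟨a, b, -, -⟩ | ⟨a, b, c, h1, -⟩
  · exact Or.inr ⟨h1, rfl⟩
  · exact Or.inr ⟨(S.leaf _ b h1.1.symm).1, h1.2.1.symm⟩
  · exact Or.inl rfl
  · exact Or.inl rfl
  · exact Or.inr ⟨(S.leaf _ a h1).1, rfl⟩

theorem cc_far (hP : GP P) {t : T} (h : Plane (S.par t) (S.root t) (fun _ => True) P)
    {u u' w w' : W ⊕ H × H × Bool} (hu : S.Ed t u u') (hw : S.Ed t w w')
    (h1 : S.pr u ≠ S.pr w) (h2 : S.pr u ≠ S.pr w') (h3 : S.pr u' ≠ S.pr w)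
    (h4 : S.pr u' ≠ S.pr w') : S.CC P u u' w w' := by
  have key : Dj (P (S.pr u)) (P (S.pr u')) (P (S.pr w)) (P (S.pr w')) := by
    rcases hu.pr_cases with a | ⟨a, a'⟩ <;> rcases hw.pr_cases with b | ⟨b, b'⟩
    · rw [a, b]
      unfold Dj
      rw [segment_same, segment_same, Set.disjoint_singleton]
      exact fun e => hP.1 _ _ h1 (congrArg Prod.fst e)
    · rw [a]
      exact Dj.of_point (hP.2 _ _ _ (by rw [b']; exact (S.par_ne b).symm) h1.symm h2.symm)
    · rw [b]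
      exact (Dj.of_point (hP.2 _ _ _ (by rw [a']; exact (S.par_ne a).symm) h1 h3)).symm
    · rw [a'] at h3 h4
      rw [b'] at h2 h4
      rw [a', b']
      exact h _ _ a b trivial trivial h1 h2 h3 h4
  exact CC.of_zero (key.eventually (S.QQ_tendsto u) (S.QQ_tendsto u') (S.QQ_tendsto w)
    (S.QQ_tendsto w'))

/-- The vertex `z` stays off the line through `x` and `y`. -/
def Off (S : Pre W T H) (P : W → Pt) (x y : W) (z : W ⊕ H × H × Bool) : Prop :=
  ∀ᶠ ε in 𝓝[>] (0 : ℝ), det (P x) (P y) (S.QQ P ε 0 z) ≠ 0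

theorem off_far (hP : GP P) {x y : W} {z : W ⊕ H × H × Bool} (h : x ≠ y) (h1 : x ≠ S.pr z)
    (h2 : y ≠ S.pr z) : S.Off P x y z := by
  have hc : Continuous fun q : Pt => det (P x) (P y) q := by unfold det; fun_prop
  exact ((hc.tendsto _).comp (S.QQ_tendsto z)).eventually_ne (hP.2 _ _ _ h h1 h2)

theorem off_left (hP : GP P) {a b : H} {c : Bool} {y : W} (h : S.hv a ≠ y) (h2 : S.tg a b ≠ y) :
    S.Off P (S.hv a) y (.inr (a, b, c)) := by
  filter_upwards [self_mem_nhdsWithin] with ε hε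
  have hε : 0 < ε := hε
  have : det (P (S.hv a)) (P y) (S.QQ P ε 0 (.inr (a, b, c))) =
      ε * ka c * det (P (S.hv a)) (P y) (P (S.tg a b)) := by
    rw [QQ_zero]
    simp [det]
    ring
  rw [this]
  exact mul_ne_zero (mul_pos hε (ka_pos c)).ne' (hP.2 _ _ _ h (S.tg_ne_self a b).symm h2.symm)

theorem off_right (hP : GP P) {a b : H} {c : Bool} {x : W} (h : x ≠ S.hv a) (h2 : S.tg a b ≠ x) :
    S.Off P x (S.hv a) (.inr (a, b, c)) := by
  filter_upwards [self_mem_nhdsWithin] with ε hε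
  have hε : 0 < ε := hε
  have : det (P x) (P (S.hv a)) (S.QQ P ε 0 (.inr (a, b, c))) =
      ε * ka c * det (P x) (P (S.hv a)) (P (S.tg a b)) := by
    rw [QQ_zero]
    simp [det]
    ring
  rw [this]
  exact mul_ne_zero (mul_pos hε (ka_pos c)).ne' (hP.2 _ _ _ h h2.symm (S.tg_ne_self a b).symm)

theorem cc_g1 {a b : H} (h : S.act a b) {z : W ⊕ H × H × Bool}
    (hz : S.Off P (S.hv a) (S.hv b) z) :
    S.CC P (.inl (S.hv b)) (.inr (a, b, true)) (.inl (S.hv a)) z := by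
  refine CC.of_zero ?_
  filter_upwards [hz, self_mem_nhdsWithin] with ε k hε
  have hε : 0 < ε := hε
  have := Dj.of_line (s := 1) (t := ε) (r := 0) k (Or.inl ⟨one_pos, hε⟩)
  simpa [QQ_zero, QQ_inl, S.tg_act h, ka] using this

theorem cc_g2 (hP : GP P) {a b b' : H} (h : S.act a b) (h' : S.act a b') (hb : b ≠ b') :
    S.CC P (.inl (S.hv b)) (.inr (a, b, true)) (.inl (S.hv b')) (.inr (a, b', true)) := by
  refine CC.of_zero ?_
  filter_upwards [self_mem_nhdsWithin] with ε hε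
  have hε : 0 < ε := hε
  have k := mul_self_pos.2 (hP.2 _ _ _ h'.ne h.ne (fun e => hb (S.hv_inj e).symm))
  simp only [QQ_zero, QQ_inl, S.tg_act h, S.tg_act h']
  refine Dj.of_sep (P (S.hv a)) (P (S.hv b')) (det (P (S.hv a)) (P (S.hv b')) (P (S.hv b))) k
    ?_ ?_ ?_
  · have : det (P (S.hv a)) (P (S.hv b'))
        (P (S.hv a) + (ε * ka true) • (P (S.hv b) - P (S.hv a))) =
        ε * det (P (S.hv a)) (P (S.hv b')) (P (S.hv b)) := by
      simp [det, ka]
      ring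
    rw [this, mul_left_comm]
    exact mul_pos hε k
  · have : det (P (S.hv a)) (P (S.hv b')) (P (S.hv b')) = 0 := by
      simp [det]
      ring
    rw [this, mul_zero]
  · have : det (P (S.hv a)) (P (S.hv b'))
        (P (S.hv a) + (ε * ka true) • (P (S.hv b') - P (S.hv a))) = 0 := by
      simp [det]
      ring
    rw [this, mul_zero]

theorem cc_g3 (hP : GP P) {a b : H} (h : S.act a b) :
    S.CC P (.inl (S.hv b)) (.inr (a, b, true)) (.inl (S.hv a)) (.inr (a, b, false)) := by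
  refine CC.of_zero ?_
  filter_upwards [self_mem_nhdsWithin, mem_nhdsWithin_of_mem_nhds (gt_mem_nhds one_pos)]
    with ε hε h1
  have hε : 0 < ε := hε
  have h1 : ε < 1 := h1
  have hpq : P (S.hv a) ≠ P (S.hv b) := fun e => hP.1 _ _ h.ne (congrArg Prod.fst e)
  have := (Dj.of_coll (s := 0) (t := ε * (1 / 2)) (r := 1) (u := ε) hpq one_pos hε
    (by linarith) (by linarith)).symm
  simpa [QQ_zero, QQ_inl, S.tg_act h, ka] using this

theorem cc_g4 {a b : H} (h : S.act a b) {z : W ⊕ H × H × Bool}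
    (hz : S.Off P (S.hv a) (S.hv b) z) :
    S.CC P (.inr (a, b, true)) (.inr (a, b, false)) (.inl (S.hv b)) z := by
  refine CC.of_zero ?_
  filter_upwards [hz, self_mem_nhdsWithin, mem_nhdsWithin_of_mem_nhds (gt_mem_nhds one_pos)]
    with ε k hε h1
  have hε : 0 < ε := hε
  have h1 : ε < 1 := h1
  have := Dj.of_line (s := ε) (t := ε * (1 / 2)) (r := 1) k (Or.inr ⟨h1, by linarith⟩)
  simpa [QQ_zero, QQ_inl, S.tg_act h, ka] using this

theorem cc_g5 (hP : GP P) {a b : H} (h : S.act a b) :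
    S.CC P (.inr (a, b, true)) (.inr (a, b, false)) (.inl (S.hv a)) (.inl (S.hv b)) := by
  refine Eventually.of_forall fun ε => ?_
  filter_upwards [self_mem_nhdsWithin] with δ hδ
  have hδ : δ ≠ 0 := hδ
  have hx : (P (S.hv b)).1 - (P (S.hv a)).1 ≠ 0 := sub_ne_zero.2 (hP.1 _ _ h.ne).symm
  have k : ∀ c, 0 < δ * det (P (S.hv a)) (P (S.hv b)) (S.QQ P ε δ (.inr (a, b, c))) := by
    intro c
    have : δ * det (P (S.hv a)) (P (S.hv b)) (S.QQ P ε δ (.inr (a, b, c))) =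
        δ ^ 2 * (((P (S.hv b)).1 - (P (S.hv a)).1) ^ 2 +
          ((P (S.hv b)).2 - (P (S.hv a)).2) ^ 2) := by
      simp [QQ, det, S.tg_act h]
      ring
    rw [this]
    positivity
  exact Dj.of_sep (P (S.hv a)) (P (S.hv b)) δ (k true) (k false) (by simp [QQ_inl, det])
    (by simp [QQ_inl, det, mul_comm])

theorem cc_23 (hP : GP P) {a b b' : H} {c : Bool} (h : S.act a b) (hne : ¬ (b = b' ∧ c = true)) :
    S.CC P (.inl (S.hv b)) (.inr (a, b, true)) (.inr (a, b', c)) (.inl (S.hv a)) := by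
  by_cases e : b = b'
  · subst e
    cases c
    · exact (cc_g3 hP h).swap'
    · exact (hne ⟨rfl, rfl⟩).elim
  · exact (cc_g1 h (off_left hP h.ne (S.tg_ne fun _ k => e k.symm))).swap'

theorem cc_25 (hP : GP P) {a b a' b' : H} {c : Bool} (h : S.act a b) (hne : a' ≠ a) :
    S.CC P (.inl (S.hv b)) (.inr (a, b, true)) (.inr (a', b', c)) (.inl (S.hv a)) := by
  by_cases e : a' = b
  · subst e
    exact (cc_g1 h (off_right hP h.ne (S.tg_ne fun k e => h.asymm (e ▸ k)))).swap'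
  · exact (cc_g1 h (off_far hP h.ne (fun k => hne (S.hv_inj k).symm)
      (fun k => e (S.hv_inj k).symm))).swap'

theorem cc_45 (hP : GP P) {a b b' : H} {c : Bool} (h : S.act a b) (hne : b ≠ b') :
    S.CC P (.inr (a, b, true)) (.inr (a, b, false)) (.inr (a, b', c)) (.inl (S.hv b)) :=
  (cc_g4 h (off_left hP h.ne (S.tg_ne fun _ k => hne k.symm))).swap'

theorem cc_near (hP : GP P) {t : T} {u u' w w' : W ⊕ H × H × Bool} (hu : S.Ed t u u')
    (hw : S.Ed t w w') (h1 : u ≠ w) (h2 : u ≠ w') (h3 : u' ≠ w) (h4 : u' ≠ w')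
    (p : H × H × Bool) (hp : u = .inr p ∨ u' = .inr p)
    (hq : S.pr w = S.hv p.1 ∨ S.pr w' = S.hv p.1) : S.CC P u u' w w' := by
  have inj := S.hv_inj
  rcases hu with ⟨v, i1, i2⟩ | ⟨a, b, i1, i2⟩ | ⟨a, b, c, i1⟩ | ⟨a, b, i1, i2⟩ | ⟨a, b, c, i1, i2⟩
  · simp at hp
  · obtain rfl : (a, b, true) = p := by simpa using hp
    rcases hw with ⟨v', k1, k2⟩ | ⟨a', b', k1, k2⟩ | ⟨a', b', c', k1⟩ | ⟨a', b', k1, k2⟩ |
      ⟨a', b', c', k1, k2⟩ <;> simp only [pr, or_self, inj.eq_iff] at hq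
    · rcases hq with rfl | q
      · exact cc_g1 i1 (off_far hP i1.ne (S.par_ne k1).symm fun e => h2 (congrArg _ e))
      · rw [q]
        exact (cc_g1 i1 (off_far (z := .inl v') hP i1.ne (q ▸ S.par_ne k1)
          fun e => h1 (congrArg _ e))).swap'
    · rcases hq with rfl | rfl
      · exact (k1.1 (k2.trans i2.symm)).elim
      · exact cc_g2 hP i1 k1 fun e => h1 (by rw [e])
    · subst hq
      exact cc_23 hP i1 fun e => h3 (by rw [e.1, e.2])
    · subst hq
      exact (k1.1 (i2.trans k2.symm)).elim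
    · rcases hq with rfl | q
      · exact (k1 i2).elim
      · rw [q]
        exact cc_25 hP i1 fun e => k1 (e ▸ i2)
  · obtain rfl : (a, b, c) = p := by simpa using hp
    rcases hw with ⟨v', k1, k2⟩ | ⟨a', b', k1, k2⟩ | ⟨a', b', c', k1⟩ | ⟨a', b', k1, k2⟩ |
      ⟨a', b', c', k1, k2⟩ <;> simp only [pr, or_self, inj.eq_iff] at hq
    · rcases hq with rfl | q
      · exact (h3 rfl).elim
      · exact (h4 (by rw [q])).elim
    · rcases hq with rfl | rfl
      · exact (h3 rfl).elim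
      · exact (cc_23 hP k1 fun e => h2 (by rw [e.1, e.2])).symm
    · subst hq
      exact (h4 rfl).elim
    · subst hq
      exact (k1.1 (i1.trans k2.symm)).elim
    · rcases hq with rfl | q
      · exact (k1 i1).elim
      · exact (h4 (by rw [q])).elim
  · have hp' : S.hv p.1 = S.hv a := by
      rcases hp with e | e <;> rw [← Sum.inr.inj e]
    rw [hp'] at hq
    have ta : S.ht a ≠ t := fun e => i1.1 (e.trans i2.symm)
    have pa : S.par t (S.hv a) = S.hv b := i2 ▸ i1.2.2.1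
    rcases hw with ⟨v', k1, k2⟩ | ⟨a', b', k1, k2⟩ | ⟨a', b', c', k1⟩ | ⟨a', b', k1, k2⟩ |
      ⟨a', b', c', k1, k2⟩ <;> simp only [pr, or_self, inj.eq_iff] at hq
    · rcases hq with rfl | q
      · rw [pa]
        exact cc_g5 hP i1
      · exact (ta (S.ht_of_par k1 q)).elim
    · rcases hq with rfl | rfl
      · have e : a' = b := inj (by rw [← pa, ← k2, k1.2.1])
        exact (i1.asymm (e ▸ k1)).elim
      · exact (ta k2).elim
    · subst hq
      exact (ta k1).elim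
    · subst hq
      have e : b' = b := inj (by rw [← pa, ← k2, k1.2.2.1])
      exact (h1 (by rw [e])).elim
    · rcases hq with rfl | q
      · rw [pa]
        refine cc_45 hP i1 ?_
        rintro rfl
        cases c'
        · exact h3 rfl
        · exact h1 rfl
      · exact (ta (S.ht_of_par (S.leaf _ _ k1).1 q)).elim
  · obtain rfl : (a, b, c) = p := by simpa using hp
    rcases hw with ⟨v', k1, k2⟩ | ⟨a', b', k1, k2⟩ | ⟨a', b', c', k1⟩ | ⟨a', b', k1, k2⟩ |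
      ⟨a', b', c', k1, k2⟩ <;> simp only [pr, or_self, inj.eq_iff] at hq
    · rcases hq with rfl | q
      · exact (h4 rfl).elim
      · exact (i1 (S.ht_of_par k1 q)).elim
    · rcases hq with rfl | rfl
      · have e : S.par t (S.hv b') = S.hv a' := k2 ▸ k1.2.1
        rw [e]
        exact (cc_25 hP k1 fun e => i1 (by rw [e, k2])).symm
      · exact (i1 k2).elim
    · subst hq
      exact (i1 k1).elim
    · subst hq
      have e : S.par t (S.hv a') = S.hv b' := k2 ▸ k1.2.2.1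
      rw [e]
      refine (cc_45 hP k1 ?_).symm
      rintro rfl
      cases c
      · exact h2 rfl
      · exact h1 rfl
    · rcases hq with rfl | q
      · exact (h4 rfl).elim
      · exact (i1 (S.ht_of_par (S.leaf _ _ k1).1 q)).elim

theorem pr_eq {x y : W ⊕ H × H × Bool} (h : x ≠ y) (e : S.pr x = S.pr y) :
    (∃ p, x = .inr p ∧ S.pr y = S.hv p.1) ∨ ∃ p, y = .inr p ∧ S.pr x = S.hv p.1 := by
  rcases x with x | p
  · rcases y with y | q
    · exact (h (congrArg _ e)).elim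
    · exact Or.inr ⟨q, rfl, e⟩
  · exact Or.inl ⟨p, rfl, e.symm⟩

theorem cc_all (hP : GP P) {t : T} (h : Plane (S.par t) (S.root t) (fun _ => True) P)
    {u u' w w' : W ⊕ H × H × Bool} (hu : S.Ed t u u') (hw : S.Ed t w w')
    (h1 : u ≠ w) (h2 : u ≠ w') (h3 : u' ≠ w) (h4 : u' ≠ w') : S.CC P u u' w w' := by
  have n1 := cc_near hP hu hw h1 h2 h3 h4
  have n2 := fun p hp hq => (cc_near hP hw hu h1.symm h3.symm h2.symm h4.symm p hp hq).symm
  by_cases e1 : S.pr u = S.pr w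
  · rcases pr_eq h1 e1 with ⟨p, a, b⟩ | ⟨p, a, b⟩
    · exact n1 p (Or.inl a) (Or.inl b)
    · exact n2 p (Or.inl a) (Or.inl b)
  by_cases e2 : S.pr u = S.pr w'
  · rcases pr_eq h2 e2 with ⟨p, a, b⟩ | ⟨p, a, b⟩
    · exact n1 p (Or.inl a) (Or.inr b)
    · exact n2 p (Or.inr a) (Or.inl b)
  by_cases e3 : S.pr u' = S.pr w
  · rcases pr_eq h3 e3 with ⟨p, a, b⟩ | ⟨p, a, b⟩
    · exact n1 p (Or.inr a) (Or.inl b)
    · exact n2 p (Or.inl a) (Or.inr b)
  by_cases e4 : S.pr u' = S.pr w'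
  · rcases pr_eq h4 e4 with ⟨p, a, b⟩ | ⟨p, a, b⟩
    · exact n1 p (Or.inr a) (Or.inr b)
    · exact n2 p (Or.inr a) (Or.inr b)
  exact cc_far hP h hu hw e1 e2 e3 e4

end geo

theorem res_yes [Finite W] [Finite T] [Finite H] {P : W → Pt} (hP : GP P)
    (h : ∀ t, Plane (S.par t) (S.root t) (fun _ => True) P) :
    ∃ Q : W ⊕ H × H × Bool → Pt, ∀ t, Plane (S.res.par t) (S.res.root t) (fun _ => True) Q := by
  have key : ∀ᶠ ε in nhdsWithin (0 : ℝ) (Set.Ioi 0), ∀ᶠ δ in nhdsWithin (0 : ℝ) {0}ᶜ,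
      ∀ t, Plane (S.res.par t) (S.res.root t) (fun _ => True) (S.QQ P ε δ) := by
    unfold Plane
    simp only [Filter.eventually_all]
    intro t u w hu hw _ _ h1 h2 h3 h4
    exact cc_all hP (h t) (S.ed t u hu) (S.ed t w hw) h1 h2 h3 h4
  obtain ⟨ε, k⟩ := key.exists
  obtain ⟨δ, k⟩ := k.exists
  exact ⟨_, k⟩

end Pre

end Pool.Agent.P.MP_2989a6_lc
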