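import Pool.Agent.P.MP_2989a6_lc.SepA

/-! The analytic half of the separation bound. -/

namespace Pool.Agent.P.MP_2989a6_lc.SepA

variable {ι : Type} [Fintype ι] [DecidableEq ι]

/-- Signed monomial functions of degree at most `d`. -/
def Mo (ι : Type) [Fintype ι] (d : ℕ) : Set ((ι → ℝ) → ℝ) :=
  {f | ∃ (ε : ℤˣ) (a : ι → ℕ), ∑ i, a i ≤ d ∧ f = fun z => ((ε : ℤ) : ℝ) * ∏ i, z i ^ a i}

omit [DecidableEq ι] in
theorem Mo_mul {d d' : ℕ} : ∀ x ∈ Mo ι d, ∀ y ∈ Mo ι d', x * y ∈ Mo ι (d + d') := by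
  rintro _ ⟨ε, a, ha, rfl⟩ _ ⟨ε', a', ha', rfl⟩
  refine ⟨ε * ε', a + a', ?_, funext fun z => ?_⟩
  · simp only [Pi.add_apply, Finset.sum_add_distrib]; omega
  · simp only [Pi.mul_apply, Pi.add_apply, pow_add, Finset.prod_mul_distrib, Units.val_mul,
      Int.cast_mul]
    ring

omit [DecidableEq ι] in
theorem Mo_mono {d d' : ℕ} (h : d ≤ d') : Mo ι d ⊆ Mo ι d' := by
  rintro _ ⟨ε, a, ha, rfl⟩
  exact ⟨ε, a, ha.trans h, rfl⟩

omit [DecidableEq ι] in
theorem Mo_neg {d : ℕ} : ∀ x ∈ Mo ι d, -x ∈ Mo ι d := by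
  rintro _ ⟨ε, a, ha, rfl⟩
  exact ⟨-ε, a, ha, funext fun z => by simp⟩

omit [DecidableEq ι] in
theorem Mo_one (d : ℕ) : (1 : (ι → ℝ) → ℝ) ∈ Mo ι d :=
  ⟨1, 0, by simp, funext fun z => by simp⟩

theorem prod_pow_single (z : ι → ℝ) (i : ι) (k : ℕ) :
    ∏ j, z j ^ (Pi.single i k : ι → ℕ) j = z i ^ k := by
  rw [Finset.prod_eq_single i (f := fun j => z j ^ (Pi.single i k : ι → ℕ) j)
    (fun j _ hj => by simp [hj]) (by simp), Pi.single_eq_same]

theorem Mo_var (i : ι) : (fun z : ι → ℝ => z i) ∈ Mo ι 1 :=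
  ⟨1, Pi.single i 1, by simp, funext fun z => by simp [prod_pow_single]⟩

omit [DecidableEq ι] in
theorem Nm.continuous {d B : ℕ} {f : (ι → ℝ) → ℝ} (h : Nm (Mo ι d) B f) : Continuous f := by
  induction h with
  | zero B => exact continuous_zero
  | cons ht _ ih =>
    obtain ⟨ε, a, -, rfl⟩ := ht
    refine Continuous.add ?_ ih
    fun_prop

omit [DecidableEq ι] in
theorem Nm.eval {d B : ℕ} {f : (ι → ℝ) → ℝ} (h : Nm (Mo ι d) B f) (s : ℝ) (z : ι → ℝ) :
    Nm (At s z d) B (f z) :=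
  h.map (Pi.evalAddMonoidHom (fun _ : ι → ℝ => ℝ) z) (by
    rintro _ ⟨ε, a, ha, rfl⟩
    exact ⟨ε, 0, a, ha, by simp⟩)

theorem Nm.deriv {d B : ℕ} {f : (ι → ℝ) → ℝ} (h : Nm (Mo ι (d + 1)) B f) (i : ι) :
    ∃ f', Nm (Mo ι d) (B * (d + 1)) f' ∧
      ∀ z, HasDerivAt (fun t => f (Function.update z i t)) (f' z) (z i) := by
  induction h with
  | zero B => exact ⟨0, .zero _, fun z => hasDerivAt_const _ _⟩
  | @cons B t x ht _ ih =>
    obtain ⟨f', h1, h2⟩ := ih
    obtain ⟨ε, a, ha, rfl⟩ := ht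
    have hsum := Finset.add_sum_erase Finset.univ a (Finset.mem_univ i)
    let g : (ι → ℝ) → ℝ := fun z => ((ε : ℤ) : ℝ) * ∏ j, z j ^ Function.update a i (a i - 1) j
    have hg : Nm (Mo ι d) (d + 1) (a i • g) := by
      rcases Nat.eq_zero_or_pos (a i) with h0 | h0
      · rw [h0, zero_smul]; exact .zero _
      · refine (Nm.nsmul (S := Mo ι d) ⟨ε, _, ?_, rfl⟩ (a i)).le (by omega)
        rw [Finset.sum_update_of_mem (Finset.mem_univ i), Finset.sdiff_singleton_eq_erase]
        omega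
    refine ⟨a i • g + f', (hg.add h1).le (le_of_eq (by ring)), fun z => ?_⟩
    refine HasDerivAt.add ?_ (h2 z)
    have e1 : ∀ t, ∏ j, Function.update z i t j ^ a j =
        t ^ a i * ∏ j ∈ Finset.univ.erase i, z j ^ a j := by
      intro t
      rw [← Finset.mul_prod_erase _ _ (Finset.mem_univ i), Function.update_self]
      congr 1
      exact Finset.prod_congr rfl fun j hj => by
        rw [Function.update_of_ne (Finset.ne_of_mem_erase hj)]
    have e2 : ∏ j, z j ^ Function.update a i (a i - 1) j =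
        z i ^ (a i - 1) * ∏ j ∈ Finset.univ.erase i, z j ^ a j := by
      rw [← Finset.mul_prod_erase _ _ (Finset.mem_univ i), Function.update_self]
      congr 1
      exact Finset.prod_congr rfl fun j hj => by
        rw [Function.update_of_ne (Finset.ne_of_mem_erase hj)]
    simp only [e1, g, Pi.smul_apply, e2]
    refine (((hasDerivAt_pow (a i) (z i)).mul_const
      (∏ j ∈ Finset.univ.erase i, z j ^ a j)).const_mul ((ε : ℤ) : ℝ)).congr_deriv ?_
    rw [nsmul_eq_mul]; ring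

/-- A positive quartic is not too small on a bounded set. -/
theorem core {G : (ι → ℝ) → ℝ} {c T : ℕ} (hG : Nm (Mo ι 4) c G) (hc : 1 ≤ c)
    (pos : ∀ z, 0 < G z) (w : ι → ℝ) (hw : ∑ i, w i ^ 6 + 1 ≤ T) :
    1 / (6 * G w) < ((5 ^ Fintype.card ι).factorial *
      (T + (Fintype.card ι * (c * 4) + 6 * c) * (c * 4) ^ (4 * Fintype.card ι + 4)) ^
        5 ^ Fintype.card ι : ℕ) + 1 := by
  have hcont := hG.continuous
  let h : (ι → ℝ) → ℝ := fun z => (T - ∑ i, z i ^ 6) / (6 * G z)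
  have hh : Continuous h :=
    Continuous.div (by fun_prop) (by fun_prop) fun z => (mul_pos (by norm_num) (pos z)).ne'
  have hw0 : 1 / (6 * G w) ≤ h w :=
    div_le_div_of_nonneg_right (by linarith) (mul_pos (by norm_num) (pos w)).le
  have hw1 : 0 < 1 / (6 * G w) := one_div_pos.2 (mul_pos (by norm_num) (pos w))
  have hT : (0 : ℝ) < T := by
    have : 0 ≤ ∑ i, w i ^ 6 := Finset.sum_nonneg fun i _ => by positivity
    linarith
  obtain ⟨z, hz⟩ := hh.exists_forall_ge_of_isBounded w (by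
    refine (Metric.isBounded_closedBall (x := 0) (r := T + 1)).subset fun z hz => ?_
    have h1 : 0 < h z := (hw1.trans_le hw0).trans_le hz
    have h2 : ∑ i, z i ^ 6 < T := by
      have := (div_pos_iff_of_pos_right (mul_pos (by norm_num) (pos z))).1 h1
      linarith
    rw [mem_closedBall_zero_iff, pi_norm_le_iff_of_nonneg (by linarith)]
    intro i
    have h3 : z i ^ 6 ≤ ∑ i, z i ^ 6 :=
      Finset.single_le_sum (f := fun i => z i ^ 6) (fun i _ => by positivity) (Finset.mem_univ i)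
    by_contra h4
    rw [Real.norm_eq_abs, not_le] at h4
    have h5 : |z i| ≤ |z i| ^ 6 := le_self_pow₀ (by linarith) (by norm_num)
    rw [show |z i| ^ 6 = z i ^ 6 from Even.pow_abs (by norm_num) _] at h5
    linarith)
  set s := h z with hs
  have hmin : ∀ v, (T : ℝ) ≤ ∑ i, v i ^ 6 + 6 * s * G v := by
    intro v
    have := (div_le_iff₀ (mul_pos (by norm_num) (pos v))).1 (hz v)
    linarith
  have hval : (T : ℝ) = ∑ i, z i ^ 6 + 6 * s * G z := by
    have : s * (6 * G z) = T - ∑ i, z i ^ 6 :=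
      div_mul_cancel₀ _ (mul_pos (by norm_num) (pos z)).ne'
    linarith
  choose G' hG' hG'' using fun i => Nm.deriv (d := 3) hG i
  have hcrit : ∀ i, z i ^ 5 = s * (-G' i) z := by
    intro i
    have e : ∀ t, ∑ j, Function.update z i t j ^ 6 =
        t ^ 6 + ∑ j ∈ Finset.univ.erase i, z j ^ 6 := by
      intro t
      rw [← Finset.add_sum_erase _ _ (Finset.mem_univ i), Function.update_self]
      congr 1
      exact Finset.sum_congr rfl fun j hj => by
        rw [Function.update_of_ne (Finset.ne_of_mem_erase hj)]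
    have hd := ((hasDerivAt_pow 6 (z i)).add_const (∑ j ∈ Finset.univ.erase i, z j ^ 6)).add
      ((hG'' i z).const_mul (6 * s))
    have hm : IsLocalMin ((fun t => t ^ 6 + ∑ j ∈ Finset.univ.erase i, z j ^ 6) +
        fun t => 6 * s * G (Function.update z i t)) (z i) := by
      refine Filter.Eventually.of_forall fun t => ?_
      simp only [Pi.add_apply, ← e, Function.update_eq_self]
      rw [← hval]
      exact hmin _
    have := hm.hasDerivAt_eq_zero hd
    simp only [Pi.neg_apply]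
    norm_num at this
    linarith
  have hy : ∀ i, Nm (Mo ι 3) (c * 4) (-G' i) := fun i =>
    (hG' i).map (-AddMonoidHom.id _) Mo_neg
  have hY : Nm (Mo ι 4) (Fintype.card ι * (c * 4) + 6 * c)
      (∑ i, (fun z : ι → ℝ => z i) * (-G' i) + ∑ _j : Fin 6, G) := by
    refine Nm.add (Nm.sum _ fun i _ => ?_) ?_
    · simpa using (Nm.atom (Mo_var i)).mul (hy i) Mo_mul
    · simpa using Nm.sum (Finset.univ : Finset (Fin 6)) (f := fun _ => G) fun _ _ => hG
  refine (hw0.trans (hz w)).trans_lt (alg_bound (by omega) (by exact_mod_cast hT.ne')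
    (fun i => (hy i).eval s z) hcrit (hY.eval s z) ?_)
  rw [hval]
  simp only [Pi.add_apply, Finset.sum_apply, Pi.mul_apply, mul_add, Finset.mul_sum,
    Finset.sum_const, Finset.card_univ, Fintype.card_fin, nsmul_eq_mul]
  congr 1
  · refine Finset.sum_congr rfl fun i _ => ?_
    rw [pow_succ, hcrit]; ring
  · simp; ring

end Pool.Agent.P.MP_2989a6_lc.SepA
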