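import Pool.Agent.P.MP_2989a6_lc.Alg
import Pool.Agent.P.MP_2989a6_lc.SepB

/-! A doubly exponential separation bound. -/

namespace Pool.Agent.P.MP_2989a6_lc

open SepA

theorem sep_num (N m : ℕ) (hN : 0 < N) :
    6 * 5 ^ N ≤ 2 ^ (12 * (N + m + 1)) ∧
    12 * (m + 1) * ((5 ^ N) ^ 5 ^ N * (N + 2 + (N * (9 * (m + 1) * 4) + 6 * (9 * (m + 1))) *
      (9 * (m + 1) * 4) ^ (4 * N + 4)) ^ 5 ^ N) ≤ 2 ^ 2 ^ (12 * (N + m + 1)) := by
  set n := N + m + 1 with hn
  set u := 2 ^ n with hu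
  have hnu : n < u := Nat.lt_two_pow_self
  have hu2 : 2 ≤ u := by omega
  have hpow : ∀ a b, a ≤ b → u ^ a ≤ u ^ b := fun a b h => Nat.pow_le_pow_right (by omega) h
  have h2u : ∀ a, 2 ^ a ≤ u ^ a := fun a => Nat.pow_le_pow_left hu2 a
  have hD : 5 ^ N ≤ u ^ 3 := by
    calc 5 ^ N ≤ 8 ^ N := Nat.pow_le_pow_left (by norm_num) _
      _ ≤ 8 ^ n := Nat.pow_le_pow_right (by norm_num) (by omega)
      _ = u ^ 3 := by rw [hu, ← pow_mul, mul_comm, pow_mul]; norm_num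
  have e12 : 2 ^ (12 * n) = u ^ 12 := by rw [hu, ← pow_mul, mul_comm]
  rw [e12]
  constructor
  · calc 6 * 5 ^ N ≤ u ^ 3 * u ^ 3 := Nat.mul_le_mul (le_trans (by norm_num) (h2u 3)) hD
      _ ≤ u ^ 12 := by rw [← pow_add]; exact hpow _ _ (by norm_num)
  · set c := 9 * (m + 1) * 4 with hc
    have hcu : c ≤ u ^ 7 := by
      calc c ≤ 2 ^ 6 * u := by omega
        _ ≤ u ^ 6 * u := Nat.mul_le_mul_right _ (h2u 6)
        _ = u ^ 7 := by ring
    have hB : (N * c + 6 * (9 * (m + 1))) * c ^ (4 * N + 4) ≤ u ^ (64 * n) := by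
      calc (N * c + 6 * (9 * (m + 1))) * c ^ (4 * N + 4)
          ≤ ((N + 2) * c) * c ^ (4 * N + 4) :=
            Nat.mul_le_mul_right _ (by rw [add_mul]; omega)
        _ ≤ (u * u ^ 7) * (u ^ 7) ^ (4 * N + 4) :=
            Nat.mul_le_mul (Nat.mul_le_mul (by omega) hcu) (Nat.pow_le_pow_left hcu _)
        _ = u ^ (8 + 7 * (4 * N + 4)) := by ring_nf
        _ ≤ u ^ (64 * n) := hpow _ _ (by omega)
    have hB' : N + 2 + (N * c + 6 * (9 * (m + 1))) * c ^ (4 * N + 4) ≤ u ^ (65 * n) := by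
      have h1 : u ^ 1 ≤ u ^ (64 * n) := hpow _ _ (by omega)
      calc _ ≤ 2 * u ^ (64 * n) := by rw [pow_one] at h1; omega
        _ ≤ u * u ^ (64 * n) := Nat.mul_le_mul_right _ hu2
        _ = u ^ (64 * n + 1) := by ring
        _ ≤ u ^ (65 * n) := hpow _ _ (by omega)
    have hD1 : 1 ≤ 5 ^ N := Nat.one_le_pow _ _ (by norm_num)
    have hn1 : 1 ≤ n := by omega
    calc _ ≤ (u ^ 4 * u) * ((u ^ (3 * n)) ^ 5 ^ N * (u ^ (65 * n)) ^ 5 ^ N) :=
          Nat.mul_le_mul (Nat.mul_le_mul (le_trans (by norm_num) (h2u 4)) (by omega))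
            (Nat.mul_le_mul (Nat.pow_le_pow_left (hD.trans (hpow _ _ (by omega))) _)
              (Nat.pow_le_pow_left hB' _))
      _ = 2 ^ (n * (5 + 68 * (n * 5 ^ N))) := by rw [pow_mul 2, ← hu]; ring_nf
      _ ≤ 2 ^ u ^ 12 := by
          refine Nat.pow_le_pow_right (by norm_num) ?_
          have h1 : 1 ≤ n * 5 ^ N := Nat.mul_le_mul hn1 hD1
          calc n * (5 + 68 * (n * 5 ^ N)) ≤ u * (2 ^ 7 * (n * 5 ^ N)) :=
                Nat.mul_le_mul hnu.le (by omega)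
            _ ≤ u * (u ^ 7 * (u * u ^ 3)) :=
                Nat.mul_le_mul_left _ (Nat.mul_le_mul (h2u 7) (Nat.mul_le_mul hnu.le hD))
            _ = u ^ 12 := by ring

theorem sep_congr {A : Type} [AddCommMonoid A] {S : Set A} {B : ℕ} {x y : A} (h : Nm S B x)
    (e : y = x) : Nm S B y := e ▸ h

/-- Extension of a finite vector by zero. -/
noncomputable def sepExt {N : ℕ} (v : Fin N → ℝ) : ℕ → ℝ :=
  fun n => if h : n < N then v ⟨n, h⟩ else 0

theorem sep_var {N a : ℕ} (ha : a < N) : (fun v : Fin N → ℝ => sepExt v a) ∈ Mo (Fin N) 1 := by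
  simpa [sepExt, ha] using Mo_var (⟨a, ha⟩ : Fin N)

theorem sep_defect {N : ℕ} {e : ℕ × ℕ × ℕ × ℕ} (he : e.2.1 < N ∧ e.2.2.1 < N ∧ e.2.2.2 < N) :
    Nm (Mo (Fin N) 2) 3 (fun v : Fin N → ℝ => defect (sepExt v) e) := by
  have h1 := sep_var he.1
  have h2 := sep_var he.2.1
  have h3 := Nm.atom (Mo_mono (d' := 2) (by norm_num) (Mo_neg _ (sep_var he.2.2)))
  by_cases h : e.1 = 0
  · have := ((Nm.atom (Mo_mul _ h1 _ h2)).add h3).le (B' := 3) (by norm_num)
    refine sep_congr this (funext fun v => ?_)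
    simp [defect, h, sub_eq_add_neg]
  · have := ((Nm.atom (Mo_mono (d' := 2) (by norm_num) h1)).add
      (Nm.atom (Mo_mono (d' := 2) (by norm_num) h2))).add h3
    refine sep_congr this (funext fun v => ?_)
    simp [defect, h, sub_eq_add_neg]

theorem sep_list {N : ℕ} (E : Eqs) (hE : ∀ e ∈ E, e.2.1 < N ∧ e.2.2.1 < N ∧ e.2.2.2 < N) :
    Nm (Mo (Fin N) 4) (9 * E.length)
      (fun v : Fin N → ℝ => (E.map fun e => defect (sepExt v) e ^ 2).sum) := by
  induction E with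
  | nil => exact .zero _
  | cons e E ih =>
    have h1 := sep_defect (hE e List.mem_cons_self)
    have := ((h1.mul h1 Mo_mul).add (ih fun e he => hE e (List.mem_cons_of_mem _ he))).le
      (B' := 9 * (e :: E).length) (by simp; omega)
    refine sep_congr this (funext fun v => ?_)
    simp [pow_two]

theorem sep : ∃ c : ℕ, ∀ (E : Eqs) (N : ℕ), 0 < N →
    (∀ e ∈ E, e.2.1 < N ∧ e.2.2.1 < N ∧ e.2.2.2 < N) → ∀ (R : ℝ), 2 ≤ R → ∀ z : ℕ → ℝ,
    (∀ i < N, |z i| ≤ R) → |z 0 - 1| * R ^ 2 ^ (c * (N + E.length + 1)) ≤ 1 →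
    (∀ e ∈ E, |defect z e| * R ^ 2 ^ (c * (N + E.length + 1)) ≤ 1) → SolR E := by
  refine ⟨12, fun E N hN hE R hR z hz h0 hd => ?_⟩
  by_contra hsol
  obtain ⟨hn1, hn2⟩ := sep_num N E.length hN
  generalize 2 ^ (12 * (N + E.length + 1)) = k at h0 hd hn1 hn2
  obtain ⟨K, hK⟩ : ∃ K, K = R ^ k := ⟨_, rfl⟩
  rw [← hK] at h0 hd
  let G : (Fin N → ℝ) → ℝ := fun v =>
    (sepExt v 0 - 1) ^ 2 + (E.map fun e => defect (sepExt v) e ^ 2).sum
  have hG : Nm (Mo (Fin N) 4) (9 * (E.length + 1)) G := by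
    have h1 := (Nm.atom (Mo_mono (d' := 2) (by norm_num) (sep_var hN))).add
      (Nm.atom (Mo_neg _ (Mo_one 2)))
    have := ((h1.mul h1 Mo_mul).add (sep_list E hE)).le (B' := 9 * (E.length + 1)) (by omega)
    refine sep_congr this (funext fun v => ?_)
    simp [G, pow_two, sub_eq_add_neg]
  have hpos : ∀ v, 0 < G v := by
    intro v
    have h1 : 0 ≤ (E.map fun e => defect (sepExt v) e ^ 2).sum :=
      List.sum_nonneg fun x hx => by
        obtain ⟨e, -, rfl⟩ := List.mem_map.1 hx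
        exact sq_nonneg _
    have h2 : 0 ≤ (sepExt v 0 - 1) ^ 2 := sq_nonneg _
    by_contra h
    have h3 : G v ≤ 0 := not_lt.1 h
    refine hsol ⟨sepExt v, ?_, fun e he => ?_⟩
    · have : (sepExt v 0 - 1) ^ 2 = 0 := by simp only [G] at h3; linarith
      linarith [pow_eq_zero_iff (two_ne_zero) |>.1 this]
    · have h4 : defect (sepExt v) e ^ 2 ≤ (E.map fun e => defect (sepExt v) e ^ 2).sum :=
        List.single_le_sum (fun x hx => by
          obtain ⟨e, -, rfl⟩ := List.mem_map.1 hx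
          exact sq_nonneg _) _ (List.mem_map.2 ⟨e, he, rfl⟩)
      have : defect (sepExt v) e ^ 2 = 0 :=
        le_antisymm (by simp only [G] at h3; linarith) (sq_nonneg _)
      exact pow_eq_zero_iff (two_ne_zero) |>.1 this
  let w : Fin N → ℝ := fun i => z i
  have hw : ∀ a < N, sepExt w a = z a := fun a ha => by simp [sepExt, ha, w]
  have hK0 : 0 < K := by rw [hK]; positivity
  have hsq : ∀ x : ℝ, |x| * K ≤ 1 → x ^ 2 * K ^ 2 ≤ 1 := by
    intro x hx
    rw [← sq_abs, ← mul_pow]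
    exact pow_le_one₀ (by positivity) hx
  have hGw : G w * K ^ 2 ≤ E.length + 1 := by
    have h1 : (E.map fun e => defect (sepExt w) e ^ 2 * K ^ 2).sum ≤ E.length := by
      have := List.sum_le_card_nsmul (E.map fun e => defect (sepExt w) e ^ 2 * K ^ 2) 1
        (fun x hx => by
          obtain ⟨e, he, rfl⟩ := List.mem_map.1 hx
          have : defect (sepExt w) e = defect z e := by
            simp only [defect, hw _ (hE e he).1, hw _ (hE e he).2.1, hw _ (hE e he).2.2]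
          rw [this]
          exact hsq _ (hd e he))
      simpa using this
    rw [List.sum_map_mul_right] at h1
    have h2 := hsq _ h0
    simp only [G, hw 0 hN, add_mul]
    linarith
  have hR6 : 1 ≤ R ^ 6 := one_le_pow₀ (by linarith)
  have hT1 : ∑ i, w i ^ 6 + 1 ≤ (⌈N * R ^ 6⌉₊ + 1 : ℕ) := by
    have h1 : ∑ i, w i ^ 6 ≤ ∑ _i : Fin N, R ^ 6 := Finset.sum_le_sum fun i _ => by
      rw [← show |w i| ^ 6 = w i ^ 6 from Even.pow_abs (by norm_num) _]
      exact pow_le_pow_left₀ (abs_nonneg _) (hz i i.2) 6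
    have h2 := Nat.le_ceil (N * R ^ 6)
    simp only [Finset.sum_const, Finset.card_univ, Fintype.card_fin, nsmul_eq_mul] at h1
    push_cast
    linarith
  have hT2 : ((⌈N * R ^ 6⌉₊ + 1 : ℕ) : ℝ) ≤ (N + 2) * R ^ 6 := by
    have := Nat.ceil_lt_add_one (a := N * R ^ 6) (by positivity)
    push_cast
    linarith
  have hc := core hG (by omega) hpos w hT1
  rw [Fintype.card_fin] at hc
  have hT0 : 0 < ⌈N * R ^ 6⌉₊ + 1 := Nat.succ_pos _
  generalize ⌈N * R ^ 6⌉₊ + 1 = T at hc hT2 hT0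
  generalize 5 ^ N = D at hc hn1 hn2
  generalize (N * (9 * (E.length + 1) * 4) + 6 * (9 * (E.length + 1))) *
    (9 * (E.length + 1) * 4) ^ (4 * N + 4) = B at hc hn2
  have hH : ((D.factorial * (T + B) ^ D : ℕ) : ℝ) ≤ (D ^ D * (N + 2 + B) ^ D : ℕ) * K := by
    have h1 : ((T + B : ℕ) : ℝ) ≤ (N + 2 + B : ℕ) * R ^ 6 := by
      have : (B : ℝ) ≤ B * R ^ 6 := le_mul_of_one_le_right (by positivity) hR6
      push_cast at hT2 ⊢
      linarith
    have h2 : (D.factorial : ℝ) ≤ (D ^ D : ℕ) := by exact_mod_cast Nat.factorial_le_pow D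
    have h3 : (R ^ 6) ^ D ≤ K := by
      rw [← pow_mul, hK]; exact pow_le_pow_right₀ (by linarith) hn1
    calc ((D.factorial * (T + B) ^ D : ℕ) : ℝ) = D.factorial * ((T + B : ℕ) : ℝ) ^ D := by
          rw [Nat.cast_mul, Nat.cast_pow]
      _ ≤ (D ^ D : ℕ) * ((N + 2 + B : ℕ) * R ^ 6) ^ D := by gcongr
      _ = (D ^ D * (N + 2 + B) ^ D : ℕ) * (R ^ 6) ^ D := by
          rw [mul_pow, Nat.cast_mul, Nat.cast_pow (N + 2 + B), mul_assoc]
      _ ≤ _ := by gcongr
  have hH1 : (1 : ℝ) ≤ (D.factorial * (T + B) ^ D : ℕ) := by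
    have : 0 < D.factorial * (T + B) ^ D :=
      Nat.mul_pos (Nat.factorial_pos _) (Nat.pow_pos (by omega))
    exact_mod_cast this
  have hW : ((12 * (E.length + 1) * (D ^ D * (N + 2 + B) ^ D) : ℕ) : ℝ) ≤ K := by
    calc _ ≤ ((2 ^ k : ℕ) : ℝ) := by exact_mod_cast hn2
      _ ≤ K := by rw [hK]; push_cast; exact pow_le_pow_left₀ (by norm_num) hR k
  rw [Nat.cast_mul] at hW
  generalize ((D.factorial * (T + B) ^ D : ℕ) : ℝ) = H at hc hH hH1
  generalize ((D ^ D * (N + 2 + B) ^ D : ℕ) : ℝ) = W at hH hW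
  push_cast at hW
  rw [div_lt_iff₀ (mul_pos (by norm_num) (hpos w))] at hc
  have h1 : K ^ 2 < (H + 1) * (6 * (G w * K ^ 2)) := by
    have := mul_lt_mul_of_pos_right hc (pow_pos hK0 2)
    linarith
  have h2 : (H + 1) * (6 * (G w * K ^ 2)) ≤ (2 * (W * K)) * (6 * (E.length + 1)) :=
    mul_le_mul (by linarith) (by linarith) (by have := hpos w; positivity) (by linarith)
  have h3 : (12 * (E.length + 1) * W) * K ≤ K * K := mul_le_mul_of_nonneg_right hW hK0.le
  nlinarith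

end Pool.Agent.P.MP_2989a6_lc
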