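import Mathlib

/-! Sums of a bounded number of atoms, and the algebraic half of the separation bound. -/

namespace Pool.Agent.P.MP_2989a6_lc.SepA

open Polynomial

/-- `x` is a sum of at most `B` elements of `S`. -/
inductive Nm {A : Type} [AddCommMonoid A] (S : Set A) : ℕ → A → Prop
  | zero (B : ℕ) : Nm S B 0
  | cons {B : ℕ} {t x : A} : t ∈ S → Nm S B x → Nm S (B + 1) (t + x)

section general

variable {A A' : Type} [AddCommMonoid A] [AddCommMonoid A'] {S : Set A} {S' : Set A'}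

theorem Nm.le {B B' : ℕ} {x : A} (h : Nm S B x) (hB : B ≤ B') : Nm S B' x := by
  induction h generalizing B' with
  | zero => exact .zero _
  | cons ht _ ih =>
    obtain ⟨B'', rfl⟩ : ∃ c, B' = c + 1 := ⟨B' - 1, by omega⟩
    exact .cons ht (ih (by omega))

theorem Nm.atom {t : A} (ht : t ∈ S) : Nm S 1 t := by
  simpa using Nm.cons ht (.zero 0)

theorem Nm.add {B B' : ℕ} {x y : A} (h : Nm S B x) (h' : Nm S B' y) : Nm S (B + B') (x + y) := by
  induction h with
  | zero B => rw [zero_add]; exact h'.le (by omega)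
  | cons ht _ ih => rw [Nat.add_right_comm, add_assoc _ _ y]; exact .cons ht ih

theorem Nm.bind {B B' : ℕ} {x : A} (h : Nm S B x) (φ : A →+ A')
    (hφ : ∀ t ∈ S, Nm S' B' (φ t)) : Nm S' (B * B') (φ x) := by
  induction h with
  | zero B => rw [map_zero]; exact .zero _
  | cons ht _ ih => rw [map_add, add_mul, one_mul, add_comm (_ * _)]; exact (hφ _ ht).add ih

theorem Nm.map {B : ℕ} {x : A} (h : Nm S B x) (φ : A →+ A') (hφ : ∀ t ∈ S, φ t ∈ S') :
    Nm S' B (φ x) := by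
  simpa using h.bind φ fun t ht => Nm.atom (hφ t ht)

theorem Nm.mono {T : Set A} {B : ℕ} {x : A} (h : Nm S B x) (hT : S ⊆ T) : Nm T B x :=
  h.map (AddMonoidHom.id A) hT

theorem Nm.lift {B : ℕ} {x : A} (h : Nm S B x) (φ : A' →+ A) (hφ : ∀ t ∈ S, ∃ y ∈ S', φ y = t) :
    ∃ y, Nm S' B y ∧ φ y = x := by
  induction h with
  | zero B => exact ⟨0, .zero _, map_zero _⟩
  | cons ht _ ih =>
    obtain ⟨y, hy, rfl⟩ := ih
    obtain ⟨y', hy', rfl⟩ := hφ _ ht
    exact ⟨y' + y, .cons hy' hy, map_add _ _ _⟩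

theorem Nm.sum {ι : Type} (s : Finset ι) {B : ℕ} {f : ι → A} (h : ∀ i ∈ s, Nm S B (f i)) :
    Nm S (s.card * B) (∑ i ∈ s, f i) := by
  induction s using Finset.cons_induction with
  | empty => exact .zero _
  | cons a s ha ih =>
    rw [Finset.sum_cons, Finset.card_cons, add_mul, one_mul, add_comm (_ * _)]
    exact (h a (Finset.mem_cons_self _ _)).add (ih fun i hi => h i (Finset.mem_cons_of_mem hi))

theorem Nm.nsmul {t : A} (ht : t ∈ S) (n : ℕ) : Nm S n (n • t) := by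
  induction n with
  | zero => rw [zero_smul]; exact .zero _
  | succ n ih => rw [succ_nsmul']; exact .cons ht ih

end general

section ring

variable {A : Type} [CommRing A]

theorem Nm.mul {S T U : Set A} {B B' : ℕ} {x y : A} (h : Nm S B x) (h' : Nm T B' y)
    (hU : ∀ s ∈ S, ∀ t ∈ T, s * t ∈ U) : Nm U (B * B') (x * y) :=
  h.bind (AddMonoidHom.mulRight y) fun s hs => h'.map (AddMonoidHom.mulLeft s) (hU s hs)

theorem Nm.prod {S : Set A} (h1 : (1 : A) ∈ S) (hS : ∀ s ∈ S, ∀ t ∈ S, s * t ∈ S) {ι : Type}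
    (s : Finset ι) {B : ℕ} {f : ι → A} (h : ∀ i ∈ s, Nm S B (f i)) :
    Nm S (B ^ s.card) (∏ i ∈ s, f i) := by
  induction s using Finset.cons_induction with
  | empty => simpa using Nm.atom h1
  | cons a s ha ih =>
    rw [Finset.prod_cons, Finset.card_cons, pow_succ']
    exact (h a (Finset.mem_cons_self _ _)).mul (ih fun i hi => h i (Finset.mem_cons_of_mem hi)) hS

end ring

/-- Signed powers of the variable. -/
def PX : Set ℤ[X] := {p | ∃ (ε : ℤˣ) (k : ℕ), p = C (ε : ℤ) * X ^ k}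

theorem PX_mul : ∀ s ∈ PX, ∀ t ∈ PX, s * t ∈ PX := by
  rintro _ ⟨ε, k, rfl⟩ _ ⟨ε', k', rfl⟩
  exact ⟨ε * ε', k + k', by rw [Units.val_mul, map_mul]; ring⟩

theorem PX_one : (1 : ℤ[X]) ∈ PX := ⟨1, 0, by simp⟩

theorem coeff_le {H : ℕ} {q : ℤ[X]} (h : Nm PX H q) (i : ℕ) : |q.coeff i| ≤ H := by
  induction h with
  | zero B => simp
  | cons ht _ ih =>
    obtain ⟨ε, k, rfl⟩ := ht
    rw [coeff_add]
    refine (abs_add_le _ _).trans ?_
    have : |(C (ε : ℤ) * X ^ k).coeff i| ≤ 1 := by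
      rw [coeff_C_mul_X_pow]
      split_ifs
      · rcases Int.units_eq_one_or ε with rfl | rfl <;> simp
      · simp
    push_cast
    linarith

theorem root_lt {H : ℕ} {q : ℤ[X]} (h : Nm PX H q) (hq : q ≠ 0) {s : ℝ}
    (hs : eval₂ (Int.castRingHom ℝ) s q = 0) : s < H + 1 := by
  have hinj : Function.Injective (Int.castRingHom ℝ) := Int.cast_injective
  have hq' : q.map (Int.castRingHom ℝ) ≠ 0 := (Polynomial.map_ne_zero_iff hinj).2 hq
  have hr : (q.map (Int.castRingHom ℝ)).IsRoot s := by rwa [IsRoot, eval_map]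
  have h1 := hr.norm_lt_cauchyBound hq'
  have h2 : cauchyBound (q.map (Int.castRingHom ℝ)) ≤ H + 1 := by
    unfold cauchyBound
    gcongr
    have hl : 1 ≤ ‖(q.map (Int.castRingHom ℝ)).leadingCoeff‖₊ := by
      rw [leadingCoeff_map_of_injective hinj, ← NNReal.coe_le_coe]
      have : q.leadingCoeff ≠ 0 := leadingCoeff_ne_zero.2 hq
      simp only [eq_intCast, NNReal.coe_one, coe_nnnorm, Real.norm_eq_abs]
      exact_mod_cast Int.one_le_abs this
    refine (div_le_self (by positivity) hl).trans (Finset.sup_le fun i _ => ?_)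
    rw [← NNReal.coe_le_coe]
    simp only [coeff_map, eq_intCast, coe_nnnorm, Real.norm_eq_abs, NNReal.coe_natCast]
    exact_mod_cast coeff_le h i
  have h3 : ‖s‖ < H + 1 := by exact_mod_cast h1.trans_le h2
  exact (le_abs_self s).trans_lt h3

theorem det_nm {κ : Type} [Fintype κ] [DecidableEq κ] {B : ℕ} (Q : Matrix κ κ ℤ[X])
    (h : ∀ a b, Nm PX B (Q a b)) :
    Nm PX ((Fintype.card κ).factorial * B ^ Fintype.card κ) Q.det := by
  rw [Matrix.det_apply', ← Fintype.card_perm]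
  refine Nm.sum _ fun σ _ => ?_
  have h1 := Nm.prod PX_one PX_mul Finset.univ (f := fun i => Q (σ i) i) fun i _ => h _ _
  have h2 : ((Equiv.Perm.sign σ : ℤ) : ℤ[X]) ∈ PX := ⟨Equiv.Perm.sign σ, 0, by simp⟩
  simpa using (Nm.atom h2).mul h1 PX_mul

section point

variable {ι : Type} [Fintype ι] [DecidableEq ι]

/-- Signed monomials of degree at most `d` in `z`, times powers of `s`. -/
def At (s : ℝ) (z : ι → ℝ) (d : ℕ) : Set ℝ :=
  {x | ∃ (ε : ℤˣ) (k : ℕ) (a : ι → ℕ), ∑ i, a i ≤ d ∧ x = ((ε : ℤ) : ℝ) * s ^ k * ∏ i, z i ^ a i}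

/-- Reduced signed monomials. -/
def Red (s : ℝ) (z : ι → ℝ) : Set ℝ :=
  {x | ∃ (ε : ℤˣ) (k : ℕ) (b : ι → Fin 5), x = ((ε : ℤ) : ℝ) * s ^ k * ∏ i, z i ^ (b i : ℕ)}

variable {s : ℝ} {z : ι → ℝ}

omit [DecidableEq ι] in
theorem At_mul {d d' : ℕ} : ∀ x ∈ At s z d, ∀ y ∈ At s z d', x * y ∈ At s z (d + d') := by
  rintro _ ⟨ε, k, a, ha, rfl⟩ _ ⟨ε', k', a', ha', rfl⟩
  refine ⟨ε * ε', k + k', a + a', ?_, ?_⟩
  · simp only [Pi.add_apply, Finset.sum_add_distrib]; omega
  · simp only [Pi.add_apply, pow_add, Finset.prod_mul_distrib, Units.val_mul, Int.cast_mul]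
    ring

omit [DecidableEq ι] in
theorem At_mono {d d' : ℕ} (h : d ≤ d') : At s z d ⊆ At s z d' := by
  rintro _ ⟨ε, k, a, ha, rfl⟩
  exact ⟨ε, k, a, ha.trans h, rfl⟩

theorem reduce {c : ℕ} (hc : 1 ≤ c) {y : ι → ℝ} (hy : ∀ i, Nm (At s z 3) c (y i))
    (hz : ∀ i, z i ^ 5 = s * y i) (d : ℕ) : ∀ x ∈ At s z d, Nm (Red s z) (c ^ d) x := by
  induction d using Nat.strong_induction_on with
  | _ d ih =>
    rintro _ ⟨ε, k, a, ha, rfl⟩
    by_cases h : ∀ i, a i < 5
    · exact (Nm.atom (S := Red s z) ⟨ε, k, fun i => ⟨a i, h i⟩, rfl⟩).le (Nat.one_le_pow _ _ hc)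
    · push Not at h
      obtain ⟨i, hi⟩ := h
      obtain ⟨a', rfl⟩ : ∃ a' : ι → ℕ, a = a' + (Pi.single i 5 : ι → ℕ) := by
        refine ⟨fun j => a j - (Pi.single i 5 : ι → ℕ) j, funext fun j => ?_⟩
        change a j = a j - (Pi.single i 5 : ι → ℕ) j + (Pi.single i 5 : ι → ℕ) j
        by_cases hj : j = i
        · subst hj; rw [Pi.single_eq_same]; omega
        · rw [Pi.single_eq_of_ne hj]; omega
      simp only [Pi.add_apply, Finset.sum_add_distrib, Finset.sum_pi_single', Finset.mem_univ,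
        if_true] at ha
      have e : ((ε : ℤ) : ℝ) * s ^ k * ∏ j, z j ^ (a' + Pi.single i 5 : ι → ℕ) j =
          (((ε : ℤ) : ℝ) * s ^ (k + 1) * ∏ j, z j ^ a' j) * y i := by
        simp only [Pi.add_apply, pow_add, Finset.prod_mul_distrib]
        rw [Finset.prod_eq_single i (f := fun j => z j ^ (Pi.single i 5 : ι → ℕ) j)
          (fun j _ hj => by simp [hj]) (by simp), Pi.single_eq_same, hz]
        ring
      rw [e]
      have h1 : Nm (At s z (d - 5 + 3)) (1 * c) _ :=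
        (Nm.atom (S := At s z (d - 5)) ⟨ε, k + 1, a', by omega, rfl⟩).mul (hy i) At_mul
      have h2 := h1.bind (AddMonoidHom.id ℝ) (ih (d - 5 + 3) (by omega))
      refine h2.le ?_
      rw [one_mul, ← pow_succ']
      exact Nat.pow_le_pow_right hc (by omega)

/-- The algebraic bound for the parameter at a critical point. -/
theorem alg_bound {c c' T : ℕ} (hc : 1 ≤ c) (hT : T ≠ 0) {y : ι → ℝ}
    (hy : ∀ i, Nm (At s z 3) c (y i)) (hz : ∀ i, z i ^ 5 = s * y i) {Y : ℝ}
    (hY : Nm (At s z 4) c' Y) (hTY : (T : ℝ) = s * Y) :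
    s < ((5 ^ Fintype.card ι).factorial *
      (T + c' * c ^ (4 * Fintype.card ι + 4)) ^ 5 ^ Fintype.card ι : ℕ) + 1 := by
  let κ := ι → Fin 5
  let mon : κ → ℝ := fun b => ∏ i, z i ^ (b i : ℕ)
  let ev : ℤ[X] →+* ℝ := eval₂RingHom (Int.castRingHom ℝ) s
  have hX : ev X = s := by simp [ev]
  let φ : (κ → ℤ[X]) →+ ℝ :=
    { toFun := fun v => ∑ b, ev (v b) * mon b
      map_zero' := by simp
      map_add' := fun v w => by simp [add_mul, Finset.sum_add_distrib] }
  let S' : Set (κ → ℤ[X]) := {v | ∃ b, ∃ p ∈ PX, v = Pi.single b p}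
  have hrow : ∀ a : κ, ∃ v : κ → ℤ[X],
      (∀ b, Nm PX (c' * c ^ (4 * Fintype.card ι + 4)) (v b)) ∧ φ v = mon a * Y := by
    intro a
    have ha : mon a ∈ At s z (4 * Fintype.card ι) := by
      refine ⟨1, 0, fun i => a i, ?_, by simp [mon]⟩
      calc ∑ i, (a i : ℕ) ≤ ∑ _i : ι, 4 := Finset.sum_le_sum fun i _ => by omega
        _ = _ := by simp [mul_comm]
    have h1 := ((Nm.atom ha).mul hY At_mul).bind (AddMonoidHom.id ℝ) (reduce hc hy hz _)
    rw [one_mul] at h1
    obtain ⟨v, hv, hv'⟩ := h1.lift (S' := S') φ (by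
      rintro _ ⟨ε, k, b, rfl⟩
      refine ⟨_, ⟨b, _, ⟨ε, k, rfl⟩, rfl⟩, ?_⟩
      change ∑ b', ev ((Pi.single b _ : κ → ℤ[X]) b') * mon b' = _
      rw [Finset.sum_eq_single b (fun b' _ hb => by simp [hb]) (by simp), Pi.single_eq_same,
        map_mul, map_pow, hX, eq_intCast, map_intCast])
    refine ⟨v, fun b => ?_, hv'⟩
    have := hv.bind (S' := PX) (B' := 1) (Pi.evalAddMonoidHom (fun _ : κ => ℤ[X]) b) (by
      rintro _ ⟨b', p, hp, rfl⟩
      by_cases hb : b = b'
      · subst hb; simpa using Nm.atom hp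
      · simpa [hb] using Nm.zero (S := PX) 1)
    simpa using this
  choose V hV hV' using hrow
  let Q : Matrix κ κ ℤ[X] := fun a b => (if a = b then (T : ℤ[X]) else 0) + -X * V a b
  have hQ : ∀ a b, Nm PX (T + c' * c ^ (4 * Fintype.card ι + 4)) (Q a b) := by
    intro a b
    refine Nm.add ?_ ?_
    · split_ifs
      · simpa using Nm.nsmul PX_one T
      · exact .zero _
    · have : (-X : ℤ[X]) ∈ PX := ⟨-1, 1, by simp⟩
      simpa using (Nm.atom this).mul (hV a b) PX_mul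
  have hdet := det_nm Q hQ
  have hcard : Fintype.card κ = 5 ^ Fintype.card ι := by simp [κ]
  rw [hcard] at hdet
  refine root_lt hdet (fun h0 => ?_) ?_
  · have h1 := (evalRingHom (0 : ℤ)).map_det Q
    have h2 : (evalRingHom (0 : ℤ)).mapMatrix Q = Matrix.diagonal fun _ => (T : ℤ) := by
      ext a b
      change evalRingHom (0 : ℤ) ((if a = b then (T : ℤ[X]) else 0) + -X * V a b) = _
      by_cases hab : a = b <;> simp [hab]
    rw [h0, map_zero, h2, Matrix.det_diagonal, Finset.prod_const] at h1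
    exact pow_ne_zero _ (by exact_mod_cast hT) h1.symm
  · change ev Q.det = 0
    rw [ev.map_det, ← Matrix.exists_mulVec_eq_zero_iff]
    refine ⟨mon, fun h0 => ?_, funext fun a => ?_⟩
    · have := congrFun h0 fun _ => 0
      simp [mon] at this
    · have h1 : ∑ b, ev (V a b) * mon b = mon a * Y := hV' a
      have h2 : ∀ b, ev (Q a b) * mon b =
          (if a = b then T * mon b else 0) - s * (ev (V a b) * mon b) := by
        intro b
        by_cases hab : a = b <;> simp [Q, hab, ev] <;> ring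
      change ∑ b, ev (Q a b) * mon b = 0
      simp only [h2, Finset.sum_sub_distrib, ← Finset.mul_sum, h1, Finset.sum_ite_eq,
        Finset.mem_univ, if_true, hTY]
      ring

end point

end Pool.Agent.P.MP_2989a6_lc.SepA
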