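import Pool.Agent.P.MP_2989a6_lc.Resolve

/-! The interface of the constant frame. -/

namespace Pool.Agent.P.MP_2989a6_lc

/-- Corners (counterclockwise) of the five triangular rooms. -/
def corner : Fin 5 → Fin 3 → ℤ × ℤ :=
  ![![(0, 30), (30, 0), (24, 24)], ![(0, 0), (30, 0), (0, 30)], ![(30, 0), (60, 0), (40, 20)],
    ![(0, 30), (20, 40), (0, 60)], ![(24, 24), (40, 20), (20, 40)]]

def zp (a : ℤ × ℤ) : Pt := (a.1, a.2)

def InRoom (r : Fin 5) (p : Pt) : Prop :=
  0 < det (zp (corner r 0)) (zp (corner r 1)) p ∧ 0 < det (zp (corner r 1)) (zp (corner r 2)) p ∧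
    0 < det (zp (corner r 2)) (zp (corner r 0)) p

/-- The five lines through the four centres. -/
def phi (a b c d p : Pt) : Fin 5 → ℝ := ![det a b p, det c a p, det d a p, det b c p, det b d p]

/-- The sides of the five lines on which the rooms lie. -/
def pat : Fin 5 → Fin 5 → Bool :=
  ![![true, true, true, true, true], ![false, true, true, true, true],
    ![true, true, true, false, false], ![true, false, false, true, true],
    ![true, true, false, false, true]]

/-- The centres are in convex position and every point `Q i` lies on the right sides. -/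
def Good {ι : Type} (ρ : ι → Fin 5) (a b c d : Pt) (Q : ι → Pt) : Prop :=
  0 < det a b c ∧ 0 < det a b d ∧ 0 < det a d c ∧ 0 < det b d c ∧
    ∀ i k, if pat (ρ i) k then 0 < phi a b c d (Q i) k else phi a b c d (Q i) k < 0

def refl (p : Pt) : Pt := (p.1, -p.2)

/-- A frame tree extended by stars to further vertices with prescribed rooms. -/
def epar {V T H ι : Type} (S : Pre V T H) (att : T → Fin 5 → H) (ρ : ι → Fin 5) (t : T) :
    V ⊕ ι → V ⊕ ι :=
  Sum.elim (fun v => .inl (S.par t v)) fun i => .inl (S.hv (att t (ρ i)))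

def Sound {V T H U : Type} (S : Pre V T H) (att : T → Fin 5 → H) (ctr : U → Fin 4 → V) : Prop :=
  ∀ (ι : Type) (ρ : ι → Fin 5) (P : V ⊕ ι → Pt), GP P →
    (∀ t, Plane (epar S att ρ t) (.inl (S.root t)) (Sum.elim (S.Keep t) fun _ => True) P) →
    ∃ u, ∃ f : Pt → Pt, (f = id ∨ f = refl) ∧
      Good ρ (f (P (.inl (ctr u 0)))) (f (P (.inl (ctr u 1)))) (f (P (.inl (ctr u 2))))
        (f (P (.inl (ctr u 3)))) fun i => f (P (.inr i))

def Complete {V T H : Type} (S : Pre V T H) (att : T → Fin 5 → H) : Prop :=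
  ∀ (ι : Type) [Finite ι] (ρ : ι → Fin 5) (Q : ι → Pt), (∀ i, InRoom (ρ i) (Q i)) →
    ∃ P : V → Pt, ∀ t, Plane (epar S att ρ t) (.inl (S.root t)) (fun _ => True) (Sum.elim P Q)

structure Frame where
  V : Type
  T : Type
  H : Type
  U : Type
  [fV : Fintype V]
  [fT : Fintype T]
  [fH : Fintype H]
  [fU : Fintype U]
  S : Pre V T H
  att : T → Fin 5 → H
  att_ht : ∀ t r, S.ht (att t r) = t
  ctr : U → Fin 4 → V
  ctr_nh : ∀ u k h, S.hv h ≠ ctr u k
  sound : Sound S att ctr
  complete : Complete S att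

attribute [instance] Frame.fV Frame.fT Frame.fH Frame.fU

end Pool.Agent.P.MP_2989a6_lc
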